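import Pool.Agent.Lib.MP_743d1e_nt.Spec2

/-!
# SPAN: up to torsion and symbols with constants, the `g` symbols span `symU`
-/

namespace MP743d1e

open scoped BigOperators

namespace Span

/-! ### Generalities on `K2` -/

section Gen

variable {F : Type} [Field F]

theorem mk_rel {z : FreeAbelianGroup (Fˣ × Fˣ)} (hz : z ∈ relSet F) :
    QuotientAddGroup.mk' (AddSubgroup.closure (relSet F)) z = 0 :=
  (QuotientAddGroup.eq_zero_iff z).mpr (AddSubgroup.subset_closure hz)

theorem sml (f f' g : Fˣ) : sym (f * f') g = sym f g + sym f' g := by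
  have := mk_rel (z := FreeAbelianGroup.of (f * f', g) - FreeAbelianGroup.of (f, g)
      - FreeAbelianGroup.of (f', g)) (Or.inl (Or.inl ⟨f, f', g, rfl⟩))
  rw [map_sub, map_sub, sub_sub, sub_eq_zero] at this
  exact this

theorem smr (f g g' : Fˣ) : sym f (g * g') = sym f g + sym f g' := by
  have := mk_rel (z := FreeAbelianGroup.of (f, g * g') - FreeAbelianGroup.of (f, g)
      - FreeAbelianGroup.of (f, g')) (Or.inl (Or.inr ⟨f, g, g', rfl⟩))
  rw [map_sub, map_sub, sub_sub, sub_eq_zero] at this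
  exact this

theorem sst (f g : Fˣ) (h : (f : F) + (g : F) = 1) : sym f g = 0 :=
  mk_rel (z := FreeAbelianGroup.of (f, g)) (Or.inr ⟨f, g, h, rfl⟩)

theorem s1l (g : Fˣ) : sym (1 : Fˣ) g = 0 := by
  have := sml (1 : Fˣ) 1 g
  rw [mul_one] at this
  simpa using this

theorem s1r (f : Fˣ) : sym f (1 : Fˣ) = 0 := by
  have := smr f 1 1
  rw [mul_one] at this
  simpa using this

theorem sil (f g : Fˣ) : sym f⁻¹ g = - sym f g := by
  have := sml f⁻¹ f g
  rw [inv_mul_cancel, s1l] at this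
  exact eq_neg_of_add_eq_zero_left this.symm

theorem sir (f g : Fˣ) : sym f g⁻¹ = - sym f g := by
  have := smr f g⁻¹ g
  rw [inv_mul_cancel, s1r] at this
  exact eq_neg_of_add_eq_zero_left this.symm

theorem sdl (f f' g : Fˣ) : sym (f / f') g = sym f g - sym f' g := by
  rw [div_eq_mul_inv, sml, sil, sub_eq_add_neg]

theorem sdr (f g g' : Fˣ) : sym f (g / g') = sym f g - sym f g' := by
  rw [div_eq_mul_inv, smr, sir, sub_eq_add_neg]

theorem s_neg_self (f : Fˣ) : sym f (-f) = 0 := by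
  by_cases hf : (f : F) = 1
  · have : f = 1 := Units.ext (by simpa using hf)
    rw [this]; exact s1l _
  · have hf0 : (f : F) ≠ 0 := f.ne_zero
    have h1 : (1 : F) - f ≠ 0 := by
      intro h; apply hf; linear_combination -h
    have h2 : (1 : F) - (f : F)⁻¹ ≠ 0 := by
      intro h; apply hf
      have h3 : (f : F)⁻¹ = 1 := by linear_combination -h
      rw [inv_eq_one] at h3
      exact h3
    have e : -f = Units.mk0 _ h1 / Units.mk0 _ h2 := by
      apply Units.ext
      rw [Units.val_div_eq_div_val, Units.val_neg, Units.val_mk0, Units.val_mk0]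
      rw [eq_div_iff h2]
      field_simp
      ring
    rw [e, sdr, sst f (Units.mk0 _ h1) (by rw [Units.val_mk0]; ring), zero_sub, ← sil,
      sst f⁻¹ (Units.mk0 _ h2) (by rw [Units.val_mk0, Units.val_inv_eq_inv_val]; ring)]

theorem s_self (f : Fˣ) : sym f f = sym f (-1) := by
  calc sym f f = sym f ((-1) * (-f)) := by simp
    _ = sym f (-1) := by rw [smr, s_neg_self, add_zero]

theorem s_two (f : Fˣ) : sym f (-1) + sym f (-1) = 0 := by
  rw [← smr]
  simp [s1r]

theorem s_anti (f g : Fˣ) : sym f g + sym g f = 0 := by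
  have h := s_neg_self (f * g)
  rw [sml] at h
  have e1 : -(f * g) = (-f) * g := by simp
  have e2 : -(f * g) = (-g) * f := by rw [neg_mul, mul_comm g f]
  rw [e1, smr, ← e1, e2, smr, s_neg_self, s_neg_self] at h
  simpa using h

end Gen

/-! ### The lines -/

section Lines

variable {K : Type} [Field K] [Algebra ℚ K] {D : Arr} {lam : ℤ} {x y : K}

/-- The vertical lines. -/
noncomputable def X (h : IsCurve ℚ K D lam x y) (i : Fin D.m) : Kˣ :=
  Units.mk0 (x - (D.a i : K)) (K2Main.int_ne h _)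

/-- The other lines. -/
noncomputable def Y (h : IsCurve ℚ K D lam x y) (j : Fin D.n) : Kˣ :=
  Units.mk0 (y - D.b j x) (K2Main.line_ne h j)

/-- Another vertical function. -/
noncomputable def R (h : IsCurve ℚ K D lam x y) (s : ℤ) : Kˣ :=
  Units.mk0 (x - (s : K)) (K2Main.int_ne h s)

/-- The nonzero constants. -/
noncomputable def cst (K : Type) [Field K] [Algebra ℚ K] (c : ℚ) (hc : c ≠ 0) : Kˣ :=
  Units.mk0 (algebraMap ℚ K c) (by
    rw [Ne, map_eq_zero]
    exact hc)

theorem X_mem (h : IsCurve ℚ K D lam x y) (i : Fin D.m) : X h i ∈ unitsU K D x y :=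
  Subgroup.subset_closure (Or.inl (Or.inr ⟨i, rfl⟩))

theorem Y_mem (h : IsCurve ℚ K D lam x y) (j : Fin D.n) : Y h j ∈ unitsU K D x y :=
  Subgroup.subset_closure (Or.inr ⟨j, rfl⟩)

theorem cst_mem (c : ℚ) (hc : c ≠ 0) : cst K c hc ∈ unitsU K D x y :=
  Subgroup.subset_closure (Or.inl (Or.inl ⟨c, rfl⟩))

theorem sym_mem {u w : Kˣ} (hu : u ∈ unitsU K D x y) (hw : w ∈ unitsU K D x y) :
    sym u w ∈ symU K D x y :=
  AddSubgroup.subset_closure ⟨u, hu, w, hw, rfl⟩

theorem inl_eq (h : IsCurve ℚ K D lam x y) (z) :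
    sym (K2Main.uu h (Sum.inl z)) (K2Main.ww h (Sum.inl z)) =
      sym (X h z.1.1 / X h (K2Main.i0 D)) (Y h z.1.2 / Y h (K2Main.j0 D)) := by
  have e1 : K2Main.uu h (Sum.inl z) = X h z.1.1 / X h (K2Main.i0 D) := by
    apply Units.ext
    rw [Units.val_div_eq_div_val]
    rfl
  have e2 : K2Main.ww h (Sum.inl z) = Y h z.1.2 / Y h (K2Main.j0 D) := by
    apply Units.ext
    rw [Units.val_div_eq_div_val]
    rfl
  rw [e1, e2]

theorem cast_ne {j l : Fin D.n} (hp : D.p j ≠ D.p l) : ((D.p j - D.p l : ℤ) : ℚ) ≠ 0 := by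
  rw [Ne, Int.cast_eq_zero, sub_eq_zero]
  exact hp

theorem R_eq (h : IsCurve ℚ K D lam x y) {j l : Fin D.n} (hp : D.p j ≠ D.p l) :
    sym (R h (D.r j l)) (Y h j / Y h l) =
      sym (Y h l) (Y h j / Y h l) - sym (cst K _ (cast_ne hp)) (Y h j / Y h l) := by
  have hY := K2Main.line_ne h l
  have key : sym (cst K _ (cast_ne hp) * R h (D.r j l) / Y h l) (Y h j / Y h l) = 0 := by
    apply sst
    rw [Units.val_div_eq_div_val, Units.val_div_eq_div_val, Units.val_mul]
    show algebraMap ℚ K ((D.p j - D.p l : ℤ) : ℚ) * (x - (D.r j l : K)) / (y - D.b l x) +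
      (y - D.b j x) / (y - D.b l x) = 1
    rw [← add_div, div_eq_one_iff_eq hY, map_intCast]
    have hc : (D.p j : K) * (D.r j l : K) + (D.q j : K) =
        (D.p l : K) * (D.r j l : K) + (D.q l : K) := by
      exact_mod_cast congrArg (Int.cast : ℤ → K) (D.cross j l hp)
    unfold Arr.b
    push_cast
    linear_combination -hc
  rw [sdl, sml] at key
  rw [← sub_eq_zero]
  rw [← key]
  abel

theorem inr_eq (h : IsCurve ℚ K D lam x y) (z) :
    sym (K2Main.uu h (Sum.inr z)) (K2Main.ww h (Sum.inr z)) =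
      sym (Y h z.1.2) (Y h z.1.1 / Y h z.1.2) -
        sym (cst K _ (cast_ne z.2.2)) (Y h z.1.1 / Y h z.1.2) -
        sym (X h (K2Main.i0 D)) (Y h z.1.1 / Y h z.1.2) := by
  have e1 : K2Main.uu h (Sum.inr z) = R h (D.r z.1.1 z.1.2) / X h (K2Main.i0 D) := by
    apply Units.ext
    rw [Units.val_div_eq_div_val]
    rfl
  have e2 : K2Main.ww h (Sum.inr z) = Y h z.1.1 / Y h z.1.2 := by
    apply Units.ext
    rw [Units.val_div_eq_div_val]
    rfl
  rw [e1, e2, sdl, R_eq h z.2.2]

/-- The symbols belong to `symU`. -/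
theorem mem_symU (h : IsCurve ℚ K D lam x y) (i : K2Main.Idx D) :
    sym (K2Main.uu h i) (K2Main.ww h i) ∈ symU K D x y := by
  rcases i with z | z
  · rw [inl_eq]
    exact sym_mem (div_mem (X_mem h _) (X_mem h _)) (div_mem (Y_mem h _) (Y_mem h _))
  · rw [inr_eq]
    refine sub_mem (sub_mem ?_ ?_) ?_
    · exact sym_mem (Y_mem h _) (div_mem (Y_mem h _) (Y_mem h _))
    · exact sym_mem (cst_mem _ _) (div_mem (Y_mem h _) (Y_mem h _))
    · exact sym_mem (X_mem h _) (div_mem (Y_mem h _) (Y_mem h _))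

end Lines

/-! ### Vanishing in a torsion free quotient -/

section Vanish

variable {K : Type} [Field K] [Algebra ℚ K] {D : Arr} {lam : ℤ} {x y : K}
  (h : IsCurve ℚ K D lam x y) {G : Type} [AddCommGroup G]
  (tf : ∀ (n : ℕ) (g : G), 0 < n → n • g = 0 → g = 0) (φ : K2 K →+ G)
  (hM : ∀ i, φ (sym (K2Main.uu h i) (K2Main.ww h i)) = 0)
  (hC : ∀ c w : Kˣ, (∃ r : ℚ, (c : K) = algebraMap ℚ K r) → w ∈ unitsU K D x y →
    φ (sym c w) = 0)

omit [Algebra ℚ K] in
theorem anti (u w : Kˣ) : φ (sym u w) = - φ (sym w u) := by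
  have := congrArg φ (s_anti u w)
  rw [map_add, map_zero] at this
  exact eq_neg_of_add_eq_zero_left this

omit [Algebra ℚ K] in
include tf in
theorem self0 (u : Kˣ) : φ (sym u u) = 0 := by
  apply tf 2 _ (by norm_num)
  rw [s_self, two_nsmul, ← map_add, s_two, map_zero]

include hC in
theorem hC2 (c w : Kˣ) (hc : ∃ r : ℚ, (c : K) = algebraMap ℚ K r) (hw : w ∈ unitsU K D x y) :
    φ (sym w c) = 0 := by
  rw [anti, hC c w hc hw, neg_zero]

include hC in
theorem par (L L' : Kˣ) (hL : L ∈ unitsU K D x y) (hL' : L' ∈ unitsU K D x y) (c : ℚ)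
    (hc : c ≠ 0) (e : (L : K) - L' = algebraMap ℚ K c) : φ (sym L L') = 0 := by
  have hcc : (cst K c hc : K) = algebraMap ℚ K c := rfl
  have hc0 : (cst K c hc : K) ≠ 0 := Units.ne_zero _
  have key : sym (L / cst K c hc) ((-1) * L' / cst K c hc) = 0 := by
    apply sst
    rw [Units.val_div_eq_div_val, Units.val_div_eq_div_val, Units.val_mul, Units.val_neg,
      Units.val_one, ← add_div, div_eq_one_iff_eq hc0, hcc, ← e]
    ring
  have hm1 : ∃ r : ℚ, (((-1 : Kˣ)) : K) = algebraMap ℚ K r := ⟨-1, by simp⟩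
  have hLc : L / cst K c hc ∈ unitsU K D x y := div_mem hL (cst_mem c hc)
  have key2 := congrArg φ key
  rw [sdr, smr, map_sub, map_add, hC2 φ hC _ _ hm1 hLc, hC2 φ hC _ _ ⟨c, hcc⟩ hLc, sdl, map_sub,
    hC _ _ ⟨c, hcc⟩ hL', map_zero] at key2
  simpa using key2

omit [Algebra ℚ K] in
theorem prod_right {ι : Type} (L : Kˣ) (s : Finset ι) (f : ι → Kˣ) :
    φ (sym L (∏ i ∈ s, f i)) = ∑ i ∈ s, φ (sym L (f i)) := by
  classical
  induction s using Finset.induction_on with
  | empty => simp [s1r]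
  | insert a s ha ih => rw [Finset.prod_insert ha, Finset.sum_insert ha, smr, map_add, ih]

include hC in
theorem total (L : Kˣ) (hL : L ∈ unitsU K D x y) :
    ∑ i, φ (sym L (X h i)) + ∑ j, φ (sym L (Y h j)) = 0 := by
  have hlam : (lam : ℚ) ≠ 0 := by
    intro h0
    have h1 := h.eqn
    have h2 : lam = 0 := by exact_mod_cast h0
    rw [h2] at h1
    simp at h1
  have e : cst K (lam : ℚ) hlam * (∏ i, X h i) * (∏ j, Y h j) = 1 := by
    apply Units.ext
    rw [Units.val_mul, Units.val_mul, Units.coe_prod, Units.coe_prod, Units.val_one]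
    have := h.eqn
    have hl : (cst K (lam : ℚ) hlam : K) = (lam : K) := by
      show algebraMap ℚ K (lam : ℚ) = _
      rw [map_intCast]
    rw [hl]
    exact this
  have key := congrArg (fun w => φ (sym L w)) e
  simp only [smr, map_add, s1r, map_zero, prod_right] at key
  rw [hC2 φ hC _ _ ⟨(lam : ℚ), rfl⟩ hL, zero_add] at key
  exact key

include hM in
theorem c1 (i : Fin D.m) (j : Fin D.n) : φ (sym (X h i) (Y h j)) =
    φ (sym (X h (K2Main.i0 D)) (Y h j)) + φ (sym (X h i) (Y h (K2Main.j0 D))) -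
      φ (sym (X h (K2Main.i0 D)) (Y h (K2Main.j0 D))) := by
  by_cases hi : i.val = 0
  · have : i = K2Main.i0 D := Fin.ext hi
    rw [this]; abel
  by_cases hj : j.val = 0
  · have : j = K2Main.j0 D := Fin.ext hj
    rw [this]; abel
  have key := hM (Sum.inl ⟨(i, j), hi, hj⟩)
  rw [inl_eq, sdl, sdr, sdr] at key
  simp only [map_sub] at key
  rw [← sub_eq_zero]
  rw [← key]
  abel

include hM hC tf in
theorem c2 (j l : Fin D.n) (hp : D.p j ≠ D.p l) : φ (sym (Y h l) (Y h j)) =
    φ (sym (X h (K2Main.i0 D)) (Y h j)) - φ (sym (X h (K2Main.i0 D)) (Y h l)) := by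
  have main : ∀ j l : Fin D.n, j < l → D.p j ≠ D.p l → φ (sym (Y h l) (Y h j)) =
      φ (sym (X h (K2Main.i0 D)) (Y h j)) - φ (sym (X h (K2Main.i0 D)) (Y h l)) := by
    intro j l hjl hp
    have key0 := hM (Sum.inr ⟨(j, l), hjl, hp⟩)
    rw [inr_eq] at key0
    have key : φ (sym (Y h l) (Y h j / Y h l) - sym (cst K _ (cast_ne hp)) (Y h j / Y h l) -
        sym (X h (K2Main.i0 D)) (Y h j / Y h l)) = 0 := key0
    have e3 := hC (cst K _ (cast_ne hp)) (Y h j / Y h l) ⟨_, rfl⟩ (div_mem (Y_mem h _) (Y_mem h _))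
    rw [map_sub, map_sub, e3, sub_zero, sdr, sdr, map_sub, map_sub, self0 tf φ, sub_zero] at key
    exact sub_eq_zero.mp key
  have hjl : j ≠ l := fun e => hp (by rw [e])
  rcases lt_or_gt_of_ne hjl with hlt | hgt
  · exact main j l hlt hp
  · rw [anti, main l j hgt (Ne.symm hp)]
    abel

include hC tf in
theorem XX (i i' : Fin D.m) : φ (sym (X h i) (X h i')) = 0 := by
  by_cases hii : i = i'
  · rw [hii]; exact self0 tf φ _
  · have hne : ((D.a i' - D.a i : ℤ) : ℚ) ≠ 0 := by
      rw [Ne, Int.cast_eq_zero, sub_eq_zero]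
      exact fun e => hii (D.a_inj e).symm
    apply par φ hC _ _ (X_mem h i) (X_mem h i') _ hne
    rw [map_intCast]
    show (x - (D.a i : K)) - (x - (D.a i' : K)) = _
    push_cast
    ring

include hC tf in
theorem YY (l j : Fin D.n) (hp : D.p j = D.p l) : φ (sym (Y h l) (Y h j)) = 0 := by
  by_cases hlj : l = j
  · rw [hlj]; exact self0 tf φ _
  · have hne : ((D.q j - D.q l : ℤ) : ℚ) ≠ 0 := by
      rw [Ne, Int.cast_eq_zero, sub_eq_zero]
      exact fun e => hlj (D.line_inj l j hp.symm e.symm)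
    apply par φ hC _ _ (Y_mem h l) (Y_mem h j) _ hne
    rw [map_intCast]
    show (y - D.b l x) - (y - D.b j x) = _
    unfold Arr.b
    rw [hp]
    push_cast
    ring

/-- The integer matrix of the linear system. -/
def mat (D : Arr) : Matrix (Fin D.n) (Fin D.n) ℤ := Matrix.of fun l j =>
  (if l = j then (D.m : ℤ) + ∑ j', (if D.p j' = D.p l then 0 else 1) else 0) -
    (if D.p j = D.p l then 0 else 1)

theorem mat_det (D : Arr) : (mat D).det ≠ 0 := by
  intro h0
  have h1 : ((mat D).map (Int.cast : ℤ → ℝ)).det ≠ 0 := by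
    apply det_ne_zero_of_sum_row_lt_diag
    intro l
    have e1 : ∀ j ∈ Finset.univ.erase l, ‖((mat D).map (Int.cast : ℤ → ℝ)) l j‖ =
        (if D.p j = D.p l then (0 : ℝ) else 1) := by
      intro j hj
      have hne : l ≠ j := (Finset.ne_of_mem_erase hj).symm
      simp only [Matrix.map_apply, mat, Matrix.of_apply, if_neg hne]
      split_ifs <;> simp
    rw [Finset.sum_congr rfl e1]
    have e2 : ∑ j ∈ Finset.univ.erase l, (if D.p j = D.p l then (0 : ℝ) else 1) ≤
        ∑ j, (if D.p j = D.p l then (0 : ℝ) else 1) :=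
      Finset.sum_le_sum_of_subset_of_nonneg (Finset.erase_subset _ _) (by
        intro i _ _
        split_ifs <;> norm_num)
    have e3 : ((mat D).map (Int.cast : ℤ → ℝ)) l l =
        (D.m : ℝ) + ∑ j, (if D.p j = D.p l then (0 : ℝ) else 1) := by
      simp only [Matrix.map_apply, mat, Matrix.of_apply, if_true]
      push_cast
      simp
    have e4 : (0 : ℝ) < D.m := by exact_mod_cast D.hm
    rw [e3]
    refine lt_of_lt_of_le ?_ (le_abs_self _)
    linarith
  apply h1
  have h2 : ((mat D).map (Int.cast : ℤ → ℝ)) = (Int.castRingHom ℝ).mapMatrix (mat D) := rfl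
  rw [h2, ← RingHom.map_det, h0, map_zero]

include tf in
theorem linsys (z : Fin D.n → G) (hz : ∀ l, ∑ j, mat D l j • z j = 0) (k : Fin D.n) : z k = 0 := by
  have h1 : (mat D).det • z k = 0 := by
    calc (mat D).det • z k = ∑ j, ((mat D).det • (1 : Matrix (Fin D.n) (Fin D.n) ℤ)) k j • z j := by
          rw [Finset.sum_eq_single k]
          · simp
          · intro j _ hj
            rw [Matrix.smul_apply, Matrix.one_apply_ne hj.symm, smul_zero, zero_smul]
          · intro hk
            exact absurd (Finset.mem_univ k) hk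
      _ = ∑ j, ((mat D).adjugate * mat D) k j • z j := by rw [Matrix.adjugate_mul]
      _ = ∑ j, ∑ l, (mat D).adjugate k l • (mat D l j • z j) := by
          refine Finset.sum_congr rfl fun j _ => ?_
          rw [Matrix.mul_apply, Finset.sum_smul]
          refine Finset.sum_congr rfl fun l _ => ?_
          rw [mul_smul]
      _ = ∑ l, (mat D).adjugate k l • ∑ j, mat D l j • z j := by
          rw [Finset.sum_comm]
          refine Finset.sum_congr rfl fun l _ => ?_
          rw [Finset.smul_sum]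
      _ = 0 := by
          refine Finset.sum_eq_zero fun l _ => ?_
          rw [hz l, smul_zero]
  have h2 : (mat D).det.natAbs • z k = 0 := by
    rcases Int.natAbs_eq (mat D).det with h3 | h3
    · rw [h3] at h1
      rw [natCast_zsmul] at h1
      exact h1
    · rw [h3, neg_smul, natCast_zsmul, neg_eq_zero] at h1
      exact h1
  exact tf _ _ (Int.natAbs_pos.mpr (mat_det D)) h2

include hM hC tf in
theorem tzero (i : Fin D.m) : φ (sym (X h i) (Y h (K2Main.j0 D))) =
    φ (sym (X h (K2Main.i0 D)) (Y h (K2Main.j0 D))) := by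
  have e : ∀ i, ∑ j, φ (sym (X h i) (Y h j)) = 0 := by
    intro i
    have := total h φ hC (X h i) (X_mem h i)
    rw [Finset.sum_eq_zero (fun i' _ => XX h tf φ hC i i'), zero_add] at this
    exact this
  have e0 := e (K2Main.i0 D)
  have e1 := e i
  have e2 : ∑ j, φ (sym (X h i) (Y h j)) = ∑ j, φ (sym (X h (K2Main.i0 D)) (Y h j)) +
      D.n • (φ (sym (X h i) (Y h (K2Main.j0 D))) -
        φ (sym (X h (K2Main.i0 D)) (Y h (K2Main.j0 D)))) := by
    rw [Finset.sum_congr rfl fun j _ => c1 h φ hM i j]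
    simp only [add_sub_assoc, Finset.sum_add_distrib, Finset.sum_const, Finset.card_univ,
      Fintype.card_fin]
  rw [e1, e0, zero_add] at e2
  have := tf _ _ (lt_of_lt_of_le (by norm_num) D.hn) e2.symm
  exact sub_eq_zero.mp this

include hM hC tf in
theorem XY0 (i : Fin D.m) (j : Fin D.n) : φ (sym (X h i) (Y h j)) =
    φ (sym (X h (K2Main.i0 D)) (Y h j)) := by
  rw [c1 h φ hM i j, tzero h tf φ hM hC i]
  abel

include hM hC tf in
theorem zzero (k : Fin D.n) : φ (sym (X h (K2Main.i0 D)) (Y h k)) = 0 := by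
  apply linsys tf (fun k => φ (sym (X h (K2Main.i0 D)) (Y h k)))
  intro l
  have key := total h φ hC (Y h l) (Y_mem h l)
  have e1 : ∑ i, φ (sym (Y h l) (X h i)) = -((D.m : ℤ) • φ (sym (X h (K2Main.i0 D)) (Y h l))) := by
    rw [Finset.sum_congr rfl fun i _ => by
      rw [anti φ (Y h l) (X h i), XY0 h tf φ hM hC i l]]
    rw [Finset.sum_const, Finset.card_univ, Fintype.card_fin, smul_neg, natCast_zsmul]
  have e2 : ∀ j, φ (sym (Y h l) (Y h j)) = (if D.p j = D.p l then (0 : ℤ) else 1) •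
      φ (sym (X h (K2Main.i0 D)) (Y h j)) - (if D.p j = D.p l then (0 : ℤ) else 1) •
      φ (sym (X h (K2Main.i0 D)) (Y h l)) := by
    intro j
    split_ifs with hp
    · rw [YY h tf φ hC l j hp]; simp
    · rw [c2 h tf φ hM hC j l hp]; simp
  rw [e1, Finset.sum_congr rfl fun j _ => e2 j, Finset.sum_sub_distrib, ← Finset.sum_smul] at key
  have e3 : ∀ j, mat D l j • φ (sym (X h (K2Main.i0 D)) (Y h j)) =
      (if l = j then ((D.m : ℤ) + ∑ j', (if D.p j' = D.p l then (0 : ℤ) else 1)) •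
        φ (sym (X h (K2Main.i0 D)) (Y h j)) else 0) -
      (if D.p j = D.p l then (0 : ℤ) else 1) • φ (sym (X h (K2Main.i0 D)) (Y h j)) := by
    intro j
    rw [mat, Matrix.of_apply, sub_smul]
    split_ifs <;> simp
  show ∑ j, mat D l j • φ (sym (X h (K2Main.i0 D)) (Y h j)) = 0
  rw [Finset.sum_congr rfl fun j _ => e3 j, Finset.sum_sub_distrib, Finset.sum_ite_eq,
    if_pos (Finset.mem_univ l), add_smul]
  generalize (∑ j, (if D.p j = D.p l then (0 : ℤ) else 1) •
    φ (sym (X h (K2Main.i0 D)) (Y h j))) = A at key ⊢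
  generalize (∑ j', (if D.p j' = D.p l then (0 : ℤ) else 1)) •
    φ (sym (X h (K2Main.i0 D)) (Y h l)) = B at key ⊢
  rw [← neg_eq_zero, ← key]
  abel

include hM hC tf in
/-- All symbols of elements of `unitsU` vanish. -/
theorem vanish (u w : Kˣ) (hu : u ∈ unitsU K D x y) (hw : w ∈ unitsU K D x y) :
    φ (sym u w) = 0 := by
  -- symbols of generators
  have gen : ∀ u ∈ ({u | ∃ c : ℚ, (u : K) = algebraMap ℚ K c} ∪
      {u | ∃ i, (u : K) = x - (D.a i : K)} ∪ {u | ∃ j, (u : K) = y - D.b j x} : Set Kˣ),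
      ∀ w ∈ ({u | ∃ c : ℚ, (u : K) = algebraMap ℚ K c} ∪
      {u | ∃ i, (u : K) = x - (D.a i : K)} ∪ {u | ∃ j, (u : K) = y - D.b j x} : Set Kˣ),
      φ (sym u w) = 0 := by
    intro u hu w hw
    have huU : u ∈ unitsU K D x y := Subgroup.subset_closure hu
    have hwU : w ∈ unitsU K D x y := Subgroup.subset_closure hw
    rcases hu with (hu | ⟨i, hi⟩) | ⟨j, hj⟩
    · exact hC u w hu hwU
    · have eu : u = X h i := Units.ext hi
      rcases hw with (hw | ⟨i', hi'⟩) | ⟨j', hj'⟩
      · exact hC2 φ hC w u hw huU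
      · have ew : w = X h i' := Units.ext hi'
        rw [eu, ew]; exact XX h tf φ hC i i'
      · have ew : w = Y h j' := Units.ext hj'
        rw [eu, ew, XY0 h tf φ hM hC, zzero h tf φ hM hC]
    · have eu : u = Y h j := Units.ext hj
      rcases hw with (hw | ⟨i', hi'⟩) | ⟨j', hj'⟩
      · exact hC2 φ hC w u hw huU
      · have ew : w = X h i' := Units.ext hi'
        rw [eu, ew, anti, XY0 h tf φ hM hC, zzero h tf φ hM hC, neg_zero]
      · have ew : w = Y h j' := Units.ext hj'
        rw [eu, ew]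
        by_cases hp : D.p j' = D.p j
        · exact YY h tf φ hC j j' hp
        · rw [c2 h tf φ hM hC j' j hp, zzero h tf φ hM hC, zzero h tf φ hM hC, sub_zero]
  have step : ∀ u ∈ ({u | ∃ c : ℚ, (u : K) = algebraMap ℚ K c} ∪
      {u | ∃ i, (u : K) = x - (D.a i : K)} ∪ {u | ∃ j, (u : K) = y - D.b j x} : Set Kˣ),
      ∀ w ∈ unitsU K D x y, φ (sym u w) = 0 := by
    intro u hu w hw
    induction hw using Subgroup.closure_induction with
    | mem w hw => exact gen u hu w hw
    | one => rw [s1r, map_zero]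
    | mul a b _ _ ha hb => rw [smr, map_add, ha, hb, add_zero]
    | inv a _ ha => rw [sir, map_neg, ha, neg_zero]
  induction hu using Subgroup.closure_induction with
  | mem u hu => exact step u hu w hw
  | one => rw [s1l, map_zero]
  | mul a b _ _ ha hb => rw [sml, map_add, ha, hb, add_zero]
  | inv a _ ha => rw [sil, map_neg, ha, neg_zero]

end Vanish

/-- The saturation of a subgroup. -/
def sat {A : Type} [AddCommGroup A] (M : AddSubgroup A) : AddSubgroup A where
  carrier := {β | ∃ N : ℕ, 0 < N ∧ N • β ∈ M}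
  zero_mem' := ⟨1, one_pos, by simp⟩
  add_mem' := by
    rintro a b ⟨N, hN, ha⟩ ⟨N', hN', hb⟩
    refine ⟨N * N', Nat.mul_pos hN hN', ?_⟩
    rw [smul_add]
    refine add_mem ?_ ?_
    · rw [mul_comm, mul_smul]
      exact nsmul_mem ha _
    · rw [mul_smul]
      exact nsmul_mem hb _
  neg_mem' := by
    rintro a ⟨N, hN, ha⟩
    refine ⟨N, hN, ?_⟩
    rw [smul_neg]
    exact neg_mem ha

end Span

open _root_.MP743d1e.Span in
/-- SPAN. -/
theorem specSpan : SpecSpan := by
  intro K _ _ D lam x y h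
  refine ⟨mem_symU h, ?_⟩
  set M : AddSubgroup (K2 K) :=
    AddSubgroup.closure (Set.range fun i => sym (K2Main.uu h i) (K2Main.ww h i)) ⊔
        symC K D x y with hMdef
  have hzero : ∀ β : K2 K, QuotientAddGroup.mk' (sat M) β = 0 ↔ ∃ N : ℕ, 0 < N ∧ N • β ∈ M :=
    fun β => QuotientAddGroup.eq_zero_iff β
  have tf : ∀ (n : ℕ) (g : K2 K ⧸ sat M), 0 < n → n • g = 0 → g = 0 := by
    intro n g hn hg
    obtain ⟨β, rfl⟩ := QuotientAddGroup.mk'_surjective (sat M) g
    rw [← map_nsmul, hzero] at hg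
    rw [hzero]
    obtain ⟨N, hN, hN'⟩ := hg
    refine ⟨N * n, Nat.mul_pos hN hn, ?_⟩
    rw [mul_smul]
    exact hN'
  have hle : ∀ β ∈ M, QuotientAddGroup.mk' (sat M) β = 0 := fun β hβ =>
    (hzero β).mpr ⟨1, one_pos, by rwa [one_smul]⟩
  have hM' : ∀ i, QuotientAddGroup.mk' (sat M) (sym (K2Main.uu h i) (K2Main.ww h i)) = 0 :=
    fun i => hle _ ((le_sup_left : _ ≤ M) (AddSubgroup.subset_closure ⟨i, rfl⟩))
  have hC' : ∀ c w : Kˣ, (∃ r : ℚ, (c : K) = algebraMap ℚ K r) → w ∈ unitsU K D x y →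
      QuotientAddGroup.mk' (sat M) (sym c w) = 0 := fun c w hc hw =>
    hle _ ((le_sup_right : _ ≤ M) (AddSubgroup.subset_closure ⟨c, hc, w, hw, rfl⟩))
  intro β hβ
  rw [← hzero]
  unfold symU at hβ
  induction hβ using AddSubgroup.closure_induction with
  | mem z hz =>
    obtain ⟨u, hu, w, hw, rfl⟩ := hz
    exact vanish h tf _ hM' hC' u w hu hw
  | zero => rw [map_zero]
  | add a b _ _ ha hb => rw [map_add, ha, hb, add_zero]
  | neg a _ ha => rw [map_neg, ha, neg_zero]

end MP743d1e
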