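import Pool.Agent.Lib.MP_743d1e_nt.Spec2

/-!
# Module CONST: an unramified element of `symC` is torsion
-/

namespace MP743d1e

open scoped BigOperators

namespace ConstM

section Gen

variable {F : Type} [Field F]

theorem sym_mul_left (f f' g : Fˣ) : sym (f * f') g = sym f g + sym f' g := by
  have h : (QuotientAddGroup.mk' (AddSubgroup.closure (relSet F)))
      (FreeAbelianGroup.of (f * f', g) - FreeAbelianGroup.of (f, g)
        - FreeAbelianGroup.of (f', g)) = 0 := by
    rw [QuotientAddGroup.mk'_apply, QuotientAddGroup.eq_zero_iff]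
    exact AddSubgroup.subset_closure (Or.inl (Or.inl ⟨f, f', g, rfl⟩))
  rw [map_sub, map_sub, sub_sub, sub_eq_zero] at h
  exact h

theorem sym_mul_right (f g g' : Fˣ) : sym f (g * g') = sym f g + sym f g' := by
  have h : (QuotientAddGroup.mk' (AddSubgroup.closure (relSet F)))
      (FreeAbelianGroup.of (f, g * g') - FreeAbelianGroup.of (f, g)
        - FreeAbelianGroup.of (f, g')) = 0 := by
    rw [QuotientAddGroup.mk'_apply, QuotientAddGroup.eq_zero_iff]
    exact AddSubgroup.subset_closure (Or.inl (Or.inr ⟨f, g, g', rfl⟩))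
  rw [map_sub, map_sub, sub_sub, sub_eq_zero] at h
  exact h

theorem sym_steinberg (f g : Fˣ) (hfg : (f : F) + (g : F) = 1) : sym f g = 0 := by
  show (QuotientAddGroup.mk' (AddSubgroup.closure (relSet F))) (FreeAbelianGroup.of (f, g)) = 0
  rw [QuotientAddGroup.mk'_apply, QuotientAddGroup.eq_zero_iff]
  exact AddSubgroup.subset_closure (Or.inr ⟨f, g, hfg, rfl⟩)

theorem sym_one_left (g : Fˣ) : sym (1 : Fˣ) g = 0 := by
  have h := sym_mul_left (1 : Fˣ) 1 g
  rw [one_mul] at h
  simpa using h

theorem sym_one_right (f : Fˣ) : sym f (1 : Fˣ) = 0 := by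
  have h := sym_mul_right f (1 : Fˣ) 1
  rw [one_mul] at h
  simpa using h

theorem sym_inv_left (f g : Fˣ) : sym f⁻¹ g = -sym f g := by
  have h := sym_mul_left f f⁻¹ g
  rw [mul_inv_cancel, sym_one_left] at h
  exact (neg_eq_of_add_eq_zero_right h.symm).symm

/-- functoriality for a homomorphism of fields -/
noncomputable def mapK {E : Type} [Field E] (φ : E →+* F) : K2 E →+ K2 F :=
  K2.lift (fun f g => sym (Units.map (φ : E →* F) f) (Units.map (φ : E →* F) g))
    (fun f f' g => by rw [map_mul, sym_mul_left])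
    (fun f g g' => by rw [map_mul, sym_mul_right])
    (fun f g h => by
      apply sym_steinberg
      have h2 := congrArg φ h
      rw [map_add, map_one] at h2
      exact h2)

theorem mapK_sym {E : Type} [Field E] (φ : E →+* F) (f g : Eˣ) :
    mapK φ (sym f g) = sym (Units.map (φ : E →* F) f) (Units.map (φ : E →* F) g) :=
  K2.lift_sym _ _ _ _ f g

end Gen

section Main

variable {K : Type} [Field K] [Algebra ℚ K]

/-- the unit of a rational number (one for the number zero) -/
noncomputable def cu (K : Type) [Field K] [Algebra ℚ K] (c : ℚ) : Kˣ :=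
  if h : c = 0 then 1 else
    Units.mk0 (algebraMap ℚ K c) ((map_ne_zero (algebraMap ℚ K)).2 h)

theorem cu_val {c : ℚ} (h : c ≠ 0) : (cu K c : K) = algebraMap ℚ K c := by
  unfold cu
  rw [dif_neg h]
  rfl

theorem cu_mul {c d : ℚ} (hc : c ≠ 0) (hd : d ≠ 0) : cu K (c * d) = cu K c * cu K d := by
  apply Units.ext
  rw [Units.val_mul, cu_val hc, cu_val hd, cu_val (mul_ne_zero hc hd), map_mul]

theorem cu_one : cu K 1 = 1 := by
  apply Units.ext
  rw [cu_val one_ne_zero, map_one, Units.val_one]

theorem cu_inv {c : ℚ} (hc : c ≠ 0) : cu K c⁻¹ = (cu K c)⁻¹ := by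
  rw [eq_inv_iff_mul_eq_one, ← cu_mul (inv_ne_zero hc) hc, inv_mul_cancel₀ hc, cu_one]

/-- the elements `z` such that `2 z` is a sum of symbols `{p, W p}` over the primes -/
def good (U : Subgroup Kˣ) : AddSubgroup (K2 K) where
  carrier := {z | ∃ (W : ℕ → Kˣ) (N : ℕ), (∀ p, N ≤ p → W p = 1) ∧ (∀ p, ¬ p.Prime → W p = 1) ∧
    (∀ p, W p ∈ U) ∧ 2 • z = ∑ p ∈ Finset.range N, sym (cu K p) (W p)}
  zero_mem' := ⟨fun _ => 1, 0, fun _ _ => rfl, fun _ _ => rfl, fun _ => one_mem _, by simp⟩
  add_mem' := by
    rintro z z' ⟨W, N, h1, h2, h3, h4⟩ ⟨W', N', h1', h2', h3', h4'⟩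
    refine ⟨fun p => W p * W' p, max N N', ?_, ?_, ?_, ?_⟩
    · intro p hp
      show W p * W' p = 1
      rw [h1 p (le_trans (le_max_left _ _) hp), h1' p (le_trans (le_max_right _ _) hp), one_mul]
    · intro p hp
      show W p * W' p = 1
      rw [h2 p hp, h2' p hp, one_mul]
    · intro p
      exact mul_mem (h3 p) (h3' p)
    · have e1 : ∑ p ∈ Finset.range N, sym (cu K p) (W p) =
          ∑ p ∈ Finset.range (max N N'), sym (cu K p) (W p) := by
        apply Finset.sum_subset
        · exact Finset.range_subset_range.2 (le_max_left _ _)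
        · intro p _ hp
          rw [h1 p (by simpa using hp), sym_one_right]
      have e2 : ∑ p ∈ Finset.range N', sym (cu K p) (W' p) =
          ∑ p ∈ Finset.range (max N N'), sym (cu K p) (W' p) := by
        apply Finset.sum_subset
        · exact Finset.range_subset_range.2 (le_max_right _ _)
        · intro p _ hp
          rw [h1' p (by simpa using hp), sym_one_right]
      rw [nsmul_add, h4, h4', e1, e2, ← Finset.sum_add_distrib]
      apply Finset.sum_congr rfl
      intro p _
      rw [sym_mul_right]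
  neg_mem' := by
    rintro z ⟨W, N, h1, h2, h3, h4⟩
    refine ⟨fun p => (W p)⁻¹, N, ?_, ?_, ?_, ?_⟩
    · intro p hp
      show (W p)⁻¹ = 1
      rw [h1 p hp, inv_one]
    · intro p hp
      show (W p)⁻¹ = 1
      rw [h2 p hp, inv_one]
    · intro p
      exact inv_mem (h3 p)
    · rw [neg_nsmul, h4, ← Finset.sum_neg_distrib]
      apply Finset.sum_congr rfl
      intro p _
      have h := sym_mul_right (cu K p) (W p) (W p)⁻¹
      rw [mul_inv_cancel, sym_one_right] at h
      exact neg_eq_of_add_eq_zero_right h.symm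

/-- the units `u` with `{u, w}` good for all `w` -/
def goodU (U : Subgroup Kˣ) : Subgroup Kˣ where
  carrier := {u | ∀ w ∈ U, sym u w ∈ good U}
  one_mem' := by
    intro w _
    rw [sym_one_left]
    exact zero_mem _
  mul_mem' := by
    intro u u' h h' w hw
    rw [sym_mul_left]
    exact add_mem (h w hw) (h' w hw)
  inv_mem' := by
    intro u h w hw
    rw [sym_inv_left]
    exact neg_mem (h w hw)

theorem neg_one_mem (U : Subgroup Kˣ) : cu K (-1) ∈ goodU U := by
  intro w hw
  refine ⟨fun _ => 1, 0, fun _ _ => rfl, fun _ _ => rfl, fun _ => one_mem _, ?_⟩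
  rw [Finset.range_zero, Finset.sum_empty, two_nsmul, ← sym_mul_left,
    ← cu_mul (by norm_num) (by norm_num)]
  norm_num
  rw [cu_one, sym_one_left]

theorem prime_mem (U : Subgroup Kˣ) {p : ℕ} (hp : p.Prime) : cu K (p : ℚ) ∈ goodU U := by
  intro w hw
  refine ⟨fun q => if q = p then w * w else 1, p + 1, ?_, ?_, ?_, ?_⟩
  · intro q hq
    have : q ≠ p := by omega
    simp [this]
  · intro q hq
    have : q ≠ p := by
      rintro rfl
      exact hq hp
    simp [this]
  · intro q
    by_cases h : q = p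
    · simp only [if_pos h]
      exact mul_mem hw hw
    · simp only [if_neg h]
      exact one_mem _
  · rw [Finset.sum_eq_single p]
    · simp only [if_true]
      rw [sym_mul_right, two_nsmul]
    · intro q _ hq
      simp only [if_neg hq]
      exact sym_one_right _
    · intro h
      exact absurd (Finset.mem_range.2 (Nat.lt_succ_self p)) h

theorem nat_mem (U : Subgroup Kˣ) (n : ℕ) : n ≠ 0 → cu K (n : ℚ) ∈ goodU U := by
  induction n using Nat.recOnMul with
  | zero => exact fun h => absurd rfl h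
  | one =>
    intro _
    rw [Nat.cast_one, cu_one]
    exact one_mem _
  | prime p hp => exact fun _ => prime_mem U hp
  | mul a b ha hb =>
    intro hab
    have ha0 : a ≠ 0 := fun h => hab (by rw [h, zero_mul])
    have hb0 : b ≠ 0 := fun h => hab (by rw [h, mul_zero])
    rw [Nat.cast_mul, cu_mul (Nat.cast_ne_zero.2 ha0) (Nat.cast_ne_zero.2 hb0)]
    exact mul_mem (ha ha0) (hb hb0)

theorem rat_mem (U : Subgroup Kˣ) {c : ℚ} (hc : c ≠ 0) : cu K c ∈ goodU U := by
  have hnum : c.num ≠ 0 := Rat.num_ne_zero.2 hc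
  have hn : c.num.natAbs ≠ 0 := Int.natAbs_ne_zero.2 hnum
  have hd : c.den ≠ 0 := c.den_nz
  have hdq : (c.den : ℚ) ≠ 0 := Nat.cast_ne_zero.2 hd
  have hnq : (c.num.natAbs : ℚ) ≠ 0 := Nat.cast_ne_zero.2 hn
  have e : c = (c.num : ℚ) * (c.den : ℚ)⁻¹ := by
    rw [← div_eq_mul_inv]
    exact (Rat.num_div_den c).symm
  have h1 : cu K (c.num : ℚ) ∈ goodU U := by
    rcases Int.natAbs_eq c.num with h | h
    · rw [h, Int.cast_natCast]
      exact nat_mem U _ hn
    · have h2 : (c.num : ℚ) = (-1) * (c.num.natAbs : ℚ) := by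
        nth_rw 1 [h]
        rw [Int.cast_neg, Int.cast_natCast, neg_one_mul]
      rw [h2, cu_mul (by norm_num) hnq]
      exact mul_mem (neg_one_mem U) (nat_mem U _ hn)
  rw [e, cu_mul (by exact_mod_cast hnum) (inv_ne_zero hdq), cu_inv hdq]
  exact mul_mem h1 (inv_mem (nat_mem U _ hd))

theorem symC_le (D : Arr) (x y : K) : symC K D x y ≤ good (unitsU K D x y) := by
  unfold symC
  rw [AddSubgroup.closure_le]
  rintro _ ⟨u, ⟨c, hc⟩, w, hw, rfl⟩
  have hc0 : c ≠ 0 := by
    rintro rfl
    rw [map_zero] at hc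
    exact u.ne_zero hc
  have e : u = cu K c := Units.ext (by rw [cu_val hc0, hc])
  rw [e]
  exact rat_mem _ hc0 w hw

/-- a product of powers of different primes is one only if all the exponents vanish -/
theorem exps_zero (N : ℕ) (e : ℕ → ℤ)
    (h : ∏ p ∈ (Finset.range N).filter Nat.Prime, ((p : ℕ) : ℚ) ^ e p = 1) (q : ℕ)
    (hq : q.Prime) (hqN : q < N) : e q = 0 := by
  have : Fact q.Prime := ⟨hq⟩
  have h1 := congrArg (padicValRat q) h
  have h2 : ∀ s : Finset ℕ, (∀ p ∈ s, p.Prime) →
      padicValRat q (∏ p ∈ s, ((p : ℕ) : ℚ) ^ e p) = ∑ p ∈ s, (if p = q then e p else 0) := by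
    intro s hs
    induction s using Finset.induction_on with
    | empty => simp
    | insert a s ha ih =>
      have hap : a.Prime := hs a (Finset.mem_insert_self _ _)
      have ha0 : (a : ℚ) ≠ 0 := Nat.cast_ne_zero.2 hap.ne_zero
      have : Fact a.Prime := ⟨hap⟩
      rw [Finset.prod_insert ha, Finset.sum_insert ha, padicValRat.mul (zpow_ne_zero _ ha0)
        (Finset.prod_ne_zero_iff.2 fun p hp => zpow_ne_zero _
          (Nat.cast_ne_zero.2 (hs p (Finset.mem_insert_of_mem hp)).ne_zero)),
        ih fun p hp => hs p (Finset.mem_insert_of_mem hp), padicValRat.zpow]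
      congr 1
      by_cases haq : a = q
      · subst haq
        rw [if_pos rfl, padicValRat.self hap.one_lt, mul_one]
      · rw [if_neg haq, padicValRat.of_nat,
          padicValNat_primes (p := q) (q := a) (fun h => haq h.symm)]
        simp
  rw [h2 _ (fun p hp => (Finset.mem_filter.1 hp).2), padicValRat.one, Finset.sum_eq_single q] at h1
  · simpa using h1
  · intro b _ hb
    exact if_neg hb
  · intro hne
    exact absurd (Finset.mem_filter.2 ⟨Finset.mem_range.2 hqN, hq⟩) hne

end Main

end ConstM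

open ConstM

theorem specConst (hK : SpecK2Q) (hP : SpecPlace) (hA : SpecAlgCl) (hI : SpecIrr) :
    SpecConst := by
  intro K _ _ D lam x y hC β hβ hv
  have hlam : lam ≠ 0 := K2Main.lam_ne hC
  have hfin := ((hI ℚ D lam hlam).2 K x y hC).2.1
  obtain ⟨W, N, h1, h2, h3, h4⟩ := symC_le D x y hβ
  -- the valuations of the functions `W q` vanish
  have hord : ∀ v : DVal K,
      (∀ c : Kˣ, (∃ r : ℚ, (c : K) = algebraMap ℚ K r) → v.ord c = 0) →
      ∀ q, v.ord (W q) = 0 := by
    intro v hv0 q
    by_cases hqp : q.Prime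
    swap
    · rw [h2 q hqp, v.ord_one]
    by_cases hqN : q < N
    swap
    · rw [h1 q (not_lt.1 hqN), v.ord_one]
    have hcu : ∀ c : ℚ, v.ord (cu K c) = 0 := by
      intro c
      by_cases hc : c = 0
      · have : cu K c = 1 := by
          unfold cu
          rw [dif_pos hc]
        rw [this, v.ord_one]
      · exact hv0 _ ⟨c, cu_val hc⟩
    have ht : tame v (2 • β) = 0 := by
      have hk : β ∈ (tame v).ker := AddMonoidHom.mem_ker.2 (hv v)
      exact AddMonoidHom.mem_ker.1 (AddSubgroup.nsmul_mem _ hk 2)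
    rw [h4, map_sum] at ht
    have e1 : ∀ p ∈ Finset.range N, tame v (sym (cu K (p : ℚ)) (W p)) =
        Additive.ofMul (QuotientGroup.mk (s := v.U1)
          (if p.Prime then (cu K (p : ℚ)) ^ v.ord (W p) else 1)) := by
      intro p _
      rw [tame_sym]
      by_cases hp : p.Prime
      · rw [if_pos hp]
        unfold DVal.tameUnit
        rw [hcu]
        simp
      · rw [if_neg hp, h2 p hp]
        unfold DVal.tameUnit
        rw [hcu, v.ord_one]
        simp
    rw [Finset.sum_congr rfl e1] at ht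
    have e2 : (QuotientGroup.mk (s := v.U1) (∏ p ∈ Finset.range N,
        (if p.Prime then (cu K (p : ℚ)) ^ v.ord (W p) else 1)) : Kˣ ⧸ v.U1) = 1 := by
      have h5 := map_prod (QuotientGroup.mk' v.U1) (fun p : ℕ =>
        (if p.Prime then (cu K (p : ℚ)) ^ v.ord (W p) else 1)) (Finset.range N)
      have h6 : Additive.toMul (∑ p ∈ Finset.range N, Additive.ofMul (QuotientGroup.mk (s := v.U1)
          (if p.Prime then (cu K (p : ℚ)) ^ v.ord (W p) else 1))) = 1 := by
        rw [ht]; rfl
      rw [toMul_sum] at h6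
      exact h5.trans h6
    rw [QuotientGroup.eq_one_iff, DVal.mem_U1] at e2
    -- the product is a constant
    have e3 : ((∏ p ∈ Finset.range N,
        (if p.Prime then (cu K (p : ℚ)) ^ v.ord (W p) else 1) : Kˣ) : K) =
        algebraMap ℚ K (∏ p ∈ (Finset.range N).filter Nat.Prime, ((p : ℕ) : ℚ) ^ v.ord (W p)) := by
      rw [Units.coe_prod, Finset.prod_filter, map_prod]
      apply Finset.prod_congr rfl
      intro p _
      by_cases hp : p.Prime
      · rw [if_pos hp, if_pos hp, Units.val_zpow_eq_zpow_val, map_zpow₀,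
          cu_val (Nat.cast_ne_zero.2 hp.ne_zero)]
      · rw [if_neg hp, if_neg hp, Units.val_one, map_one]
    have e4 : (∏ p ∈ (Finset.range N).filter Nat.Prime, ((p : ℕ) : ℚ) ^ v.ord (W p)) = 1 := by
      rcases e2 with e2 | ⟨u, hu, hu1⟩
      · rw [e2, Units.val_one] at e3
        apply (algebraMap ℚ K).injective
        rw [map_one]
        exact e3.symm
      · exfalso
        have : v.ord u = 0 := hv0 u ⟨_, by
          rw [← hu, e3, ← map_one (algebraMap ℚ K), ← map_sub]⟩
        omega
    exact exps_zero N (fun p => v.ord (W p)) e4 q hqp hqN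
  -- the functions `W q` are constant
  have hconst : ∀ q, ∃ r : ℚˣ, Units.map (algebraMap ℚ K : ℚ →* K) r = W q := by
    intro q
    have halg : IsAlgebraic ℚ (W q : K) := by
      by_contra hne
      obtain ⟨v, hv0, hv1⟩ := hP K x hC.transc hfin (W q) hne
      exact hv1 (hord v hv0 q)
    obtain ⟨r, hr⟩ := hA K D lam x y hC _ halg
    have hr0 : r ≠ 0 := by
      rintro rfl
      rw [map_zero] at hr
      exact (W q).ne_zero hr.symm
    exact ⟨Units.mk0 r hr0, Units.ext hr⟩
  choose r hr using hconst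
  obtain ⟨M, hM, hM2⟩ := hK (∑ p ∈ Finset.range N, sym (cu ℚ (p : ℚ)) (r p))
  refine ⟨M * 2, by positivity, ?_⟩
  rw [mul_nsmul', h4]
  have h7 : ∑ p ∈ Finset.range N, sym (cu K (p : ℚ)) (W p) =
      mapK (algebraMap ℚ K) (∑ p ∈ Finset.range N, sym (cu ℚ (p : ℚ)) (r p)) := by
    rw [map_sum]
    apply Finset.sum_congr rfl
    intro p _
    rw [mapK_sym]
    congr 1
    · apply Units.ext
      by_cases hp : (p : ℚ) = 0
      · simp [cu, hp]
      · rw [cu_val hp]
        show algebraMap ℚ K (p : ℚ) = algebraMap ℚ K (cu ℚ (p : ℚ) : ℚ)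
        rw [cu_val hp]
        rfl
    · exact (hr p).symm
  rw [h7, ← map_nsmul, hM2, map_zero]

end MP743d1e
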