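import Pool.Agent.Lib.MP_743d1e_nt.Spec

section
/-!
# Lemmas on the circles `circ c ρ` and the lines of an arrangement
-/
namespace MP743d1e.Circ

open scoped BigOperators

variable {ρ : ℝ}

theorem norm_exp_mul (θ : ℝ) (h : 0 ≤ ρ) : ‖(ρ : ℂ) * Complex.exp (θ * Complex.I)‖ = ρ := by
  rw [norm_mul, Complex.norm_exp_ofReal_mul_I, mul_one, Complex.norm_real, Real.norm_of_nonneg h]

theorem norm_int_ge_one {z : ℤ} (h : z ≠ 0) : (1 : ℝ) ≤ ‖(z : ℂ)‖ := by
  rw [Complex.norm_intCast]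
  exact_mod_cast Int.one_le_abs h

theorem le_norm_circ_sub (h0 : 0 < ρ) (h1 : ρ < 1 / 2) (c s : ℤ) (θ : ℝ) :
    ρ ≤ ‖circ c ρ θ - (s : ℂ)‖ := by
  by_cases h : s = c
  · subst h
    have : circ s ρ θ - (s : ℂ) = (ρ : ℂ) * Complex.exp (θ * Complex.I) := by simp [circ]
    rw [this, norm_exp_mul θ h0.le]
  · have h2 : (1 : ℝ) ≤ ‖((c - s : ℤ) : ℂ)‖ := norm_int_ge_one (by omega)
    have h3 : circ c ρ θ - (s : ℂ) = ((c - s : ℤ) : ℂ) + (ρ : ℂ) * Complex.exp (θ * Complex.I) := by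
      simp only [circ]; push_cast; ring
    rw [h3]
    have h4 := norm_sub_le_norm_add ((c - s : ℤ) : ℂ) ((ρ : ℂ) * Complex.exp (θ * Complex.I))
    rw [norm_exp_mul θ h0.le] at h4
    linarith

theorem norm_circ_sub_le (h0 : 0 < ρ) (h1 : ρ < 1 / 2) (c s : ℤ) (θ : ℝ) :
    ‖circ c ρ θ - (s : ℂ)‖ ≤ ‖((c - s : ℤ) : ℂ)‖ + 1 := by
  have h3 : circ c ρ θ - (s : ℂ) = ((c - s : ℤ) : ℂ) + (ρ : ℂ) * Complex.exp (θ * Complex.I) := by
    simp only [circ]; push_cast; ring
  rw [h3]
  have h4 := norm_add_le ((c - s : ℤ) : ℂ) ((ρ : ℂ) * Complex.exp (θ * Complex.I))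
  rw [norm_exp_mul θ h0.le] at h4
  linarith

theorem circ_sub_ne (h0 : 0 < ρ) (h1 : ρ < 1 / 2) (c s : ℤ) (θ : ℝ) :
    circ c ρ θ - (s : ℂ) ≠ 0 := by
  rw [← norm_pos_iff]
  exact lt_of_lt_of_le h0 (le_norm_circ_sub h0 h1 c s θ)

theorem hasDerivAt_circ (c : ℤ) (ρ θ : ℝ) :
    HasDerivAt (circ c ρ) (Complex.I * (circ c ρ θ - (c : ℂ))) θ := by
  have h1 : HasDerivAt (fun t : ℝ => (t : ℂ) * Complex.I) Complex.I θ := by
    simpa using (Complex.ofRealCLM.hasDerivAt (x := θ)).mul_const Complex.I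
  have h2 := (h1.cexp.const_mul (ρ : ℂ)).const_add (c : ℂ)
  have h3 : (Complex.I * (circ c ρ θ - (c : ℂ))) =
      (ρ : ℂ) * (Complex.exp (θ * Complex.I) * Complex.I) := by
    simp only [circ]; ring
  rw [h3]
  exact h2

theorem norm_deriv_circ (h0 : 0 < ρ) (c : ℤ) (θ : ℝ) :
    ‖Complex.I * (circ c ρ θ - (c : ℂ))‖ = ρ := by
  have : circ c ρ θ - (c : ℂ) = (ρ : ℂ) * Complex.exp (θ * Complex.I) := by simp [circ]
  rw [norm_mul, Complex.norm_I, one_mul, this, norm_exp_mul θ h0.le]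

theorem contDiff_circ (c : ℤ) (ρ : ℝ) {n : WithTop ℕ∞} : ContDiff ℝ n (circ c ρ) := by
  unfold circ
  exact contDiff_const.add (contDiff_const.mul
    ((Complex.ofRealCLM.contDiff.mul contDiff_const).cexp))

theorem circ_periodic (c : ℤ) (ρ θ : ℝ) : circ c ρ (θ + 2 * Real.pi) = circ c ρ θ := by
  unfold circ
  congr 2
  rw [Complex.ofReal_add, add_mul, Complex.exp_add]
  push_cast
  rw [Complex.exp_two_pi_mul_I, mul_one]

theorem norm_circ_le (h0 : 0 < ρ) (h1 : ρ < 1 / 2) (c : ℤ) (θ : ℝ) :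
    ‖circ c ρ θ‖ ≤ ‖(c : ℂ)‖ + 1 := by
  have := norm_circ_sub_le h0 h1 c 0 θ
  simpa using this

variable (D : Arr)

/-- differences of two lines on the circle are bounded below -/
theorem le_norm_b_sub (h0 : 0 < ρ) (h1 : ρ < 1 / 2) (c : ℤ) (θ : ℝ) {j l : Fin D.n} (h : j ≠ l) :
    ρ ≤ ‖D.b j (circ c ρ θ) - D.b l (circ c ρ θ)‖ := by
  by_cases hp : D.p j = D.p l
  · have hq : D.q j - D.q l ≠ 0 := by
      intro h2
      exact h (D.line_inj j l hp (by omega))
    have h3 : D.b j (circ c ρ θ) - D.b l (circ c ρ θ) = ((D.q j - D.q l : ℤ) : ℂ) := by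
      simp only [Arr.b, hp]; push_cast; ring
    rw [h3]
    have := norm_int_ge_one hq
    linarith
  · have h3 : D.b j (circ c ρ θ) - D.b l (circ c ρ θ) =
        ((D.p j - D.p l : ℤ) : ℂ) * (circ c ρ θ - (D.r j l : ℂ)) := by
      have h4 := D.cross j l hp
      have h5 : ((D.p j : ℤ) : ℂ) * (D.r j l : ℂ) + (D.q j : ℂ) =
          (D.p l : ℂ) * (D.r j l : ℂ) + (D.q l : ℂ) := by exact_mod_cast h4
      simp only [Arr.b]; push_cast
      linear_combination h5
    rw [h3, norm_mul]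
    have h6 := norm_int_ge_one (z := D.p j - D.p l) (by omega)
    have h7 := le_norm_circ_sub h0 h1 c (D.r j l) θ
    nlinarith [norm_nonneg (circ c ρ θ - (D.r j l : ℂ))]

/-- a bound for the lines on the circle -/
noncomputable def bB (D : Arr) (c : ℤ) (l : Fin D.n) : ℝ :=
  ‖(D.p l : ℂ)‖ * (‖(c : ℂ)‖ + 1) + ‖(D.q l : ℂ)‖

theorem norm_b_le (h0 : 0 < ρ) (h1 : ρ < 1 / 2) (c : ℤ) (θ : ℝ) (l : Fin D.n) :
    ‖D.b l (circ c ρ θ)‖ ≤ bB D c l := by
  unfold Arr.b bB
  refine (norm_add_le _ _).trans ?_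
  rw [norm_mul]
  have := norm_circ_le h0 h1 c θ
  gcongr

theorem hasDerivAt_b (c : ℤ) (ρ θ : ℝ) (l : Fin D.n) :
    HasDerivAt (fun t => D.b l (circ c ρ t))
      ((D.p l : ℂ) * (Complex.I * (circ c ρ θ - (c : ℂ)))) θ := by
  unfold Arr.b
  exact ((hasDerivAt_circ c ρ θ).const_mul _).add_const _

theorem contDiff_b (c : ℤ) (ρ : ℝ) (l : Fin D.n) {n : WithTop ℕ∞} :
    ContDiff ℝ n (fun t => D.b l (circ c ρ t)) := by
  unfold Arr.b
  exact (contDiff_const.mul (contDiff_circ c ρ)).add contDiff_const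

end MP743d1e.Circ
end

section
/-!
# ASYM: asymptotics of the regulator integrals
-/
namespace MP743d1e.Asym

open scoped BigOperators
open MP743d1e.Circ

theorem abs_log_le {a b t : ℝ} (ha : 0 < a) (h1 : a ≤ t) (h2 : t ≤ b) :
    |Real.log t| ≤ |Real.log a| + |Real.log b| := by
  have h3 := Real.log_le_log ha h1
  have h4 := Real.log_le_log (lt_of_lt_of_le ha h1) h2
  rw [abs_le]
  constructor
  · have := neg_abs_le (Real.log a)
    have := abs_nonneg (Real.log b)
    linarith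
  · have := le_abs_self (Real.log b)
    have := abs_nonneg (Real.log a)
    linarith

/-- the bounds for a line different from the `j`-th one -/
theorem bounds_ne (D : Arr) (j : Fin D.n) (c : ℤ) (ρ C : ℝ) (h0 : 0 < ρ) (h1 : ρ < 1 / 2)
    (l : Fin D.n) (hl : l ≠ j) : ∃ K : ℝ, ∀ lam : ℤ, max 1 (2 * |C| / ρ) ≤ |(lam : ℝ)| →
      ∀ Y : ℝ → ℂ, IsSheet D lam j c ρ C Y → ∀ θ, Y θ - D.b l (circ c ρ θ) ≠ 0 ∧
        ‖logDeriv (fun t => Y t - D.b l (circ c ρ t)) θ‖ ≤ K ∧
        |Real.log ‖Y θ - D.b l (circ c ρ θ)‖| ≤ K := by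
  set B : ℝ := 1 + bB D c j + bB D c l with hB
  set E : ℝ := (|C| + ‖(D.p j : ℂ)‖ + ‖(D.p l : ℂ)‖) / (ρ / 2) with hE
  refine ⟨max E (|Real.log (ρ / 2)| + |Real.log B|), ?_⟩
  intro lam hlam Y hY θ
  have hlam1 : 1 ≤ |(lam : ℝ)| := (le_max_left _ _).trans hlam
  have hlam2 : 2 * |C| / ρ ≤ |(lam : ℝ)| := (le_max_right _ _).trans hlam
  have hpos : 0 < |(lam : ℝ)| := by linarith
  have hC1 : C / |(lam : ℝ)| ≤ ρ / 2 := by
    rw [div_le_iff₀ hpos]
    rw [div_le_iff₀ h0] at hlam2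
    have := le_abs_self C
    nlinarith
  have hC2 : C / |(lam : ℝ)| ≤ |C| := by
    rw [div_le_iff₀ hpos]
    have := le_abs_self C
    nlinarith [abs_nonneg C]
  have hn := (hY.near θ).trans hC1
  have hn' := (hY.near' θ).trans hC2
  have hlow := le_norm_b_sub D h0 h1 c θ hl.symm
  have hsplit : Y θ - D.b l (circ c ρ θ) =
      (Y θ - D.b j (circ c ρ θ)) + (D.b j (circ c ρ θ) - D.b l (circ c ρ θ)) := by ring
  have hZlow : ρ / 2 ≤ ‖Y θ - D.b l (circ c ρ θ)‖ := by
    rw [hsplit]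
    have := norm_sub_le_norm_add (D.b j (circ c ρ θ) - D.b l (circ c ρ θ))
      (Y θ - D.b j (circ c ρ θ))
    rw [add_comm] at this
    linarith
  have hZup : ‖Y θ - D.b l (circ c ρ θ)‖ ≤ B := by
    rw [hsplit]
    refine (norm_add_le _ _).trans ?_
    have h3 := norm_sub_le (D.b j (circ c ρ θ)) (D.b l (circ c ρ θ))
    have h4 := norm_b_le D h0 h1 c θ j
    have h5 := norm_b_le D h0 h1 c θ l
    rw [hB]
    linarith
  have hZne : Y θ - D.b l (circ c ρ θ) ≠ 0 := by
    rw [← norm_pos_iff]; linarith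
  refine ⟨hZne, le_trans ?_ (le_max_left _ _), le_trans ?_ (le_max_right _ _)⟩
  · have hYd : DifferentiableAt ℝ Y θ := (hY.smooth.differentiable (by norm_num)) θ
    have hYd' := hYd.hasDerivAt
    have e1 : deriv (fun t => Y t - D.b j (circ c ρ t)) θ =
        deriv Y θ - (D.p j : ℂ) * (Complex.I * (circ c ρ θ - (c : ℂ))) :=
      (hYd'.sub (hasDerivAt_b D c ρ θ j)).deriv
    have e2 : deriv (fun t => Y t - D.b l (circ c ρ t)) θ =
        deriv Y θ - (D.p l : ℂ) * (Complex.I * (circ c ρ θ - (c : ℂ))) :=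
      (hYd'.sub (hasDerivAt_b D c ρ θ l)).deriv
    have e3 : deriv (fun t => Y t - D.b l (circ c ρ t)) θ =
        deriv (fun t => Y t - D.b j (circ c ρ t)) θ +
        ((D.p j : ℂ) * (Complex.I * (circ c ρ θ - (c : ℂ))) -
        (D.p l : ℂ) * (Complex.I * (circ c ρ θ - (c : ℂ)))) := by
      rw [e1, e2]; ring
    rw [logDeriv_apply, norm_div, hE]
    have h6 : ‖deriv (fun t => Y t - D.b l (circ c ρ t)) θ‖ ≤
        |C| + ‖(D.p j : ℂ)‖ + ‖(D.p l : ℂ)‖ := by
      rw [e3]
      refine (norm_add_le _ _).trans ?_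
      have h7 := norm_sub_le ((D.p j : ℂ) * (Complex.I * (circ c ρ θ - (c : ℂ))))
        ((D.p l : ℂ) * (Complex.I * (circ c ρ θ - (c : ℂ))))
      rw [norm_mul, norm_mul (D.p l : ℂ), norm_deriv_circ h0] at h7
      have h8 : ‖(D.p j : ℂ)‖ * ρ ≤ ‖(D.p j : ℂ)‖ * 1 := by gcongr; linarith
      have h9 : ‖(D.p l : ℂ)‖ * ρ ≤ ‖(D.p l : ℂ)‖ * 1 := by gcongr; linarith
      linarith
    gcongr
  · exact abs_log_le (by positivity) hZlow hZup

/-- the bounds for the `j`-th line -/
theorem bounds_eq (D : Arr) (j : Fin D.n) (c : ℤ) (ρ C : ℝ) (h0 : 0 < ρ) (h1 : ρ < 1 / 2) :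
    ∃ K : ℝ, ∀ lam : ℤ, max 1 (2 * |C| / ρ) ≤ |(lam : ℝ)| →
      ∀ Y : ℝ → ℂ, IsSheet D lam j c ρ C Y → ∀ θ, Y θ - D.b j (circ c ρ θ) ≠ 0 ∧
        ‖logDeriv (fun t => Y t - D.b j (circ c ρ t)) θ‖ ≤ K ∧
        |Real.log ‖Y θ - D.b j (circ c ρ θ)‖ + Real.log (|(lam : ℝ)|)| ≤ K := by
  have hne := bounds_ne D j c ρ C h0 h1
  choose! K hK using hne
  set S1 : ℝ := ∑ i : Fin D.m, (1 : ℝ) + ∑ l ∈ Finset.univ.erase j, K l with hS1
  set S2 : ℝ := ∑ i : Fin D.m, (|Real.log ρ| + |Real.log (‖((c - D.a i : ℤ) : ℂ)‖ + 1)|) +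
    ∑ l ∈ Finset.univ.erase j, K l with hS2
  refine ⟨max S1 S2, ?_⟩
  intro lam hlam Y hY θ
  have hlam1 : 1 ≤ |(lam : ℝ)| := (le_max_left _ _).trans hlam
  have hlam0 : (lam : ℂ) ≠ 0 := by
    intro h
    have : (lam : ℝ) = 0 := by exact_mod_cast h
    rw [this, abs_zero] at hlam1
    linarith
  have hXne : ∀ (t : ℝ) (i : Fin D.m), circ c ρ t - (D.a i : ℂ) ≠ 0 :=
    fun t i => circ_sub_ne h0 h1 c _ t
  have hall : ∀ t l, Y t - D.b l (circ c ρ t) ≠ 0 := by
    intro t l
    have h2 := hY.eqn t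
    have h3 : ∏ l, (Y t - D.b l (circ c ρ t)) ≠ 0 := by
      intro h; rw [h, mul_zero] at h2; exact zero_ne_one h2
    exact (Finset.prod_ne_zero_iff.1 h3) l (Finset.mem_univ l)
  refine ⟨hall θ j, le_trans ?_ (le_max_left _ _), le_trans ?_ (le_max_right _ _)⟩
  · -- logarithmic derivative
    have hdX : ∀ i : Fin D.m, DifferentiableAt ℝ (fun t => circ c ρ t - (D.a i : ℂ)) θ :=
      fun i => ((hasDerivAt_circ c ρ θ).differentiableAt).sub_const _
    have hdZ : ∀ l, DifferentiableAt ℝ (fun t => Y t - D.b l (circ c ρ t)) θ := fun l =>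
      ((hY.smooth.differentiable (by norm_num)) θ).sub (hasDerivAt_b D c ρ θ l).differentiableAt
    have h2 : logDeriv (fun t => ((lam : ℂ) * (∏ i, (circ c ρ t - (D.a i : ℂ)))) *
        (∏ l, (Y t - D.b l (circ c ρ t)))) θ = 0 := by
      have : (fun t => ((lam : ℂ) * (∏ i, (circ c ρ t - (D.a i : ℂ)))) *
        (∏ l, (Y t - D.b l (circ c ρ t)))) = fun _ => (1 : ℂ) := by
        funext t
        exact hY.eqn t
      rw [this, logDeriv_const]
      rfl
    have hprodX : DifferentiableAt ℝ (fun t => ∏ i, (circ c ρ t - (D.a i : ℂ))) θ :=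
      DifferentiableAt.fun_finsetProd (fun i _ => hdX i)
    have hprodZ : DifferentiableAt ℝ (fun t => ∏ l, (Y t - D.b l (circ c ρ t))) θ :=
      DifferentiableAt.fun_finsetProd (fun l _ => hdZ l)
    rw [logDeriv_mul (f := fun t => (lam : ℂ) * (∏ i, (circ c ρ t - (D.a i : ℂ))))
        (g := fun t => ∏ l, (Y t - D.b l (circ c ρ t))) θ (mul_ne_zero hlam0 (Finset.prod_ne_zero_iff.2 fun i _ => hXne θ i))
      (Finset.prod_ne_zero_iff.2 fun l _ => hall θ l) (hprodX.const_mul _) hprodZ,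
      logDeriv_const_mul (f := fun t => ∏ i, (circ c ρ t - (D.a i : ℂ))) θ _ hlam0,
      logDeriv_prod (f := fun i t => circ c ρ t - (D.a i : ℂ)) (fun i _ => hXne θ i)
        (fun i _ => hdX i),
      logDeriv_prod (f := fun l t => Y t - D.b l (circ c ρ t)) (fun l _ => hall θ l)
        (fun l _ => hdZ l),
      ← Finset.add_sum_erase _ _ (Finset.mem_univ j)] at h2
    have h3 : logDeriv (fun t => Y t - D.b j (circ c ρ t)) θ =
        -((∑ i, logDeriv (fun t => circ c ρ t - (D.a i : ℂ)) θ) +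
          ∑ l ∈ Finset.univ.erase j, logDeriv (fun t => Y t - D.b l (circ c ρ t)) θ) := by
      linear_combination h2
    rw [h3, norm_neg]
    refine (norm_add_le _ _).trans ?_
    rw [hS1]
    refine add_le_add (norm_sum_le_of_le _ ?_) (norm_sum_le_of_le _ ?_)
    · intro i _
      rw [logDeriv_apply, ((hasDerivAt_circ c ρ θ).sub_const _).deriv, norm_div,
        norm_deriv_circ h0]
      exact (div_le_one (lt_of_lt_of_le h0 (le_norm_circ_sub h0 h1 c _ θ))).2
        (le_norm_circ_sub h0 h1 c _ θ)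
    · intro l hl
      exact (hK l (Finset.ne_of_mem_erase hl) lam hlam Y hY θ).2.1
  · -- logarithm
    have h2 := congrArg (fun z : ℂ => Real.log ‖z‖) (hY.eqn θ)
    simp only [norm_mul, norm_one, Real.log_one, norm_prod] at h2
    rw [Real.log_mul, Real.log_mul, Real.log_prod, Real.log_prod,
      ← Finset.add_sum_erase _ _ (Finset.mem_univ j)] at h2
    rotate_left
    · intro l _; exact norm_ne_zero_iff.2 (hall θ l)
    · intro i _; exact norm_ne_zero_iff.2 (hXne θ i)
    · exact norm_ne_zero_iff.2 hlam0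
    · exact Finset.prod_ne_zero_iff.2 fun i _ => norm_ne_zero_iff.2 (hXne θ i)
    · exact mul_ne_zero (norm_ne_zero_iff.2 hlam0)
        (Finset.prod_ne_zero_iff.2 fun i _ => norm_ne_zero_iff.2 (hXne θ i))
    · exact Finset.prod_ne_zero_iff.2 fun l _ => norm_ne_zero_iff.2 (hall θ l)
    have h3 : Real.log ‖Y θ - D.b j (circ c ρ θ)‖ + Real.log |(lam : ℝ)| =
        -((∑ i, Real.log ‖circ c ρ θ - (D.a i : ℂ)‖) +
          ∑ l ∈ Finset.univ.erase j, Real.log ‖Y θ - D.b l (circ c ρ θ)‖) := by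
      rw [Complex.norm_intCast] at h2
      linarith
    rw [h3, abs_neg]
    refine (abs_add_le _ _).trans ?_
    rw [hS2]
    refine add_le_add ((Finset.abs_sum_le_sum_abs _ _).trans (Finset.sum_le_sum ?_))
      ((Finset.abs_sum_le_sum_abs _ _).trans (Finset.sum_le_sum ?_))
    · intro i _
      exact abs_log_le h0 (le_norm_circ_sub h0 h1 c _ θ) (norm_circ_sub_le h0 h1 c _ θ)
    · intro l hl
      exact (hK l (Finset.ne_of_mem_erase hl) lam hlam Y hY θ).2.2

/-- the bounds for all lines -/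
theorem bounds (D : Arr) (j : Fin D.n) (c : ℤ) (ρ C : ℝ) (h0 : 0 < ρ) (h1 : ρ < 1 / 2)
    (l : Fin D.n) : ∃ K : ℝ, ∀ lam : ℤ, max 1 (2 * |C| / ρ) ≤ |(lam : ℝ)| →
      ∀ Y : ℝ → ℂ, IsSheet D lam j c ρ C Y → ∀ θ, Y θ - D.b l (circ c ρ θ) ≠ 0 ∧
        ‖logDeriv (fun t => Y t - D.b l (circ c ρ t)) θ‖ ≤ K ∧
        |Real.log ‖Y θ - D.b l (circ c ρ θ)‖ +
          (if l = j then 1 else 0) * Real.log (|(lam : ℝ)|)| ≤ K := by
  by_cases hl : l = j
  · subst hl
    obtain ⟨K, hK⟩ := bounds_eq D l c ρ C h0 h1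
    refine ⟨K, fun lam hlam Y hY θ => ?_⟩
    simpa using hK lam hlam Y hY θ
  · obtain ⟨K, hK⟩ := bounds_ne D j c ρ C h0 h1 l hl
    refine ⟨K, fun lam hlam Y hY θ => ?_⟩
    simpa [hl] using hK lam hlam Y hY θ

/-- the winding numbers -/
theorem integral_logDeriv_circ {ρ : ℝ} (h0 : 0 < ρ) (h1 : ρ < 1 / 2) (c s : ℤ) :
    ∫ θ in (0 : ℝ)..(2 * Real.pi), (logDeriv (fun t => circ c ρ t - (s : ℂ)) θ).im =
      2 * Real.pi * (if s = c then 1 else 0) := by
  have hd : ∀ θ, logDeriv (fun t => circ c ρ t - (s : ℂ)) θ =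
      Complex.I * (circ c ρ θ - (c : ℂ)) / (circ c ρ θ - (s : ℂ)) := by
    intro θ
    rw [logDeriv_apply, ((hasDerivAt_circ c ρ θ).sub_const _).deriv]
  simp only [hd]
  by_cases h : s = c
  · subst h
    have : ∀ θ : ℝ, (Complex.I * (circ s ρ θ - (s : ℂ)) / (circ s ρ θ - (s : ℂ))).im = 1 := by
      intro θ
      rw [mul_div_assoc, div_self (circ_sub_ne h0 h1 s s θ), mul_one, Complex.I_im]
    simp only [this]
    simp
  · rw [if_neg h, mul_zero]
    have hcs : ((c - s : ℤ) : ℂ) ≠ 0 := by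
      have : c - s ≠ 0 := by omega
      exact_mod_cast this
    have hnorm := norm_int_ge_one (z := c - s) (by omega)
    set F : ℝ → ℂ := fun θ => Complex.log (1 + (ρ : ℂ) * Complex.exp (θ * Complex.I) /
      ((c - s : ℤ) : ℂ)) with hF
    have hF1 : ∀ θ : ℝ, 1 + (ρ : ℂ) * Complex.exp (θ * Complex.I) / ((c - s : ℤ) : ℂ) =
        (circ c ρ θ - (s : ℂ)) / ((c - s : ℤ) : ℂ) := by
      intro θ
      rw [eq_div_iff hcs, add_mul, div_mul_cancel₀ _ hcs]
      simp only [circ]; push_cast; ring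
    have hslit : ∀ θ : ℝ, 1 + (ρ : ℂ) * Complex.exp (θ * Complex.I) / ((c - s : ℤ) : ℂ) ∈
        Complex.slitPlane := by
      intro θ
      apply Complex.mem_slitPlane_of_norm_lt_one
      rw [norm_div, norm_exp_mul θ h0.le]
      rw [div_lt_one (by linarith)]
      linarith
    have hFd : ∀ θ : ℝ, HasDerivAt F (Complex.I * (circ c ρ θ - (c : ℂ)) /
        (circ c ρ θ - (s : ℂ))) θ := by
      intro θ
      have h2 : HasDerivAt (fun t : ℝ => (circ c ρ t - (s : ℂ)) / ((c - s : ℤ) : ℂ))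
          (Complex.I * (circ c ρ θ - (c : ℂ)) / ((c - s : ℤ) : ℂ)) θ :=
        ((hasDerivAt_circ c ρ θ).sub_const _).div_const _
      have h3 : (fun t : ℝ => (circ c ρ t - (s : ℂ)) / ((c - s : ℤ) : ℂ)) =
          fun t : ℝ => 1 + (ρ : ℂ) * Complex.exp (t * Complex.I) / ((c - s : ℤ) : ℂ) := by
        funext t; rw [hF1]
      rw [h3] at h2
      have h4 := h2.clog_real (hslit θ)
      have h5 : Complex.I * (circ c ρ θ - (c : ℂ)) / ((c - s : ℤ) : ℂ) /
          (1 + (ρ : ℂ) * Complex.exp (θ * Complex.I) / ((c - s : ℤ) : ℂ)) =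
          Complex.I * (circ c ρ θ - (c : ℂ)) / (circ c ρ θ - (s : ℂ)) := by
        rw [hF1, div_div_div_cancel_right₀ hcs]
      rw [h5] at h4
      exact h4
    have hcont : Continuous fun θ : ℝ => Complex.I * (circ c ρ θ - (c : ℂ)) /
        (circ c ρ θ - (s : ℂ)) := by
      have hcc : Continuous (circ c ρ) := (contDiff_circ c ρ (n := 1)).continuous
      exact (continuous_const.mul (hcc.sub continuous_const)).div (hcc.sub continuous_const)
        (fun θ => circ_sub_ne h0 h1 c s θ)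
    have h6 : ∫ θ in (0 : ℝ)..(2 * Real.pi), Complex.I * (circ c ρ θ - (c : ℂ)) /
        (circ c ρ θ - (s : ℂ)) = 0 := by
      rw [intervalIntegral.integral_eq_sub_of_hasDerivAt (fun θ _ => hFd θ)
        (hcont.intervalIntegrable _ _)]
      have h7 : F (2 * Real.pi) = F 0 := by
        simp only [hF]
        congr 3
        push_cast
        rw [Complex.exp_two_pi_mul_I]
        simp
      rw [h7, sub_self]
    have h8 := (Complex.imCLM).intervalIntegral_comp_comm (hcont.intervalIntegrable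
      (μ := MeasureTheory.volume) 0 (2 * Real.pi))
    rw [h6] at h8
    simpa using h8

theorem norm_logDeriv_circ {ρ : ℝ} (h0 : 0 < ρ) (h1 : ρ < 1 / 2) (c s : ℤ) (θ : ℝ) :
    |(logDeriv (fun t => circ c ρ t - (s : ℂ)) θ).im| ≤ 1 := by
  refine (Complex.abs_im_le_norm _).trans ?_
  rw [logDeriv_apply, ((hasDerivAt_circ c ρ θ).sub_const _).deriv, norm_div,
    norm_deriv_circ h0]
  exact (div_le_one (lt_of_lt_of_le h0 (le_norm_circ_sub h0 h1 c _ θ))).2
    (le_norm_circ_sub h0 h1 c _ θ)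

theorem continuous_logDeriv {f : ℝ → ℂ} (hf : ContDiff ℝ 1 f) (hne : ∀ θ, f θ ≠ 0) :
    Continuous (fun θ => (logDeriv f θ).im) := by
  have : Continuous (fun θ => deriv f θ / f θ) :=
    (hf.continuous_deriv le_rfl).div hf.continuous hne
  exact Complex.continuous_im.comp this

theorem continuous_log_norm {f : ℝ → ℂ} (hf : ContDiff ℝ 1 f) (hne : ∀ θ, f θ ≠ 0) :
    Continuous (fun θ => Real.log ‖f θ‖) :=
  hf.continuous.norm.log (fun θ => norm_ne_zero_iff.2 (hne θ))

end MP743d1e.Asym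

namespace MP743d1e

open Asym Circ

theorem specAsym : SpecAsym := by
  intro D j c ρ C h0 h1 s i0 l l'
  obtain ⟨K, hK⟩ := bounds D j c ρ C h0 h1 l
  obtain ⟨K', hK'⟩ := bounds D j c ρ C h0 h1 l'
  set Ks : ℝ := |Real.log ρ| + |Real.log (‖((c - s : ℤ) : ℂ)‖ + 1)| with hKs
  set Ka : ℝ := |Real.log ρ| + |Real.log (‖((c - D.a i0 : ℤ) : ℂ)‖ + 1)| with hKa
  refine ⟨((Ks + Ka) * (K + K') + (K + K') * 2) * |2 * Real.pi - 0|, max 1 (2 * |C| / ρ), ?_⟩
  intro lam hlam Y hY
  set e : ℝ := (if l = j then 1 else 0) with he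
  set e' : ℝ := (if l' = j then 1 else 0) with he'
  set Λ : ℝ := Real.log (|(lam : ℝ)|) with hΛ
  set P : ℝ → ℂ := fun t => circ c ρ t - (s : ℂ) with hP
  set Q : ℝ → ℂ := fun t => circ c ρ t - (D.a i0 : ℂ) with hQ
  set Z : ℝ → ℂ := fun t => Y t - D.b l (circ c ρ t) with hZ
  set Z' : ℝ → ℂ := fun t => Y t - D.b l' (circ c ρ t) with hZ'
  have hPc : ContDiff ℝ 1 P := (contDiff_circ c ρ).sub contDiff_const
  have hQc : ContDiff ℝ 1 Q := (contDiff_circ c ρ).sub contDiff_const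
  have hZc : ContDiff ℝ 1 Z := hY.smooth.sub (contDiff_b D c ρ l)
  have hZc' : ContDiff ℝ 1 Z' := hY.smooth.sub (contDiff_b D c ρ l')
  have hPn : ∀ θ, P θ ≠ 0 := fun θ => circ_sub_ne h0 h1 c _ θ
  have hQn : ∀ θ, Q θ ≠ 0 := fun θ => circ_sub_ne h0 h1 c _ θ
  have hZn : ∀ θ, Z θ ≠ 0 := fun θ => (hK lam hlam Y hY θ).1
  have hZn' : ∀ θ, Z' θ ≠ 0 := fun θ => (hK' lam hlam Y hY θ).1
  -- the integrand
  have hI : ∀ θ, Real.log ‖P θ / Q θ‖ * (deriv (fun t => Z t / Z' t) θ / (Z θ / Z' θ)).im -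
      Real.log ‖Z θ / Z' θ‖ * (deriv (fun t => P t / Q t) θ / (P θ / Q θ)).im =
      (Real.log ‖P θ‖ - Real.log ‖Q θ‖) * ((logDeriv Z θ).im - (logDeriv Z' θ).im) -
      (Real.log ‖Z θ‖ - Real.log ‖Z' θ‖) * ((logDeriv P θ).im - (logDeriv Q θ).im) := by
    intro θ
    have e1 : deriv (fun t => Z t / Z' t) θ / (Z θ / Z' θ) = logDeriv Z θ - logDeriv Z' θ :=
      logDeriv_div θ (hZn θ) (hZn' θ) ((hZc.differentiable (by norm_num)) θ)
        ((hZc'.differentiable (by norm_num)) θ)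
    have e2 : deriv (fun t => P t / Q t) θ / (P θ / Q θ) = logDeriv P θ - logDeriv Q θ :=
      logDeriv_div θ (hPn θ) (hQn θ) ((hPc.differentiable (by norm_num)) θ)
        ((hQc.differentiable (by norm_num)) θ)
    rw [e1, e2, norm_div, norm_div, Real.log_div (norm_ne_zero_iff.2 (hPn θ))
      (norm_ne_zero_iff.2 (hQn θ)), Real.log_div (norm_ne_zero_iff.2 (hZn θ))
      (norm_ne_zero_iff.2 (hZn' θ)), Complex.sub_im, Complex.sub_im]
  set I : ℝ → ℝ := fun θ => (Real.log ‖P θ‖ - Real.log ‖Q θ‖) *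
      ((logDeriv Z θ).im - (logDeriv Z' θ).im) -
      (Real.log ‖Z θ‖ - Real.log ‖Z' θ‖) * ((logDeriv P θ).im - (logDeriv Q θ).im) with hIdef
  have hreg : regInt (fun θ => (circ c ρ θ - (s : ℂ)) / (circ c ρ θ - (D.a i0 : ℂ)))
            (fun θ => (Y θ - D.b l (circ c ρ θ)) / (Y θ - D.b l' (circ c ρ θ))) =
      ∫ θ in (0 : ℝ)..(2 * Real.pi), I θ := by
    unfold regInt
    apply intervalIntegral.integral_congr
    intro θ _
    exact hI θ
  have cP := continuous_logDeriv hPc hPn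
  have cQ := continuous_logDeriv hQc hQn
  have hIc : Continuous I :=
    (((continuous_log_norm hPc hPn).sub (continuous_log_norm hQc hQn)).mul
      ((continuous_logDeriv hZc hZn).sub (continuous_logDeriv hZc' hZn'))).sub
    (((continuous_log_norm hZc hZn).sub (continuous_log_norm hZc' hZn')).mul (cP.sub cQ))
  set M : ℝ → ℝ := fun θ => (Λ * (e - e')) * ((logDeriv P θ).im - (logDeriv Q θ).im) with hM
  have hMc : Continuous M := continuous_const.mul (cP.sub cQ)
  have hMint : ∫ θ in (0 : ℝ)..(2 * Real.pi), M θ = 2 * Real.pi * Λ * (e - e') *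
      ((if s = c then 1 else 0) - (if D.a i0 = c then 1 else 0)) := by
    simp only [hM]
    rw [intervalIntegral.integral_const_mul, intervalIntegral.integral_sub
      (cP.intervalIntegrable _ _) (cQ.intervalIntegrable _ _),
      integral_logDeriv_circ h0 h1, integral_logDeriv_circ h0 h1]
    ring
  rw [hreg, ← hMint, ← intervalIntegral.integral_sub (hIc.intervalIntegrable _ _)
    (hMc.intervalIntegrable _ _), ← Real.norm_eq_abs]
  apply intervalIntegral.norm_integral_le_of_norm_le_const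
  intro θ _
  have b1 : |Real.log ‖P θ‖| ≤ Ks :=
    abs_log_le h0 (le_norm_circ_sub h0 h1 c _ θ) (norm_circ_sub_le h0 h1 c _ θ)
  have b2 : |Real.log ‖Q θ‖| ≤ Ka :=
    abs_log_le h0 (le_norm_circ_sub h0 h1 c _ θ) (norm_circ_sub_le h0 h1 c _ θ)
  have b3 : |(logDeriv Z θ).im| ≤ K := (Complex.abs_im_le_norm _).trans (hK lam hlam Y hY θ).2.1
  have b4 : |(logDeriv Z' θ).im| ≤ K' := (Complex.abs_im_le_norm _).trans (hK' lam hlam Y hY θ).2.1
  have b5 : |Real.log ‖Z θ‖ + e * Λ| ≤ K := (hK lam hlam Y hY θ).2.2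
  have b6 : |Real.log ‖Z' θ‖ + e' * Λ| ≤ K' := (hK' lam hlam Y hY θ).2.2
  have b7 : |(logDeriv P θ).im| ≤ 1 := norm_logDeriv_circ h0 h1 c _ θ
  have b8 : |(logDeriv Q θ).im| ≤ 1 := norm_logDeriv_circ h0 h1 c _ θ
  have hIM : I θ - M θ = (Real.log ‖P θ‖ - Real.log ‖Q θ‖) *
      ((logDeriv Z θ).im - (logDeriv Z' θ).im) -
      ((Real.log ‖Z θ‖ + e * Λ) - (Real.log ‖Z' θ‖ + e' * Λ)) *
        ((logDeriv P θ).im - (logDeriv Q θ).im) := by
    simp only [hIdef, hM]; ring
  rw [hIM, Real.norm_eq_abs]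
  refine (abs_sub _ _).trans ?_
  rw [abs_mul, abs_mul]
  have c1 : |Real.log ‖P θ‖ - Real.log ‖Q θ‖| ≤ Ks + Ka := (abs_sub _ _).trans (add_le_add b1 b2)
  have c2 : |(logDeriv Z θ).im - (logDeriv Z' θ).im| ≤ K + K' :=
    (abs_sub _ _).trans (add_le_add b3 b4)
  have c3 : |(Real.log ‖Z θ‖ + e * Λ) - (Real.log ‖Z' θ‖ + e' * Λ)| ≤ K + K' :=
    (abs_sub _ _).trans (add_le_add b5 b6)
  have c4 : |(logDeriv P θ).im - (logDeriv Q θ).im| ≤ 2 := by
    refine (abs_sub _ _).trans ?_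
    linarith
  have d1 := abs_nonneg (Real.log ‖P θ‖ - Real.log ‖Q θ‖)
  have d2 := abs_nonneg ((logDeriv Z θ).im - (logDeriv Z' θ).im)
  have d3 := abs_nonneg ((Real.log ‖Z θ‖ + e * Λ) - (Real.log ‖Z' θ‖ + e' * Λ))
  have d4 := abs_nonneg ((logDeriv P θ).im - (logDeriv Q θ).im)
  exact add_le_add (mul_le_mul c1 c2 d2 (d1.trans c1)) (mul_le_mul c3 c4 d4 (d3.trans c3))

end MP743d1e
end

section
/-!
# STEIN: the regulator is well defined on `K2`
-/
namespace MP743d1e

namespace Stein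

open MeasureTheory

variable {F : Type} [Field F] (γ : Loop F)

theorem ev_ne (f : Fˣ) (θ : ℝ) : γ.ev θ (f : F) ≠ 0 := by
  rw [Ne, map_eq_zero]
  exact f.ne_zero

theorem cont (f : F) : Continuous (fun θ => γ.ev θ f) := (γ.smooth f).continuous

theorem diff (f : F) (θ : ℝ) : DifferentiableAt ℝ (fun θ => γ.ev θ f) θ :=
  ((γ.smooth f).differentiable (by norm_num)) θ

theorem cont_deriv (f : F) : Continuous (deriv (fun θ => γ.ev θ f)) :=
  (γ.smooth f).continuous_deriv (by norm_num)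

theorem cont_log (f : Fˣ) : Continuous (fun θ => Real.log ‖γ.ev θ (f : F)‖) :=
  (cont γ f).norm.log fun θ => norm_ne_zero_iff.mpr (ev_ne γ f θ)

theorem cont_dlog (f : Fˣ) :
    Continuous (fun θ => (deriv (fun t => γ.ev t (f : F)) θ / γ.ev θ (f : F)).im) :=
  Complex.continuous_im.comp ((cont_deriv γ f).div (cont γ f) (ev_ne γ f))

/-- The integrand. -/
noncomputable def ig (f g : Fˣ) (θ : ℝ) : ℝ :=
  Real.log ‖γ.ev θ (f : F)‖ * (deriv (fun t => γ.ev t (g : F)) θ / γ.ev θ (g : F)).im -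
    Real.log ‖γ.ev θ (g : F)‖ * (deriv (fun t => γ.ev t (f : F)) θ / γ.ev θ (f : F)).im

theorem cont_ig (f g : Fˣ) : Continuous (ig γ f g) :=
  ((cont_log γ f).mul (cont_dlog γ g)).sub ((cont_log γ g).mul (cont_dlog γ f))

theorem regInt_eq (f g : Fˣ) :
    regInt (fun θ => γ.ev θ (f : F)) (fun θ => γ.ev θ (g : F)) =
      ∫ θ in (0 : ℝ)..(2 * Real.pi), ig γ f g θ := rfl

theorem log_mul (f f' : Fˣ) (θ : ℝ) : Real.log ‖γ.ev θ ((f * f' : Fˣ) : F)‖ =
    Real.log ‖γ.ev θ (f : F)‖ + Real.log ‖γ.ev θ (f' : F)‖ := by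
  rw [Units.val_mul, map_mul, norm_mul,
    Real.log_mul (norm_ne_zero_iff.mpr (ev_ne γ f θ)) (norm_ne_zero_iff.mpr (ev_ne γ f' θ))]

theorem dlog_mul (f f' : Fˣ) (θ : ℝ) :
    (deriv (fun t => γ.ev t ((f * f' : Fˣ) : F)) θ / γ.ev θ ((f * f' : Fˣ) : F)).im =
    (deriv (fun t => γ.ev t (f : F)) θ / γ.ev θ (f : F)).im +
      (deriv (fun t => γ.ev t (f' : F)) θ / γ.ev θ (f' : F)).im := by
  have e : (fun t => γ.ev t ((f * f' : Fˣ) : F)) =
      (fun t => γ.ev t (f : F)) * (fun t => γ.ev t (f' : F)) := by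
    funext t
    simp
  rw [e, deriv_mul (diff γ f θ) (diff γ f' θ), ← Complex.add_im]
  congr 1
  rw [Units.val_mul, map_mul]
  have h1 := ev_ne γ f θ
  have h2 := ev_ne γ f' θ
  field_simp

theorem ig_mul_left (f f' g : Fˣ) (θ : ℝ) : ig γ (f * f') g θ = ig γ f g θ + ig γ f' g θ := by
  unfold ig
  rw [log_mul, dlog_mul]
  ring

theorem ig_mul_right (f g g' : Fˣ) (θ : ℝ) : ig γ f (g * g') θ = ig γ f g θ + ig γ f g' θ := by
  unfold ig
  rw [log_mul, dlog_mul]
  ring

end Stein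

open Stein

theorem specStein (hBW : SpecBW) : SpecStein := by
  intro F _ γ
  obtain ⟨B, hB⟩ := hBW
  have h1 : ∀ f f' g : Fˣ, regInt (fun θ => γ.ev θ ((f * f' : Fˣ) : F)) (fun θ => γ.ev θ (g : F)) =
      regInt (fun θ => γ.ev θ (f : F)) (fun θ => γ.ev θ (g : F)) +
      regInt (fun θ => γ.ev θ (f' : F)) (fun θ => γ.ev θ (g : F)) := by
    intro f f' g
    rw [regInt_eq, regInt_eq, regInt_eq, ← intervalIntegral.integral_add
      ((cont_ig γ f g).intervalIntegrable _ _) ((cont_ig γ f' g).intervalIntegrable _ _)]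
    congr 1
    funext θ
    exact ig_mul_left γ f f' g θ
  have h2 : ∀ f g g' : Fˣ, regInt (fun θ => γ.ev θ (f : F)) (fun θ => γ.ev θ ((g * g' : Fˣ) : F)) =
      regInt (fun θ => γ.ev θ (f : F)) (fun θ => γ.ev θ (g : F)) +
      regInt (fun θ => γ.ev θ (f : F)) (fun θ => γ.ev θ (g' : F)) := by
    intro f g g'
    rw [regInt_eq, regInt_eq, regInt_eq, ← intervalIntegral.integral_add
      ((cont_ig γ f g).intervalIntegrable _ _) ((cont_ig γ f g').intervalIntegrable _ _)]
    congr 1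
    funext θ
    exact ig_mul_right γ f g g' θ
  have h3 : ∀ f g : Fˣ, (f : F) + (g : F) = 1 →
      regInt (fun θ => γ.ev θ (f : F)) (fun θ => γ.ev θ (g : F)) = 0 := by
    intro f g hfg
    have hg : ∀ θ, γ.ev θ (g : F) = 1 - γ.ev θ (f : F) := by
      intro θ
      have e : (g : F) = 1 - (f : F) := by linear_combination hfg
      rw [e, map_sub, map_one]
    have hgf : (fun t => γ.ev t (g : F)) = fun t => 1 - γ.ev t (f : F) := funext hg
    have hd : ∀ θ, HasDerivAt (fun t => B (γ.ev t (f : F))) (ig γ f g θ) θ := by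
      intro θ
      have hf' := (diff γ (f : F) θ).hasDerivAt
      have h0 := ev_ne γ f θ
      have h1 : γ.ev θ (f : F) ≠ 1 := by
        intro h
        have := hg θ
        rw [h, sub_self] at this
        exact ev_ne γ g θ this
      have := hB (fun t => γ.ev t (f : F)) _ θ hf' h0 h1
      convert this using 1
      unfold ig
      have hdg : deriv (fun t => γ.ev t (g : F)) θ = -deriv (fun t => γ.ev t (f : F)) θ := by
        rw [hgf]
        exact (hf'.const_sub 1).deriv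
      rw [hdg, hg θ]
    rw [regInt_eq, intervalIntegral.integral_eq_sub_of_hasDerivAt (fun θ _ => hd θ)
      ((cont_ig γ f g).intervalIntegrable _ _)]
    have := γ.periodic 0 (f : F)
    rw [zero_add] at this
    simp only [this, sub_self]
  exact ⟨K2.lift _ h1 h2 h3, fun f g => K2.lift_sym _ h1 h2 h3 f g⟩

end MP743d1e
end

section
/-!
# INTEG: the symbols have trivial tame symbol at every discrete valuation
-/
namespace MP743d1e

namespace Integ

variable {K : Type} [Field K] (v : DVal K)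

/-- `f` has nonnegative order. -/
def NN (f : K) : Prop := f = 0 ∨ ∃ u : Kˣ, (u : K) = f ∧ 0 ≤ v.ord u

/-- `f` has positive order. -/
def Pos (f : K) : Prop := f = 0 ∨ ∃ u : Kˣ, (u : K) = f ∧ 1 ≤ v.ord u

variable {v}

theorem nn_unit {u : Kˣ} : NN v (u : K) ↔ 0 ≤ v.ord u := by
  constructor
  · rintro (h | ⟨w, hw, h⟩)
    · exact absurd h u.ne_zero
    · rwa [Units.ext hw] at h
  · intro h
    exact Or.inr ⟨u, rfl, h⟩

theorem pos_unit {u : Kˣ} : Pos v (u : K) ↔ 1 ≤ v.ord u := by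
  constructor
  · rintro (h | ⟨w, hw, h⟩)
    · exact absurd h u.ne_zero
    · rwa [Units.ext hw] at h
  · intro h
    exact Or.inr ⟨u, rfl, h⟩

theorem nn_zero : NN v (0 : K) := Or.inl rfl

theorem nn_one : NN v (1 : K) := Or.inr ⟨1, rfl, by rw [v.ord_one]⟩

theorem nn_mul {f g : K} (hf : NN v f) (hg : NN v g) : NN v (f * g) := by
  rcases hf with rfl | ⟨u, rfl, hu⟩
  · left; ring
  rcases hg with rfl | ⟨w, rfl, hw⟩
  · left; ring
  refine Or.inr ⟨u * w, by simp, ?_⟩
  rw [v.ord_mul]; omega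

theorem nn_neg {f : K} (hf : NN v f) : NN v (-f) := by
  rcases hf with rfl | ⟨u, rfl, hu⟩
  · left; ring
  refine Or.inr ⟨-u, by simp, ?_⟩
  rwa [v.ord_neg]

theorem nn_add {f g : K} (hf : NN v f) (hg : NN v g) : NN v (f + g) := by
  rcases hf with rfl | ⟨u, rfl, hu⟩
  · rwa [zero_add]
  rcases hg with rfl | ⟨w, rfl, hw⟩
  · rw [add_zero]; exact Or.inr ⟨u, rfl, hu⟩
  by_cases h : (u : K) + (w : K) = 0
  · exact Or.inl h
  refine Or.inr ⟨Units.mk0 _ h, rfl, ?_⟩
  have := v.ord_add u w (Units.mk0 _ h) rfl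
  omega

theorem nn_nat (n : ℕ) : NN v (n : K) := by
  induction n with
  | zero => simp [nn_zero]
  | succ n ih => push_cast; exact nn_add ih nn_one

theorem nn_int (n : ℤ) : NN v (n : K) := by
  obtain ⟨n, rfl | rfl⟩ := n.eq_nat_or_neg
  · simpa using nn_nat n
  · push_cast; exact nn_neg (nn_nat n)

theorem nn_sub {f g : K} (hf : NN v f) (hg : NN v g) : NN v (f - g) := by
  rw [sub_eq_add_neg]; exact nn_add hf (nn_neg hg)

theorem nn_prod {ι : Type} (s : Finset ι) (f : ι → K) (h : ∀ i ∈ s, NN v (f i)) :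
    NN v (∏ i ∈ s, f i) := by
  classical
  induction s using Finset.induction_on with
  | empty => simpa using nn_one
  | insert a s ha ih =>
    rw [Finset.prod_insert ha]
    exact nn_mul (h a (Finset.mem_insert_self a s))
      (ih fun i hi => h i (Finset.mem_insert_of_mem hi))

theorem pos_mul_nn {f g : K} (hf : Pos v f) (hg : NN v g) : Pos v (f * g) := by
  rcases hf with rfl | ⟨u, rfl, hu⟩
  · left; ring
  rcases hg with rfl | ⟨w, rfl, hw⟩
  · left; ring
  refine Or.inr ⟨u * w, by simp, ?_⟩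
  rw [v.ord_mul]; omega

theorem isOne_of_pos {f : Kˣ} (h : Pos v ((f : K) - 1)) : v.IsOne f := by
  rcases h with h | ⟨u, hu, h⟩
  · left
    apply Units.ext
    rw [Units.val_one]
    linear_combination h
  · exact Or.inr ⟨u, hu.symm, h⟩

/-- The inverse of an element that is not integral has positive order. -/
theorem pos_inv_of_not_nn {f : K} (h : ¬ NN v f) : Pos v f⁻¹ := by
  have hf : f ≠ 0 := fun h0 => h (Or.inl h0)
  refine Or.inr ⟨(Units.mk0 f hf)⁻¹, by simp, ?_⟩
  rw [v.ord_inv]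
  have : ¬ 0 ≤ v.ord (Units.mk0 f hf) := fun h1 => h (Or.inr ⟨Units.mk0 f hf, rfl, h1⟩)
  omega

theorem isOne_tame_left {u w : Kˣ} (h : v.IsOne u) : v.IsOne (v.tameUnit u w) := by
  have h0 := v.ord_eq_zero_of_isOne h
  rw [← DVal.mem_U1] at h ⊢
  have e : v.tameUnit u w = u ^ (v.ord w) := by
    unfold DVal.tameUnit
    rw [h0]; simp
  rw [e]
  exact Subgroup.zpow_mem _ h _

theorem isOne_tame_right {u w : Kˣ} (h : v.IsOne w) : v.IsOne (v.tameUnit u w) := by
  have h0 := v.ord_eq_zero_of_isOne h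
  rw [← DVal.mem_U1] at h ⊢
  have e : v.tameUnit u w = w ^ (-(v.ord u)) := by
    unfold DVal.tameUnit
    rw [h0]; simp
  rw [e]
  exact Subgroup.zpow_mem _ h _

theorem isOne_tame_units {u w : Kˣ} (hu : v.ord u = 0) (hw : v.ord w = 0) :
    v.IsOne (v.tameUnit u w) := by
  left
  unfold DVal.tameUnit
  rw [hu, hw]; simp

/-- If `u (x - a') = x - a` and `x` is not integral then `u` is a one-unit. -/
theorem isOne_of_not_nn_x {x : K} (hx : ¬ NN v x) (a a' : ℤ) (u : Kˣ)
    (hu : (u : K) * (x - (a' : K)) = x - (a : K)) : v.IsOne u := by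
  have h1 : ¬ NN v (x - (a' : K)) := by
    intro h
    apply hx
    have := nn_add h (nn_int (v := v) a')
    rwa [sub_add_cancel] at this
  have h0 : x - (a' : K) ≠ 0 := fun h => h1 (Or.inl h)
  have h2 := pos_mul_nn (pos_inv_of_not_nn h1) (nn_int (v := v) (a' - a))
  apply isOne_of_pos
  have e : (u : K) - 1 = (x - (a' : K))⁻¹ * ((a' - a : ℤ) : K) := by
    push_cast
    field_simp
    linear_combination hu
  rw [e]
  exact h2

/-- The same in the other variable. -/
theorem isOne_of_not_nn_y {y b b' : K} (hb : NN v b) (hb' : NN v b') (hy : ¬ NN v y) (w : Kˣ)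
    (hw : (w : K) * (y - b') = y - b) : v.IsOne w := by
  have h1 : ¬ NN v (y - b') := by
    intro h
    apply hy
    have := nn_add h hb'
    rwa [sub_add_cancel] at this
  have h0 : y - b' ≠ 0 := fun h => h1 (Or.inl h)
  have h2 := pos_mul_nn (pos_inv_of_not_nn h1) (nn_sub hb' hb)
  apply isOne_of_pos
  have e : (w : K) - 1 = (y - b')⁻¹ * (b' - b) := by
    field_simp
    linear_combination hw
  rw [e]
  exact h2

/-- Integral factors of one are units. -/
theorem ord_zero_of_mul {f g : K} (hf : NN v f) (hg : NN v g) (h : f * g = 1) (u : Kˣ)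
    (hu : (u : K) = f) : v.ord u = 0 := by
  subst hu
  rcases hg with rfl | ⟨w, rfl, hw⟩
  · simp at h
  have e : u * w = 1 := by
    apply Units.ext
    simpa using h
  have := v.ord_mul u w
  rw [e, v.ord_one] at this
  rw [nn_unit] at hf
  omega

end Integ

open Integ

theorem specInteg : SpecInteg := by
  intro K _ _ D lam x y hC v
  have hne : (lam : K) * (∏ i, (x - (D.a i : K))) * (∏ j, (y - D.b j x)) ≠ 0 := by
    rw [hC.eqn]; exact one_ne_zero
  have hxa : ∀ i, x - (D.a i : K) ≠ 0 := by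
    intro i h
    apply hne
    rw [Finset.prod_eq_zero (Finset.mem_univ i) h]; ring
  have hyb : ∀ j, y - D.b j x ≠ 0 := by
    intro j h
    apply hne
    rw [Finset.prod_eq_zero (Finset.mem_univ j) h]; ring
  by_cases hx : NN v x
  · have hb : ∀ j, NN v (D.b j x) := fun j =>
      nn_add (nn_mul (nn_int _) hx) (nn_int _)
    by_cases hy : NN v y
    · -- all factors are units
      have ha : ∀ i, ∀ u : Kˣ, (u : K) = x - (D.a i : K) → v.ord u = 0 := by
        intro i u hu
        refine ord_zero_of_mul (f := x - (D.a i : K))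
          (g := (lam : K) * (∏ i' ∈ Finset.univ.erase i, (x - (D.a i' : K))) *
            (∏ j, (y - D.b j x))) (nn_sub hx (nn_int _)) ?_ ?_ u hu
        · refine nn_mul (nn_mul (nn_int _) ?_) ?_
          · exact nn_prod _ _ fun i' _ => nn_sub hx (nn_int _)
          · exact nn_prod _ _ fun j _ => nn_sub hy (hb j)
        · have := hC.eqn
          rw [← Finset.mul_prod_erase Finset.univ _ (Finset.mem_univ i)] at this
          linear_combination this
      have hbo : ∀ j, ∀ u : Kˣ, (u : K) = y - D.b j x → v.ord u = 0 := by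
        intro j u hu
        refine ord_zero_of_mul (f := y - D.b j x)
          (g := (lam : K) * (∏ i, (x - (D.a i : K))) *
            (∏ j' ∈ Finset.univ.erase j, (y - D.b j' x))) (nn_sub hy (hb j)) ?_ ?_ u hu
        · refine nn_mul (nn_mul (nn_int _) ?_) ?_
          · exact nn_prod _ _ fun i' _ => nn_sub hx (nn_int _)
          · exact nn_prod _ _ fun j' _ => nn_sub hy (hb j')
        · have := hC.eqn
          rw [← Finset.mul_prod_erase Finset.univ (fun j => y - D.b j x) (Finset.mem_univ j)]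
            at this
          linear_combination this
      have hw0 : ∀ (w : Kˣ) (j l : Fin D.n),
          (w : K) * (y - D.b l x) = y - D.b j x → v.ord w = 0 := by
        intro w j l hw
        have e : w * Units.mk0 _ (hyb l) = Units.mk0 _ (hyb j) := by
          apply Units.ext
          simpa using hw
        have := v.ord_mul w (Units.mk0 _ (hyb l))
        rw [e, hbo j (Units.mk0 _ (hyb j)) rfl, hbo l (Units.mk0 _ (hyb l)) rfl] at this
        omega
      have hu0 : ∀ (u t : Kˣ) (i' : Fin D.m),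
          (u : K) * (x - (D.a i' : K)) = (t : K) → v.ord u = v.ord t := by
        intro u t i' hu
        have e : u * Units.mk0 _ (hxa i') = t := by
          apply Units.ext
          simpa using hu
        have := v.ord_mul u (Units.mk0 _ (hxa i'))
        rw [e, ha i' (Units.mk0 _ (hxa i')) rfl] at this
        omega
      refine ⟨fun u w i i' j l hu hw => ?_, fun u w i' j l hp hu hw => ?_⟩
      · rw [tame_sym_eq_zero]
        apply isOne_tame_units
        · rw [hu0 u (Units.mk0 _ (hxa i)) i' (by simpa using hu)]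
          exact ha i (Units.mk0 _ (hxa i)) rfl
        · exact hw0 w j l hw
      · rw [tame_sym_eq_zero]
        have hr : x - (D.r j l : K) ≠ 0 := by
          rw [← hu]
          exact mul_ne_zero u.ne_zero (hxa i')
        have h1 := hu0 u (Units.mk0 _ hr) i' (by simpa using hu)
        have h2 : NN v (x - (D.r j l : K)) := nn_sub hx (nn_int _)
        have h3 : 0 ≤ v.ord (Units.mk0 _ hr) := by
          rw [← nn_unit]; simpa using h2
        rcases h3.eq_or_lt with h4 | h4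
        · apply isOne_tame_units
          · omega
          · exact hw0 w j l hw
        · apply isOne_tame_right
          apply isOne_of_pos
          have h5 : Pos v (x - (D.r j l : K)) := Or.inr ⟨Units.mk0 _ hr, rfl, by omega⟩
          have hc := D.cross j l hp
          have hc' : (D.p j : K) * (D.r j l : K) + (D.q j : K)
              = (D.p l : K) * (D.r j l : K) + (D.q l : K) := by
            exact_mod_cast congrArg (fun z : ℤ => (z : K)) hc
          have h6 : NN v (y - D.b l x)⁻¹ := by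
            refine Or.inr ⟨(Units.mk0 _ (hyb l))⁻¹, by simp, ?_⟩
            rw [v.ord_inv, hbo l (Units.mk0 _ (hyb l)) rfl]; simp
          have e : (w : K) - 1 = (x - (D.r j l : K)) *
              (((D.p l - D.p j : ℤ) : K) * (y - D.b l x)⁻¹) := by
            have h0 := hyb l
            field_simp
            push_cast
            unfold Arr.b at hw ⊢
            linear_combination hw - hc'
          rw [e]
          exact pos_mul_nn h5 (nn_mul (nn_int _) h6)
    · refine ⟨fun u w i i' j l hu hw => ?_, fun u w i' j l hp hu hw => ?_⟩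
      · rw [tame_sym_eq_zero]
        exact isOne_tame_right (isOne_of_not_nn_y (hb j) (hb l) hy w hw)
      · rw [tame_sym_eq_zero]
        exact isOne_tame_right (isOne_of_not_nn_y (hb j) (hb l) hy w hw)
  · refine ⟨fun u w i i' j l hu hw => ?_, fun u w i' j l hp hu hw => ?_⟩
    · rw [tame_sym_eq_zero]
      exact isOne_tame_left (isOne_of_not_nn_x hx _ _ u hu)
    · rw [tame_sym_eq_zero]
      exact isOne_tame_left (isOne_of_not_nn_x hx _ _ u hu)

end MP743d1e
end

section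
/-!
# DER: derivations of algebraic extensions of `ℂ(t)`
-/
namespace MP743d1e

open Polynomial TensorProduct

namespace Der

/-- the Kähler differentials of an algebraic extension of `ℂ(t)` are free on `dt` -/
theorem exists_equiv (K : Type) [Field K] [Algebra ℂ K] (t : K) (ht : Transcendental ℂ t)
    (halg : Algebra.IsAlgebraic (Ct t) K) :
    ∃ e : Ω[K⁄ℂ] ≃ₗ[K] K, e (KaehlerDifferential.D ℂ K t) = 1 := by
  let _ : Algebra ℂ[X] K := (aeval t : ℂ[X] →ₐ[ℂ] K).toRingHom.toAlgebra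
  have hmap : ∀ p : ℂ[X], algebraMap ℂ[X] K p = aeval t p := fun _ => rfl
  have : IsScalarTower ℂ ℂ[X] K := IsScalarTower.of_algebraMap_eq fun c => by
    rw [hmap, Polynomial.algebraMap_eq, aeval_C]
  let φ : RatFunc ℂ ≃ₐ[ℂ] Ct t := RatFunc.algEquivOfTranscendental t ht
  let _ : Algebra (RatFunc ℂ) K := ((algebraMap (Ct t) K).comp (φ : RatFunc ℂ →+* Ct t)).toAlgebra
  have hmap2 : ∀ u : RatFunc ℂ, algebraMap (RatFunc ℂ) K u = (φ u : K) := fun _ => rfl
  have : IsScalarTower ℂ[X] (RatFunc ℂ) K := IsScalarTower.of_algebraMap_eq fun p => by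
    rw [hmap, hmap2]
    simp only [φ, RatFunc.algEquivOfTranscendental_algebraMap]
    exact aeval_algHom_apply (Ct t).val (IntermediateField.AdjoinSimple.gen ℂ t) p
  have : Algebra.IsAlgebraic (RatFunc ℂ) K := ⟨fun a =>
    (halg.isAlgebraic a).of_ringHom_of_comp_eq (φ : RatFunc ℂ →+* Ct t) (RingHom.id K)
      φ.surjective Function.injective_id rfl⟩
  have : Algebra.FormallyEtale (RatFunc ℂ) K := Algebra.FormallyEtale.of_isSeparable _ _
  have : Algebra.FormallyEtale ℂ[X] (RatFunc ℂ) :=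
    Algebra.FormallyEtale.of_isLocalization (nonZeroDivisors ℂ[X])
  have : Algebra.FormallyEtale ℂ[X] K := Algebra.FormallyEtale.comp _ (RatFunc ℂ) _
  let e1 : K ⊗[ℂ[X]] Ω[ℂ[X]⁄ℂ] ≃ₗ[K] Ω[K⁄ℂ] :=
    KaehlerDifferential.tensorKaehlerEquivOfFormallyEtale ℂ ℂ[X] K
  let e2 : K ⊗[ℂ[X]] Ω[ℂ[X]⁄ℂ] ≃ₗ[K] K ⊗[ℂ[X]] ℂ[X] :=
    AlgebraTensorModule.congr (LinearEquiv.refl K K) (KaehlerDifferential.polynomialEquiv ℂ)
  let e3 : K ⊗[ℂ[X]] ℂ[X] ≃ₗ[K] K := AlgebraTensorModule.rid ℂ[X] K K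
  refine ⟨e1.symm.trans (e2.trans e3), ?_⟩
  have h1 : e1.symm (KaehlerDifferential.D ℂ K t) =
      1 ⊗ₜ[ℂ[X]] KaehlerDifferential.D ℂ ℂ[X] X := by
    have := KaehlerDifferential.tensorKaehlerEquivOfFormallyEtale_symm_D_algebraMap ℂ ℂ[X] K X
    rw [hmap, aeval_X] at this
    exact this
  rw [LinearEquiv.trans_apply, LinearEquiv.trans_apply, h1]
  simp [e2, e3]

/-- `dt` generates the Kähler differentials -/
theorem eq_smul {K : Type} [Field K] [Algebra ℂ K] {t : K} (e : Ω[K⁄ℂ] ≃ₗ[K] K)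
    (he : e (KaehlerDifferential.D ℂ K t) = 1) (ω : Ω[K⁄ℂ]) :
    ω = e ω • KaehlerDifferential.D ℂ K t := by
  apply e.injective
  rw [map_smul, he, smul_eq_mul, mul_one]

/-- derivations are determined by their value at `t` -/
theorem apply_eq {K : Type} [Field K] [Algebra ℂ K] {t : K} (e : Ω[K⁄ℂ] ≃ₗ[K] K)
    (he : e (KaehlerDifferential.D ℂ K t) = 1) {N : Type} [AddCommGroup N] [Module ℂ N]
    [Module K N] [IsScalarTower ℂ K N] (D : Derivation ℂ K N) (f : K) :
    D f = e (KaehlerDifferential.D ℂ K f) • D t := by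
  have h := eq_smul e he (KaehlerDifferential.D ℂ K f)
  have h2 := congrArg D.liftKaehlerDifferential h
  rw [map_smul, Derivation.liftKaehlerDifferential_comp_D,
    Derivation.liftKaehlerDifferential_comp_D] at h2
  exact h2

end Der

/-- DER -/
theorem specDer : SpecDer := by
  intro K _ _ t ht halg
  obtain ⟨e, he⟩ := Der.exists_equiv K t ht halg
  refine ⟨⟨(e : Ω[K⁄ℂ] →ₗ[K] K).compDer (KaehlerDifferential.D ℂ K), he⟩, ?_⟩
  intro M _ _ σ δ δ' hδ f
  let _ : Algebra K M := (σ : K →+* M).toAlgebra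
  have : IsScalarTower ℂ K M := IsScalarTower.of_algebraMap_eq fun c => (σ.commutes c).symm
  have h1 := Der.apply_eq e he (δ'.compAlgebraMap K) f
  have h2 := Der.apply_eq e he δ f
  rw [hδ, smul_eq_mul, mul_one] at h2
  rw [h2, mul_comm]
  exact h1

end MP743d1e
end

section
/-!
# EMB: a closed path on the affine curve with transcendental abscissas is a `Loop`
-/
namespace MP743d1e

open Polynomial

namespace Emb

/-- evaluation as a ring homomorphism -/
noncomputable def evh (k : Type) {K : Type} [Field k] [Field K] [Algebra k K] (x y : K) :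
    k[X][X] →+* K :=
  eval₂RingHom ((Polynomial.aeval x : k[X] →ₐ[k] K) : k[X] →+* K) y

theorem evh_apply {k K : Type} [Field k] [Field K] [Algebra k K] (x y : K) (S : k[X][X]) :
    evh k x y S = ev2 x y S := rfl

theorem evh_C {k K : Type} [Field k] [Field K] [Algebra k K] (x y : K) (p : k[X]) :
    evh k x y (C p) = aeval x p := by
  simp [evh]

theorem evh_X {k K : Type} [Field k] [Field K] [Algebra k K] (x y : K) :
    evh k x y X = y := by
  simp [evh]

theorem ev2_C {k K : Type} [Field k] [Field K] [Algebra k K] (x y : K) (p : k[X]) :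
    ev2 x y (C p) = aeval x p := evh_C x y p

theorem ev2_poly {k K : Type} [Field k] [Field K] [Algebra k K] (D : Arr) (lam : ℤ) (x y : K) :
    ev2 x y (D.poly k lam) =
      (lam : K) * (∏ i, (x - (D.a i : K))) * (∏ j, (y - D.b j x)) - 1 := by
  rw [← evh_apply]
  simp only [Arr.poly, Arr.b, map_sub, map_mul, map_prod, map_one, evh_C, evh_X, map_add,
    aeval_X, map_intCast]

theorem adjoin_le_range {k K : Type} [Field k] [Field K] [Algebra k K] (x y : K) {z : K}
    (hz : z ∈ Algebra.adjoin k {x, y}) : ∃ S : k[X][X], evh k x y S = z := by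
  induction hz using Algebra.adjoin_induction with
  | mem w hw =>
    rcases hw with rfl | hw
    · exact ⟨C X, by rw [evh_apply, ev2_C, aeval_X]⟩
    · rw [Set.mem_singleton_iff] at hw
      subst hw
      exact ⟨X, by simp [evh]⟩
  | algebraMap c => exact ⟨C (C c), by rw [evh_apply, ev2_C, aeval_C]⟩
  | add a b _ _ ha hb =>
    obtain ⟨S, rfl⟩ := ha
    obtain ⟨T, rfl⟩ := hb
    exact ⟨S + T, map_add _ _ _⟩
  | mul a b _ _ ha hb =>
    obtain ⟨S, rfl⟩ := ha
    obtain ⟨T, rfl⟩ := hb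
    exact ⟨S * T, map_mul _ _ _⟩

theorem dvd_iff (hIrr : SpecIrr) {k L : Type} [Field k] [CharZero k] [Field L] [Algebra k L]
    (D : Arr) (lam : ℤ) (A B : L) (hA : Transcendental k A)
    (heqn : (lam : L) * (∏ i, (A - (D.a i : L))) * (∏ j, (B - D.b j A)) = 1) (S : k[X][X]) :
    evh k A B S = 0 ↔ D.poly k lam ∣ S := by
  have hlam : lam ≠ 0 := by
    rintro rfl
    simp at heqn
  constructor
  · intro h
    set A' : IntermediateField.adjoin k {A, B} :=
      ⟨A, IntermediateField.subset_adjoin k {A, B} (Set.mem_insert _ _)⟩ with hA'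
    set B' : IntermediateField.adjoin k {A, B} :=
      ⟨B, IntermediateField.subset_adjoin k {A, B} (Set.mem_insert_of_mem _ rfl)⟩ with hB'
    have hinj := FaithfulSMul.algebraMap_injective (IntermediateField.adjoin k {A, B}) L
    have hcomp : ∀ T : k[X][X], algebraMap (IntermediateField.adjoin k {A, B}) L (ev2 A' B' T) =
        ev2 A B T := by
      intro T
      unfold ev2
      rw [Polynomial.hom_eval₂]
      have e1 : (algebraMap (IntermediateField.adjoin k {A, B}) L).comp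
          ((Polynomial.aeval A' : k[X] →ₐ[k] _) : k[X] →+* _) =
          ((Polynomial.aeval A : k[X] →ₐ[k] L) : k[X] →+* L) := by
        apply Polynomial.ringHom_ext
        · intro a
          simp
        · simp [hA']
      rw [e1]
      rfl
    have hC : IsCurve k (IntermediateField.adjoin k {A, B}) D lam A' B' := by
      refine ⟨?_, ?_, ?_⟩
      · intro h1
        refine hA ?_
        have : A = algebraMap (IntermediateField.adjoin k {A, B}) L A' := rfl
        rw [this]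
        exact h1.algebraMap
      · have h1 := IntermediateField.lift_injective (IntermediateField.adjoin k {A, B})
        refine h1 ?_
        rw [IntermediateField.lift_adjoin, IntermediateField.lift_top]
        congr 1
        simp [Set.image_insert_eq, hA', hB']
      · have h1 := hcomp (D.poly k lam)
        rw [ev2_poly, ev2_poly, heqn, sub_self] at h1
        have h2 := hinj (h1.trans (map_zero _).symm)
        exact sub_eq_zero.1 h2
    refine ((hIrr k D lam hlam).2 _ A' B' hC).1 S (hinj ?_)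
    rw [hcomp, map_zero]
    exact h
  · rintro ⟨T, rfl⟩
    rw [map_mul, evh_apply, ev2_poly, heqn, sub_self, zero_mul]

theorem lift_aux {R K L : Type} [CommRing R] [Field K] [Field L] (f : R →+* K) (g : R →+* L)
    (hker : ∀ r, f r = 0 ↔ g r = 0) (hsurj : ∀ z : K, ∃ r s, z = f r / f s) :
    ∃ φ : K →+* L, ∀ r, φ (f r) = g r := by
  have hfs : FaithfulSMul f.range K :=
    (faithfulSMul_iff_algebraMap_injective _ _).2 Subtype.val_injective
  have hfr : IsFractionRing f.range K := by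
    refine IsFractionRing.of_field _ _ fun z => ?_
    obtain ⟨r, s, h⟩ := hsurj z
    exact ⟨⟨f r, r, rfl⟩, ⟨f s, s, rfl⟩, h⟩
  set g' : f.range →+* L := (Ideal.Quotient.lift (RingHom.ker f) g
    (fun S hS => (hker S).1 hS)).comp
      (RingHom.quotientKerEquivRange f).symm.toRingHom with hg'
  have hgr : ∀ r : R, g' ⟨f r, r, rfl⟩ = g r := by
    intro r
    have h1 : (RingHom.quotientKerEquivRange f).symm ⟨f r, r, rfl⟩ =
        Ideal.Quotient.mk (RingHom.ker f) r := by
      rw [RingEquiv.symm_apply_eq]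
      rfl
    rw [hg']
    simp only [RingEquiv.toRingHom_eq_coe, RingHom.coe_comp, RingHom.coe_coe,
      Function.comp_apply, h1, Ideal.Quotient.lift_mk]
  have hginj : Function.Injective g' := by
    rw [injective_iff_map_eq_zero]
    rintro ⟨_, r, rfl⟩ h
    have h1 : g r = 0 := (hgr r).symm.trans h
    exact Subtype.ext ((hker r).2 h1)
  refine ⟨IsFractionRing.lift hginj, fun r => ?_⟩
  exact (IsFractionRing.lift_algebraMap (K := K) hginj ⟨f r, r, rfl⟩).trans (hgr r)

theorem emb_one (hIrr : SpecIrr) {k K L : Type} [Field k] [CharZero k] [Field K] [Algebra k K]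
    [Field L] [Algebra k L] (D : Arr) (lam : ℤ) (x y : K) (hC : IsCurve k K D lam x y) (A B : L)
    (hA : Transcendental k A)
    (heqn : (lam : L) * (∏ i, (A - (D.a i : L))) * (∏ j, (B - D.b j A)) = 1) :
    ∃ φ : K →+* L, φ x = A ∧ φ y = B := by
  obtain ⟨φ, hφ⟩ := lift_aux (evh k x y) (evh k A B)
    (fun S => (dvd_iff hIrr D lam x y hC.transc hC.eqn S).trans
      (dvd_iff hIrr D lam A B hA heqn S).symm) (fun z => by
      have hz : z ∈ IntermediateField.adjoin k {x, y} := by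
        rw [hC.gen]
        trivial
      obtain ⟨u, hu, v, hv, rfl⟩ := IntermediateField.mem_adjoin_iff_div.1 hz
      obtain ⟨S, rfl⟩ := adjoin_le_range x y hu
      obtain ⟨T, rfl⟩ := adjoin_le_range x y hv
      exact ⟨S, T, rfl⟩)
  refine ⟨φ, ?_, ?_⟩
  · have := hφ (C X)
    rwa [evh_C, evh_C, aeval_X, aeval_X] at this
  · have := hφ X
    rwa [evh_X, evh_X] at this

end Emb

open Emb in
/-- EMB -/
theorem specEmb (hIrr : SpecIrr) : SpecEmb := by
  intro K _ _ D lam x y hC A B hA hB hA2 hB2 htr heqn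
  choose φ hφx hφy using fun θ => emb_one hIrr D lam x y hC (A θ) (B θ) (htr θ) (heqn θ)
  have hmem : ∀ z : K, z ∈ IntermediateField.adjoin ℚ {x, y} := by
    intro z
    rw [hC.gen]
    trivial
  have hsm : ∀ z : K, ContDiff ℝ 1 (fun θ => φ θ z) := by
    intro z
    induction hmem z using IntermediateField.adjoin_induction with
    | mem w hw =>
      rcases hw with rfl | hw
      · simp only [hφx]
        exact hA
      · rw [Set.mem_singleton_iff] at hw
        subst hw
        simp only [hφy]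
        exact hB
    | algebraMap c =>
      simp only [eq_ratCast, map_ratCast]
      exact contDiff_const
    | add a b _ _ ha hb =>
      simp only [map_add]
      exact ha.add hb
    | inv a _ ha =>
      simp only [map_inv₀]
      by_cases h : a = 0
      · subst h
        simp only [map_zero, inv_zero]
        exact contDiff_const
      · exact ha.inv fun θ => (map_ne_zero (φ θ)).2 h
    | mul a b _ _ ha hb =>
      simp only [map_mul]
      exact ha.mul hb
  have hper : ∀ (θ : ℝ) (z : K), φ (θ + 2 * Real.pi) z = φ θ z := by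
    intro θ z
    induction hmem z using IntermediateField.adjoin_induction with
    | mem w hw =>
      rcases hw with rfl | hw
      · rw [hφx, hφx, hA2]
      · rw [Set.mem_singleton_iff] at hw
        subst hw
        rw [hφy, hφy, hB2]
    | algebraMap c => simp only [eq_ratCast, map_ratCast]
    | add a b _ _ ha hb => rw [map_add, map_add, ha, hb]
    | inv a _ ha => rw [map_inv₀, map_inv₀, ha]
    | mul a b _ _ ha hb => rw [map_mul, map_mul, ha, hb]
  exact ⟨⟨φ, hsm, hper⟩, fun θ => ⟨hφx θ, hφy θ⟩⟩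

end MP743d1e
end

section
/-!
# FINT: a function field of one variable is finite over every `ℂ(t)`
-/
namespace MP743d1e

open IntermediateField in
open scoped IntermediateField.algebraAdjoinAdjoin in
/-- FINT -/
theorem specFinT : SpecFinT := by
  intro K _ _ x y t hx ht hgen hfin
  have halg : Algebra.IsAlgebraic (Ct x) K := Algebra.IsAlgebraic.of_finite _ _
  have h1 : Algebra.IsAlgebraic (Algebra.adjoin ℂ {x}) K :=
    Algebra.IsAlgebraic.trans (Algebra.adjoin ℂ {x}) (Ct x) K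
  have h2 : Algebra.trdeg ℂ K ≤ 1 := by
    have := Algebra.IsAlgebraic.trdeg_le_cardinalMk ℂ ({x} : Set K)
    simpa using this
  have h3 : AlgebraicIndependent ℂ (fun _ : Unit => t) :=
    (algebraicIndependent_unique_type_iff (x := fun _ : Unit => t)).2 ht
  have h4 : IsTranscendenceBasis ℂ (fun _ : Unit => t) :=
    h3.isTranscendenceBasis_of_trdeg_le_of_finite (by simpa using h2)
  have h5 := h4.isAlgebraic_field
  have h6 : Algebra.IsAlgebraic (Ct t) K := by
    have e : Set.range (fun _ : Unit => t) = {t} := by simp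
    rw [e] at h5
    exact h5
  have h7 : IntermediateField.adjoin (Ct t) {x, y} = ⊤ := by
    rw [eq_top_iff]
    intro z _
    have h8 : IntermediateField.adjoin ℂ {x, y} ≤
        (IntermediateField.adjoin (Ct t) {x, y}).restrictScalars ℂ :=
      IntermediateField.adjoin_le_iff.2 (IntermediateField.subset_adjoin (Ct t) {x, y})
    have hz : z ∈ IntermediateField.adjoin ℂ {x, y} := by
      rw [hgen]
      trivial
    exact h8 hz
  have h9 : FiniteDimensional (Ct t) (IntermediateField.adjoin (Ct t) ({x, y} : Set K)) :=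
    IntermediateField.finiteDimensional_adjoin (fun z _ => (h6.isAlgebraic z).isIntegral)
  rw [h7] at h9
  exact Module.Finite.equiv (IntermediateField.topEquiv (F := Ct t) (E := K)).toLinearEquiv

end MP743d1e
end

section
/-!
# FORMS: monomials of small degree are adjoint
-/
set_option autoImplicit false
set_option linter.unusedSectionVars false

namespace MP743d1e

open scoped BigOperators
open Polynomial

namespace Forms

variable {K : Type} [Field K] [Algebra ℂ K]

/-- representation with coefficients only at indices `≤ d` -/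
def LatD (D : Arr) (x y : K) (d : ℕ) (q : K) : Prop :=
  ∃ c : Fin D.n → ℂ[X], (∀ k : Fin D.n, d < k.val → c k = 0) ∧
    q = ∑ k, aeval x (c k) * nb D x y k

theorem latD_zero (D : Arr) (x y : K) (q : ℂ[X]) : LatD D x y 0 (aeval x q) := by
  classical
  have hn : 0 < D.n := by have := D.hn; omega
  refine ⟨fun k => if k.val = 0 then q else 0, ?_, ?_⟩
  · intro k hk
    simp [show k.val ≠ 0 by omega]
  · rw [Finset.sum_eq_single (⟨0, hn⟩ : Fin D.n)]
    · have : (Finset.univ.filter (fun i : Fin D.n => i < ⟨0, hn⟩)) = ∅ := by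
        ext i
        simp [Fin.lt_def]
      simp [nb, this]
    · intro k _ hk
      have : k.val ≠ 0 := fun h => hk (Fin.ext h)
      simp [this]
    · simp

theorem LatD.add {D : Arr} {x y : K} {d : ℕ} {q q' : K} (h : LatD D x y d q)
    (h' : LatD D x y d q') : LatD D x y d (q + q') := by
  obtain ⟨c, hc, rfl⟩ := h
  obtain ⟨c', hc', rfl⟩ := h'
  refine ⟨fun k => c k + c' k, fun k hk => by simp [hc k hk, hc' k hk], ?_⟩
  rw [← Finset.sum_add_distrib]
  refine Finset.sum_congr rfl fun k _ => ?_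
  rw [map_add, add_mul]

theorem LatD.mul {D : Arr} {x y : K} {d : ℕ} {q : K} (h : LatD D x y d q) (p : ℂ[X]) :
    LatD D x y d (aeval x p * q) := by
  obtain ⟨c, hc, rfl⟩ := h
  refine ⟨fun k => p * c k, fun k hk => by simp [hc k hk], ?_⟩
  rw [Finset.mul_sum]
  refine Finset.sum_congr rfl fun k _ => ?_
  rw [map_mul, mul_assoc]

theorem LatD.mono {D : Arr} {x y : K} {d d' : ℕ} (hd : d ≤ d') {q : K} (h : LatD D x y d q) :
    LatD D x y d' q := by
  obtain ⟨c, hc, rfl⟩ := h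
  exact ⟨c, fun k hk => hc k (by omega), rfl⟩

theorem LatD.sum {D : Arr} {x y : K} {d : ℕ} {ι : Type} (s : Finset ι) (f : ι → K)
    (h : ∀ i ∈ s, LatD D x y d (f i)) : LatD D x y d (∑ i ∈ s, f i) := by
  classical
  induction s using Finset.induction_on with
  | empty =>
    refine ⟨fun _ => 0, fun _ _ => rfl, by simp⟩
  | insert a s ha ih =>
    rw [Finset.sum_insert ha]
    exact (h a (Finset.mem_insert_self a s)).add (ih fun i hi => h i (Finset.mem_insert_of_mem hi))

theorem latD_nb (D : Arr) (x y : K) (k : Fin D.n) : LatD D x y k.val (nb D x y k) := by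
  classical
  refine ⟨fun l => if l = k then 1 else 0, ?_, ?_⟩
  · intro l hl
    have : l ≠ k := fun h => by rw [h] at hl; omega
    simp [this]
  · rw [Finset.sum_eq_single k]
    · simp
    · intro l _ hl
      simp [hl]
    · simp

/-- the line as a polynomial -/
noncomputable def bp (D : Arr) (j : Fin D.n) : ℂ[X] := C (D.p j : ℂ) * X + C (D.q j : ℂ)

theorem aeval_bp (D : Arr) (j : Fin D.n) (x : K) : aeval x (bp D j) = D.b j x := by
  simp [bp, Arr.b]

theorem nb_succ (D : Arr) (x y : K) (k k' : Fin D.n) (h : k'.val = k.val + 1) :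
    nb D x y k' = nb D x y k * (y - D.b k x) := by
  classical
  unfold nb
  have : (Finset.univ.filter (fun i : Fin D.n => i < k')) =
      insert k (Finset.univ.filter (fun i : Fin D.n => i < k)) := by
    ext i
    simp only [Finset.mem_filter, Finset.mem_univ, true_and, Finset.mem_insert, Fin.lt_def,
      Fin.ext_iff]
    omega
  rw [this, Finset.prod_insert (by simp), mul_comm]

theorem LatD.mul_y {D : Arr} {x y : K} {d : ℕ} (hd : d + 1 < D.n) {q : K} (h : LatD D x y d q) :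
    LatD D x y (d + 1) (y * q) := by
  obtain ⟨c, hc, rfl⟩ := h
  rw [Finset.mul_sum]
  refine LatD.sum _ _ fun k _ => ?_
  by_cases hk : d < k.val
  · rw [hc k hk]
    simp only [map_zero, zero_mul, mul_zero]
    exact ⟨fun _ => 0, fun _ _ => rfl, by simp⟩
  · have hk' : k.val + 1 < D.n := by omega
    have e : y * (aeval x (c k) * nb D x y k) =
        aeval x (c k) * (nb D x y ⟨k.val + 1, hk'⟩ + aeval x (bp D k) * nb D x y k) := by
      rw [nb_succ D x y k ⟨k.val + 1, hk'⟩ rfl, aeval_bp]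
      ring
    rw [e]
    refine LatD.mul (LatD.add ?_ ?_) _
    · exact (latD_nb D x y ⟨k.val + 1, hk'⟩).mono (by simp only []; omega)
    · exact ((latD_nb D x y k).mono (by omega)).mul _

theorem latD_pow (D : Arr) (x y : K) (k : ℕ) (hk : k < D.n) : LatD D x y k (y ^ k) := by
  induction k with
  | zero =>
    have := latD_zero D x y 1
    simpa using this
  | succ k ih =>
    rw [pow_succ']
    exact (ih (by omega)).mul_y hk

theorem LatD.inLat {D : Arr} {x y : K} {d : ℕ} (hd : d + 1 < D.n) {q : K} (h : LatD D x y d q) :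
    InLat D x y q := by
  obtain ⟨c, hc, rfl⟩ := h
  refine ⟨c, fun k hk => ?_, rfl⟩
  rw [hc k (by omega)]
  exact dvd_zero _

/-! ### at infinity -/

theorem ne_zero_of_atInf {D : Arr} {x y : K} {V : ValuationSubring K} {j : Fin D.n}
    (h : AtInf D x y V j) : x ≠ 0 := by
  rintro rfl
  exact h.1 V.zero_mem

theorem inv_mem_of_atInf {D : Arr} {x y : K} {V : ValuationSubring K} {j : Fin D.n}
    (h : AtInf D x y V j) : x⁻¹ ∈ V := by
  rcases V.mem_or_inv_mem x with h1 | h1
  · exact absurd h1 h.1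
  · exact h1

theorem zpow_mem {D : Arr} {x y : K} {V : ValuationSubring K} {j : Fin D.n}
    (h : AtInf D x y V j) {e : ℤ} (he : e ≤ 0) : x ^ e ∈ V := by
  obtain ⟨n, rfl⟩ := Int.exists_eq_neg_ofNat he
  rw [zpow_neg, zpow_natCast, ← inv_pow]
  exact pow_mem (inv_mem_of_atInf h) n

theorem y_div_mem {D : Arr} {x y : K} {V : ValuationSubring K} {j : Fin D.n} (hV : OverC V)
    (h : AtInf D x y V j) : y * x⁻¹ ∈ V := by
  have hx := ne_zero_of_atInf h
  have hinv := inv_mem_of_atInf h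
  have e : y * x⁻¹ = ((y - D.b j x) * x ^ (D.m + D.dd j)) * (x⁻¹) ^ (D.m + D.dd j + 1) +
      (algebraMap ℂ K (D.p j) + algebraMap ℂ K (D.q j) * x⁻¹) := by
    rw [pow_succ, inv_pow]
    have hxp : x ^ (D.m + D.dd j) ≠ 0 := pow_ne_zero _ hx
    simp only [Arr.b, map_intCast]
    field_simp
    ring
  rw [e]
  exact V.add_mem _ _ (V.mul_mem _ _ h.2 (pow_mem hinv _))
    (V.add_mem _ _ (hV _) (V.mul_mem _ _ (hV _) hinv))

end Forms

/-- FORMS -/
theorem specForms : SpecForms := by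
  intro K _ _ D lam x y hpar _ i k hik
  refine ⟨?_, ?_⟩
  · have h1 := (Forms.latD_pow D x y k (by omega)).mul (X ^ i)
    have h2 := h1.inLat (by omega)
    simpa using h2
  · intro V j hV hj
    have hx := Forms.ne_zero_of_atInf hj
    have hparj : D.par j ≤ D.n := by
      unfold Arr.par
      exact (Finset.card_filter_le _ _).trans (by simp)
    have hdd : D.dd j = D.n - D.par j := rfl
    have hm := hpar j
    have e : x ^ i * y ^ k * x ^ ((2 : ℤ) - ((D.m + D.dd j : ℕ) : ℤ)) =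
        (y * x⁻¹) ^ k * x ^ ((i + k + 2 : ℤ) - ((D.m + D.dd j : ℕ) : ℤ)) := by
      have e1 : ((i + k + 2 : ℤ) - ((D.m + D.dd j : ℕ) : ℤ)) =
          (i : ℤ) + (k : ℤ) + ((2 : ℤ) - ((D.m + D.dd j : ℕ) : ℤ)) := by ring
      rw [e1, zpow_add₀ hx, zpow_add₀ hx, zpow_natCast, zpow_natCast, mul_pow, inv_pow]
      have hxk : x ^ k ≠ 0 := pow_ne_zero _ hx
      field_simp
    rw [e]
    refine V.mul_mem _ _ (pow_mem (Forms.y_div_mem hV hj) k) (Forms.zpow_mem hj ?_)
    push_cast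
    omega

end MP743d1e
end

section
/-!
# SHEET: the branches of the curve over the circles
-/
namespace MP743d1e.Sheet

open scoped BigOperators Topology
open MP743d1e.Circ

section Root

variable {ι : Type*} (s : Finset ι) (β : ι → ℂ) (A ε : ℂ) {ρ r K : ℝ} (N : ℕ)

theorem norm_add_ge {x b : ℂ} {ρ r : ℝ} (hb : ρ ≤ ‖b‖) (hx : ‖x‖ ≤ r) : ρ - r ≤ ‖x + b‖ := by
  have := norm_sub_le_norm_add b x
  rw [add_comm]
  linarith

/-- comparison of two products -/
theorem prod_ratio (h0 : 0 < ρ) (hN : 1 ≤ N) (hcard : s.card ≤ N) (hr : r = ρ / (4 * N))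
    (hβ : ∀ i ∈ s, ρ ≤ ‖β i‖) {u v : ℂ} (hu : ‖u‖ ≤ r) (hv : ‖v‖ ≤ r) :
    ‖(∏ i ∈ s, (v + β i)) / (∏ i ∈ s, (u + β i)) - 1‖ ≤ ‖v - u‖ / r := by
  have hNpos : (0 : ℝ) < N := by exact_mod_cast hN
  have hr0 : 0 < r := by rw [hr]; positivity
  have hrρ : r ≤ ρ / 4 := by
    rw [hr]
    apply div_le_div_of_nonneg_left h0.le (by norm_num)
    have : (1 : ℝ) ≤ N := by exact_mod_cast hN
    linarith
  have hlow : ∀ i ∈ s, ρ / 2 ≤ ‖u + β i‖ := by
    intro i hi
    have := norm_add_ge (hβ i hi) hu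
    linarith
  have hne : ∀ i ∈ s, u + β i ≠ 0 := by
    intro i hi
    rw [← norm_pos_iff]
    have := hlow i hi
    linarith
  have e1 : (∏ i ∈ s, (v + β i)) / (∏ i ∈ s, (u + β i)) =
      ∏ i ∈ s, (1 + (v - u) / (u + β i)) := by
    rw [← Finset.prod_div_distrib]
    apply Finset.prod_congr rfl
    intro i hi
    rw [eq_comm, ← sub_eq_zero]
    field_simp [hne i hi]
    ring
  rw [e1]
  refine (Finset.norm_prod_one_add_sub_one_le s _).trans ?_
  set t : ℝ := ∑ i ∈ s, ‖(v - u) / (u + β i)‖ with ht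
  have ht0 : 0 ≤ t := Finset.sum_nonneg fun i _ => norm_nonneg _
  have ht1 : t ≤ N * (‖v - u‖ / (ρ / 2)) := by
    calc t ≤ ∑ i ∈ s, ‖v - u‖ / (ρ / 2) := by
            apply Finset.sum_le_sum
            intro i hi
            rw [norm_div]
            have := hlow i hi
            gcongr
      _ = s.card * (‖v - u‖ / (ρ / 2)) := by rw [Finset.sum_const, nsmul_eq_mul]
      _ ≤ N * (‖v - u‖ / (ρ / 2)) := by
            have : (s.card : ℝ) ≤ N := by exact_mod_cast hcard
            gcongr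
  have hvu : ‖v - u‖ ≤ 2 * r := (norm_sub_le _ _).trans (by linarith)
  have e2 : (N : ℝ) * (‖v - u‖ / (ρ / 2)) = ‖v - u‖ / r / 2 := by
    rw [hr]; field_simp; ring
  rw [e2] at ht1
  have ht2 : t ≤ 1 := by
    refine ht1.trans ?_
    rw [div_div, div_le_one (by positivity)]
    linarith
  have h3 := Real.abs_exp_sub_one_le (x := t) (by rw [abs_of_nonneg ht0]; exact ht2)
  rw [abs_of_nonneg ht0] at h3
  have h4 := le_abs_self (Real.exp t - 1)
  linarith

/-- existence of a small root -/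
theorem exists_root (h0 : 0 < ρ) (hN : 1 ≤ N) (hcard : s.card ≤ N) (hr : r = ρ / (4 * N))
    (hβ : ∀ i ∈ s, ρ ≤ ‖β i‖) (hK : ∀ u : ℂ, ‖u‖ ≤ r → 1 ≤ K * ‖A * ∏ i ∈ s, (u + β i)‖)
    (hε : ‖ε‖ * K ≤ r / 2) :
    ∃ u : ℂ, ‖u‖ ≤ ‖ε‖ * K ∧ A * u * (∏ i ∈ s, (u + β i)) = ε := by
  have hNpos : (0 : ℝ) < N := by exact_mod_cast hN
  have hr0 : 0 < r := by rw [hr]; positivity
  have hne : ∀ u : ℂ, ‖u‖ ≤ r → A * ∏ i ∈ s, (u + β i) ≠ 0 := by
    intro u hu h
    have := hK u hu
    rw [h, norm_zero, mul_zero] at this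
    linarith
  have hK0 : 0 ≤ K := by
    by_contra hneg
    push Not at hneg
    have := hK 0 (by rw [norm_zero]; exact hr0.le)
    nlinarith [norm_nonneg (A * ∏ i ∈ s, ((0 : ℂ) + β i))]
  set T : ℂ → ℂ := fun u => ε / (A * ∏ i ∈ s, (u + β i)) with hT
  have hTn : ∀ u, ‖u‖ ≤ r → ‖T u‖ ≤ ‖ε‖ * K := by
    intro u hu
    rw [hT]
    simp only [norm_div]
    rw [div_le_iff₀ (norm_pos_iff.2 (hne u hu))]
    have := hK u hu
    nlinarith [norm_nonneg ε]
  have hmaps : Set.MapsTo T (Metric.closedBall 0 r) (Metric.closedBall 0 r) := by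
    intro u hu
    rw [mem_closedBall_zero_iff] at hu ⊢
    have := hTn u hu
    linarith
  have hcontr : ContractingWith (1 / 2) (hmaps.restrict T _ _) := by
    refine ⟨by rw [← NNReal.coe_lt_coe]; norm_num, LipschitzWith.of_dist_le_mul ?_⟩
    rintro ⟨u, hu⟩ ⟨v, hv⟩
    rw [mem_closedBall_zero_iff] at hu hv
    rw [Subtype.dist_eq, Subtype.dist_eq]
    simp only [Set.MapsTo.val_restrict_apply]
    rw [dist_eq_norm, dist_eq_norm]
    have e1 : T u - T v = T v * ((∏ i ∈ s, (v + β i)) / (∏ i ∈ s, (u + β i)) - 1) := by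
      have h1 := hne u hu
      have h2 := hne v hv
      have hA : A ≠ 0 := left_ne_zero_of_mul h1
      have h3 := right_ne_zero_of_mul h1
      have h4 := right_ne_zero_of_mul h2
      simp only [hT]
      field_simp
    rw [e1, norm_mul]
    have h5 := prod_ratio s β N h0 hN hcard hr hβ hu hv
    have h6 := hTn v hv
    have h7 : ‖v - u‖ = ‖u - v‖ := norm_sub_rev _ _
    rw [h7] at h5
    calc ‖T v‖ * ‖(∏ i ∈ s, (v + β i)) / (∏ i ∈ s, (u + β i)) - 1‖
        ≤ (r / 2) * (‖u - v‖ / r) := by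
          apply mul_le_mul (h6.trans hε) h5 (norm_nonneg _) (by positivity)
      _ = ((1 / 2 : NNReal) : ℝ) * ‖u - v‖ := by
          push_cast; field_simp
  obtain ⟨u, hu, hfix, -⟩ := hcontr.exists_fixedPoint' (Metric.isClosed_closedBall.isComplete)
    hmaps (x := (0 : ℂ)) (by rw [mem_closedBall_zero_iff, norm_zero]; exact hr0.le)
    (edist_ne_top _ _)
  rw [mem_closedBall_zero_iff] at hu
  have hfix' : T u = u := hfix
  refine ⟨u, ?_, ?_⟩
  · have := hTn u hu
    rwa [hfix'] at this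
  · have h1 := hne u hu
    simp only [hT] at hfix'
    rw [div_eq_iff h1] at hfix'
    rw [hfix']
    ring

/-- uniqueness of the small root -/
theorem root_unique (h0 : 0 < ρ) (hN : 1 ≤ N) (hcard : s.card ≤ N) (hr : r = ρ / (4 * N))
    (hβ : ∀ i ∈ s, ρ ≤ ‖β i‖) (hε : ε ≠ 0) {u v : ℂ} (hu : ‖u‖ ≤ r) (hv : ‖v‖ < r)
    (h1 : A * u * (∏ i ∈ s, (u + β i)) = ε) (h2 : A * v * (∏ i ∈ s, (v + β i)) = ε) : u = v := by
  have hNpos : (0 : ℝ) < N := by exact_mod_cast hN
  have hr0 : 0 < r := by rw [hr]; positivity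
  by_contra huv
  have h3 := prod_ratio s β N h0 hN hcard hr hβ hu hv.le
  have h1' : A * u * (∏ i ∈ s, (u + β i)) ≠ 0 := by rw [h1]; exact hε
  have h2' : A * v * (∏ i ∈ s, (v + β i)) ≠ 0 := by rw [h2]; exact hε
  have hA : A ≠ 0 := left_ne_zero_of_mul (left_ne_zero_of_mul h1')
  have hu0 : u ≠ 0 := right_ne_zero_of_mul (left_ne_zero_of_mul h1')
  have hv0 : v ≠ 0 := right_ne_zero_of_mul (left_ne_zero_of_mul h2')
  have hPu := right_ne_zero_of_mul h1'
  have hPv := right_ne_zero_of_mul h2'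
  have e1 : (∏ i ∈ s, (v + β i)) / (∏ i ∈ s, (u + β i)) - 1 = (u - v) / v := by
    have h4 : A * u * (∏ i ∈ s, (u + β i)) = A * v * (∏ i ∈ s, (v + β i)) := by rw [h1, h2]
    rw [div_sub_one hPu, div_eq_div_iff hPu hv0]
    have h5 : A * (u * (∏ i ∈ s, (u + β i)) - v * (∏ i ∈ s, (v + β i))) = 0 := by
      linear_combination h4
    have h6 := (mul_eq_zero.1 h5).resolve_left hA
    linear_combination -h6
  rw [e1, norm_div, norm_sub_rev v u] at h3
  have h7 : 0 < ‖u - v‖ := norm_pos_iff.2 (sub_ne_zero.2 huv)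
  have h8 : 0 < ‖v‖ := norm_pos_iff.2 hv0
  rw [div_le_div_iff₀ h8 hr0] at h3
  nlinarith

end Root

section Branch

variable (D : Arr) (j : Fin D.n) (c : ℤ) (ρ : ℝ)

/-- difference of the `j`-th and `l`-th lines on the circle -/
noncomputable def be (l : Fin D.n) (θ : ℝ) : ℂ := D.b j (circ c ρ θ) - D.b l (circ c ρ θ)

/-- product of the vertical lines on the circle -/
noncomputable def AA (θ : ℝ) : ℂ := ∏ i, (circ c ρ θ - (D.a i : ℂ))

/-- the constant for the size of the root -/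
noncomputable def K0 : ℝ := (ρ ^ D.m * (ρ / 2) ^ (Finset.univ.erase j).card)⁻¹

variable {ρ}

theorem le_prod {ι : Type*} (s : Finset ι) (f : ι → ℂ) {a : ℝ} (ha : 0 ≤ a)
    (h : ∀ i ∈ s, a ≤ ‖f i‖) : a ^ s.card ≤ ‖∏ i ∈ s, f i‖ := by
  rw [norm_prod, ← Finset.prod_const]
  exact Finset.prod_le_prod (fun _ _ => ha) h

theorem K0_spec (h0 : 0 < ρ) (h1 : ρ < 1 / 2) {r : ℝ} (hr : r ≤ ρ / 2) (θ : ℝ) (u : ℂ)
    (hu : ‖u‖ ≤ r) :
    1 ≤ K0 D j ρ * ‖AA D c ρ θ * ∏ l ∈ Finset.univ.erase j, (u + be D j c ρ l θ)‖ := by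
  unfold K0
  rw [inv_mul_eq_div, one_le_div (by positivity), norm_mul]
  apply mul_le_mul
  · have := le_prod (Finset.univ : Finset (Fin D.m)) (fun i => circ c ρ θ - (D.a i : ℂ)) h0.le
      (fun i _ => le_norm_circ_sub h0 h1 c _ θ)
    rwa [Finset.card_univ, Fintype.card_fin] at this
  · apply le_prod _ _ (by positivity)
    intro l hl
    have h2 := le_norm_b_sub D h0 h1 c θ (Finset.ne_of_mem_erase hl).symm
    have h3 := norm_add_ge h2 hu
    unfold be
    linarith
  · positivity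
  · positivity

theorem contDiff_be (l : Fin D.n) {n : WithTop ℕ∞} : ContDiff ℝ n (be D j c ρ l) := by
  unfold be
  exact (contDiff_b D c ρ j).sub (contDiff_b D c ρ l)

theorem contDiff_AA {n : WithTop ℕ∞} : ContDiff ℝ n (AA D c ρ) := by
  unfold AA
  exact contDiff_prod (fun i _ => (contDiff_circ c ρ).sub contDiff_const)

/-- the equation as a function of two variables -/
noncomputable def eqf (x : ℝ × ℂ) : ℂ :=
  AA D c ρ x.1 * x.2 * ∏ l ∈ Finset.univ.erase j, (x.2 + be D j c ρ l x.1)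

theorem contDiff_eqf : ContDiff ℝ 1 (eqf D j c (ρ := ρ)) := by
  unfold eqf
  refine ContDiff.mul (((contDiff_AA D c).comp contDiff_fst).mul contDiff_snd) ?_
  apply contDiff_prod
  intro l _
  exact contDiff_snd.add ((contDiff_be D j c l).comp contDiff_fst)

/-- the partial derivative does not vanish -/
theorem exists_deriv (h0 : 0 < ρ) (h1 : ρ < 1 / 2) {r : ℝ} (hr : r = ρ / (4 * D.n))
    (θ : ℝ) (u : ℂ) (hu : ‖u‖ ≤ r) (hu0 : u ≠ 0) :
    ∃ d : ℂ, d ≠ 0 ∧ HasDerivAt (fun v : ℂ => eqf D j c (ρ := ρ) (θ, v)) d u := by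
  have hn : (0 : ℝ) < D.n := by exact_mod_cast (by have := D.hn; omega : 0 < D.n)
  have hn1 : (2 : ℝ) ≤ D.n := by exact_mod_cast D.hn
  have hrρ : r ≤ ρ / 2 := by
    rw [hr]
    apply div_le_div_of_nonneg_left h0.le (by norm_num)
    linarith
  have hr0 : 0 < r := by rw [hr]; positivity
  have hA : AA D c ρ θ ≠ 0 := by
    unfold AA
    exact Finset.prod_ne_zero_iff.2 fun i _ => circ_sub_ne h0 h1 c _ θ
  have hlow : ∀ l ∈ Finset.univ.erase j, ρ / 2 ≤ ‖u + be D j c ρ l θ‖ := by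
    intro l hl
    have h2 := le_norm_b_sub D h0 h1 c θ (Finset.ne_of_mem_erase hl).symm
    have h3 := norm_add_ge h2 hu
    unfold be
    linarith
  have hne : ∀ l ∈ Finset.univ.erase j, u + be D j c ρ l θ ≠ 0 := by
    intro l hl
    rw [← norm_pos_iff]
    have := hlow l hl
    linarith
  have hdl : ∀ l ∈ Finset.univ.erase j, DifferentiableAt ℂ (fun v : ℂ => v + be D j c ρ l θ) u :=
    fun l _ => differentiableAt_id.add_const _
  have hprod : DifferentiableAt ℂ
      (fun v : ℂ => ∏ l ∈ Finset.univ.erase j, (v + be D j c ρ l θ)) u :=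
    DifferentiableAt.fun_finsetProd hdl
  have hlin : DifferentiableAt ℂ (fun v : ℂ => AA D c ρ θ * v) u :=
    differentiableAt_id.const_mul _
  have hd : DifferentiableAt ℂ (fun v : ℂ => eqf D j c (ρ := ρ) (θ, v)) u := by
    unfold eqf
    exact hlin.mul hprod
  refine ⟨_, ?_, hd.hasDerivAt⟩
  have e1 : logDeriv (fun v : ℂ => eqf D j c (ρ := ρ) (θ, v)) u =
      u⁻¹ + ∑ l ∈ Finset.univ.erase j, (u + be D j c ρ l θ)⁻¹ := by
    unfold eqf
    rw [logDeriv_mul (f := fun v : ℂ => AA D c ρ θ * v)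
      (g := fun v : ℂ => ∏ l ∈ Finset.univ.erase j, (v + be D j c ρ l θ)) u
      (mul_ne_zero hA hu0) (Finset.prod_ne_zero_iff.2 hne) hlin hprod,
      logDeriv_const_mul (f := fun v : ℂ => v) u _ hA,
      logDeriv_prod (f := fun l (v : ℂ) => v + be D j c ρ l θ) hne hdl]
    congr 1
    · rw [logDeriv_apply]; simp
    · apply Finset.sum_congr rfl
      intro l _
      rw [logDeriv_apply]; simp
  intro hzero
  rw [logDeriv_apply, hzero, zero_div] at e1
  have h4 : ‖u⁻¹‖ = ‖∑ l ∈ Finset.univ.erase j, (u + be D j c ρ l θ)⁻¹‖ := by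
    rw [← norm_neg (∑ l ∈ Finset.univ.erase j, (u + be D j c ρ l θ)⁻¹)]
    congr 1
    linear_combination -e1
  have h5 : ‖∑ l ∈ Finset.univ.erase j, (u + be D j c ρ l θ)⁻¹‖ ≤ D.n * (2 / ρ) := by
    refine (norm_sum_le_of_le _ (f := fun l => (u + be D j c ρ l θ)⁻¹) (n := fun _ => 2 / ρ)
      ?_).trans ?_
    · intro l hl
      rw [norm_inv]
      have := hlow l hl
      have h6 : (ρ / 2)⁻¹ = 2 / ρ := by rw [inv_div]
      rw [← h6]
      gcongr
    · rw [Finset.sum_const, nsmul_eq_mul]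
      have : ((Finset.univ.erase j).card : ℝ) ≤ D.n := by
        have h7 := Finset.card_le_univ (Finset.univ.erase j)
        rw [Fintype.card_fin] at h7
        exact_mod_cast h7
      gcongr
  rw [← h4, norm_inv, inv_le_iff_one_le_mul₀ (norm_pos_iff.2 hu0)] at h5
  have h6 : (D.n : ℝ) * (2 / ρ) * ‖u‖ ≤ D.n * (2 / ρ) * (ρ / (4 * D.n)) := by
    rw [← hr]; gcongr
  have h7 : (D.n : ℝ) * (2 / ρ) * (ρ / (4 * D.n)) = 1 / 2 := by
    field_simp; norm_num
  linarith

/-- invertibility of the partial derivative -/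
theorem invertible (θ : ℝ) (u d : ℂ) (hd0 : d ≠ 0)
    (hd : HasDerivAt (fun v : ℂ => eqf D j c (ρ := ρ) (θ, v)) d u) :
    (fderiv ℝ (eqf D j c (ρ := ρ)) (θ, u) ∘L .inr ℝ ℝ ℂ).IsInvertible := by
  have h1 : HasFDerivAt (fun v : ℂ => eqf D j c (ρ := ρ) (θ, v))
      (fderiv ℝ (eqf D j c (ρ := ρ)) (θ, u) ∘L .inr ℝ ℝ ℂ) u := by
    have h2 : HasFDerivAt (eqf D j c (ρ := ρ)) (fderiv ℝ (eqf D j c (ρ := ρ)) (θ, u)) (θ, u) :=
      ((contDiff_eqf D j c).differentiable (by norm_num) _).hasFDerivAt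
    exact h2.comp u (hasFDerivAt_prodMk_right θ u)
  have h2 := hd.hasFDerivAt.restrictScalars ℝ
  rw [h1.unique h2]
  refine ⟨ContinuousLinearEquiv.smulLeft (Units.mk0 d hd0), ?_⟩
  ext v
  all_goals simp [ContinuousLinearEquiv.smulLeft, mul_comm]

end Branch

end MP743d1e.Sheet

namespace MP743d1e

open Sheet Circ

theorem specSheet : SpecSheet := by
  intro D j c ρ h0 h1
  have hn : (0 : ℝ) < D.n := by exact_mod_cast (by have := D.hn; omega : 0 < D.n)
  have hn1 : (2 : ℝ) ≤ D.n := by exact_mod_cast D.hn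
  have hN : 1 ≤ D.n := by have := D.hn; omega
  set r : ℝ := ρ / (4 * D.n) with hr
  set K : ℝ := K0 D j ρ with hKdef
  set P : ℝ := ∑ l ∈ Finset.univ.erase j, (‖(D.p j : ℂ)‖ + ‖(D.p l : ℂ)‖) with hP
  set Q : ℝ := D.m + 2 / ρ * P with hQ
  have hrρ : r ≤ ρ / 2 := by
    rw [hr]
    apply div_le_div_of_nonneg_left h0.le (by norm_num)
    linarith
  have hr0 : 0 < r := by rw [hr]; positivity
  have hK0 : 0 < K := by rw [hKdef]; unfold K0; positivity
  have hP0 : 0 ≤ P := by positivity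
  have hQ0 : 0 ≤ Q := by positivity
  refine ⟨max K (2 * K * Q), max 1 (2 * K / r), ?_⟩
  intro lam hlam
  have hlam1 : 1 ≤ |(lam : ℝ)| := (le_max_left _ _).trans hlam
  have hlam2 : 2 * K / r ≤ |(lam : ℝ)| := (le_max_right _ _).trans hlam
  have hpos : 0 < |(lam : ℝ)| := by linarith
  have hlam0 : (lam : ℂ) ≠ 0 := by
    intro h
    have : (lam : ℝ) = 0 := by exact_mod_cast h
    rw [this, abs_zero] at hlam1
    linarith
  set ε : ℂ := (lam : ℂ)⁻¹ with hεdef
  have hε0 : ε ≠ 0 := inv_ne_zero hlam0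
  have hεn : ‖ε‖ = |(lam : ℝ)|⁻¹ := by rw [hεdef, norm_inv, Complex.norm_intCast]
  have hε : ‖ε‖ * K ≤ r / 2 := by
    rw [hεn, inv_mul_eq_div, div_le_iff₀ hpos]
    rw [div_le_iff₀ hr0] at hlam2
    linarith
  have hcard : (Finset.univ.erase j).card ≤ D.n := by
    have h7 := Finset.card_le_univ (Finset.univ.erase j)
    rwa [Fintype.card_fin] at h7
  have hβ : ∀ θ, ∀ l ∈ Finset.univ.erase j, ρ ≤ ‖be D j c ρ l θ‖ := fun θ l hl =>
    le_norm_b_sub D h0 h1 c θ (Finset.ne_of_mem_erase hl).symm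
  have hex : ∀ θ, ∃ u : ℂ, ‖u‖ ≤ ‖ε‖ * K ∧
      AA D c ρ θ * u * (∏ l ∈ Finset.univ.erase j, (u + be D j c ρ l θ)) = ε := fun θ =>
    exists_root (Finset.univ.erase j) (fun l => be D j c ρ l θ) (AA D c ρ θ) ε D.n h0 hN hcard hr
      (hβ θ) (fun u hu => K0_spec D j c h0 h1 hrρ θ u hu) hε
  choose u hu hueq using hex
  have huniq : ∀ θ (v : ℂ), ‖v‖ < r →
      AA D c ρ θ * v * (∏ l ∈ Finset.univ.erase j, (v + be D j c ρ l θ)) = ε → u θ = v := by
    intro θ v hv hveq
    exact root_unique (Finset.univ.erase j) (fun l => be D j c ρ l θ) (AA D c ρ θ) ε D.n h0 hN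
      hcard hr (hβ θ) hε0 (by have := hu θ; linarith) hv (hueq θ) hveq
  have hu0 : ∀ θ, u θ ≠ 0 := by
    intro θ h
    have := hueq θ
    rw [h] at this
    apply hε0
    rw [← this]
    ring
  have hur : ∀ θ, ‖u θ‖ ≤ r / 2 := fun θ => (hu θ).trans hε
  -- smoothness
  have husm : ContDiff ℝ 1 u := by
    rw [contDiff_iff_contDiffAt]
    intro θ₀
    obtain ⟨d, hd0, hd⟩ := exists_deriv D j c h0 h1 hr θ₀ (u θ₀) (by have := hur θ₀; linarith)
      (hu0 θ₀)
    have hinv := invertible D j c θ₀ (u θ₀) d hd0 hd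
    have cdf : ContDiffAt ℝ 1 (eqf D j c (ρ := ρ)) (θ₀, u θ₀) := (contDiff_eqf D j c).contDiffAt
    have hφ := cdf.contDiffAt_implicitFunction one_ne_zero hinv
    have hφ0 := cdf.implicitFunction_apply_self one_ne_zero hinv
    have hφeq := cdf.eventually_apply_implicitFunction one_ne_zero hinv
    set φ := cdf.implicitFunction one_ne_zero hinv with hφdef
    simp only at hφ hφ0 hφeq
    have hnear : ∀ᶠ θ in nhds θ₀, ‖φ θ‖ < r := by
      have hc : ContinuousAt (fun θ => ‖φ θ‖) θ₀ := hφ.continuousAt.norm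
      apply hc.eventually_lt continuousAt_const
      rw [hφ0]
      have := hur θ₀
      linarith
    have heq : u =ᶠ[nhds θ₀] φ := by
      filter_upwards [hφeq, hnear] with θ h2 h3
      apply huniq θ (φ θ) h3
      have h4 : eqf D j c (ρ := ρ) (θ₀, u θ₀) = ε := hueq θ₀
      rw [h4] at h2
      exact h2
    exact hφ.congr_of_eventuallyEq heq
  have huper : ∀ θ, u (θ + 2 * Real.pi) = u θ := by
    intro θ
    have h2 := hueq (θ + 2 * Real.pi)
    have h3 : AA D c ρ (θ + 2 * Real.pi) = AA D c ρ θ := by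
      unfold AA; rw [circ_periodic]
    have h4 : ∀ l, be D j c ρ l (θ + 2 * Real.pi) = be D j c ρ l θ := by
      intro l; unfold be; rw [circ_periodic]
    simp only [h3, h4] at h2
    have h5 := hur (θ + 2 * Real.pi)
    exact (huniq θ _ (by linarith) h2).symm
  -- the branch
  have hYsub : ∀ l θ, (D.b j (circ c ρ θ) + u θ) - D.b l (circ c ρ θ) = u θ + be D j c ρ l θ := by
    intro l θ; unfold be; ring
  refine ⟨fun θ => D.b j (circ c ρ θ) + u θ, ?_, ?_, ?_, ?_, ?_⟩
  · exact (contDiff_b D c ρ j).add husm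
  · intro θ
    simp only [circ_periodic, huper]
  · intro θ
    simp only [hYsub]
    rw [← Finset.mul_prod_erase _ _ (Finset.mem_univ j)]
    have h2 : be D j c ρ j θ = 0 := by unfold be; ring
    rw [h2, add_zero]
    have h3 := hueq θ
    unfold AA at h3
    have h4 : (lam : ℂ) * ε = 1 := mul_inv_cancel₀ hlam0
    rw [← h4, ← h3]
    ring
  · intro θ
    simp only [add_sub_cancel_left]
    have h2 := hu θ
    rw [hεn, inv_mul_eq_div] at h2
    refine h2.trans ?_
    gcongr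
    exact le_max_left _ _
  · intro θ
    simp only [add_sub_cancel_left]
    have hu' : deriv (fun t => u t) θ = deriv u θ := rfl
    rw [hu']
    -- logarithmic derivative of the equation
    have hXne : ∀ i : Fin D.m, circ c ρ θ - (D.a i : ℂ) ≠ 0 := fun i => circ_sub_ne h0 h1 c _ θ
    have hdX : ∀ i : Fin D.m, DifferentiableAt ℝ (fun t => circ c ρ t - (D.a i : ℂ)) θ :=
      fun i => ((hasDerivAt_circ c ρ θ).differentiableAt).sub_const _
    have hdu : DifferentiableAt ℝ u θ := (husm.differentiable (by norm_num)) θ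
    have hlow : ∀ l ∈ Finset.univ.erase j, ρ / 2 ≤ ‖u θ + be D j c ρ l θ‖ := by
      intro l hl
      have h2 := norm_add_ge (hβ θ l hl) (hur θ)
      linarith
    have hne : ∀ l ∈ Finset.univ.erase j, u θ + be D j c ρ l θ ≠ 0 := by
      intro l hl
      rw [← norm_pos_iff]
      have := hlow l hl
      linarith
    have hbe : ∀ l, HasDerivAt (be D j c ρ l) ((D.p j : ℂ) * (Complex.I * (circ c ρ θ - (c : ℂ))) -
        (D.p l : ℂ) * (Complex.I * (circ c ρ θ - (c : ℂ)))) θ := fun l =>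
      (hasDerivAt_b D c ρ θ j).sub (hasDerivAt_b D c ρ θ l)
    have hdl : ∀ l ∈ Finset.univ.erase j,
        DifferentiableAt ℝ (fun t => u t + be D j c ρ l t) θ :=
      fun l _ => hdu.add (hbe l).differentiableAt
    have hA : AA D c ρ θ ≠ 0 := by
      unfold AA
      exact Finset.prod_ne_zero_iff.2 fun i _ => hXne i
    have hdA : DifferentiableAt ℝ (AA D c ρ) θ :=
      ((contDiff_AA D c (n := 1)).differentiable (by norm_num)) θ
    have hprod : DifferentiableAt ℝ
        (fun t => ∏ l ∈ Finset.univ.erase j, (u t + be D j c ρ l t)) θ :=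
      DifferentiableAt.fun_finsetProd hdl
    have e0 : logDeriv (fun t => (AA D c ρ t * u t) *
        (∏ l ∈ Finset.univ.erase j, (u t + be D j c ρ l t))) θ = 0 := by
      have : (fun t => (AA D c ρ t * u t) *
        (∏ l ∈ Finset.univ.erase j, (u t + be D j c ρ l t))) = fun _ => ε := by
        funext t
        exact hueq t
      rw [this, logDeriv_const]
      rfl
    have eA : logDeriv (AA D c ρ) θ = ∑ i, logDeriv (fun t => circ c ρ t - (D.a i : ℂ)) θ := by
      have : AA D c ρ = fun t => ∏ i, (circ c ρ t - (D.a i : ℂ)) := rfl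
      rw [this, logDeriv_prod (f := fun i t => circ c ρ t - (D.a i : ℂ)) (fun i _ => hXne i)
        (fun i _ => hdX i)]
    rw [logDeriv_mul (f := fun t => AA D c ρ t * u t)
      (g := fun t => ∏ l ∈ Finset.univ.erase j, (u t + be D j c ρ l t)) θ
      (mul_ne_zero hA (hu0 θ)) (Finset.prod_ne_zero_iff.2 hne) (hdA.mul hdu) hprod,
      logDeriv_mul (f := AA D c ρ) (g := u) θ hA (hu0 θ) hdA hdu,
      logDeriv_prod (f := fun l t => u t + be D j c ρ l t) hne hdl, eA] at e0
    have e1 : deriv u θ / u θ = -((∑ i, logDeriv (fun t => circ c ρ t - (D.a i : ℂ)) θ) +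
        ∑ l ∈ Finset.univ.erase j, logDeriv (fun t => u t + be D j c ρ l t) θ) := by
      rw [← logDeriv_apply]
      linear_combination e0
    have b1 : ‖∑ i, logDeriv (fun t => circ c ρ t - (D.a i : ℂ)) θ‖ ≤ D.m := by
      refine (norm_sum_le_of_le _ (n := fun _ => (1 : ℝ)) ?_).trans ?_
      · intro i _
        rw [logDeriv_apply, ((hasDerivAt_circ c ρ θ).sub_const _).deriv, norm_div,
          norm_deriv_circ h0]
        exact (div_le_one (lt_of_lt_of_le h0 (le_norm_circ_sub h0 h1 c _ θ))).2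
          (le_norm_circ_sub h0 h1 c _ θ)
      · simp
    have b2 : ‖∑ l ∈ Finset.univ.erase j, logDeriv (fun t => u t + be D j c ρ l t) θ‖ ≤
        D.n * (2 / ρ) * ‖deriv u θ‖ + 2 / ρ * P := by
      refine (norm_sum_le_of_le _ (n := fun l => (2 / ρ) * ‖deriv u θ‖ +
        (2 / ρ) * (‖(D.p j : ℂ)‖ + ‖(D.p l : ℂ)‖)) ?_).trans ?_
      · intro l hl
        rw [logDeriv_apply, (hdu.hasDerivAt.fun_add (hbe l)).deriv, norm_div]
        have h3 := norm_add_le (deriv u θ) ((D.p j : ℂ) * (Complex.I * (circ c ρ θ - (c : ℂ))) -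
          (D.p l : ℂ) * (Complex.I * (circ c ρ θ - (c : ℂ))))
        have h4 := norm_sub_le ((D.p j : ℂ) * (Complex.I * (circ c ρ θ - (c : ℂ))))
          ((D.p l : ℂ) * (Complex.I * (circ c ρ θ - (c : ℂ))))
        rw [norm_mul, norm_mul (D.p l : ℂ), norm_deriv_circ h0] at h4
        have h5 : ‖(D.p j : ℂ)‖ * ρ ≤ ‖(D.p j : ℂ)‖ * 1 := by gcongr; linarith
        have h6 : ‖(D.p l : ℂ)‖ * ρ ≤ ‖(D.p l : ℂ)‖ * 1 := by gcongr; linarith
        have h7 := hlow l hl
        have h8 : ‖deriv u θ + ((D.p j : ℂ) * (Complex.I * (circ c ρ θ - (c : ℂ))) -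
          (D.p l : ℂ) * (Complex.I * (circ c ρ θ - (c : ℂ))))‖ ≤
          ‖deriv u θ‖ + (‖(D.p j : ℂ)‖ + ‖(D.p l : ℂ)‖) := by linarith
        calc _ ≤ (‖deriv u θ‖ + (‖(D.p j : ℂ)‖ + ‖(D.p l : ℂ)‖)) / (ρ / 2) := by gcongr
          _ = _ := by field_simp
      · rw [Finset.sum_add_distrib, Finset.sum_const, nsmul_eq_mul, ← Finset.mul_sum]
        have : ((Finset.univ.erase j).card : ℝ) ≤ D.n := by exact_mod_cast hcard
        have h9 : ((Finset.univ.erase j).card : ℝ) * (2 / ρ * ‖deriv u θ‖) ≤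
            D.n * (2 / ρ * ‖deriv u θ‖) := by gcongr
        rw [hP]
        linarith
    have hupos : 0 < ‖u θ‖ := norm_pos_iff.2 (hu0 θ)
    have b3 : ‖deriv u θ‖ ≤ ‖u θ‖ * (Q + D.n * (2 / ρ) * ‖deriv u θ‖) := by
      have h3 : ‖deriv u θ / u θ‖ ≤ Q + D.n * (2 / ρ) * ‖deriv u θ‖ := by
        rw [e1, norm_neg]
        refine (norm_add_le _ _).trans ?_
        rw [hQ]
        linarith
      rw [norm_div, div_le_iff₀ hupos] at h3
      linarith
    have b4 : ‖u θ‖ * (D.n * (2 / ρ)) ≤ 1 / 4 := by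
      calc ‖u θ‖ * (D.n * (2 / ρ)) ≤ (r / 2) * (D.n * (2 / ρ)) := by
            have := hur θ
            gcongr
        _ = 1 / 4 := by rw [hr]; field_simp
    have b5 : ‖deriv u θ‖ ≤ 2 * ‖u θ‖ * Q := by
      have h3 : ‖u θ‖ * (D.n * (2 / ρ) * ‖deriv u θ‖) ≤ 1 / 4 * ‖deriv u θ‖ := by
        rw [← mul_assoc]
        gcongr
      have h4 : ‖deriv u θ‖ ≤ ‖u θ‖ * Q + 1 / 4 * ‖deriv u θ‖ := by
        rw [mul_add] at b3
        linarith
      nlinarith [norm_nonneg (deriv u θ), mul_nonneg hupos.le hQ0]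
    refine b5.trans ?_
    have h2 := hu θ
    rw [hεn, inv_mul_eq_div] at h2
    calc 2 * ‖u θ‖ * Q ≤ 2 * (K / |(lam : ℝ)|) * Q := by gcongr
      _ = (2 * K * Q) / |(lam : ℝ)| := by ring
      _ ≤ max K (2 * K * Q) / |(lam : ℝ)| := by
          gcongr
          exact le_max_right _ _

end MP743d1e
end

section
/-!
# GENUS and GON: assembly of the genus and of the gonality
-/
namespace MP743d1e

open scoped BigOperators
open Polynomial

namespace Genus

variable {K : Type} [Field K] [Algebra ℂ K]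

/-- A unit times a positive power of `x ∉ V` is not in `V`. -/
theorem unit_mul_pow_not_mem (V : ValuationSubring K) {x u : K} (hx : x ∉ V) (hu : IsU V u)
    (N : ℕ) (hN : 1 ≤ N) : u * x ^ N ∉ V := by
  intro h
  have h1 : x ^ N ∈ V := by
    have : x ^ N = u⁻¹ * (u * x ^ N) := by
      rw [← mul_assoc, inv_mul_cancel₀ hu.1, one_mul]
    rw [this]
    exact V.mul_mem _ _ hu.2.2 h
  have hx0 : x ≠ 0 := fun h0 => hx (h0 ▸ V.zero_mem)
  have hxi : x⁻¹ ∈ V := by
    rcases V.mem_or_inv_mem x with h' | h'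
    · exact absurd h' hx
    · exact h'
  apply hx
  have : x = x ^ N * (x⁻¹) ^ (N - 1) := by
    obtain ⟨M, rfl⟩ : ∃ M, N = M + 1 := ⟨N - 1, by omega⟩
    rw [Nat.add_sub_cancel, pow_succ, mul_right_comm, ← mul_pow, mul_inv_cancel₀ hx0, one_pow,
      one_mul]
  rw [this]
  exact V.mul_mem _ _ h1 (pow_mem hxi _)

theorem lam_ne (D : Arr) (lam : ℤ) (x y : K) (h : IsCurve ℂ K D lam x y) : lam ≠ 0 := by
  rintro rfl
  have := h.eqn
  simp at this

theorem pw_ne (hInf : SpecInf) (D : Arr) (lam : ℤ) (x y : K) (h : IsCurve ℂ K D lam x y) :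
    pw D x y ≠ 0 := by
  classical
  obtain ⟨_, hex, hun⟩ := hInf K D lam x y h
  have hn : 0 < D.n := by have := D.hn; omega
  set j : Fin D.n := ⟨0, hn⟩
  obtain ⟨V, hV, hA⟩ := hex j
  obtain ⟨_, h1, h2, h3⟩ := hun V j hV hA
  have hx : x ∉ V := hA.1
  have hx0 : x ≠ 0 := fun h0 => hx (h0 ▸ V.zero_mem)
  have hxi : x⁻¹ ∈ V := by
    rcases V.mem_or_inv_mem x with h' | h'
    · exact absurd h' hx
    · exact h'
  intro h0
  have hN : 1 ≤ D.m + D.dd j := by have := D.hm; omega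
  -- the `j`-th term
  have hyj : (y - D.b j x)⁻¹ = ((y - D.b j x) * x ^ (D.m + D.dd j))⁻¹ * x ^ (D.m + D.dd j) := by
    rw [mul_inv, mul_assoc, inv_mul_cancel₀ (pow_ne_zero _ hx0), mul_one]
  have hu : IsU V ((y - D.b j x) * x ^ (D.m + D.dd j))⁻¹ :=
    ⟨inv_ne_zero h1.1, h1.2.2, by rw [inv_inv]; exact h1.2.1⟩
  have hnot : (y - D.b j x)⁻¹ ∉ V := by
    rw [hyj]
    exact unit_mul_pow_not_mem V hx hu _ hN
  apply hnot
  have hsum : (y - D.b j x)⁻¹ = -∑ l ∈ Finset.univ.erase j, (y - D.b l x)⁻¹ := by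
    have := Finset.add_sum_erase Finset.univ (fun l => (y - D.b l x)⁻¹) (Finset.mem_univ j)
    have h4 : pw D x y = ∑ l, (y - D.b l x)⁻¹ := rfl
    rw [← h4, h0] at this
    exact eq_neg_of_add_eq_zero_left this
  rw [hsum]
  apply V.neg_mem
  apply sum_mem
  intro l hl
  have hlj : l ≠ j := Finset.ne_of_mem_erase hl
  by_cases hp : D.p l = D.p j
  · exact (h3 l hlj hp).2.2
  · have hul := h2 l hp
    have : (y - D.b l x)⁻¹ = ((y - D.b l x) * x⁻¹)⁻¹ * x⁻¹ := by
      rw [mul_inv, inv_inv, mul_assoc, mul_inv_cancel₀ hx0, mul_one]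
    rw [this]
    exact V.mul_mem _ _ hul.2.2 hxi

end Genus

open Genus in
theorem specGenus (hDer : SpecDer) (hKae : SpecKae) (hUpper : SpecUpper) (hLower : SpecLower)
    (hCount : SpecCount) (hPerm : SpecPerm) (hIrr : SpecIrr) (hInf : SpecInf) : SpecGenus := by
  intro K _ _ D lam x y hS hC
  obtain ⟨D', hO, hg, hC', hS'⟩ := hPerm D
  have hC1 := hC' K lam x y hC
  have hS1 := hS' lam hS
  obtain ⟨_, hfin, _⟩ := (hIrr ℂ D' lam (lam_ne D' lam x y hC1)).2 K x y hC1
  have halg : Algebra.IsAlgebraic (Ct x) K := by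
    haveI : FiniteDimensional (Ct x) K := hfin
    exact Algebra.IsAlgebraic.of_finite (Ct x) K
  obtain ⟨δ, hδ⟩ := (hDer K x hC.transc halg).1
  obtain ⟨S, hSq, hSfin, hSrank⟩ := hCount K D' lam x y hO hC1
  have hpw := pw_ne hInf D' lam x y hC1
  -- multiplication by the inverse of `pw`
  let M : K →ₗ[ℂ] K := LinearMap.mulRight ℂ (pw D' x y)⁻¹
  have hMinj : Function.Injective M := by
    intro a b hab
    have : a * (pw D' x y)⁻¹ = b * (pw D' x y)⁻¹ := hab
    exact mul_right_cancel₀ (inv_ne_zero hpw) this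
  let S' : Submodule ℂ K := S.map M
  have hS'q : ∀ f, f ∈ S' ↔ Reg δ f := by
    intro f
    constructor
    · rintro ⟨q, hq, rfl⟩
      have := hLower K D' lam x y δ hC1 hS1 hδ q ((hSq q).mp hq)
      rw [div_eq_mul_inv] at this
      exact this
    · intro hf
      refine ⟨f * pw D' x y, (hSq _).mpr (hUpper K D' lam x y δ hC1 hδ f hf), ?_⟩
      show f * pw D' x y * (pw D' x y)⁻¹ = f
      rw [mul_assoc, mul_inv_cancel₀ hpw, mul_one]
  obtain ⟨e⟩ := (hKae K x δ hC.transc halg hδ).2 S' hS'q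
  let e2 : S ≃ₗ[ℂ] S' := Submodule.equivMapOfInjective M hMinj S
  haveI : FiniteDimensional ℂ S := hSfin
  haveI : FiniteDimensional ℂ S' := e2.finiteDimensional
  refine ⟨e.symm.finiteDimensional, ?_⟩
  rw [e.finrank_eq, ← e2.finrank_eq, hSrank, hg]

open Genus in
theorem specGon (hIrr : SpecIrr) (hFinT : SpecFinT) (hGonAbs : SpecGonAbs) (hForms : SpecForms)
    (hLower : SpecLower) (hInf : SpecInf) (hDer : SpecDer) : SpecGon := by
  intro K _ _ D lam x y hS hpar hC
  obtain ⟨_, hfin, hrank⟩ := (hIrr ℂ D lam (lam_ne D lam x y hC)).2 K x y hC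
  have halg : Algebra.IsAlgebraic (Ct x) K := by
    haveI : FiniteDimensional (Ct x) K := hfin
    exact Algebra.IsAlgebraic.of_finite (Ct x) K
  obtain ⟨δ, hδ⟩ := (hDer K x hC.transc halg).1
  have hpw := pw_ne hInf D lam x y hC
  refine ⟨hrank, ?_⟩
  intro t ht
  have hfint := hFinT K x y t hC.transc ht hC.gen hfin
  refine ⟨hfint, ?_⟩
  have h := hGonAbs K x y (pw D x y)⁻¹ δ (D.n - 2) hC.transc hC.gen hδ (inv_ne_zero hpw) ?_ t ht
    hfint
  · have := D.hn
    omega
  · intro i k hik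
    have hn := D.hn
    have := hLower K D lam x y δ hC hS hδ _ (hForms K D lam x y hpar hC i k (by omega))
    rw [div_eq_mul_inv] at this
    exact this

end MP743d1e
end

section
/-!
# KAE: Kähler differentials of function fields of curves
-/
namespace MP743d1e

/-- KAE -/
theorem specKae : SpecKae := by
  intro K _ _ t δ ht halg hδ
  obtain ⟨e, he⟩ := Der.exists_equiv K t ht halg
  have heD : ∀ f, e (KaehlerDifferential.D ℂ K f) = δ f := by
    intro f
    have h2 := Der.apply_eq e he δ f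
    rw [hδ, smul_eq_mul, mul_one] at h2
    exact h2.symm
  refine ⟨⟨e, heD⟩, ?_⟩
  intro S hS
  have hreg : ∀ (V : ValuationSubring K) (ω : Ω[K⁄ℂ]), RegularAt V ω ↔ RegD δ V (e ω) := by
    intro V ω
    have hset : (e : Ω[K⁄ℂ] →+ K) ''
        {η : Ω[K⁄ℂ] | ∃ b ∈ V, ∃ a ∈ V, η = b • KaehlerDifferential.D ℂ K a} =
        {η : K | ∃ b ∈ V, ∃ a ∈ V, η = b * δ a} := by
      ext η
      constructor
      · rintro ⟨_, ⟨b, hb, a, ha, rfl⟩, rfl⟩
        refine ⟨b, hb, a, ha, ?_⟩
        show e _ = _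
        rw [map_smul, heD, smul_eq_mul]
      · rintro ⟨b, hb, a, ha, rfl⟩
        refine ⟨_, ⟨b, hb, a, ha, rfl⟩, ?_⟩
        show e _ = _
        rw [map_smul, heD, smul_eq_mul]
    unfold RegularAt RegD
    rw [← hset, ← AddMonoidHom.map_closure]
    constructor
    · intro h
      exact ⟨ω, h, rfl⟩
    · rintro ⟨ω', h, hω'⟩
      have : ω' = ω := e.injective hω'
      rw [← this]
      exact h
  have hcomap : regDiff K = S.comap ((e.restrictScalars ℂ : Ω[K⁄ℂ] ≃ₗ[ℂ] K) : Ω[K⁄ℂ] →ₗ[ℂ] K) := by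
    ext ω
    rw [Submodule.mem_comap]
    show (∀ V : ValuationSubring K, (∀ c : ℂ, algebraMap ℂ K c ∈ V) → RegularAt V ω) ↔ e ω ∈ S
    rw [hS]
    exact forall_congr' fun V => forall_congr' fun _ => hreg V ω
  rw [hcomap]
  exact ⟨(e.restrictScalars ℂ).ofSubmodule' S⟩

end MP743d1e
end
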