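import Pool.Agent.Lib.MP_743d1e_nt.K2Main

/-!
# Second part of the project MP_743d1e_nt: the exact rank of the cuspidal part

`unitsU`: the group `U` generated by the constants and the functions `x - a i`, `y - b j` (units of
the affine curve). `symU`: the subgroup of `K2 K` generated by the symbols of elements of `U`.
-/

namespace MP743d1e

open scoped BigOperators

section Units

variable (K : Type) [Field K] [Algebra ℚ K]

/-- The group generated by the constants and the functions `x - a i`, `y - b j`. -/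
def unitsU (D : Arr) (x y : K) : Subgroup Kˣ :=
  Subgroup.closure ({u | ∃ c : ℚ, (u : K) = algebraMap ℚ K c} ∪
    {u | ∃ i, (u : K) = x - (D.a i : K)} ∪ {u | ∃ j, (u : K) = y - D.b j x})

/-- The subgroup of `K2 K` generated by the symbols of elements of `unitsU`. -/
def symU (D : Arr) (x y : K) : AddSubgroup (K2 K) :=
  AddSubgroup.closure {z | ∃ u ∈ unitsU K D x y, ∃ w ∈ unitsU K D x y, z = sym u w}

/-- The subgroup generated by the symbols of a constant and an element of `unitsU`. -/
def symC (D : Arr) (x y : K) : AddSubgroup (K2 K) :=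
  AddSubgroup.closure {z | ∃ u : Kˣ, (∃ c : ℚ, (u : K) = algebraMap ℚ K c) ∧
    ∃ w ∈ unitsU K D x y, z = sym u w}

end Units

/-- K2Q. The group `K2 ℚ` is a torsion group. -/
def SpecK2Q : Prop := ∀ z : K2 ℚ, ∃ N : ℕ, 0 < N ∧ N • z = 0

/-- PLACE. A nonconstant function has a zero or a pole. -/
def SpecPlace : Prop :=
  ∀ (K : Type) [Field K] [Algebra ℚ K] (x : K), Transcendental ℚ x →
    FiniteDimensional (IntermediateField.adjoin ℚ {x}) K →
    ∀ u : Kˣ, Transcendental ℚ (u : K) → ∃ v : DVal K,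
      (∀ c : Kˣ, (∃ r : ℚ, (c : K) = algebraMap ℚ K r) → v.ord c = 0) ∧ v.ord u ≠ 0

/-- SPAN. Up to torsion and symbols with constants, the `g` symbols span `symU`. -/
def SpecSpan : Prop :=
  ∀ (K : Type) [Field K] [Algebra ℚ K] (D : Arr) (lam : ℤ) (x y : K)
    (h : IsCurve ℚ K D lam x y),
    (∀ i, sym (K2Main.uu h i) (K2Main.ww h i) ∈ symU K D x y) ∧
    ∀ β ∈ symU K D x y, ∃ N : ℕ, 0 < N ∧
      N • β ∈ AddSubgroup.closure (Set.range fun i => sym (K2Main.uu h i) (K2Main.ww h i)) ⊔
        symC K D x y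

/-- CONST. An unramified element of `symC` is torsion. -/
def SpecConst : Prop :=
  ∀ (K : Type) [Field K] [Algebra ℚ K] (D : Arr) (lam : ℤ) (x y : K),
    IsCurve ℚ K D lam x y → ∀ β ∈ symC K D x y, (∀ v : DVal K, tame v β = 0) →
      ∃ N : ℕ, 0 < N ∧ N • β = 0

/-- EXACT. The unramified part of `symU` has rank at most `g`. -/
def SpecExact : Prop :=
  ∀ (K : Type) [Field K] [Algebra ℚ K] (D : Arr) (lam : ℤ) (x y : K)
    (h : IsCurve ℚ K D lam x y),
    ∀ β ∈ symU K D x y, (∀ v : DVal K, tame v β = 0) → ∃ N : ℕ, 0 < N ∧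
      N • β ∈ AddSubgroup.closure (Set.range fun i => sym (K2Main.uu h i) (K2Main.ww h i))

end MP743d1e
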