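import Pool.Agent.Lib.MP_743d1e_nt.K2Main
import Pool.Agent.Lib.MP_743d1e_nt.Spec2

section
/-!
# Final assembly
-/
namespace MP743d1e

open scoped BigOperators

theorem sym_mul_left {F : Type} [Field F] (f f' g : Fˣ) :
    sym (f * f') g = sym f g + sym f' g := by
  have h : FreeAbelianGroup.of (f * f', g) - FreeAbelianGroup.of (f, g)
      - FreeAbelianGroup.of (f', g) ∈ AddSubgroup.closure (relSet F) :=
    AddSubgroup.subset_closure (Or.inl (Or.inl ⟨f, f', g, rfl⟩))
  rw [← QuotientAddGroup.eq_zero_iff] at h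
  have h2 : sym (f * f') g - sym f g - sym f' g = 0 := h
  rw [sub_sub, sub_eq_zero] at h2
  exact h2

theorem sym_mul_right {F : Type} [Field F] (f g g' : Fˣ) :
    sym f (g * g') = sym f g + sym f g' := by
  have h : FreeAbelianGroup.of (f, g * g') - FreeAbelianGroup.of (f, g)
      - FreeAbelianGroup.of (f, g') ∈ AddSubgroup.closure (relSet F) :=
    AddSubgroup.subset_closure (Or.inl (Or.inr ⟨f, g, g', rfl⟩))
  rw [← QuotientAddGroup.eq_zero_iff] at h
  have h2 : sym f (g * g') - sym f g - sym f g' = 0 := h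
  rw [sub_sub, sub_eq_zero] at h2
  exact h2

theorem sym_steinberg {F : Type} [Field F] (f g : Fˣ) (h : (f : F) + (g : F) = 1) :
    sym f g = 0 := by
  have h : FreeAbelianGroup.of (f, g) ∈ AddSubgroup.closure (relSet F) :=
    AddSubgroup.subset_closure (Or.inr ⟨f, g, h, rfl⟩)
  rw [← QuotientAddGroup.eq_zero_iff] at h
  exact h

/-- The regulator pairing with a loop, given that it is well defined. -/
noncomputable def regOf (hS : SpecStein) {F : Type} [Field F] (γ : Loop F) : K2 F →+ ℝ :=
  K2.lift (fun f g => regInt (fun θ => γ.ev θ (f : F)) (fun θ => γ.ev θ (g : F)))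
    (fun f f' g => by
      obtain ⟨ρ, hρ⟩ := hS F γ
      simp only [← hρ, sym_mul_left, map_add])
    (fun f g g' => by
      obtain ⟨ρ, hρ⟩ := hS F γ
      simp only [← hρ, sym_mul_right, map_add])
    (fun f g h => by
      obtain ⟨ρ, hρ⟩ := hS F γ
      simp only [← hρ, sym_steinberg f g h, map_zero])

theorem regOf_sym (hS : SpecStein) {F : Type} [Field F] (γ : Loop F) (f g : Fˣ) :
    regOf hS γ (sym f g) = regInt (fun θ => γ.ev θ (f : F)) (fun θ => γ.ev θ (g : F)) :=
  K2.lift_sym _ _ _ _ f g

/-- A homomorphism with the values of the regulator pairing on symbols is the regulator pairing. -/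
theorem eq_regOf (hS : SpecStein) {F : Type} [Field F] (γ : Loop F) (ρ : K2 F →+ ℝ)
    (hρ : ∀ f h : Fˣ, ρ (sym f h) =
      regInt (fun θ => γ.ev θ (f : F)) (fun θ => γ.ev θ (h : F))) : ρ = regOf hS γ := by
  apply K2.hom_ext
  intro f g
  rw [hρ, regOf_sym]

/-- The main theorem with the Specs as hypotheses. -/
theorem final (hStein : SpecStein) (hK2 : SpecK2) (hIrr : SpecIrr) (hAlg : SpecAlgCl)
    (hCrit : SpecCrit) (hGenus : SpecGenus) (hGon : SpecGon) (D : Arr) :
    ∃ (C : ℝ) (L : ℕ), ∀ lam : ℤ, L ≤ lam.natAbs →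
      (∃ (K : Type) (_ : Field K) (_ : Algebra ℚ K) (x y : K), IsCurve ℚ K D lam x y) ∧
      (∃ (K : Type) (_ : Field K) (_ : Algebra ℂ K) (x y : K), IsCurve ℂ K D lam x y) ∧
      (∀ (K : Type) [Field K] [Algebra ℚ K] (x y : K), IsCurve ℚ K D lam x y →
        (∀ z : K, IsAlgebraic ℚ z → z ∈ Set.range (algebraMap ℚ K)) ∧
        ∃ (α : Fin D.g → K2 K) (γ : Fin D.g → Loop K),
          (∀ i, ∀ v : DVal K, tame v (α i) = 0) ∧
          (∀ i k, |regOf hStein (γ k) (α i) -
            (if i = k then 2 * Real.pi * Real.log |(lam : ℝ)| else 0)| ≤ C) ∧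
          (Matrix.of fun i k => regOf hStein (γ k) (α i)).det ≠ 0) ∧
      (∀ (K : Type) [Field K] [Algebra ℂ K] (x y : K), IsCurve ℂ K D lam x y →
        FiniteDimensional ℂ (regDiff K) ∧ Module.finrank ℂ (regDiff K) = D.g ∧
        ((∀ j, D.par j ≤ D.m) →
          Module.finrank (IntermediateField.adjoin ℂ {x}) K = D.n ∧
          ∀ t : K, Transcendental ℂ t → FiniteDimensional (IntermediateField.adjoin ℂ {t}) K ∧
            D.n ≤ Module.finrank (IntermediateField.adjoin ℂ {t}) K)) := by
  obtain ⟨C, L, hL⟩ := hK2 D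
  obtain ⟨L', hL'⟩ := hCrit D
  refine ⟨C, L + L' + 1, ?_⟩
  intro lam hlam
  have hlam0 : lam ≠ 0 := by
    rintro rfl
    simp at hlam
  have hsm := hL' lam (by omega)
  refine ⟨(hIrr ℚ D lam hlam0).1, (hIrr ℂ D lam hlam0).1, ?_, ?_⟩
  · intro K _ _ x y hc
    refine ⟨hAlg K D lam x y hc, ?_⟩
    obtain ⟨α, γ, ρ, h1, h2, h3, h4⟩ := hL lam (by omega) K x y hc
    refine ⟨α, γ, h1, ?_, ?_⟩
    · intro i k
      rw [← eq_regOf hStein (γ k) (ρ k) (h2 k)]
      exact h3 i k
    · have : (fun i k => regOf hStein (γ k) (α i)) = fun i k => ρ k (α i) := by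
        funext i k
        rw [← eq_regOf hStein (γ k) (ρ k) (h2 k)]
      rw [this]
      exact h4
  · intro K _ _ x y hc
    obtain ⟨h1, h2⟩ := hGenus K D lam x y hsm hc
    refine ⟨h1, h2, ?_⟩
    intro hpar
    exact hGon K D lam x y hsm hpar hc

/-- The main theorem, with the exact rank of the cuspidal part. -/
theorem final2 (hStein : SpecStein) (hI : SpecInteg) (hE : SpecEmb) (hT : SpecTrans)
    (hSh : SpecSheet) (hA : SpecAsym) (hIrr : SpecIrr) (hAlg : SpecAlgCl)
    (hCrit : SpecCrit) (hGenus : SpecGenus) (hGon : SpecGon) (hSpan : SpecSpan)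
    (hExact : SpecExact) (D : Arr) :
    ∃ (C : ℝ) (L : ℕ), ∀ lam : ℤ, L ≤ lam.natAbs →
      (∃ (K : Type) (_ : Field K) (_ : Algebra ℚ K) (x y : K), IsCurve ℚ K D lam x y) ∧
      (∃ (K : Type) (_ : Field K) (_ : Algebra ℂ K) (x y : K), IsCurve ℂ K D lam x y) ∧
      (∀ (K : Type) [Field K] [Algebra ℚ K] (x y : K), IsCurve ℚ K D lam x y →
        (∀ z : K, IsAlgebraic ℚ z → z ∈ Set.range (algebraMap ℚ K)) ∧
        ∃ (α : Fin D.g → K2 K) (γ : Fin D.g → Loop K),
          (∀ i, ∀ v : DVal K, tame v (α i) = 0) ∧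
          (∀ i k, |regOf hStein (γ k) (α i) -
            (if i = k then 2 * Real.pi * Real.log |(lam : ℝ)| else 0)| ≤ C) ∧
          (Matrix.of fun i k => regOf hStein (γ k) (α i)).det ≠ 0 ∧
          (∀ i, α i ∈ symU K D x y) ∧
          (∀ β ∈ symU K D x y, (∀ v : DVal K, tame v β = 0) →
            ∃ N : ℕ, 0 < N ∧ N • β ∈ AddSubgroup.closure (Set.range α))) ∧
      (∀ (K : Type) [Field K] [Algebra ℂ K] (x y : K), IsCurve ℂ K D lam x y →
        FiniteDimensional ℂ (regDiff K) ∧ Module.finrank ℂ (regDiff K) = D.g ∧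
        ((∀ j, D.par j ≤ D.m) →
          Module.finrank (IntermediateField.adjoin ℂ {x}) K = D.n ∧
          ∀ t : K, Transcendental ℂ t → FiniteDimensional (IntermediateField.adjoin ℂ {t}) K ∧
            D.n ≤ Module.finrank (IntermediateField.adjoin ℂ {t}) K)) := by
  obtain ⟨C, L, hL⟩ := specK2x hStein hI hE hT hSh hA D
  obtain ⟨L', hL'⟩ := hCrit D
  refine ⟨C, L + L' + 1, ?_⟩
  intro lam hlam
  have hlam0 : lam ≠ 0 := by
    rintro rfl
    simp at hlam
  have hsm := hL' lam (by omega)
  refine ⟨(hIrr ℚ D lam hlam0).1, (hIrr ℂ D lam hlam0).1, ?_, ?_⟩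
  · intro K _ _ x y hc
    refine ⟨hAlg K D lam x y hc, ?_⟩
    obtain ⟨e, γ, ρ, h1, h2, h3, h4⟩ := hL lam (by omega) K x y hc
    refine ⟨fun i => sym (K2Main.uu hc (e i)) (K2Main.ww hc (e i)), γ, h1, ?_, ?_, ?_, ?_⟩
    · intro i k
      rw [← eq_regOf hStein (γ k) (ρ k) (h2 k)]
      exact h3 i k
    · have : (fun i k => regOf hStein (γ k) (sym (K2Main.uu hc (e i)) (K2Main.ww hc (e i)))) =
          fun i k => ρ k (sym (K2Main.uu hc (e i)) (K2Main.ww hc (e i))) := by
        funext i k
        rw [← eq_regOf hStein (γ k) (ρ k) (h2 k)]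
      rw [this]
      exact h4
    · intro i
      exact (hSpan K D lam x y hc).1 (e i)
    · intro β hβ hv
      obtain ⟨N, hN, hmem⟩ := hExact K D lam x y hc β hβ hv
      refine ⟨N, hN, ?_⟩
      have : (Set.range fun i => sym (K2Main.uu hc (e i)) (K2Main.ww hc (e i))) =
          Set.range fun i => sym (K2Main.uu hc i) (K2Main.ww hc i) :=
        e.surjective.range_comp (fun i => sym (K2Main.uu hc i) (K2Main.ww hc i))
      rw [this]
      exact hmem
  · intro K _ _ x y hc
    obtain ⟨h1, h2⟩ := hGenus K D lam x y hsm hc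
    refine ⟨h1, h2, ?_⟩
    intro hpar
    exact hGon K D lam x y hsm hpar hc

end MP743d1e
end

section
/-!
# A nonconstant function has a zero
-/
namespace MP743d1e

namespace PlaceQ

open IntermediateField WithZero
open scoped IntermediateField.algebraAdjoinAdjoin

/-- The valuation attached to a height one prime. -/
noncomputable def dval {O K : Type} [CommRing O] [IsDedekindDomain O] [Field K] [Algebra O K]
    [IsFractionRing O K] (v : IsDedekindDomain.HeightOneSpectrum O) : DVal K where
  ord f := -(WithZero.log (v.valuation K (f : K)))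
  ord_mul f g := by
    rw [Units.val_mul, map_mul, WithZero.log_mul, neg_add]
    · exact (Valuation.ne_zero_iff _).mpr f.ne_zero
    · exact (Valuation.ne_zero_iff _).mpr g.ne_zero
  surj := by
    intro n
    obtain ⟨x, hx⟩ := v.valuation_surjective K (WithZero.exp (-n))
    have hx0 : x ≠ 0 := by
      intro h
      rw [h, map_zero] at hx
      exact WithZero.exp_ne_zero hx.symm
    refine ⟨Units.mk0 x hx0, ?_⟩
    show -(WithZero.log (v.valuation K x)) = n
    rw [hx, WithZero.log_exp, neg_neg]
  ord_add f g h hfg := by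
    have hf := (Valuation.ne_zero_iff (v.valuation K)).mpr f.ne_zero
    have hg := (Valuation.ne_zero_iff (v.valuation K)).mpr g.ne_zero
    have hh := (Valuation.ne_zero_iff (v.valuation K)).mpr h.ne_zero
    have hle : v.valuation K (h : K) ≤ max (v.valuation K (f : K)) (v.valuation K (g : K)) := by
      rw [← hfg]
      exact Valuation.map_add _ _ _
    rcases le_max_iff.mp hle with h1 | h1
    · exact (min_le_left _ _).trans (neg_le_neg ((WithZero.log_le_log hh hf).mpr h1))
    · exact (min_le_right _ _).trans (neg_le_neg ((WithZero.log_le_log hh hg).mpr h1))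

variable {k K : Type} [Field k] [Field K] [Algebra k K]

theorem finite_adjoin (x : K)
    (hfin : FiniteDimensional k⟮x⟯ K) (u : K) (hu : Transcendental k u) :
    FiniteDimensional k⟮u⟯ K := by
  have halg : Algebra.IsAlgebraic (Algebra.adjoin k ({x} : Set K)) K := by
    have h1 : Algebra.IsAlgebraic (Algebra.adjoin k ({x} : Set K)) k⟮x⟯ := inferInstance
    exact Algebra.IsAlgebraic.trans (Algebra.adjoin k ({x} : Set K)) k⟮x⟯ K
  have htr : Algebra.trdeg k K ≤ 1 := by
    have := Algebra.IsAlgebraic.trdeg_le_cardinalMk k ({x} : Set K)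
    simpa using this
  have hind : AlgebraicIndependent k (fun _ : Unit => u) :=
    algebraicIndependent_unique_type_iff.mpr hu
  have hb : IsTranscendenceBasis k (fun _ : Unit => u) :=
    hind.isTranscendenceBasis_of_trdeg_le_of_finite (by simpa using htr)
  have halg2 := hb.isAlgebraic_field
  rw [Set.range_const] at halg2
  have hess1 : Algebra.EssFiniteType k k⟮x⟯ := by
    rw [IntermediateField.essFiniteType_iff]
    exact ⟨{x}, by simp⟩
  have hess2 : Algebra.EssFiniteType k⟮x⟯ K := inferInstance
  have hess : Algebra.EssFiniteType k K := Algebra.EssFiniteType.comp k k⟮x⟯ K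
  have hess3 : Algebra.EssFiniteType k⟮u⟯ K := Algebra.EssFiniteType.of_comp k k⟮u⟯ K
  exact Algebra.finite_of_essFiniteType_of_isAlgebraic

theorem main [CharZero k] (x : K)
    (hfin : FiniteDimensional k⟮x⟯ K) (u : Kˣ) (hu : Transcendental k (u : K)) :
    ∃ v : DVal K, (∀ c : Kˣ, (∃ r : k, (c : K) = algebraMap k K r) → v.ord c = 0) ∧
      v.ord u ≠ 0 := by
  have hfinu : FiniteDimensional k⟮(u : K)⟯ K := PlaceQ.finite_adjoin x hfin u hu
  let A := Algebra.adjoin k ({(u : K)} : Set K)
  let e : Polynomial k ≃ₐ[k] A := Polynomial.algEquivOfTranscendental k (u : K) hu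
  have hpid : IsPrincipalIdealRing A :=
    IsPrincipalIdealRing.of_surjective (e : Polynomial k →+* A) e.surjective
  have hdedA : IsDedekindDomain A := inferInstance
  have hchar : CharZero k⟮(u : K)⟯ := inferInstance
  have hsep : Algebra.IsSeparable k⟮(u : K)⟯ K := inferInstance
  have hded : IsDedekindDomain (integralClosure A K) :=
    IsIntegralClosure.isDedekindDomain A k⟮(u : K)⟯ K (integralClosure A K)
  have hfrac : IsFractionRing (integralClosure A K) K :=
    integralClosure.isFractionRing_of_finite_extension k⟮(u : K)⟯ K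
  let a : A := ⟨(u : K), Algebra.self_mem_adjoin_singleton k (u : K)⟩
  have ha : ¬ IsUnit a := by
    intro h
    have hX : e Polynomial.X = a := Polynomial.algEquivOfTranscendental_apply_X k (u : K) hu
    rw [← hX] at h
    have h2 : IsUnit (e.symm (e Polynomial.X)) := h.map e.symm
    rw [e.symm_apply_apply] at h2
    exact Polynomial.not_isUnit_X h2
  have hint : Algebra.IsIntegral A (integralClosure A K) := inferInstance
  have hloc : IsLocalHom (algebraMap A (integralClosure A K)) := inferInstance
  have hnu : algebraMap A (integralClosure A K) a ∈ nonunits (integralClosure A K) := by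
    intro h
    exact ha (hloc.map_nonunit a h)
  obtain ⟨P, hP, hmem⟩ := exists_max_ideal_of_mem_nonunits hnu
  have ha0 : algebraMap A (integralClosure A K) a ≠ 0 := by
    intro h
    have : (algebraMap (integralClosure A K) K) (algebraMap A (integralClosure A K) a) = 0 := by
      rw [h, map_zero]
    exact u.ne_zero this
  have hPbot : P ≠ ⊥ := by
    intro h
    rw [h, Ideal.mem_bot] at hmem
    exact ha0 hmem
  let v : IsDedekindDomain.HeightOneSpectrum (integralClosure A K) := ⟨P, hP.isPrime, hPbot⟩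
  refine ⟨dval v, ?_, ?_⟩
  · intro c hc
    obtain ⟨r, hr⟩ := hc
    have hle : ∀ s : k, v.valuation K (algebraMap k K s) ≤ 1 := by
      intro s
      have : algebraMap k K s =
          algebraMap (integralClosure A K) K (algebraMap k (integralClosure A K) s) := rfl
      rw [this]
      exact v.valuation_le_one _
    have hr0 : r ≠ 0 := by
      intro h
      rw [h, map_zero] at hr
      exact c.ne_zero hr
    have h1 := hle r
    have h2 := hle r⁻¹
    rw [map_inv₀, map_inv₀] at h2
    have hv0 : v.valuation K (algebraMap k K r) ≠ 0 := by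
      rw [← hr]
      exact (Valuation.ne_zero_iff _).mpr c.ne_zero
    have h3 : v.valuation K (algebraMap k K r) = 1 := by
      apply le_antisymm h1
      rwa [inv_le_one₀ (zero_lt_iff.mpr hv0)] at h2
    show -(WithZero.log (v.valuation K (c : K))) = 0
    rw [hr, h3, WithZero.log_one, neg_zero]
  · show -(WithZero.log (v.valuation K (u : K))) ≠ 0
    have h1 : v.valuation K (algebraMap (integralClosure A K) K
        (algebraMap A (integralClosure A K) a)) < 1 :=
      (v.valuation_lt_one_iff_mem _).mpr hmem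
    have h2 : algebraMap (integralClosure A K) K
        (algebraMap A (integralClosure A K) a) = (u : K) := rfl
    rw [h2] at h1
    have h3 := (WithZero.log_lt_log ((Valuation.ne_zero_iff (v.valuation K)).mpr u.ne_zero)
      one_ne_zero).mpr h1
    rw [WithZero.log_one] at h3
    omega

end PlaceQ

open IntermediateField in
theorem specPlace : SpecPlace := by
  intro K _ _ x hx hfin u hu
  exact PlaceQ.main x hfin u hu

end MP743d1e
end
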