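import Pool.Agent.Lib.MP_743d1e_nt.Spec

/-!
# BW: the Bloch-Wigner function
-/

namespace MP743d1e

namespace BW

open MeasureTheory Set Filter Topology Complex
open scoped Interval

/-- Primitives on open sets which are star shaped about the origin. -/
theorem prim {φ : ℂ → ℂ} {U : Set ℂ} (hU : IsOpen U)
    (hs : ∀ z ∈ U, ∀ t : ℝ, 0 ≤ t → t ≤ 1 → (t : ℂ) * z ∈ U) (hφ : DifferentiableOn ℂ φ U)
    {z0 : ℂ} (hz0 : z0 ∈ U) :
    HasDerivAt (fun z => ∫ t in (0 : ℝ)..1, z * φ (t * z)) (φ z0) z0 := by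
  have hφ' : DifferentiableOn ℂ (deriv φ) U := hφ.deriv hU
  obtain ⟨r, hr, hball⟩ := Metric.isOpen_iff.mp hU z0 hz0
  have hcb : Metric.closedBall z0 (r / 2) ⊆ U :=
    (Metric.closedBall_subset_ball (by linarith)).trans hball
  set F : ℂ → ℝ → ℂ := fun z t => z * φ (t * z) with hF
  set F' : ℂ → ℝ → ℂ := fun z t => φ (t * z) + z * (deriv φ (t * z) * t) with hF'
  have hcF : ∀ z ∈ U, ContinuousOn (F z) (Icc 0 1) := by
    intro z hz
    refine continuousOn_const.mul (hφ.continuousOn.comp ?_ ?_)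
    · fun_prop
    · intro t ht
      exact hs z hz t ht.1 ht.2
  have hcF' : ContinuousOn (fun p : ℝ × ℂ => F' p.2 p.1)
      (Icc 0 1 ×ˢ Metric.closedBall z0 (r / 2)) := by
    have hmaps : MapsTo (fun p : ℝ × ℂ => (p.1 : ℂ) * p.2)
        (Icc 0 1 ×ˢ Metric.closedBall z0 (r / 2)) U := by
      rintro ⟨t, z⟩ ⟨ht, hz⟩
      exact hs z (hcb hz) t ht.1 ht.2
    have hc : ContinuousOn (fun p : ℝ × ℂ => (p.1 : ℂ) * p.2)
        (Icc 0 1 ×ˢ Metric.closedBall z0 (r / 2)) := by fun_prop
    refine (hφ.continuousOn.comp hc hmaps).add (ContinuousOn.mul (by fun_prop)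
      ((hφ'.continuousOn.comp hc hmaps).mul (by fun_prop)))
  have hcF'0 : ContinuousOn (F' z0) (Icc 0 1) := by
    have : ContinuousOn (fun t : ℝ => ((t, z0) : ℝ × ℂ)) (Icc 0 1) := by fun_prop
    exact hcF'.comp this fun t ht => ⟨ht, Metric.mem_closedBall_self (by linarith)⟩
  obtain ⟨C, hC⟩ := (isCompact_Icc.prod (isCompact_closedBall z0 (r / 2))).exists_bound_of_continuousOn
    hcF'
  have hI : Ι (0 : ℝ) 1 = Ioc 0 1 := uIoc_of_le zero_le_one
  have hUI : uIcc (0 : ℝ) 1 = Icc 0 1 := uIcc_of_le zero_le_one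
  have hs' : Metric.closedBall z0 (r / 2) ∈ 𝓝 z0 := Metric.closedBall_mem_nhds _ (by linarith)
  have key := intervalIntegral.hasDerivAt_integral_of_dominated_loc_of_deriv_le
    (μ := volume) (a := 0) (b := 1) (F := F) (F' := F') (x₀ := z0) (bound := fun _ => C) hs'
    (by
      filter_upwards [hs'] with z hz
      rw [hI]
      exact ((hcF z (hcb hz)).mono Ioc_subset_Icc_self).aestronglyMeasurable measurableSet_Ioc)
    (by
      apply ContinuousOn.intervalIntegrable
      rw [hUI]
      exact hcF z0 hz0)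
    (by
      rw [hI]
      exact (hcF'0.mono Ioc_subset_Icc_self).aestronglyMeasurable measurableSet_Ioc)
    (by
      refine Eventually.of_forall fun t ht z hz => ?_
      rw [hI] at ht
      exact hC (t, z) ⟨⟨ht.1.le, ht.2⟩, hz⟩)
    intervalIntegrable_const
    (by
      refine Eventually.of_forall fun t ht z hz => ?_
      rw [hI] at ht
      have h1 : HasDerivAt φ (deriv φ (t * z)) ((t : ℂ) * z) :=
        (hφ.differentiableAt (hU.mem_nhds (hs z (hcb hz) t ht.1.le ht.2))).hasDerivAt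
      have h2 : HasDerivAt (fun w : ℂ => (t : ℂ) * w) (t : ℂ) z := by
        simpa using (hasDerivAt_id z).const_mul (t : ℂ)
      have h3 := h1.comp z h2
      have h4 := (hasDerivAt_id z).mul h3
      have e : (fun x => F x t) = id * (φ ∘ fun w => (t : ℂ) * w) := by
        funext x
        simp [hF]
      rw [e]
      refine h4.congr_deriv ?_
      simp [hF'])
  have hval : ∫ t in (0 : ℝ)..1, F' z0 t = φ z0 := by
    have hd : ∀ t ∈ uIcc (0 : ℝ) 1, HasDerivAt (fun t : ℝ => (t : ℂ) * φ (t * z0)) (F' z0 t) t := by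
      intro t ht
      rw [hUI] at ht
      have h1 : HasDerivAt φ (deriv φ (t * z0)) ((t : ℂ) * z0) :=
        (hφ.differentiableAt (hU.mem_nhds (hs z0 hz0 t ht.1 ht.2))).hasDerivAt
      have h2 : HasDerivAt (fun t : ℝ => (t : ℂ) * z0) z0 t := by
        simpa using (Complex.ofRealCLM.hasDerivAt (x := t)).mul_const z0
      have h3 := h1.scomp t h2
      have h4 := (Complex.ofRealCLM.hasDerivAt (x := t)).mul h3
      refine h4.congr_deriv ?_
      simp only [hF', Function.comp_apply, Complex.ofRealCLM_apply, Complex.ofReal_one, one_mul,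
        smul_eq_mul]
      ring
    rw [intervalIntegral.integral_eq_sub_of_hasDerivAt hd key.1]
    simp
  rw [hval] at key
  exact key.2

/-- The plane without `[1, ∞)`. -/
def U1 : Set ℂ := {z | 1 - z ∈ slitPlane}

theorem isOpen_U1 : IsOpen U1 := isOpen_slitPlane.preimage (by fun_prop)

theorem star_U1 (z : ℂ) (hz : z ∈ U1) (t : ℝ) (h0 : 0 ≤ t) (h1 : t ≤ 1) : (t : ℂ) * z ∈ U1 := by
  simp only [U1, mem_ofPred_eq, mem_slitPlane_iff, sub_re, one_re, sub_im, one_im, mul_re,
    ofReal_re, ofReal_im, zero_mul, sub_zero, mul_im, zero_sub, neg_ne_zero, add_zero] at hz ⊢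
  rcases hz with h | h
  · left
    rcases le_or_gt z.re 0 with h2 | h2
    · nlinarith
    · nlinarith
  · rcases h0.eq_or_lt with h2 | h2
    · left; rw [← h2]; norm_num
    · right
      exact mul_ne_zero h2.ne' h

/-- The function `- log (1 - z) / z`. -/
noncomputable def phi : ℂ → ℂ := dslope (fun w => -log (1 - w)) 0

theorem phi_eq {z : ℂ} (hz : z ≠ 0) : phi z = -log (1 - z) / z := by
  unfold phi
  rw [dslope_of_ne _ hz, slope_def_field]
  simp

theorem diff_phi : DifferentiableOn ℂ phi U1 := by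
  unfold phi
  rw [Complex.differentiableOn_dslope (isOpen_U1.mem_nhds (by simp [U1]))]
  intro z hz
  apply DifferentiableAt.differentiableWithinAt
  apply DifferentiableAt.neg
  exact DifferentiableAt.clog (by fun_prop) hz

/-- The dilogarithm. -/
noncomputable def Li (z : ℂ) : ℂ := ∫ t in (0 : ℝ)..1, z * phi (t * z)

theorem hasDerivAt_Li {z : ℂ} (hz : z ∈ U1) : HasDerivAt Li (phi z) z :=
  prim isOpen_U1 star_U1 diff_phi hz

/-- The Bloch-Wigner function on `U1`. -/
noncomputable def B1 (z : ℂ) : ℝ := (Li z).im + (log (1 - z)).im * Real.log ‖z‖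

/-- The differential. -/
noncomputable def eta (z h : ℂ) : ℝ :=
  Real.log ‖z‖ * (-h / (1 - z)).im - Real.log ‖1 - z‖ * (h / z).im

theorem hasDerivAt_log_norm {f : ℝ → ℂ} {f' : ℂ} {θ : ℝ} (hf : HasDerivAt f f' θ)
    (h0 : f θ ≠ 0) : HasDerivAt (fun t => Real.log ‖f t‖) (f' / f θ).re θ := by
  have h1 : HasDerivAt (fun t => ‖f t‖ ^ 2) (2 * ((f θ).re * f'.re + (f θ).im * f'.im)) θ := by
    have hre : HasDerivAt (fun t => (f t).re) f'.re θ := by
      exact (Complex.reCLM.hasFDerivAt.comp_hasDerivAt θ hf)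
    have him : HasDerivAt (fun t => (f t).im) f'.im θ := by
      exact (Complex.imCLM.hasFDerivAt.comp_hasDerivAt θ hf)
    have := (hre.mul hre).add (him.mul him)
    have e : (fun t => ‖f t‖ ^ 2) =
        (((fun t => (f t).re) * fun t => (f t).re) + (fun t => (f t).im) * fun t => (f t).im) := by
      funext t
      rw [← Complex.normSq_eq_norm_sq, Complex.normSq_apply]
      rfl
    rw [e]
    exact this.congr_deriv (by ring)
  have h2 : ‖f θ‖ ^ 2 ≠ 0 := by
    have := norm_ne_zero_iff.mpr h0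
    positivity
  have h3 := (h1.log h2).div_const 2
  have e : (fun t => Real.log ‖f t‖) = fun t => Real.log (‖f t‖ ^ 2) / 2 := by
    funext t
    rw [Real.log_pow]
    push_cast
    ring
  rw [e]
  refine h3.congr_deriv ?_
  rw [Complex.div_re, ← Complex.normSq_eq_norm_sq]
  have h4 : Complex.normSq (f θ) ≠ 0 := by
    rw [Complex.normSq_eq_norm_sq]; exact h2
  field_simp

theorem hasDerivAt_B1 {f : ℝ → ℂ} {f' : ℂ} {θ : ℝ} (hf : HasDerivAt f f' θ)
    (h0 : f θ ≠ 0) (hU : f θ ∈ U1) : HasDerivAt (fun t => B1 (f t)) (eta (f θ) f') θ := by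
  have h1 : HasDerivAt (fun t => Li (f t)) (f' * phi (f θ)) θ := by
    have := (hasDerivAt_Li hU).scomp θ hf
    simpa [Function.comp_def] using this
  have h1' : HasDerivAt (fun t => (Li (f t)).im) (f' * phi (f θ)).im θ :=
    Complex.imCLM.hasFDerivAt.comp_hasDerivAt θ h1
  have h2 : HasDerivAt (fun t => log (1 - f t)) (-f' / (1 - f θ)) θ :=
    (hf.const_sub 1).clog_real hU
  have h2' : HasDerivAt (fun t => (log (1 - f t)).im) (-f' / (1 - f θ)).im θ :=
    Complex.imCLM.hasFDerivAt.comp_hasDerivAt θ h2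
  have h3 := h1'.add (h2'.mul (hasDerivAt_log_norm hf h0))
  refine h3.congr_deriv ?_
  rw [phi_eq h0]
  unfold eta
  have e1 : f' * (-log (1 - f θ) / f θ) = -(log (1 - f θ) * (f' / f θ)) := by ring
  rw [e1, Complex.neg_im, Complex.mul_im, Complex.log_re]
  ring

/-- The same function near `[1, ∞)`. -/
noncomputable def B2 (z : ℂ) : ℝ := -B1 (1 - z)

theorem hasDerivAt_B2 {f : ℝ → ℂ} {f' : ℂ} {θ : ℝ} (hf : HasDerivAt f f' θ)
    (h1 : f θ ≠ 1) (hU : f θ ∈ slitPlane) :
    HasDerivAt (fun t => B2 (f t)) (eta (f θ) f') θ := by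
  have h2 := hasDerivAt_B1 (hf.const_sub 1) (by
    intro h; apply h1; linear_combination -h) (by simpa [U1] using hU)
  have h3 := h2.neg
  refine h3.congr_deriv ?_
  unfold eta
  simp only [sub_sub_cancel, neg_neg]
  ring

theorem B1_real {x : ℝ} (h0 : 0 < x) (h1 : x < 1) : B1 (x : ℂ) = 0 := by
  have hlog : ∀ y : ℝ, y < 1 → (log (1 - (y : ℂ))).im = 0 := by
    intro y hy
    rw [Complex.log_im]
    have : (1 - (y : ℂ)) = ((1 - y : ℝ) : ℂ) := by push_cast; ring
    rw [this, Complex.arg_ofReal_of_nonneg (by linarith)]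
  have hL : (Li (x : ℂ)).im = 0 := by
    unfold Li
    have h2 : ∀ t ∈ uIcc (0 : ℝ) 1, (x : ℂ) * phi (t * x) =
        (((x : ℂ) * phi (t * x)).re : ℂ) := by
      intro t ht
      rw [uIcc_of_le zero_le_one] at ht
      apply Complex.ext
      · simp
      · rw [Complex.ofReal_im]
        rcases ht.1.eq_or_lt with h3 | h3
        · rw [← h3]
          have : phi ((0 : ℝ) * (x : ℂ)) = 1 := by
            have e : HasDerivAt (fun w : ℂ => -log (1 - w)) 1 0 := by
              have h8 := (((hasDerivAt_id (0 : ℂ)).const_sub 1).clog (by simp)).neg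
              have h9 : (fun w : ℂ => -log (1 - w)) = -fun t => log (1 - id t) := by
                funext w
                simp
              rw [h9]
              refine h8.congr_deriv ?_
              simp
            unfold phi
            rw [Complex.ofReal_zero, zero_mul, dslope_same, e.deriv]
          rw [this]; simp
        · have h4 : ((t : ℂ) * x) ≠ 0 := by
            rw [← Complex.ofReal_mul, Complex.ofReal_ne_zero]
            positivity
          rw [phi_eq h4]
          have h5 : t * x < 1 := by nlinarith [ht.2]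
          have h6 : (log (1 - ((t : ℂ) * x))).im = 0 := by
            rw [← Complex.ofReal_mul]
            exact hlog _ h5
          have h7 : log (1 - ((t : ℂ) * x)) = ((log (1 - ((t : ℂ) * x))).re : ℂ) := by
            apply Complex.ext
            · simp
            · rw [h6]; simp
          rw [h7, ← Complex.ofReal_mul, ← Complex.ofReal_neg, ← Complex.ofReal_div,
            ← Complex.ofReal_mul, Complex.ofReal_im]
    rw [intervalIntegral.integral_congr h2, intervalIntegral.integral_ofReal, Complex.ofReal_im]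
  unfold B1
  rw [hL, hlog x h1]
  simp

theorem star_W {z : ℂ} (hz : z ∈ U1) (hz' : z ∈ slitPlane) {t : ℝ} (h0 : 0 ≤ t) (h1 : t ≤ 1) :
    (1 / 2 : ℂ) + t * (z - 1 / 2) ∈ U1 ∧ (1 / 2 : ℂ) + t * (z - 1 / 2) ∈ slitPlane := by
  have er : ((1 / 2 : ℂ) + t * (z - 1 / 2)).re = 1 / 2 + t * (z.re - 1 / 2) := by
    simp
  have ei : ((1 / 2 : ℂ) + t * (z - 1 / 2)).im = t * z.im := by
    simp
  have e1 : (1 - ((1 / 2 : ℂ) + t * (z - 1 / 2))).re = 1 - (1 / 2 + t * (z.re - 1 / 2)) := by
    rw [Complex.sub_re, er, Complex.one_re]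
  have e2 : (1 - ((1 / 2 : ℂ) + t * (z - 1 / 2))).im = -(t * z.im) := by
    rw [Complex.sub_im, ei, Complex.one_im, zero_sub]
  simp only [U1, mem_ofPred_eq, mem_slitPlane_iff] at hz hz' ⊢
  rw [er, ei, e1, e2]
  rw [Complex.sub_re, Complex.sub_im, Complex.one_re, Complex.one_im, zero_sub, neg_ne_zero] at hz
  by_cases him : z.im = 0
  · have h2 : 0 < 1 - z.re := by
      rcases hz with h | h
      · exact h
      · exact absurd him h
    have h3 : 0 < z.re := by
      rcases hz' with h | h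
      · exact h
      · exact absurd him h
    refine ⟨Or.inl ?_, Or.inl ?_⟩ <;> nlinarith
  · rcases h0.eq_or_lt with h2 | h2
    · rw [← h2]
      refine ⟨Or.inl ?_, Or.inl ?_⟩ <;> norm_num
    · refine ⟨Or.inr ?_, Or.inr ?_⟩
      · rw [neg_ne_zero]; exact mul_ne_zero h2.ne' him
      · exact mul_ne_zero h2.ne' him

theorem B1_eq_B2 {z : ℂ} (hz : z ∈ U1) (hz' : z ∈ slitPlane) : B1 z = B2 z := by
  set f : ℝ → ℂ := fun t => (1 / 2 : ℂ) + t * (z - 1 / 2) with hf
  have hd : ∀ t : ℝ, HasDerivAt f (z - 1 / 2) t := by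
    intro t
    have := ((Complex.ofRealCLM.hasDerivAt (x := t)).mul_const (z - 1 / 2)).const_add (1 / 2 : ℂ)
    simpa [hf] using this
  have hne0 : ∀ t ∈ Icc (0 : ℝ) 1, f t ≠ 0 := by
    intro t ht h
    have := (star_W hz hz' ht.1 ht.2).2
    change f t ∈ slitPlane at this
    rw [h] at this
    exact Complex.zero_notMem_slitPlane this
  have hne1 : ∀ t ∈ Icc (0 : ℝ) 1, f t ≠ 1 := by
    intro t ht h
    have := (star_W hz hz' ht.1 ht.2).1
    change f t ∈ U1 at this
    rw [h] at this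
    simp [U1] at this
  have hg : ∀ t ∈ Icc (0 : ℝ) 1, HasDerivAt (fun t => B1 (f t) - B2 (f t)) 0 t := by
    intro t ht
    have h1 := hasDerivAt_B1 (hd t) (hne0 t ht) (star_W hz hz' ht.1 ht.2).1
    have h2 := hasDerivAt_B2 (hd t) (hne1 t ht) (star_W hz hz' ht.1 ht.2).2
    have := h1.sub h2
    rwa [sub_self] at this
  have hc := constant_of_has_deriv_right_zero (f := fun t => B1 (f t) - B2 (f t)) (a := 0) (b := 1)
    (fun t ht => (hg t ht).continuousAt.continuousWithinAt)
    (fun t ht => (hg t ⟨ht.1, ht.2.le⟩).hasDerivWithinAt) 1 ⟨zero_le_one, le_refl _⟩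
  have e1 : f 1 = z := by simp [hf]
  have e0 : f 0 = ((1 / 2 : ℝ) : ℂ) := by simp [hf]
  simp only [e1, e0] at hc
  have e2 : B2 ((1 / 2 : ℝ) : ℂ) = 0 := by
    unfold B2
    have : (1 - ((1 / 2 : ℝ) : ℂ)) = ((1 / 2 : ℝ) : ℂ) := by push_cast; norm_num
    rw [this, B1_real (by norm_num) (by norm_num), neg_zero]
  rw [B1_real (by norm_num) (by norm_num), e2, sub_zero] at hc
  linarith

end BW

open BW Complex in
theorem specBW : SpecBW := by
  classical
  refine ⟨fun z => if z ∈ U1 then B1 z else B2 z, ?_⟩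
  intro f f' θ hf h0 h1
  change HasDerivAt _ (eta (f θ) f') θ
  by_cases hU : f θ ∈ U1
  · have hev : ∀ᶠ t in nhds θ, f t ∈ U1 := hf.continuousAt.eventually (isOpen_U1.mem_nhds hU)
    refine (hasDerivAt_B1 hf h0 hU).congr_of_eventuallyEq ?_
    filter_upwards [hev] with t ht
    rw [if_pos ht]
  · have hS : f θ ∈ slitPlane := by
      simp only [U1, Set.mem_ofPred_eq, mem_slitPlane_iff, not_or, Complex.sub_re, Complex.one_re,
        not_lt, Complex.sub_im, Complex.one_im, zero_sub, neg_ne_zero, not_not] at hU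
      left
      linarith [hU.1]
    have hev : ∀ᶠ t in nhds θ, f t ∈ slitPlane :=
      hf.continuousAt.eventually (isOpen_slitPlane.mem_nhds hS)
    refine (hasDerivAt_B2 hf h1 hS).congr_of_eventuallyEq ?_
    filter_upwards [hev] with t ht
    by_cases hu : f t ∈ U1
    · rw [if_pos hu, B1_eq_B2 hu ht]
    · rw [if_neg hu]

end MP743d1e
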