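import Pool.Agent.Lib.MP_743d1e_nt.PlaceQ
import Pool.Agent.Lib.MP_743d1e_nt.BW
import Pool.Agent.Lib.MP_743d1e_nt.Kae

/-!
# The regulator pairing
-/

namespace MP743d1e

/-- The regulator pairing of `K2 F` with a closed path of complex embeddings of `F`:
`{f, h} ↦ ∫ (log|f| d arg h - log|h| d arg f)`. -/
noncomputable def reg {F : Type} [Field F] (γ : Loop F) : K2 F →+ ℝ :=
  K2.lift (fun f h => regInt (fun θ => γ.ev θ (f : F)) (fun θ => γ.ev θ (h : F)))
    (fun f f' g => by
      obtain ⟨ρ, hρ⟩ := specStein specBW F γ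
      simp only [← hρ, sym_mul_left, map_add])
    (fun f g g' => by
      obtain ⟨ρ, hρ⟩ := specStein specBW F γ
      simp only [← hρ, sym_mul_right, map_add])
    (fun f g h => by
      obtain ⟨ρ, hρ⟩ := specStein specBW F γ
      simp only [← hρ, sym_steinberg f g h, map_zero])

theorem reg_eq {F : Type} [Field F] (γ : Loop F) : reg γ = regOf (specStein specBW) γ := rfl

end MP743d1e
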