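import Pool.Agent.Lib.MP_743d1e_nt.Defs

/-!
# The tame symbol as a homomorphism on `K2`
-/

namespace MP743d1e

/-- Maps out of `K2`. -/
def K2.lift {F : Type} [Field F] {A : Type} [AddCommGroup A] (φ : Fˣ → Fˣ → A)
    (h1 : ∀ f f' g, φ (f * f') g = φ f g + φ f' g)
    (h2 : ∀ f g g', φ f (g * g') = φ f g + φ f g')
    (h3 : ∀ f g : Fˣ, (f : F) + (g : F) = 1 → φ f g = 0) : K2 F →+ A :=
  QuotientAddGroup.lift (AddSubgroup.closure (relSet F))
    (FreeAbelianGroup.lift (fun z : Fˣ × Fˣ => φ z.1 z.2)) (by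
      rw [AddSubgroup.closure_le]
      rintro z ((⟨f, f', g, rfl⟩ | ⟨f, g, g', rfl⟩) | ⟨f, g, hfg, rfl⟩)
      · simp [AddMonoidHom.mem_ker, h1]
      · simp [AddMonoidHom.mem_ker, h2]
      · simp [AddMonoidHom.mem_ker, h3 f g hfg])

theorem K2.lift_sym {F : Type} [Field F] {A : Type} [AddCommGroup A] (φ : Fˣ → Fˣ → A)
    (h1 : ∀ f f' g, φ (f * f') g = φ f g + φ f' g)
    (h2 : ∀ f g g', φ f (g * g') = φ f g + φ f g')
    (h3 : ∀ f g : Fˣ, (f : F) + (g : F) = 1 → φ f g = 0) (f g : Fˣ) :
    K2.lift φ h1 h2 h3 (sym f g) = φ f g := by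
  simp [K2.lift, sym]

/-- Two homomorphisms on `K2` that agree on symbols are equal. -/
theorem K2.hom_ext {F : Type} [Field F] {A : Type} [AddCommGroup A] {φ ψ : K2 F →+ A}
    (h : ∀ f g : Fˣ, φ (sym f g) = ψ (sym f g)) : φ = ψ := by
  apply QuotientAddGroup.addMonoidHom_ext
  apply FreeAbelianGroup.lift_ext
  rintro ⟨f, g⟩
  exact h f g

namespace DVal

variable {F : Type} [Field F] (v : DVal F)

theorem ord_one : v.ord 1 = 0 := by
  have := v.ord_mul 1 1
  simp at this
  exact this

theorem ord_inv (f : Fˣ) : v.ord f⁻¹ = -v.ord f := by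
  have := v.ord_mul f f⁻¹
  rw [mul_inv_cancel, ord_one] at this
  linarith

theorem ord_pow (f : Fˣ) (n : ℕ) : v.ord (f ^ n) = n * v.ord f := by
  induction n with
  | zero => simp [ord_one]
  | succ n ih => rw [pow_succ, ord_mul, ih]; push_cast; ring

theorem ord_zpow (f : Fˣ) (n : ℤ) : v.ord (f ^ n) = n * v.ord f := by
  obtain ⟨n, rfl | rfl⟩ := n.eq_nat_or_neg
  · rw [zpow_natCast, ord_pow]
  · rw [zpow_neg, zpow_natCast, ord_inv, ord_pow]; ring

theorem ord_neg_one : v.ord (-1) = 0 := by
  have := v.ord_mul (-1) (-1)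
  simp only [mul_neg, mul_one, neg_neg, ord_one] at this
  linarith

theorem ord_neg (f : Fˣ) : v.ord (-f) = v.ord f := by
  rw [← neg_one_mul, ord_mul, ord_neg_one, zero_add]

theorem ord_tameUnit (f g : Fˣ) : v.ord (v.tameUnit f g) = 0 := by
  unfold tameUnit
  rw [ord_mul, ord_mul, ord_zpow, ord_zpow, ord_zpow, ord_neg_one]
  ring

theorem ord_eq_zero_of_isOne {f : Fˣ} (h : v.IsOne f) : v.ord f = 0 := by
  rcases h with rfl | ⟨u, hu, h1⟩
  · exact v.ord_one
  · by_contra hne
    rcases lt_or_gt_of_ne hne with hlt | hgt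
    · -- 1 + u = f, min (ord 1) (ord u) ≤ ord f
      have := v.ord_add 1 u f (by rw [← hu]; simp)
      rw [ord_one] at this
      have h2 : min 0 (v.ord u) = 0 := min_eq_left (by linarith)
      omega
    · -- f + (-u) = 1
      have := v.ord_add f (-u) 1 (by push_cast; rw [← hu]; ring)
      rw [ord_one, ord_neg] at this
      have h2 : 1 ≤ min (v.ord f) (v.ord u) := le_min (by linarith) h1
      omega

/-- The subgroup of one-units. -/
def U1 : Subgroup Fˣ where
  carrier := {f | v.IsOne f}
  one_mem' := Or.inl rfl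
  mul_mem' := by
    intro f g hf hg
    by_cases hfg : f * g = 1
    · exact Or.inl hfg
    right
    have hne : ((f * g : Fˣ) : F) - 1 ≠ 0 := by
      intro h
      apply hfg
      apply Units.ext
      rw [Units.val_one]
      linear_combination h
    refine ⟨Units.mk0 _ hne, rfl, ?_⟩
    have hg0 := v.ord_eq_zero_of_isOne hg
    rcases hf with rfl | ⟨u, hu, h1⟩
    · rcases hg with rfl | ⟨w, hw, h2⟩
      · simp at hne
      · have : Units.mk0 _ hne = w := by
          apply Units.ext
          simp [← hw]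
        rw [this]; exact h2
    · rcases hg with rfl | ⟨w, hw, h2⟩
      · have : Units.mk0 _ hne = u := by
          apply Units.ext
          simp [← hu]
        rw [this]; exact h1
      · have key := v.ord_add (u * g) w (Units.mk0 _ hne) (by
          rw [Units.val_mul, ← hu, ← hw, Units.val_mk0, Units.val_mul]; ring)
        rw [ord_mul, hg0, add_zero] at key
        exact le_trans (le_min h1 h2) key
  inv_mem' := by
    intro f hf
    have hf0 := v.ord_eq_zero_of_isOne hf
    rcases hf with rfl | ⟨u, hu, h1⟩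
    · left; simp
    · right
      refine ⟨-(u * f⁻¹), ?_, ?_⟩
      · push_cast
        rw [← hu]
        field_simp
        ring
      · rw [ord_neg, ord_mul, ord_inv, hf0]; simpa using h1

theorem mem_U1 {f : Fˣ} : f ∈ v.U1 ↔ v.IsOne f := Iff.rfl

theorem aux_comm {G : Type} [CommGroup G] (a a' b b' c c' : G) :
    (a * a') * (b * b') * (c * c') = (a * b * c) * (a' * b' * c') := by
  rw [mul_mul_mul_comm a a' b b', mul_mul_mul_comm (a * b) (a' * b') c c']

theorem tameUnit_mul_left (f f' g : Fˣ) :
    v.tameUnit (f * f') g = v.tameUnit f g * v.tameUnit f' g := by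
  unfold tameUnit
  rw [ord_mul, mul_zpow, add_mul, zpow_add, neg_add, zpow_add]
  exact aux_comm _ _ _ _ _ _

theorem tameUnit_mul_right (f g g' : Fˣ) :
    v.tameUnit f (g * g') = v.tameUnit f g * v.tameUnit f g' := by
  unfold tameUnit
  rw [ord_mul, mul_zpow, mul_add, zpow_add, zpow_add]
  exact aux_comm _ _ _ _ _ _

theorem isOne_of_add {f g : Fˣ} (h : (f : F) + (g : F) = 1) (hf : 1 ≤ v.ord f) : v.IsOne g := by
  right
  refine ⟨-f, ?_, by rw [ord_neg]; exact hf⟩
  push_cast
  linear_combination h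

theorem tameUnit_steinberg (f g : Fˣ) (h : (f : F) + (g : F) = 1) : v.tameUnit f g ∈ v.U1 := by
  rcases lt_trichotomy (v.ord f) 0 with hf | hf | hf
  · -- then ord g = ord f
    have hg : v.ord g = v.ord f := by
      apply le_antisymm
      · by_contra hlt
        push Not at hlt
        -- f = 1 + (-g)
        have := v.ord_add 1 (-g) f (by push_cast; linear_combination (-1 : F) * h)
        rw [ord_one, ord_neg] at this
        have h3 : v.ord f < min 0 (v.ord g) := lt_min hf hlt
        omega
      · have := v.ord_add 1 (-f) g (by push_cast; linear_combination (-1 : F) * h)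
        rw [ord_one, ord_neg] at this
        have h3 : min 0 (v.ord f) = v.ord f := min_eq_right hf.le
        omega
    have e : v.tameUnit f g = (-(g * f⁻¹)) ^ (-(v.ord f)) := by
      unfold tameUnit
      rw [hg]
      have e1 : (-1 : Fˣ) ^ (v.ord f * v.ord f) = (-1) ^ (-(v.ord f)) := by
        rcases Int.even_or_odd (v.ord f) with he | ho
        · rw [(he.mul_left _).neg_one_zpow, he.neg.neg_one_zpow]
        · rw [(ho.mul ho).neg_one_zpow, ho.neg.neg_one_zpow]
      rw [e1, ← neg_one_mul (g * f⁻¹), mul_zpow, mul_zpow, inv_zpow', neg_neg]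
      ac_rfl
    rw [e]
    apply Subgroup.zpow_mem
    rw [mem_U1]
    right
    refine ⟨-f⁻¹, ?_, ?_⟩
    · push_cast
      have hf0 : (f : F) ≠ 0 := f.ne_zero
      field_simp
      linear_combination (-1 : F) * h
    · rw [ord_neg, ord_inv]; omega
  · -- ord f = 0
    have e : v.tameUnit f g = f ^ (v.ord g) := by
      unfold tameUnit
      rw [hf]; simp
    rw [e]
    rcases lt_trichotomy (v.ord g) 0 with hg | hg | hg
    · exfalso
      have := v.ord_add 1 (-f) g (by push_cast; linear_combination (-1 : F) * h)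
      rw [ord_one, ord_neg, hf] at this
      simp at this
      omega
    · rw [hg, zpow_zero]; exact one_mem _
    · apply Subgroup.zpow_mem
      exact v.isOne_of_add (by rw [add_comm]; exact h) hg
  · have hg1 : v.IsOne g := v.isOne_of_add h hf
    have hg0 := v.ord_eq_zero_of_isOne hg1
    have e : v.tameUnit f g = g ^ (-(v.ord f)) := by
      unfold tameUnit
      rw [hg0]; simp
    rw [e]
    apply Subgroup.zpow_mem
    exact hg1

end DVal

/-- The tame symbol `K2 F → κ(v)ˣ`, where the units of the residue field are realized as a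
subgroup of `Fˣ` modulo one-units: `{f, g} ↦ (-1)^(v f * v g) f^(v g) g^(-v f)`. -/
def tame {F : Type} [Field F] (v : DVal F) : K2 F →+ Additive (Fˣ ⧸ v.U1) :=
  K2.lift (fun f g => Additive.ofMul (QuotientGroup.mk (s := v.U1) (v.tameUnit f g)))
    (fun f f' g => by rw [v.tameUnit_mul_left, QuotientGroup.mk_mul]; rfl)
    (fun f g g' => by rw [v.tameUnit_mul_right, QuotientGroup.mk_mul]; rfl)
    (fun f g h => by
      have := v.tameUnit_steinberg f g h
      rw [← QuotientGroup.eq_one_iff] at this
      rw [this]; rfl)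

theorem tame_sym {F : Type} [Field F] (v : DVal F) (f g : Fˣ) :
    tame v (sym f g) = Additive.ofMul (QuotientGroup.mk (s := v.U1) (v.tameUnit f g)) :=
  K2.lift_sym (fun f g => Additive.ofMul (QuotientGroup.mk (s := v.U1) (v.tameUnit f g))) _ _ _ f g

theorem tame_sym_eq_zero {F : Type} [Field F] (v : DVal F) (f g : Fˣ) :
    tame v (sym f g) = 0 ↔ v.IsOne (v.tameUnit f g) := by
  rw [tame_sym, ← DVal.mem_U1, ← QuotientGroup.eq_one_iff]
  rfl

end MP743d1e
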