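import Mathlib

/-!
# Definitions for MP_743d1e_nt

* `K2 F`: the second Milnor K-group of a field `F` (by Matsumoto this is Quillen's group).
* `DVal F`, `tame v`: normalized discrete valuations of `F` and the tame symbol.
* `Loop F`: closed paths of complex embeddings of `F`; `reg` (in `Basic`): the regulator pairing.
* `regDiff K`: the regular differentials of a field `K` over `ℂ`.
* `Arr`: arrangements of lines; `IsCurve`: the function field of the curve attached to it.
-/

namespace MP743d1e

open scoped BigOperators

/-! ## Milnor's group -/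

section K2

variable (F : Type) [Field F]

/-- The defining relations: bilinearity on both sides and the Steinberg relation
`{f, g} = 0` for `f + g = 1`. -/
def relSet : Set (FreeAbelianGroup (Fˣ × Fˣ)) :=
  {z | ∃ f f' g : Fˣ, z = FreeAbelianGroup.of (f * f', g) - FreeAbelianGroup.of (f, g)
      - FreeAbelianGroup.of (f', g)} ∪
  {z | ∃ f g g' : Fˣ, z = FreeAbelianGroup.of (f, g * g') - FreeAbelianGroup.of (f, g)
      - FreeAbelianGroup.of (f, g')} ∪
  {z | ∃ f g : Fˣ, (f : F) + (g : F) = 1 ∧ z = FreeAbelianGroup.of (f, g)}

/-- The second Milnor K-group of the field `F`. -/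
abbrev K2 : Type := FreeAbelianGroup (Fˣ × Fˣ) ⧸ AddSubgroup.closure (relSet F)

variable {F}

/-- The symbol `{f, g}`. -/
def sym (f g : Fˣ) : K2 F :=
  QuotientAddGroup.mk' (AddSubgroup.closure (relSet F)) (FreeAbelianGroup.of (f, g))

end K2

/-! ## Discrete valuations and the tame symbol -/

/-- A normalized discrete valuation of the field `F` (written additively, with values in `ℤ`). -/
structure DVal (F : Type) [Field F] where
  ord : Fˣ → ℤ
  ord_mul : ∀ f g : Fˣ, ord (f * g) = ord f + ord g
  surj : Function.Surjective ord
  ord_add : ∀ f g h : Fˣ, (f : F) + (g : F) = (h : F) → min (ord f) (ord g) ≤ ord h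

namespace DVal

variable {F : Type} [Field F] (v : DVal F)

/-- `IsOne v f`: the residue class of `f` is one, i.e. `f = 1` or `f - 1` has positive order. -/
def IsOne (f : Fˣ) : Prop := f = 1 ∨ ∃ u : Fˣ, (f : F) - 1 = (u : F) ∧ 1 ≤ v.ord u

/-- The tame symbol before reduction to the residue field:
`(-1) ^ (v f * v g) * f ^ (v g) / g ^ (v f)`, a unit of the valuation ring. -/
def tameUnit (f g : Fˣ) : Fˣ :=
  (-1) ^ (v.ord f * v.ord g) * f ^ (v.ord g) * g ^ (-(v.ord f))

end DVal

/-! ## Loops of complex embeddings and the regulator -/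

/-- A closed `C¹` path of complex embeddings of `F`. If `F` is the function field of a curve
over `ℚ`, this is a closed path of complex points of the curve that avoids all points with
algebraic coordinates, so that every nonzero `f` takes a finite nonzero value at all its points. -/
structure Loop (F : Type) [Field F] where
  ev : ℝ → F →+* ℂ
  smooth : ∀ f : F, ContDiff ℝ 1 (fun θ => ev θ f)
  periodic : ∀ (θ : ℝ) (f : F), ev (θ + 2 * Real.pi) f = ev θ f

/-- `∫ (log|f| d arg g - log|g| d arg f)` over `[0, 2π]`. -/
noncomputable def regInt (f g : ℝ → ℂ) : ℝ :=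
  ∫ θ in (0 : ℝ)..(2 * Real.pi),
    (Real.log ‖f θ‖ * (deriv g θ / g θ).im - Real.log ‖g θ‖ * (deriv f θ / f θ).im)

/-! ## Regular differentials -/

/-- `ω` is regular at the valuation ring `V`: it lies in the `V`-module generated by the
differentials of elements of `V`. -/
def RegularAt {K : Type} [Field K] [Algebra ℂ K] (V : ValuationSubring K) (ω : Ω[K⁄ℂ]) : Prop :=
  ω ∈ AddSubgroup.closure {η : Ω[K⁄ℂ] | ∃ b ∈ V, ∃ a ∈ V, η = b • KaehlerDifferential.D ℂ K a}

/-- The regular differentials of `K` over `ℂ`: those that are regular at every valuation ring of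
`K` containing `ℂ`, i.e. at every point of the smooth projective curve with function field `K`. -/
def regDiff (K : Type) [Field K] [Algebra ℂ K] : Submodule ℂ (Ω[K⁄ℂ]) where
  carrier := {ω | ∀ V : ValuationSubring K, (∀ c : ℂ, algebraMap ℂ K c ∈ V) → RegularAt V ω}
  add_mem' := fun ha hb V hV => AddSubgroup.add_mem _ (ha V hV) (hb V hV)
  zero_mem' := fun V _ => AddSubgroup.zero_mem _
  smul_mem' := by
    intro c ω hω V hV
    refine AddSubgroup.closure_induction (p := fun ω _ => RegularAt V (c • ω)) ?_ ?_ ?_ ?_ (hω V hV)
    · rintro η ⟨b, hb, a, ha, rfl⟩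
      apply AddSubgroup.subset_closure
      refine ⟨algebraMap ℂ K c * b, V.mul_mem _ _ (hV c) hb, a, ha, ?_⟩
      rw [mul_smul, algebraMap_smul]
    · show RegularAt V (c • (0 : Ω[K⁄ℂ]))
      rw [smul_zero]
      exact AddSubgroup.zero_mem _
    · intro x y _ _ hx hy
      show RegularAt V (c • (x + y))
      rw [smul_add]
      exact AddSubgroup.add_mem _ hx hy
    · intro x _ hx
      show RegularAt V (c • (-x))
      rw [smul_neg]
      exact AddSubgroup.neg_mem _ hx

/-! ## Arrangements and curves -/

/-- An arrangement of `m ≥ 1` vertical lines `x = a i` and `n ≥ 2` further lines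
`y = p j * x + q j` with integral coefficients, such that two non-parallel lines of the second
kind meet at a point with integral abscissa `r j l`, this abscissa is none of the `a i`, and no
three lines of the second kind are concurrent. -/
structure Arr where
  m : ℕ
  n : ℕ
  a : Fin m → ℤ
  p : Fin n → ℤ
  q : Fin n → ℤ
  r : Fin n → Fin n → ℤ
  hm : 1 ≤ m
  hn : 2 ≤ n
  a_inj : Function.Injective a
  line_inj : ∀ j l, p j = p l → q j = q l → j = l
  cross : ∀ j l, p j ≠ p l → p j * r j l + q j = p l * r j l + q l
  cross_a : ∀ j l i, p j ≠ p l → r j l ≠ a i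
  no_triple : ∀ j l l', p j ≠ p l → p j ≠ p l' → l ≠ l' → r j l ≠ r j l'

namespace Arr

variable (D : Arr)

/-- The number of pairs of non-parallel lines among the lines `y = p j * x + q j`. -/
def crossings : ℕ :=
  ((Finset.univ : Finset (Fin D.n × Fin D.n)).filter
    (fun z => z.1 < z.2 ∧ D.p z.1 ≠ D.p z.2)).card

/-- The genus of the arrangement. -/
def g : ℕ := (D.m - 1) * (D.n - 1) + D.crossings

/-- The number of lines parallel to the `j`-th line (including itself). -/
def par (j : Fin D.n) : ℕ := ((Finset.univ : Finset (Fin D.n)).filter (fun l => D.p l = D.p j)).card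

/-- The value of the `j`-th line at `x`. -/
def b {K : Type} [Field K] (j : Fin D.n) (x : K) : K := (D.p j : K) * x + (D.q j : K)

end Arr

/-- `IsCurve k K D lam x y`: `K` is the function field `k(x, y)` of the plane curve
`lam * ∏ (x - a i) * ∏ (y - (p j * x + q j)) = 1` over the field `k`. -/
structure IsCurve (k K : Type) [Field k] [Field K] [Algebra k K] (D : Arr) (lam : ℤ) (x y : K) :
    Prop where
  transc : Transcendental k x
  gen : IntermediateField.adjoin k {x, y} = ⊤
  eqn : (lam : K) * (∏ i, (x - (D.a i : K))) * (∏ j, (y - D.b j x)) = 1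

end MP743d1e
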