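import Pool.Agent.Lib.MP_743d1e_nt.Basic

/-!
# Exact statements of the modules of the project MP_743d1e_nt (paper proof: PROOF.md)

Part 1: K2 side (over `ℚ`).  Part 2: geometry of the curve over `ℂ`.  Part 3: arrangements.
-/

namespace MP743d1e

open scoped BigOperators
open Polynomial

/-! ## Part 1: K2 side -/

/-- BW. The Bloch-Wigner function, in the form of a chain rule. -/
def SpecBW : Prop :=
  ∃ B : ℂ → ℝ, ∀ (f : ℝ → ℂ) (f' : ℂ) (θ : ℝ), HasDerivAt f f' θ → f θ ≠ 0 → f θ ≠ 1 →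
    HasDerivAt (fun t => B (f t))
      (Real.log ‖f θ‖ * (-f' / (1 - f θ)).im - Real.log ‖1 - f θ‖ * (f' / f θ).im) θ

/-- STEIN. The regulator is well defined on `K2`. -/
def SpecStein : Prop :=
  ∀ (F : Type) [Field F] (γ : Loop F), ∃ ρ : K2 F →+ ℝ, ∀ f g : Fˣ,
    ρ (sym f g) = regInt (fun θ => γ.ev θ (f : F)) (fun θ => γ.ev θ (g : F))

/-- INTEG. The symbols have trivial tame symbol at every discrete valuation of `K`. -/
def SpecInteg : Prop :=
  ∀ (K : Type) [Field K] [Algebra ℚ K] (D : Arr) (lam : ℤ) (x y : K), IsCurve ℚ K D lam x y →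
    ∀ v : DVal K,
      (∀ (u w : Kˣ) (i i' : Fin D.m) (j l : Fin D.n),
        (u : K) * (x - (D.a i' : K)) = x - (D.a i : K) →
        (w : K) * (y - D.b l x) = y - D.b j x → tame v (sym u w) = 0) ∧
      (∀ (u w : Kˣ) (i' : Fin D.m) (j l : Fin D.n), D.p j ≠ D.p l →
        (u : K) * (x - (D.a i' : K)) = x - (D.r j l : K) →
        (w : K) * (y - D.b l x) = y - D.b j x → tame v (sym u w) = 0)

/-- The polynomial of the curve; the outer variable is `y`, the inner one is `x`. -/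
noncomputable def Arr.poly (D : Arr) (k : Type) [Field k] (lam : ℤ) : k[X][X] :=
  C (C (lam : k)) * C (∏ i, (X - C (D.a i : k))) *
    (∏ j, (X - C (C (D.p j : k) * X + C (D.q j : k)))) - 1

/-- Evaluation of a polynomial in two variables (outer variable `y`, inner variable `x`). -/
noncomputable def ev2 {k K : Type} [Field k] [Field K] [Algebra k K] (x y : K) (S : k[X][X]) : K :=
  S.eval₂ ((Polynomial.aeval x : k[X] →ₐ[k] K) : k[X] →+* K) y

/-- IRR. Irreducibility (Eisenstein) and its consequences, over any field of characteristic 0. -/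
def SpecIrr : Prop :=
  ∀ (k : Type) [Field k] [CharZero k] (D : Arr) (lam : ℤ), lam ≠ 0 →
    (∃ (K : Type) (_ : Field K) (_ : Algebra k K) (x y : K), IsCurve k K D lam x y) ∧
    ∀ (K : Type) [Field K] [Algebra k K] (x y : K), IsCurve k K D lam x y →
      (∀ S : k[X][X], ev2 x y S = 0 → D.poly k lam ∣ S) ∧
      FiniteDimensional (IntermediateField.adjoin k {x}) K ∧
      Module.finrank (IntermediateField.adjoin k {x}) K = D.n

/-- ALGCL. The curve over `ℚ` is geometrically irreducible. -/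
def SpecAlgCl : Prop :=
  ∀ (K : Type) [Field K] [Algebra ℚ K] (D : Arr) (lam : ℤ) (x y : K), IsCurve ℚ K D lam x y →
    ∀ z : K, IsAlgebraic ℚ z → z ∈ Set.range (algebraMap ℚ K)

/-- EMB. A closed path on the affine curve with transcendental abscissas is a `Loop`. -/
def SpecEmb : Prop :=
  ∀ (K : Type) [Field K] [Algebra ℚ K] (D : Arr) (lam : ℤ) (x y : K), IsCurve ℚ K D lam x y →
    ∀ A B : ℝ → ℂ, ContDiff ℝ 1 A → ContDiff ℝ 1 B → (∀ θ, A (θ + 2 * Real.pi) = A θ) →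
      (∀ θ, B (θ + 2 * Real.pi) = B θ) → (∀ θ, Transcendental ℚ (A θ)) →
      (∀ θ, (lam : ℂ) * (∏ i, (A θ - (D.a i : ℂ))) * (∏ j, (B θ - D.b j (A θ))) = 1) →
      ∃ γ : Loop K, ∀ θ, γ.ev θ x = A θ ∧ γ.ev θ y = B θ

/-- The circle of radius `ρ` around the integer `c`. -/
noncomputable def circ (c : ℤ) (ρ : ℝ) (θ : ℝ) : ℂ := (c : ℂ) + (ρ : ℂ) * Complex.exp (θ * Complex.I)

/-- TRANS. A radius such that all the circles avoid the algebraic numbers. -/
def SpecTrans : Prop :=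
  ∃ ρ : ℝ, 0 < ρ ∧ ρ < 1 / 2 ∧ ∀ (c : ℤ) (θ : ℝ), Transcendental ℚ (circ c ρ θ)

/-- `Y` is the branch of the curve over the circle that is close to the `j`-th line. -/
structure IsSheet (D : Arr) (lam : ℤ) (j : Fin D.n) (c : ℤ) (ρ C : ℝ) (Y : ℝ → ℂ) : Prop where
  smooth : ContDiff ℝ 1 Y
  periodic : ∀ θ, Y (θ + 2 * Real.pi) = Y θ
  eqn : ∀ θ, (lam : ℂ) * (∏ i, (circ c ρ θ - (D.a i : ℂ))) *
    (∏ l, (Y θ - D.b l (circ c ρ θ))) = 1
  near : ∀ θ, ‖Y θ - D.b j (circ c ρ θ)‖ ≤ C / |(lam : ℝ)|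
  near' : ∀ θ, ‖deriv (fun t => Y t - D.b j (circ c ρ t)) θ‖ ≤ C / |(lam : ℝ)|

/-- SHEET. Existence of the branches for large `|lam|`. -/
def SpecSheet : Prop :=
  ∀ (D : Arr) (j : Fin D.n) (c : ℤ) (ρ : ℝ), 0 < ρ → ρ < 1 / 2 → ∃ C L : ℝ, ∀ lam : ℤ,
    L ≤ |(lam : ℝ)| → ∃ Y : ℝ → ℂ, IsSheet D lam j c ρ C Y

/-- ASYM. Asymptotics of the regulator integrals. -/
def SpecAsym : Prop :=
  ∀ (D : Arr) (j : Fin D.n) (c : ℤ) (ρ C : ℝ), 0 < ρ → ρ < 1 / 2 →
    ∀ (s : ℤ) (i0 : Fin D.m) (l l' : Fin D.n), ∃ C' L : ℝ, ∀ lam : ℤ, L ≤ |(lam : ℝ)| →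
      ∀ Y : ℝ → ℂ, IsSheet D lam j c ρ C Y →
        |regInt (fun θ => (circ c ρ θ - (s : ℂ)) / (circ c ρ θ - (D.a i0 : ℂ)))
            (fun θ => (Y θ - D.b l (circ c ρ θ)) / (Y θ - D.b l' (circ c ρ θ)))
          - 2 * Real.pi * Real.log |(lam : ℝ)| *
            ((if l = j then 1 else 0) - (if l' = j then 1 else 0)) *
            ((if s = c then 1 else 0) - (if D.a i0 = c then 1 else 0))| ≤ C'

/-- K2MAIN. The conclusion of part 1. -/
def SpecK2 : Prop :=
  ∀ D : Arr, ∃ (C : ℝ) (L : ℕ), ∀ lam : ℤ, L ≤ lam.natAbs →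
    ∀ (K : Type) [Field K] [Algebra ℚ K] (x y : K), IsCurve ℚ K D lam x y →
      ∃ (α : Fin D.g → K2 K) (γ : Fin D.g → Loop K) (ρ : Fin D.g → (K2 K →+ ℝ)),
        (∀ i, ∀ v : DVal K, tame v (α i) = 0) ∧
        (∀ k, ∀ f h : Kˣ, ρ k (sym f h) =
          regInt (fun θ => (γ k).ev θ (f : K)) (fun θ => (γ k).ev θ (h : K))) ∧
        (∀ i k, |ρ k (α i) - (if i = k then 2 * Real.pi * Real.log |(lam : ℝ)| else 0)| ≤ C) ∧
        (Matrix.of fun i k => ρ k (α i)).det ≠ 0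

/-! ## Part 2: geometry over `ℂ` -/

section Geometry

variable {K : Type} [Field K] [Algebra ℂ K]

/-- The valuation ring contains the constants. -/
def OverC (V : ValuationSubring K) : Prop := ∀ c : ℂ, algebraMap ℂ K c ∈ V

/-- `a` lies in the maximal ideal of `V`. -/
def InM (V : ValuationSubring K) (a : K) : Prop := a = 0 ∨ a⁻¹ ∉ V

/-- `a` is a unit of `V`. -/
def IsU (V : ValuationSubring K) (a : K) : Prop := a ≠ 0 ∧ a ∈ V ∧ a⁻¹ ∈ V

/-- Regularity at `V` of `f dt`, where `δ` is the derivation `d/dt`. -/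
def RegD (δ : Derivation ℂ K K) (V : ValuationSubring K) (f : K) : Prop :=
  f ∈ AddSubgroup.closure {η : K | ∃ b ∈ V, ∃ a ∈ V, η = b * δ a}

/-- Regularity of `f dt` everywhere. -/
def Reg (δ : Derivation ℂ K K) (f : K) : Prop := ∀ V : ValuationSubring K, OverC V → RegD δ V f

/-- The field `ℂ(t)` inside `K`. -/
noncomputable abbrev Ct (t : K) : IntermediateField ℂ K := IntermediateField.adjoin ℂ {t}

/-- `n` minus the number of lines parallel to the `j`-th one. -/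
def _root_.MP743d1e.Arr.dd (D : Arr) (j : Fin D.n) : ℕ := D.n - D.par j

/-- `V` is the point at infinity of the `j`-th branch. -/
def AtInf (D : Arr) (x y : K) (V : ValuationSubring K) (j : Fin D.n) : Prop :=
  x ∉ V ∧ (y - D.b j x) * x ^ (D.m + D.dd j) ∈ V

/-- The logarithmic derivative with respect to `y` of the equation. -/
noncomputable def pw (D : Arr) (x y : K) : K := ∑ l, (y - D.b l x)⁻¹

/-- The Newton basis `∏_{i < k} (y - b i)`. -/
noncomputable def nb (D : Arr) (x y : K) (k : Fin D.n) : K :=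
  ∏ i ∈ Finset.univ.filter (fun i => i < k), (y - D.b i x)

/-- The lattice `∑ ℂ[x] nb k`, the last coefficient being divisible by `∏ (x - a i)`. -/
def InLat (D : Arr) (x y q : K) : Prop :=
  ∃ c : Fin D.n → ℂ[X], (∀ k : Fin D.n, k.val + 1 = D.n → (∏ i, (X - C (D.a i : ℂ))) ∣ c k) ∧
    q = ∑ k, aeval x (c k) * nb D x y k

/-- The adjoint space: `q dx / pw` is regular. -/
def Adj (D : Arr) (x y q : K) : Prop :=
  InLat D x y q ∧ ∀ (V : ValuationSubring K) (j : Fin D.n), OverC V → AtInf D x y V j →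
    q * x ^ ((2 : ℤ) - ((D.m + D.dd j : ℕ) : ℤ)) ∈ V

end Geometry

/-- DER. Derivations of algebraic extensions of `ℂ(t)`. -/
def SpecDer : Prop :=
  ∀ (K : Type) [Field K] [Algebra ℂ K] (t : K), Transcendental ℂ t →
    Algebra.IsAlgebraic (Ct t) K →
      (∃ δ : Derivation ℂ K K, δ t = 1) ∧
      (∀ (M : Type) [Field M] [Algebra ℂ M] (σ : K →ₐ[ℂ] M) (δ : Derivation ℂ K K)
        (δ' : Derivation ℂ M M), δ t = 1 → ∀ f : K, δ' (σ f) = δ' (σ t) * σ (δ f))

/-- KAE. Kähler differentials of function fields of curves. -/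
def SpecKae : Prop :=
  ∀ (K : Type) [Field K] [Algebra ℂ K] (t : K) (δ : Derivation ℂ K K), Transcendental ℂ t →
    Algebra.IsAlgebraic (Ct t) K → δ t = 1 →
      (∃ e : Ω[K⁄ℂ] ≃ₗ[K] K, ∀ f, e (KaehlerDifferential.D ℂ K f) = δ f) ∧
      ∀ S : Submodule ℂ K, (∀ f, f ∈ S ↔ Reg δ f) → Nonempty (regDiff K ≃ₗ[ℂ] S)

/-- FINT. A function field of one variable is finite over every `ℂ(t)`. -/
def SpecFinT : Prop :=
  ∀ (K : Type) [Field K] [Algebra ℂ K] (x y t : K), Transcendental ℂ x → Transcendental ℂ t →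
    IntermediateField.adjoin ℂ {x, y} = ⊤ → FiniteDimensional (Ct x) K →
      FiniteDimensional (Ct t) K

/-- LL. Logarithmic derivations do not decrease valuations. -/
def SpecLL : Prop :=
  ∀ (L : Type) [Field L] [Algebra ℂ L] (s : L) (δ : Derivation ℂ L L), Transcendental ℂ s →
    Algebra.IsAlgebraic (Ct s) L → δ s = s →
      ∀ V : ValuationSubring L, OverC V → InM V s → ∀ a ∈ V, InM V (δ a)

/-- TRACE. Traces of regular differentials. -/
def SpecTrace : Prop :=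
  ∀ (K : Type) [Field K] [Algebra ℂ K] (t : K) (δ : Derivation ℂ K K), Transcendental ℂ t →
    FiniteDimensional (Ct t) K → δ t = 1 → ∀ f : K,
      ((∀ V : ValuationSubring K, OverC V → t ∈ V → RegD δ V f) →
        ∃ p : ℂ[X], ((Algebra.trace (Ct t) K f : Ct t) : K) = aeval t p) ∧
      (Reg δ f → Algebra.trace (Ct t) K f = 0)

/-- INF. The points at infinity. -/
def SpecInf : Prop :=
  ∀ (K : Type) [Field K] [Algebra ℂ K] (D : Arr) (lam : ℤ) (x y : K), IsCurve ℂ K D lam x y →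
    (∀ V : ValuationSubring K, OverC V → x ∉ V → ∃ j, AtInf D x y V j) ∧
    (∀ j, ∃ V : ValuationSubring K, OverC V ∧ AtInf D x y V j) ∧
    (∀ (V : ValuationSubring K) (j : Fin D.n), OverC V → AtInf D x y V j →
      (∀ a : K, a ≠ 0 → ∃ k : ℤ, IsU V (a * x ^ k)) ∧
      IsU V ((y - D.b j x) * x ^ (D.m + D.dd j)) ∧
      (∀ l, D.p l ≠ D.p j → IsU V ((y - D.b l x) * x⁻¹)) ∧
      (∀ l, l ≠ j → D.p l = D.p j → IsU V (y - D.b l x)))

/-- UPPER. Every regular differential comes from the adjoint space. -/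
def SpecUpper : Prop :=
  ∀ (K : Type) [Field K] [Algebra ℂ K] (D : Arr) (lam : ℤ) (x y : K) (δ : Derivation ℂ K K),
    IsCurve ℂ K D lam x y → δ x = 1 → ∀ f, Reg δ f → Adj D x y (f * pw D x y)

/-- The affine curve is smooth. -/
def Smooth (D : Arr) (lam : ℤ) : Prop :=
  ∀ x0 y0 : ℂ, (lam : ℂ) * (∏ i, (x0 - (D.a i : ℂ))) * (∏ j, (y0 - D.b j x0)) = 1 →
    ¬ ((∑ l, (y0 - D.b l x0)⁻¹ = 0) ∧
      (∑ i, (x0 - (D.a i : ℂ))⁻¹) - (∑ l, (D.p l : ℂ) * (y0 - D.b l x0)⁻¹) = 0)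

/-- CRIT. The affine curve is smooth for large `|lam|`. -/
def SpecCrit : Prop := ∀ D : Arr, ∃ L : ℕ, ∀ lam : ℤ, L ≤ lam.natAbs → Smooth D lam

/-- LOWER. The adjoint space gives regular differentials on smooth curves. -/
def SpecLower : Prop :=
  ∀ (K : Type) [Field K] [Algebra ℂ K] (D : Arr) (lam : ℤ) (x y : K) (δ : Derivation ℂ K K),
    IsCurve ℂ K D lam x y → Smooth D lam → δ x = 1 → ∀ q, Adj D x y q → Reg δ (q / pw D x y)

/-- At each step the next line belongs to a largest remaining class of parallel lines. -/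
def Arr.Ordered (D : Arr) : Prop :=
  ∀ i k : Fin D.n, i < k →
    ((Finset.univ : Finset (Fin D.n)).filter (fun l => i ≤ l ∧ D.p l = D.p k)).card ≤
    ((Finset.univ : Finset (Fin D.n)).filter (fun l => i ≤ l ∧ D.p l = D.p i)).card

/-- COUNT. The dimension of the adjoint space. -/
def SpecCount : Prop :=
  ∀ (K : Type) [Field K] [Algebra ℂ K] (D : Arr) (lam : ℤ) (x y : K), D.Ordered →
    IsCurve ℂ K D lam x y →
      ∃ S : Submodule ℂ K, (∀ q, q ∈ S ↔ Adj D x y q) ∧ FiniteDimensional ℂ S ∧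
        Module.finrank ℂ S = D.g

/-- PERM. Reordering the lines. -/
def SpecPerm : Prop :=
  ∀ D : Arr, ∃ D' : Arr, D'.Ordered ∧ D'.g = D.g ∧
    (∀ (K : Type) [Field K] [Algebra ℂ K] (lam : ℤ) (x y : K),
      IsCurve ℂ K D lam x y → IsCurve ℂ K D' lam x y) ∧
    ∀ lam : ℤ, Smooth D lam → Smooth D' lam

/-- GENUS. The genus of the curve. -/
def SpecGenus : Prop :=
  ∀ (K : Type) [Field K] [Algebra ℂ K] (D : Arr) (lam : ℤ) (x y : K), Smooth D lam →
    IsCurve ℂ K D lam x y →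
      FiniteDimensional ℂ (regDiff K) ∧ Module.finrank ℂ (regDiff K) = D.g

/-- GONABS. Gonality bound from regular differentials. -/
def SpecGonAbs : Prop :=
  ∀ (K : Type) [Field K] [Algebra ℂ K] (x y w : K) (δ : Derivation ℂ K K) (N : ℕ),
    Transcendental ℂ x → IntermediateField.adjoin ℂ {x, y} = ⊤ → δ x = 1 → w ≠ 0 →
    (∀ i k : ℕ, i + k ≤ N → Reg δ (x ^ i * y ^ k * w)) →
      ∀ t : K, Transcendental ℂ t → FiniteDimensional (Ct t) K →
        N + 2 ≤ Module.finrank (Ct t) K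

/-- FORMS. Monomials of small degree are adjoint. -/
def SpecForms : Prop :=
  ∀ (K : Type) [Field K] [Algebra ℂ K] (D : Arr) (lam : ℤ) (x y : K), (∀ j, D.par j ≤ D.m) →
    IsCurve ℂ K D lam x y → ∀ i k : ℕ, i + k + 2 ≤ D.n → Adj D x y (x ^ i * y ^ k)

/-- GON. The gonality of the curve. -/
def SpecGon : Prop :=
  ∀ (K : Type) [Field K] [Algebra ℂ K] (D : Arr) (lam : ℤ) (x y : K), Smooth D lam →
    (∀ j, D.par j ≤ D.m) → IsCurve ℂ K D lam x y →
      Module.finrank (Ct x) K = D.n ∧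
      ∀ t : K, Transcendental ℂ t → FiniteDimensional (Ct t) K ∧
        D.n ≤ Module.finrank (Ct t) K

/-! ## Part 3: arrangements -/

/-- DATA. Arrangements with prescribed genus and gonality. -/
def SpecData : Prop :=
  (∀ g : ℕ, 3 ≤ g → ∃ D : Arr, D.n = 3 ∧ D.g = g ∧ ∀ j, D.par j ≤ D.m) ∧
  (∀ k g : ℕ, 3 ≤ k → k ^ 2 ≤ g → ∃ D : Arr, D.n = k ∧ D.g = g ∧ ∀ j, D.par j ≤ D.m)

end MP743d1e
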