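import Pool.Agent.Lib.MP_743d1e_nt.Spec2

/-!
# The second K-group of the rational numbers is a torsion group
-/

namespace MP743d1e

namespace K2Q

section Abstract

variable {A : Type} [AddCommGroup A] (htf : ∀ (n : ℕ) (a : A), n ≠ 0 → n • a = 0 → a = 0)
  (ψ : ℚˣ → ℚˣ → A)
  (h1 : ∀ f f' g, ψ (f * f') g = ψ f g + ψ f' g)
  (h2 : ∀ f g g', ψ f (g * g') = ψ f g + ψ f g')
  (h3 : ∀ f g : ℚˣ, (f : ℚ) + (g : ℚ) = 1 → ψ f g = 0)

include h1 in
theorem one_left (g : ℚˣ) : ψ 1 g = 0 := by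
  have := h1 1 1 g
  rw [mul_one] at this
  simpa using this

include h2 in
theorem one_right (g : ℚˣ) : ψ g 1 = 0 := by
  have := h2 g 1 1
  rw [mul_one] at this
  simpa using this

include h1 in
theorem inv_left (f g : ℚˣ) : ψ f⁻¹ g = -ψ f g := by
  have := h1 f f⁻¹ g
  rw [mul_inv_cancel, one_left ψ h1] at this
  exact (neg_eq_of_add_eq_zero_right this.symm).symm

include h2 in
theorem inv_right (f g : ℚˣ) : ψ f g⁻¹ = -ψ f g := by
  have := h2 f g g⁻¹
  rw [mul_inv_cancel, one_right ψ h2] at this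
  exact (neg_eq_of_add_eq_zero_right this.symm).symm

include htf h1 in
theorem neg_one_left (g : ℚˣ) : ψ (-1) g = 0 := by
  apply htf 2 _ (by norm_num)
  rw [two_nsmul, ← h1]
  simpa using one_left ψ h1 g

include htf h2 in
theorem neg_one_right (g : ℚˣ) : ψ g (-1) = 0 := by
  apply htf 2 _ (by norm_num)
  rw [two_nsmul, ← h2]
  simpa using one_right ψ h2 g

include h1 h2 h3 in
theorem self_neg (f : ℚˣ) : ψ f (-f) = 0 := by
  by_cases hf : (f : ℚ) = 1
  · have : f = 1 := Units.ext hf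
    rw [this, one_left ψ h1]
  · have ha : 1 - (f : ℚ) ≠ 0 := fun h => hf (by linarith)
    have hf0 : (f : ℚ) ≠ 0 := f.ne_zero
    have hb : 1 - ((f⁻¹ : ℚˣ) : ℚ) ≠ 0 := by
      intro h
      apply hf
      have : ((f⁻¹ : ℚˣ) : ℚ) = 1 := by linarith
      rw [Units.val_inv_eq_inv_val, inv_eq_one] at this
      exact this
    have e1 := h3 f (Units.mk0 _ ha) (by rw [Units.val_mk0]; ring)
    have e2 := h3 f⁻¹ (Units.mk0 _ hb) (by rw [Units.val_mk0]; ring)
    rw [inv_left ψ h1, neg_eq_zero] at e2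
    have e3 : -f = Units.mk0 _ ha * (Units.mk0 _ hb)⁻¹ := by
      apply Units.ext
      rw [Units.val_mul, Units.val_inv_eq_inv_val, Units.val_mk0, Units.val_mk0, Units.val_neg]
      rw [eq_mul_inv_iff_mul_eq₀ hb, Units.val_inv_eq_inv_val]
      field_simp
      ring
    rw [e3, h2, inv_right ψ h2, e1, e2, neg_zero, add_zero]

include htf h1 h2 h3 in
theorem self (f : ℚˣ) : ψ f f = 0 := by
  have h := h2 f (-f) (-1)
  rw [self_neg ψ h1 h2 h3, neg_one_right htf ψ h2, mul_neg, mul_one, neg_neg, add_zero] at h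
  exact h

include htf h1 h2 h3 in
theorem skew (f g : ℚˣ) : ψ f g = -ψ g f := by
  have h := self htf ψ h1 h2 h3 (f * g)
  rw [h1, h2, h2, self htf ψ h1 h2 h3, self htf ψ h1 h2 h3, zero_add, add_zero] at h
  exact eq_neg_of_add_eq_zero_left h

/-- The natural number `n` as a unit. -/
noncomputable def u (n : ℕ) : ℚˣ := if h : (n : ℚ) = 0 then 1 else Units.mk0 (n : ℚ) h

theorem u_val {n : ℕ} (hn : n ≠ 0) : ((u n : ℚˣ) : ℚ) = n := by
  have : (n : ℚ) ≠ 0 := by exact_mod_cast hn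
  rw [u, dif_neg this, Units.val_mk0]

theorem u_one : u 1 = 1 := by
  apply Units.ext
  rw [u_val one_ne_zero]
  simp

theorem u_mul {m n : ℕ} (hm : m ≠ 0) (hn : n ≠ 0) : u (m * n) = u m * u n := by
  apply Units.ext
  rw [Units.val_mul, u_val hm, u_val hn, u_val (mul_ne_zero hm hn)]
  push_cast
  rfl

/-- The generators: the primes below `n` and `-1`. -/
def gens (n : ℕ) : Set ℚˣ := {x | ∃ p : ℕ, p.Prime ∧ p < n ∧ x = u p} ∪ {-1}

/-- The group of units whose prime factors are smaller than `n`. -/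
def G (n : ℕ) : Subgroup ℚˣ := Subgroup.closure (gens n)

theorem G_mono {m n : ℕ} (h : m ≤ n) : G m ≤ G n := by
  apply Subgroup.closure_mono
  rintro x (⟨p, hp, hlt, rfl⟩ | hx)
  · exact Or.inl ⟨p, hp, lt_of_lt_of_le hlt h, rfl⟩
  · exact Or.inr hx

theorem u_mem (n : ℕ) : ∀ a : ℕ, a ≠ 0 → a < n → u a ∈ G n := by
  intro a
  induction a using Nat.recOnMul with
  | zero => intro h; exact absurd rfl h
  | one => intro _ _; rw [u_one]; exact one_mem _
  | prime p hp => intro _ hlt; exact Subgroup.subset_closure (Or.inl ⟨p, hp, hlt, rfl⟩)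
  | mul a b iha ihb =>
    intro hne hlt
    have ha : a ≠ 0 := left_ne_zero_of_mul hne
    have hb : b ≠ 0 := right_ne_zero_of_mul hne
    rw [u_mul ha hb]
    have h1 : a ≤ a * b := Nat.le_mul_of_pos_right _ (Nat.pos_of_ne_zero hb)
    have h2 : b ≤ a * b := Nat.le_mul_of_pos_left _ (Nat.pos_of_ne_zero ha)
    exact mul_mem (iha ha (by omega)) (ihb hb (by omega))

include h1 h2 in
theorem closure_zero (S : Set ℚˣ) (h : ∀ x ∈ S, ∀ y ∈ S, ψ x y = 0) :
    ∀ x ∈ Subgroup.closure S, ∀ y ∈ Subgroup.closure S, ψ x y = 0 := by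
  have key : ∀ x ∈ S, ∀ y ∈ Subgroup.closure S, ψ x y = 0 := by
    intro x hx y hy
    induction hy using Subgroup.closure_induction with
    | mem y hy => exact h x hx y hy
    | one => exact one_right ψ h2 x
    | mul a b _ _ ha hb => rw [h2, ha, hb, add_zero]
    | inv a _ ha => rw [inv_right ψ h2, ha, neg_zero]
  intro x hx y hy
  induction hx using Subgroup.closure_induction with
  | mem x hx => exact key x hx y hy
  | one => exact one_left ψ h1 y
  | mul a b _ _ ha hb => rw [h1, ha, hb, add_zero]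
  | inv a _ ha => rw [inv_left ψ h1, ha, neg_zero]

include h1 h2 h3 in
/-- The key relation. -/
theorem key_mod (p : ℕ) (hp : p.Prime) (hG : ∀ x ∈ G p, ∀ y ∈ G p, ψ x y = 0) (a b : ℕ)
    (ha0 : a ≠ 0) (hb0 : b ≠ 0) (ha : a < p) (hb : b < p) :
    a * b % p ≠ 0 ∧ ψ (u (a * b % p)) (u p) = ψ (u a) (u p) + ψ (u b) (u p) := by
  have hc0 : a * b % p ≠ 0 := by
    intro h
    rcases (Nat.Prime.dvd_mul hp).mp (Nat.dvd_of_mod_eq_zero h) with h | h
    · exact absurd (Nat.le_of_dvd (Nat.pos_of_ne_zero ha0) h) (by omega)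
    · exact absurd (Nat.le_of_dvd (Nat.pos_of_ne_zero hb0) h) (by omega)
  refine ⟨hc0, ?_⟩
  have hcp : a * b % p < p := Nat.mod_lt _ hp.pos
  have hdiv : a * b % p + a * b / p * p = a * b := by
    have := Nat.mod_add_div (a * b) p
    rw [mul_comm (a * b / p) p]
    exact this
  set c := a * b % p with hc
  set k := a * b / p with hk
  have hkp : k < p := by
    rw [hk]
    apply Nat.div_lt_of_lt_mul
    exact Nat.mul_lt_mul'' ha hb
  by_cases hk0 : k = 0
  · have : c = a * b := by rw [hk0] at hdiv; omega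
    rw [this, u_mul ha0 hb0, h1]
  · have hab0 : a * b ≠ 0 := mul_ne_zero ha0 hb0
    have hst := h3 (u c * (u (a * b))⁻¹) (u k * u p * (u (a * b))⁻¹) (by
      have hq : ((a * b : ℕ) : ℚ) ≠ 0 := by exact_mod_cast hab0
      rw [Units.val_mul, Units.val_mul, Units.val_mul, Units.val_inv_eq_inv_val, u_val hc0,
        u_val hab0, u_val hk0, u_val hp.ne_zero, ← add_mul, mul_inv_eq_one₀ hq]
      exact_mod_cast hdiv)
    have hmem : u c * (u (a * b))⁻¹ ∈ G p := by
      rw [u_mul ha0 hb0]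
      exact mul_mem (u_mem p c hc0 hcp)
        (inv_mem (mul_mem (u_mem p a ha0 ha) (u_mem p b hb0 hb)))
    have hmem2 : u k * (u (a * b))⁻¹ ∈ G p := by
      rw [u_mul ha0 hb0]
      exact mul_mem (u_mem p k hk0 hkp)
        (inv_mem (mul_mem (u_mem p a ha0 ha) (u_mem p b hb0 hb)))
    have e : u k * u p * (u (a * b))⁻¹ = (u k * (u (a * b))⁻¹) * u p := by
      rw [mul_right_comm]
    rw [e, h2, hG _ hmem _ hmem2, zero_add, h1, inv_left ψ h1, u_mul ha0 hb0, h1] at hst
    exact eq_of_sub_eq_zero (by rw [sub_eq_add_neg]; exact hst)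

include htf h1 h2 h3 in
theorem step_prime (p : ℕ) (hp : p.Prime) (hG : ∀ x ∈ G p, ∀ y ∈ G p, ψ x y = 0) (a : ℕ)
    (ha0 : a ≠ 0) (ha : a < p) : ψ (u a) (u p) = 0 := by
  have hpow : ∀ m : ℕ, a ^ m % p ≠ 0 ∧ ψ (u (a ^ m % p)) (u p) = m • ψ (u a) (u p) := by
    intro m
    induction m with
    | zero =>
      have : a ^ 0 % p = 1 := by rw [pow_zero]; exact Nat.mod_eq_of_lt hp.one_lt
      rw [this, u_one, zero_smul]
      exact ⟨one_ne_zero, one_left ψ h1 _⟩
    | succ m ih =>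
      have h := key_mod ψ h1 h2 h3 p hp hG (a ^ m % p) a ih.1 ha0 (Nat.mod_lt _ hp.pos) ha
      have e : a ^ m % p * a % p = a ^ (m + 1) % p := by
        rw [pow_succ, Nat.mod_mul_mod]
      rw [e] at h
      refine ⟨h.1, ?_⟩
      rw [h.2, ih.2, add_smul, one_smul]
  have hfer : a ^ (p - 1) % p = 1 := by
    have hcop : Nat.Coprime a p := by
      rw [Nat.coprime_comm]
      exact (Nat.Prime.coprime_iff_not_dvd hp).mpr
        (fun h => absurd (Nat.le_of_dvd (Nat.pos_of_ne_zero ha0) h) (by omega))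
    have := Nat.ModEq.pow_totient hcop
    rw [Nat.totient_prime hp] at this
    have h2 : a ^ (p - 1) % p = 1 % p := this
    rw [h2]
    exact Nat.mod_eq_of_lt hp.one_lt
  have := (hpow (p - 1)).2
  rw [hfer, u_one, one_left ψ h1] at this
  exact htf (p - 1) _ (by have := hp.two_le; omega) this.symm

include htf h1 h2 h3 in
theorem all_G (n : ℕ) : ∀ x ∈ G n, ∀ y ∈ G n, ψ x y = 0 := by
  induction n with
  | zero =>
    apply closure_zero ψ h1 h2
    rintro x (⟨p, hp, hlt, rfl⟩ | hx) y hy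
    · exact absurd hlt (Nat.not_lt_zero _)
    · rw [Set.mem_singleton_iff] at hx
      rw [hx, neg_one_left htf ψ h1]
  | succ n ih =>
    apply closure_zero ψ h1 h2
    have hcase : ∀ x ∈ gens (n + 1), x ∈ gens n ∨ (n.Prime ∧ x = u n) := by
      rintro x (⟨p, hp, hlt, rfl⟩ | hx)
      · rcases Nat.lt_succ_iff_lt_or_eq.mp hlt with h | h
        · exact Or.inl (Or.inl ⟨p, hp, h, rfl⟩)
        · exact Or.inr ⟨h ▸ hp, by rw [h]⟩
      · exact Or.inl (Or.inr hx)
    have hmix : ∀ x ∈ gens n, n.Prime → ψ x (u n) = 0 := by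
      rintro x (⟨p, hp, hlt, rfl⟩ | hx) hn
      · exact step_prime htf ψ h1 h2 h3 n hn ih p hp.ne_zero hlt
      · rw [Set.mem_singleton_iff] at hx
        rw [hx, neg_one_left htf ψ h1]
    intro x hx y hy
    rcases hcase x hx with hx | ⟨hn, rfl⟩
    · rcases hcase y hy with hy | ⟨hn, rfl⟩
      · exact ih x (Subgroup.subset_closure hx) y (Subgroup.subset_closure hy)
      · exact hmix x hx hn
    · rcases hcase y hy with hy | ⟨_, rfl⟩
      · rw [skew htf ψ h1 h2 h3, hmix y hy hn, neg_zero]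
      · exact self htf ψ h1 h2 h3 _

theorem exists_G (f : ℚˣ) : ∃ n, f ∈ G n := by
  have hf : (f : ℚ) ≠ 0 := f.ne_zero
  have hnum : (f : ℚ).num.natAbs ≠ 0 := by
    rw [Int.natAbs_ne_zero]
    exact Rat.num_ne_zero.mpr hf
  have hden : (f : ℚ).den ≠ 0 := (f : ℚ).den_nz
  obtain ⟨N, hN1, hN2⟩ : ∃ N, (f : ℚ).num.natAbs < N ∧ (f : ℚ).den < N :=
    ⟨(f : ℚ).num.natAbs + (f : ℚ).den + 1, by omega, by omega⟩
  refine ⟨N, ?_⟩
  have hm1 := u_mem N _ hnum hN1
  have hm2 := u_mem N _ hden hN2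
  have hm3 : (-1 : ℚˣ) ∈ G N :=
    Subgroup.subset_closure (Or.inr rfl)
  have hfd : (f : ℚ) = (f : ℚ).num / (f : ℚ).den := (Rat.num_div_den _).symm
  rcases Int.natAbs_eq (f : ℚ).num with h | h
  · have e : f = u (f : ℚ).num.natAbs * (u (f : ℚ).den)⁻¹ := by
      apply Units.ext
      rw [Units.val_mul, Units.val_inv_eq_inv_val, u_val hnum, u_val hden, ← div_eq_mul_inv]
      have h' : (((f : ℚ).num.natAbs : ℤ) : ℚ) = ((f : ℚ).num : ℚ) := by rw [← h]
      rw [Int.cast_natCast] at h'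
      rw [h']
      exact hfd
    rw [e]
    exact mul_mem hm1 (inv_mem hm2)
  · have e : f = (-1) * (u (f : ℚ).num.natAbs * (u (f : ℚ).den)⁻¹) := by
      apply Units.ext
      rw [Units.val_mul, Units.val_mul, Units.val_inv_eq_inv_val, u_val hnum, u_val hden,
        ← div_eq_mul_inv]
      have h' : ((-(((f : ℚ).num.natAbs : ℤ)) : ℤ) : ℚ) = ((f : ℚ).num : ℚ) := by rw [← h]
      rw [Int.cast_neg, Int.cast_natCast] at h'
      have h'' : (((f : ℚ).num.natAbs : ℕ) : ℚ) = -((f : ℚ).num : ℚ) := by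
        rw [← h']; ring
      rw [h'']
      rw [Units.val_neg, Units.val_one, neg_div, neg_one_mul, neg_neg]
      exact hfd
    rw [e]
    exact mul_mem hm3 (mul_mem hm1 (inv_mem hm2))

include htf h1 h2 h3 in
theorem main (f g : ℚˣ) : ψ f g = 0 := by
  obtain ⟨m, hm⟩ := exists_G f
  obtain ⟨n, hn⟩ := exists_G g
  exact all_G htf ψ h1 h2 h3 (max m n) f (G_mono (le_max_left _ _) hm) g
    (G_mono (le_max_right _ _) hn)

end Abstract

end K2Q

theorem K2Q.sym_mul_left {F : Type} [Field F] (f f' g : Fˣ) :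
    sym (f * f') g = sym f g + sym f' g := by
  have h : QuotientAddGroup.mk' (AddSubgroup.closure (relSet F))
      (FreeAbelianGroup.of (f * f', g) - FreeAbelianGroup.of (f, g)
        - FreeAbelianGroup.of (f', g)) = 0 := by
    rw [QuotientAddGroup.mk'_apply, QuotientAddGroup.eq_zero_iff]
    exact AddSubgroup.subset_closure (Or.inl (Or.inl ⟨f, f', g, rfl⟩))
  rw [map_sub, map_sub, sub_sub, sub_eq_zero] at h
  exact h

theorem K2Q.sym_mul_right {F : Type} [Field F] (f g g' : Fˣ) :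
    sym f (g * g') = sym f g + sym f g' := by
  have h : QuotientAddGroup.mk' (AddSubgroup.closure (relSet F))
      (FreeAbelianGroup.of (f, g * g') - FreeAbelianGroup.of (f, g)
        - FreeAbelianGroup.of (f, g')) = 0 := by
    rw [QuotientAddGroup.mk'_apply, QuotientAddGroup.eq_zero_iff]
    exact AddSubgroup.subset_closure (Or.inl (Or.inr ⟨f, g, g', rfl⟩))
  rw [map_sub, map_sub, sub_sub, sub_eq_zero] at h
  exact h

theorem K2Q.sym_steinberg {F : Type} [Field F] (f g : Fˣ) (h : (f : F) + (g : F) = 1) :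
    sym f g = 0 := by
  have h : QuotientAddGroup.mk' (AddSubgroup.closure (relSet F))
      (FreeAbelianGroup.of (f, g)) = 0 := by
    rw [QuotientAddGroup.mk'_apply, QuotientAddGroup.eq_zero_iff]
    exact AddSubgroup.subset_closure (Or.inr ⟨f, g, h, rfl⟩)
  exact h

/-- The torsion subgroup. -/
def K2Q.tors (M : Type) [AddCommGroup M] : AddSubgroup M where
  carrier := {z | ∃ N : ℕ, 0 < N ∧ N • z = 0}
  zero_mem' := ⟨1, one_pos, by simp⟩
  add_mem' := by
    rintro a b ⟨m, hm, ha⟩ ⟨n, hn, hb⟩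
    refine ⟨m * n, Nat.mul_pos hm hn, ?_⟩
    rw [smul_add, mul_comm m n, mul_smul, ha, smul_zero, zero_add, mul_comm n m, mul_smul, hb,
      smul_zero]
  neg_mem' := by
    rintro a ⟨m, hm, ha⟩
    exact ⟨m, hm, by rw [smul_neg, ha, neg_zero]⟩

theorem specK2Q : SpecK2Q := by
  intro z
  have htf : ∀ (n : ℕ) (a : K2 ℚ ⧸ K2Q.tors (K2 ℚ)), n ≠ 0 → n • a = 0 → a = 0 := by
    intro n a hn ha
    obtain ⟨a, rfl⟩ := QuotientAddGroup.mk_surjective a
    rw [← QuotientAddGroup.mk_nsmul, QuotientAddGroup.eq_zero_iff] at ha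
    rw [QuotientAddGroup.eq_zero_iff]
    obtain ⟨N, hN, h⟩ := ha
    exact ⟨N * n, Nat.mul_pos hN (Nat.pos_of_ne_zero hn), by rw [mul_smul]; exact h⟩
  have hmain := K2Q.main htf
    (fun f g => QuotientAddGroup.mk' (K2Q.tors (K2 ℚ)) (sym f g))
    (fun f f' g => by rw [K2Q.sym_mul_left, map_add])
    (fun f g g' => by rw [K2Q.sym_mul_right, map_add])
    (fun f g h => by rw [K2Q.sym_steinberg f g h, map_zero])
  have hhom : QuotientAddGroup.mk' (K2Q.tors (K2 ℚ)) = 0 :=
    K2.hom_ext (fun f g => by rw [hmain f g]; rfl)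
  have hz : QuotientAddGroup.mk' (K2Q.tors (K2 ℚ)) z = 0 := by rw [hhom]; rfl
  rw [QuotientAddGroup.mk'_apply, QuotientAddGroup.eq_zero_iff] at hz
  exact hz

end MP743d1e
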