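import Pool.Agent.Lib.MP_743d1e_nt.Reg

/-!
# Named parts of the statement
-/

namespace MP743d1e

/-- `α` has trivial tame symbol at every discrete valuation of `K`. -/
def Unramified {K : Type} [Field K] (α : K2 K) : Prop := ∀ v : DVal K, tame v α = 0

/-- Every element of `K` algebraic over `ℚ` lies in `ℚ`. -/
def ConstQ (K : Type) [Field K] [Algebra ℚ K] : Prop :=
  ∀ z : K, IsAlgebraic ℚ z → z ∈ Set.range (algebraMap ℚ K)

/-- The space of regular differentials has dimension `g`. -/
def HasGenus (K : Type) [Field K] [Algebra ℂ K] (g : ℕ) : Prop :=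
  FiniteDimensional ℂ (regDiff K) ∧ Module.finrank ℂ (regDiff K) = g

/-- `K` has degree `n` over `ℂ(x)` and finite degree at least `n` over every `ℂ(t)`,
`t` nonconstant. -/
def HasGonality (K : Type) [Field K] [Algebra ℂ K] (x : K) (n : ℕ) : Prop :=
  Module.finrank (IntermediateField.adjoin ℂ {x}) K = n ∧
    ∀ t : K, Transcendental ℂ t → FiniteDimensional (IntermediateField.adjoin ℂ {t}) K ∧
      n ≤ Module.finrank (IntermediateField.adjoin ℂ {t}) K

/-- The regulator matrix of `α` along the loops `γ` is `τ` times the identity up to an error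
at most `C` in each entry, and its determinant is nonzero. -/
def RegMatrix {K : Type} [Field K] {g : ℕ} (α : Fin g → K2 K) (γ : Fin g → Loop K)
    (τ C : ℝ) : Prop :=
  (∀ i k, |reg (γ k) (α i) - (if i = k then τ else 0)| ≤ C) ∧
    (Matrix.of fun i k => reg (γ k) (α i)).det ≠ 0

/-- `α` consists of unramified elements of `symU`, and every unramified element of `symU` has a
positive multiple in the group they generate. -/
def SpansUnramified {K : Type} [Field K] [Algebra ℚ K] (D : Arr) (x y : K) {g : ℕ}
    (α : Fin g → K2 K) : Prop :=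
  (∀ i, Unramified (α i) ∧ α i ∈ symU K D x y) ∧
    ∀ β ∈ symU K D x y, Unramified β →
      ∃ N : ℕ, 0 < N ∧ N • β ∈ AddSubgroup.closure (Set.range α)

end MP743d1e
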