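import Pool.Agent.Lib.MP_743d1e_nt.Irr

/-!
# Module INF: the points at infinity
-/

set_option linter.unusedSectionVars false

namespace MP743d1e

open scoped BigOperators
open Polynomial

namespace Inf

variable {K : Type} [Field K] [Algebra ℂ K]

lemma inM_iff (V : ValuationSubring K) (a : K) : InM V a ↔ V.valuation a < 1 := by
  unfold InM
  rcases eq_or_ne a 0 with rfl | ha
  · simp
  · have h0 : V.valuation a ≠ 0 := (Valuation.ne_zero_iff _).mpr ha
    rw [← V.valuation_le_one_iff, map_inv₀, not_le]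
    constructor
    · rintro (h | h)
      · exact absurd h ha
      · exact (one_lt_inv₀ (zero_lt_iff.mpr h0)).mp h
    · intro h
      exact Or.inr ((one_lt_inv₀ (zero_lt_iff.mpr h0)).mpr h)

lemma isU_iff (V : ValuationSubring K) (a : K) : IsU V a ↔ V.valuation a = 1 := by
  unfold IsU
  constructor
  · rintro ⟨h0, h1, h2⟩
    rw [← V.valuation_le_one_iff] at h1 h2
    rw [map_inv₀] at h2
    have h0' : 0 < V.valuation a := zero_lt_iff.mpr ((Valuation.ne_zero_iff _).mpr h0)
    exact le_antisymm h1 ((inv_le_one₀ h0').mp h2)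
  · intro h
    have h0 : a ≠ 0 := by
      rintro rfl
      rw [map_zero] at h
      exact zero_ne_one h
    refine ⟨h0, ?_, ?_⟩
    · rw [← V.valuation_le_one_iff, h]
    · rw [← V.valuation_le_one_iff, map_inv₀, h, inv_one]

lemma v_const (V : ValuationSubring K) (hV : OverC V) {c : ℂ} (hc : c ≠ 0) :
    V.valuation (algebraMap ℂ K c) = 1 := by
  have h0 : algebraMap ℂ K c ≠ 0 := by
    rw [Ne, map_eq_zero]
    exact hc
  rw [← isU_iff]
  exact ⟨h0, hV c, by rw [← map_inv₀]; exact hV _⟩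

lemma v_int (V : ValuationSubring K) (hV : OverC V) {n : ℤ} (hn : n ≠ 0) :
    V.valuation (n : K) = 1 := by
  have := v_const V hV (c := (n : ℂ)) (by exact_mod_cast hn)
  rwa [map_intCast] at this

lemma v_int_le (V : ValuationSubring K) (hV : OverC V) (n : ℤ) :
    V.valuation (n : K) ≤ 1 := by
  rcases eq_or_ne n 0 with rfl | hn
  · simp
  · exact (v_int V hV hn).le

section Vals

variable {D : Arr} {lam : ℤ} {x y : K}

lemma lam_ne (h : IsCurve ℂ K D lam x y) : lam ≠ 0 := by
  rintro rfl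
  have := h.eqn
  simp at this

lemma v_x_sub (V : ValuationSubring K) (hV : OverC V) (hx : x ∉ V) (a : ℤ) :
    V.valuation (x - (a : K)) = V.valuation x := by
  have h1 : 1 < V.valuation x := by
    rwa [← not_le, V.valuation_le_one_iff]
  exact Valuation.map_sub_eq_of_lt_left _ (lt_of_le_of_lt (v_int_le V hV a) h1)

lemma v_eqn (h : IsCurve ℂ K D lam x y) (V : ValuationSubring K) (hV : OverC V) (hx : x ∉ V) :
    V.valuation x ^ D.m * ∏ l, V.valuation (y - D.b l x) = 1 := by
  have h1 := congrArg V.valuation h.eqn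
  rw [map_mul, map_mul, map_prod, map_prod, v_int V hV (lam_ne h), one_mul, map_one] at h1
  rw [← h1]
  congr 1
  rw [Finset.prod_congr rfl fun i _ => v_x_sub V hV hx (D.a i)]
  simp

lemma par_eq (D : Arr) (j : Fin D.n) :
    ((Finset.univ : Finset (Fin D.n)).filter (fun l => D.p l ≠ D.p j)).card = D.dd j := by
  unfold Arr.dd Arr.par
  have h := Finset.card_filter_add_card_filter_not (s := (Finset.univ : Finset (Fin D.n)))
    (fun l => D.p l = D.p j)
  rw [Finset.card_univ, Fintype.card_fin] at h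
  simp only [ne_eq]
  omega

/-- The values of all the linear forms at a point at infinity. -/
lemma vals (h : IsCurve ℂ K D lam x y) (V : ValuationSubring K) (hV : OverC V) (hx : x ∉ V)
    (j : Fin D.n) (hj : V.valuation (y - D.b j x) < 1) :
    (∀ l, D.p l ≠ D.p j → V.valuation (y - D.b l x) = V.valuation x) ∧
    (∀ l, l ≠ j → D.p l = D.p j → V.valuation (y - D.b l x) = 1) ∧
    V.valuation (y - D.b j x) * V.valuation x ^ (D.m + D.dd j) = 1 := by
  have h1 : 1 < V.valuation x := by
    rwa [← not_le, V.valuation_le_one_iff]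
  have hb : ∀ l, y - D.b l x = ((D.p j - D.p l : ℤ) : K) * x + ((D.q j - D.q l : ℤ) : K) +
      (y - D.b j x) := by
    intro l
    unfold Arr.b
    push_cast
    ring
  have hA : ∀ l, D.p l ≠ D.p j → V.valuation (y - D.b l x) = V.valuation x := by
    intro l hl
    have h2 : V.valuation (((D.p j - D.p l : ℤ) : K) * x) = V.valuation x := by
      rw [map_mul, v_int V hV (sub_ne_zero.mpr (Ne.symm hl)), one_mul]
    rw [hb l, add_assoc, Valuation.map_add_eq_of_lt_left, h2]
    rw [h2]
    exact lt_of_le_of_lt (Valuation.map_add_le _ (v_int_le V hV _) hj.le) h1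
  have hB : ∀ l, l ≠ j → D.p l = D.p j → V.valuation (y - D.b l x) = 1 := by
    intro l hlj hl
    have hq : D.q j - D.q l ≠ 0 := fun h0 => hlj (D.line_inj l j hl (sub_eq_zero.mp h0).symm)
    rw [hb l, hl, sub_self, Int.cast_zero, zero_mul, zero_add, Valuation.map_add_eq_of_lt_left,
      v_int V hV hq]
    rw [v_int V hV hq]
    exact hj
  refine ⟨hA, hB, ?_⟩
  have h3 := v_eqn h V hV hx
  have h4 : ∏ l, V.valuation (y - D.b l x) =
      V.valuation (y - D.b j x) * V.valuation x ^ D.dd j := by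
    rw [← Finset.mul_prod_erase _ _ (Finset.mem_univ j), ← par_eq,
      ← Finset.prod_filter_mul_prod_filter_not (Finset.univ.erase j) (fun l => D.p l ≠ D.p j)]
    have h5 : ∏ l ∈ (Finset.univ.erase j).filter (fun l => ¬ D.p l ≠ D.p j),
        V.valuation (y - D.b l x) = 1 := by
      refine Finset.prod_eq_one fun l hl => ?_
      rw [Finset.mem_filter, not_not] at hl
      exact hB l (Finset.ne_of_mem_erase hl.1) hl.2
    have h6 : ∏ l ∈ (Finset.univ.erase j).filter (fun l => D.p l ≠ D.p j),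
        V.valuation (y - D.b l x) = V.valuation x ^
          ((Finset.univ : Finset (Fin D.n)).filter (fun l => D.p l ≠ D.p j)).card := by
      rw [Finset.prod_congr rfl fun l hl => hA l (Finset.mem_filter.mp hl).2, Finset.prod_const]
      congr 2
      ext l
      simp only [Finset.mem_filter, Finset.mem_erase, Finset.mem_univ, true_and, and_true]
      constructor
      · exact fun h => h.2
      · intro h
        refine ⟨?_, h⟩
        rintro rfl
        exact h rfl
    rw [h5, h6, mul_one]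
  rw [h4] at h3
  rw [pow_add, ← h3]
  exact mul_left_comm _ _ _

lemma v_of_atInf (V : ValuationSubring K) (j : Fin D.n) (hj : AtInf D x y V j) :
    V.valuation (y - D.b j x) < 1 := by
  have hm := D.hm
  have h1 : 1 < V.valuation x := by
    rw [← not_le, V.valuation_le_one_iff]
    exact hj.1
  have h2 : V.valuation (y - D.b j x) * V.valuation x ^ (D.m + D.dd j) ≤ 1 := by
    rw [← map_pow, ← map_mul, V.valuation_le_one_iff]
    exact hj.2
  by_contra hc
  rw [not_lt] at hc
  have h3 : 1 < V.valuation x ^ (D.m + D.dd j) := one_lt_pow₀ h1 (by omega)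
  have h4 : 1 * V.valuation x ^ (D.m + D.dd j) ≤
      V.valuation (y - D.b j x) * V.valuation x ^ (D.m + D.dd j) := mul_le_mul_left hc _
  rw [one_mul] at h4
  exact absurd (h3.trans_le h4) (not_lt.mpr h2)

/-- Part 1. -/
theorem exists_atInf (h : IsCurve ℂ K D lam x y) (V : ValuationSubring K) (hV : OverC V)
    (hx : x ∉ V) : ∃ j, AtInf D x y V j := by
  have hm := D.hm
  have h1 : 1 < V.valuation x := by
    rwa [← not_le, V.valuation_le_one_iff]
  obtain ⟨j, -, hj⟩ := Finset.exists_min_image (Finset.univ : Finset (Fin D.n))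
    (fun l => V.valuation (y - D.b l x)) ⟨Irr.j0 D, Finset.mem_univ _⟩
  have hlt : V.valuation (y - D.b j x) < 1 := by
    by_contra hc
    rw [not_lt] at hc
    have h2 := v_eqn h V hV hx
    have h3 : 1 ≤ ∏ l, V.valuation (y - D.b l x) :=
      Finset.one_le_prod' fun l _ => hc.trans (hj l (Finset.mem_univ l))
    have h4 : 1 < V.valuation x ^ D.m := one_lt_pow₀ h1 (by omega)
    have h5 : V.valuation x ^ D.m * 1 ≤ V.valuation x ^ D.m * ∏ l, V.valuation (y - D.b l x) :=
      mul_le_mul_right h3 _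
    rw [mul_one, h2] at h5
    exact absurd h4 (not_lt.mpr h5)
  refine ⟨j, hx, ?_⟩
  rw [← V.valuation_le_one_iff, map_mul, map_pow]
  exact (vals h V hV hx j hlt).2.2.le

/-- Part 3, the units. -/
theorem units (h : IsCurve ℂ K D lam x y) (V : ValuationSubring K) (j : Fin D.n) (hV : OverC V)
    (hj : AtInf D x y V j) :
    IsU V ((y - D.b j x) * x ^ (D.m + D.dd j)) ∧
      (∀ l, D.p l ≠ D.p j → IsU V ((y - D.b l x) * x⁻¹)) ∧
      (∀ l, l ≠ j → D.p l = D.p j → IsU V (y - D.b l x)) := by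
  have h1 : 1 < V.valuation x := by
    rw [← not_le, V.valuation_le_one_iff]
    exact hj.1
  obtain ⟨hA, hB, hC⟩ := vals h V hV hj.1 j (v_of_atInf V j hj)
  refine ⟨?_, fun l hl => ?_, fun l hlj hl => ?_⟩
  · rw [isU_iff, map_mul, map_pow]
    exact hC
  · rw [isU_iff, map_mul, map_inv₀, hA l hl]
    exact mul_inv_cancel₀ (zero_lt_one.trans h1).ne'
  · rw [isU_iff]
    exact hB l hlj hl

end Vals

/-! ### The local structure -/

section Local

variable {D : Arr} {lam : ℤ} {x y : K}

/-- The ring `ℂ[t, z]`. -/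
noncomputable def R (t z : K) : Subalgebra ℂ K := Algebra.adjoin ℂ {t, z}

/-- Elements of `R` that are congruent to a constant. -/
def Cg (t z : K) (c : ℂ) (b : K) : Prop := ∃ b' ∈ R t z, b = algebraMap ℂ K c + t * b'

lemma t_mem (t z : K) : t ∈ R t z := Algebra.subset_adjoin (Set.mem_insert _ _)

lemma z_mem (t z : K) : z ∈ R t z := Algebra.subset_adjoin (Set.mem_insert_of_mem _ rfl)

lemma Cg.mul {t z : K} {c d : ℂ} {b e : K} (hb : Cg t z c b) (he : Cg t z d e) :
    Cg t z (c * d) (b * e) := by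
  obtain ⟨b', hb', rfl⟩ := hb
  obtain ⟨e', he', rfl⟩ := he
  refine ⟨algebraMap ℂ K c * e' + b' * algebraMap ℂ K d + b' * (t * e'), ?_, ?_⟩
  · exact add_mem (add_mem (mul_mem (Subalgebra.algebraMap_mem _ _) he')
      (mul_mem hb' (Subalgebra.algebraMap_mem _ _))) (mul_mem hb' (mul_mem (t_mem t z) he'))
  · rw [map_mul]
    ring

lemma Cg.add {t z : K} {c d : ℂ} {b e : K} (hb : Cg t z c b) (he : Cg t z d e) :
    Cg t z (c + d) (b + e) := by
  obtain ⟨b', hb', rfl⟩ := hb
  obtain ⟨e', he', rfl⟩ := he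
  refine ⟨b' + e', add_mem hb' he', ?_⟩
  rw [map_add]
  ring

lemma Cg.const (t z : K) (c : ℂ) : Cg t z c (algebraMap ℂ K c) :=
  ⟨0, zero_mem _, by ring⟩

lemma Cg.int (t z : K) (c : ℤ) : Cg t z (c : ℂ) ((c : ℤ) : K) := by
  have := Cg.const t z (c : ℂ)
  rwa [map_intCast] at this

lemma Cg.prod {t z : K} {ι : Type} (s : Finset ι) (c : ι → ℂ) (b : ι → K)
    (h : ∀ i ∈ s, Cg t z (c i) (b i)) : Cg t z (∏ i ∈ s, c i) (∏ i ∈ s, b i) := by
  classical
  induction s using Finset.induction_on with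
  | empty =>
      have := Cg.const t z 1
      rwa [map_one] at this
  | insert i s hi ih =>
      rw [Finset.prod_insert hi, Finset.prod_insert hi]
      exact (h i (Finset.mem_insert_self _ _)).mul
        (ih fun i' hi' => h i' (Finset.mem_insert_of_mem hi'))

/-- If `z` is invertible with inverse congruent to a nonzero constant then `R = ℂ + t R`. -/
lemma cg_of_mem {t z P : K} {c : ℂ} (hc : c ≠ 0) (hP : Cg t z c P) (hz : z * P = 1) {b : K}
    (hb : b ∈ R t z) : ∃ d, Cg t z d b := by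
  have hc' : algebraMap ℂ K c ≠ 0 := by
    rw [Ne, map_eq_zero]
    exact hc
  unfold R at hb
  induction hb using Algebra.adjoin_induction with
  | mem b hb =>
      rcases hb with rfl | hb
      · exact ⟨0, 1, one_mem _, by rw [map_zero]; ring⟩
      · rw [Set.mem_singleton_iff] at hb
        subst hb
        obtain ⟨r, hr, rfl⟩ := hP
        refine ⟨c⁻¹, -(algebraMap ℂ K c⁻¹ * r * b), ?_, ?_⟩
        · exact neg_mem (mul_mem (mul_mem (Subalgebra.algebraMap_mem _ _) hr) (z_mem t b))
        · rw [map_inv₀]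
          field_simp
          linear_combination hz
  | algebraMap c => exact ⟨c, Cg.const t z c⟩
  | add b e _ _ hb he =>
      obtain ⟨d, hd⟩ := hb
      obtain ⟨d', hd'⟩ := he
      exact ⟨_, hd.add hd'⟩
  | mul b e _ _ hb he =>
      obtain ⟨d, hd⟩ := hb
      obtain ⟨d', hd'⟩ := he
      exact ⟨_, hd.mul hd'⟩

/-- The inverse of `z`. -/
noncomputable def PP (D : Arr) (lam : ℤ) (x y : K) (j : Fin D.n) : K :=
  (lam : K) * (∏ i, (1 - (D.a i : K) * x⁻¹)) *
    ∏ l ∈ Finset.univ.erase j, (if D.p l = D.p j then y - D.b l x else (y - D.b l x) * x⁻¹)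

lemma z_mul_PP (h : IsCurve ℂ K D lam x y) (hx : x ≠ 0) (j : Fin D.n) :
    (y - D.b j x) * x ^ (D.m + D.dd j) * PP D lam x y j = 1 := by
  unfold PP
  have h1 : (∏ i, (1 - (D.a i : K) * x⁻¹)) = (∏ i, (x - (D.a i : K))) * (x⁻¹) ^ D.m := by
    have : ∀ i ∈ (Finset.univ : Finset (Fin D.m)), (1 - (D.a i : K) * x⁻¹) =
        (x - (D.a i : K)) * x⁻¹ := by
      intro i _
      field_simp
    rw [Finset.prod_congr rfl this, Finset.prod_mul_distrib, Finset.prod_const, Finset.card_univ,
      Fintype.card_fin]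
  have h2 : (∏ l ∈ Finset.univ.erase j, (if D.p l = D.p j then y - D.b l x
      else (y - D.b l x) * x⁻¹)) = (∏ l ∈ Finset.univ.erase j, (y - D.b l x)) *
      (x⁻¹) ^ D.dd j := by
    have : ∀ l ∈ Finset.univ.erase j, (if D.p l = D.p j then y - D.b l x
        else (y - D.b l x) * x⁻¹) = (y - D.b l x) * (if D.p l ≠ D.p j then x⁻¹ else 1) := by
      intro l _
      by_cases hl : D.p l = D.p j
      · simp [hl]
      · simp [hl]
    rw [Finset.prod_congr rfl this, Finset.prod_mul_distrib, ← Finset.prod_filter,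
      Finset.prod_const, ← par_eq]
    congr 3
    ext l
    simp only [Finset.mem_filter, Finset.mem_erase, Finset.mem_univ, true_and, and_true]
    constructor
    · exact fun h => h.2
    · intro h
      refine ⟨?_, h⟩
      rintro rfl
      exact h rfl
  rw [h1, h2]
  have h3 := h.eqn
  rw [← Finset.mul_prod_erase Finset.univ (fun l => y - D.b l x) (Finset.mem_univ j)] at h3
  rw [← h3, pow_add, inv_pow, inv_pow]
  field_simp

lemma cg_PP (h : IsCurve ℂ K D lam x y) (hx : x ≠ 0) (j : Fin D.n) :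
    ∃ c : ℂ, c ≠ 0 ∧ Cg (x⁻¹) ((y - D.b j x) * x ^ (D.m + D.dd j)) c (PP D lam x y j) := by
  have hm := D.hm
  set t := x⁻¹ with ht
  set z := (y - D.b j x) * x ^ (D.m + D.dd j) with hz
  have hyz : y - D.b j x = z * t ^ (D.m + D.dd j) := by
    rw [hz, ht, mul_assoc, ← mul_pow, mul_inv_cancel₀ hx, one_pow, mul_one]
  have hpow : ∀ s : ℕ, t ^ s ∈ R t z := fun s => pow_mem (t_mem t z) s
  refine ⟨(lam : ℂ) * (∏ _i : Fin D.m, (1 : ℂ)) * ∏ l ∈ Finset.univ.erase j,
    (if D.p l = D.p j then ((D.q j - D.q l : ℤ) : ℂ) else ((D.p j - D.p l : ℤ) : ℂ)), ?_, ?_⟩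
  · refine mul_ne_zero (mul_ne_zero (by exact_mod_cast lam_ne h) (by simp)) ?_
    refine Finset.prod_ne_zero_iff.mpr fun l hl => ?_
    by_cases hp : D.p l = D.p j
    · rw [if_pos hp]
      have : D.q j - D.q l ≠ 0 := fun h0 =>
        (Finset.ne_of_mem_erase hl) (D.line_inj l j hp (sub_eq_zero.mp h0).symm)
      exact_mod_cast this
    · rw [if_neg hp]
      have : D.p j - D.p l ≠ 0 := sub_ne_zero.mpr (Ne.symm hp)
      exact_mod_cast this
  · unfold PP
    refine ((Cg.int t z lam).mul (Cg.prod _ _ _ fun i _ => ?_)).mul (Cg.prod _ _ _ fun l _ => ?_)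
    · refine ⟨-(D.a i : K), neg_mem (intCast_mem _ _), ?_⟩
      rw [map_one]
      ring
    · by_cases hp : D.p l = D.p j
      · rw [if_pos hp, if_pos hp]
        refine ⟨z * t ^ (D.m + D.dd j - 1), mul_mem (z_mem t z) (hpow _), ?_⟩
        have h1 : t ^ (D.m + D.dd j) = t * t ^ (D.m + D.dd j - 1) := by
          rw [← pow_succ']
          congr 1
          omega
        have h2 : y - D.b l x = ((D.q j - D.q l : ℤ) : K) + (y - D.b j x) := by
          unfold Arr.b
          rw [hp]
          push_cast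
          ring
        rw [h2, hyz, h1, map_intCast]
        ring
      · rw [if_neg hp, if_neg hp]
        refine ⟨((D.q j - D.q l : ℤ) : K) + z * t ^ (D.m + D.dd j),
          add_mem (intCast_mem _ _) (mul_mem (z_mem t z) (hpow _)), ?_⟩
        have h2 : y - D.b l x = ((D.p j - D.p l : ℤ) : K) * x + ((D.q j - D.q l : ℤ) : K) +
            (y - D.b j x) := by
          unfold Arr.b
          push_cast
          ring
        have h3 : x * t = 1 := mul_inv_cancel₀ hx
        rw [h2, hyz, map_intCast]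
        linear_combination ((D.p j - D.p l : ℤ) : K) * h3

end Local

/-! ### Part 3: the uniformizer -/

section Unif

lemma aeval_mem_V (V : ValuationSubring K) (hV : OverC V) {t : K} (ht : t ∈ V) (q : ℂ[X]) :
    aeval t q ∈ V := by
  rw [aeval_eq_sum_range]
  refine V.sum_mem fun i _ => ?_
  rw [Algebra.smul_def]
  exact V.mul_mem _ _ (hV _) (pow_mem ht i)

lemma v_poly (V : ValuationSubring K) (hV : OverC V) {t : K} (ht : V.valuation t < 1)
    {r : ℂ[X]} (hr : r ≠ 0) : ∃ k : ℕ, V.valuation (aeval t r) = V.valuation t ^ k := by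
  have htV : t ∈ V := by
    rw [← V.valuation_le_one_iff]
    exact ht.le
  obtain ⟨k, r', hr', hk⟩ := WfDvdMonoid.max_power_factor hr (irreducible_X (R := ℂ))
  refine ⟨k, ?_⟩
  rw [hk, map_mul, map_mul, map_pow, aeval_X, map_pow]
  rw [X_dvd_iff] at hr'
  have h1 : V.valuation (aeval t r') = 1 := by
    rw [← divX_mul_X_add r', map_add, aeval_C, map_mul, aeval_X, add_comm,
      Valuation.map_add_eq_of_lt_left, v_const V hV hr']
    rw [v_const V hV hr', map_mul]
    refine Right.mul_lt_one_of_le_of_lt ?_ ht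
    rw [V.valuation_le_one_iff]
    exact aeval_mem_V V hV htV _
  rw [h1, mul_one]

lemma v_elem (V : ValuationSubring K) (hV : OverC V) {t : K} (ht : V.valuation t < 1)
    (ht0 : t ≠ 0) {e : K} (he : e ∈ IntermediateField.adjoin ℂ {t}) (he0 : e ≠ 0) :
    ∃ B : ℕ, V.valuation e * V.valuation t ^ B ≤ 1 ∧ V.valuation t ^ B ≤ V.valuation e := by
  have hvt : 0 < V.valuation t := zero_lt_iff.mpr ((Valuation.ne_zero_iff _).mpr ht0)
  obtain ⟨r, s, hrs⟩ := (IntermediateField.mem_adjoin_simple_iff ℂ e).mp he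
  have hr : r ≠ 0 := by
    rintro rfl
    rw [map_zero, zero_div] at hrs
    exact he0 hrs
  have hs : s ≠ 0 := by
    rintro rfl
    rw [map_zero, div_zero] at hrs
    exact he0 hrs
  obtain ⟨k, hk⟩ := v_poly V hV ht hr
  obtain ⟨k', hk'⟩ := v_poly V hV ht hs
  have h1 : V.valuation e * V.valuation t ^ k' = V.valuation t ^ k := by
    rw [hrs, map_div₀, hk, hk', div_mul_cancel₀ _ (pow_pos hvt _).ne']
  refine ⟨k + k', ?_, ?_⟩
  · rw [pow_add, mul_left_comm, h1, ← pow_add]
    exact pow_le_one₀ hvt.le ht.le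
  · have h2 : V.valuation t ^ k ≤ V.valuation e := by
      rw [← h1]
      exact mul_le_of_le_one_right' (pow_le_one₀ hvt.le ht.le)
    refine le_trans ?_ h2
    rw [pow_add]
    exact mul_le_of_le_one_right' (pow_le_one₀ hvt.le ht.le)

lemma v_bdd (V : ValuationSubring K) (hV : OverC V) {t : K} (ht : V.valuation t < 1)
    (ht0 : t ≠ 0) [FiniteDimensional (IntermediateField.adjoin ℂ {t}) K] {b : K} (hb : b ≠ 0) :
    ∃ N : ℕ, ¬ V.valuation b ≤ V.valuation t ^ N := by
  have hvt : 0 < V.valuation t := zero_lt_iff.mpr ((Valuation.ne_zero_iff _).mpr ht0)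
  set E := IntermediateField.adjoin ℂ {t} with hE
  have hint : IsIntegral E b := IsIntegral.of_finite E b
  set p := minpoly E b with hp
  have hp0 : ((p.coeff 0 : E) : K) ≠ 0 := by
    intro h0
    exact (minpoly.coeff_zero_ne_zero hint hb) (Subtype.ext h0)
  obtain ⟨B0, -, hB0⟩ := v_elem V hV ht ht0 (p.coeff 0).2 hp0
  have hB : ∀ i : ℕ, ∃ B : ℕ, V.valuation ((p.coeff i : E) : K) * V.valuation t ^ B ≤ 1 := by
    intro i
    by_cases hi : ((p.coeff i : E) : K) = 0
    · refine ⟨0, ?_⟩
      rw [hi, map_zero, zero_mul]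
      exact zero_le_one
    · obtain ⟨B, hB, -⟩ := v_elem V hV ht ht0 (p.coeff i).2 hi
      exact ⟨B, hB⟩
  choose B hB using hB
  set S := ∑ i ∈ Finset.range (p.natDegree + 1), B i with hS
  refine ⟨S + (B0 + 1), fun hbN => ?_⟩
  have hb1 : V.valuation b ≤ 1 := hbN.trans (pow_le_one₀ hvt.le ht.le)
  have hterm : ∀ i ∈ Finset.range p.natDegree,
      V.valuation (((p.coeff (i + 1) : E) : K) * b ^ (i + 1)) < V.valuation ((p.coeff 0 : E) : K) := by
    intro i hi
    have h1 : B (i + 1) ≤ S := by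
      rw [hS]
      refine Finset.single_le_sum (f := B) (fun _ _ => Nat.zero_le _) ?_
      rw [Finset.mem_range] at hi ⊢
      omega
    have h2 : V.valuation ((p.coeff (i + 1) : E) : K) * V.valuation t ^ S ≤ 1 := by
      refine le_trans ?_ (hB (i + 1))
      exact mul_le_mul_right (pow_le_pow_right_of_le_one' ht.le h1) _
    have h3 : V.valuation (b ^ (i + 1)) ≤ V.valuation b := by
      rw [map_pow, pow_succ]
      exact mul_le_of_le_one_left' (pow_le_one' hb1 i)
    calc V.valuation (((p.coeff (i + 1) : E) : K) * b ^ (i + 1))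
        = V.valuation ((p.coeff (i + 1) : E) : K) * V.valuation (b ^ (i + 1)) := map_mul _ _ _
      _ ≤ V.valuation ((p.coeff (i + 1) : E) : K) * V.valuation t ^ (S + (B0 + 1)) :=
          mul_le_mul_right (h3.trans hbN) _
      _ = (V.valuation ((p.coeff (i + 1) : E) : K) * V.valuation t ^ S) *
          V.valuation t ^ (B0 + 1) := by rw [pow_add, mul_assoc]
      _ ≤ 1 * V.valuation t ^ (B0 + 1) := mul_le_mul_left h2 _
      _ = V.valuation t ^ B0 * V.valuation t := by rw [one_mul, pow_succ]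
      _ < V.valuation t ^ B0 * 1 := by
          exact mul_lt_mul_of_pos_left ht (pow_pos hvt B0)
      _ ≤ V.valuation ((p.coeff 0 : E) : K) := by
          rw [mul_one]
          exact hB0
  have h0 : aeval b p = 0 := minpoly.aeval E b
  rw [aeval_eq_sum_range, Finset.sum_range_succ'] at h0
  have h1 : V.valuation (∑ i ∈ Finset.range p.natDegree, p.coeff (i + 1) • b ^ (i + 1)) <
      V.valuation ((p.coeff 0 : E) : K) := by
    refine Valuation.map_sum_lt _ ?_ fun i hi => ?_
    · exact (Valuation.ne_zero_iff _).mpr hp0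
    · rw [Algebra.smul_def]
      exact hterm i hi
  have h2 : (∑ i ∈ Finset.range p.natDegree, p.coeff (i + 1) • b ^ (i + 1)) =
      -((p.coeff 0 : E) : K) := by
    rw [pow_zero, Algebra.smul_def, mul_one] at h0
    exact eq_neg_of_add_eq_zero_left h0
  rw [h2, Valuation.map_neg] at h1
  exact lt_irrefl _ h1

lemma v_R (V : ValuationSubring K) (hV : OverC V) {t z P : K} (ht : V.valuation t < 1)
    (hzV : z ∈ V) (ht0 : t ≠ 0) [FiniteDimensional (IntermediateField.adjoin ℂ {t}) K]
    {c : ℂ} (hc : c ≠ 0) (hP : Cg t z c P) (hz : z * P = 1) {b : K} (hb : b ∈ R t z)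
    (hb0 : b ≠ 0) : ∃ k : ℕ, V.valuation b = V.valuation t ^ k := by
  have htV : t ∈ V := by
    rw [← V.valuation_le_one_iff]
    exact ht.le
  have hRV : ∀ e ∈ R t z, e ∈ V := by
    intro e he
    unfold R at he
    induction he using Algebra.adjoin_induction with
    | mem e he =>
        rcases he with rfl | he
        · exact htV
        · rw [Set.mem_singleton_iff] at he
          rw [he]
          exact hzV
    | algebraMap c => exact hV c
    | add a b _ _ ha hb => exact V.add_mem _ _ ha hb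
    | mul a b _ _ ha hb => exact V.mul_mem _ _ ha hb
  by_contra hcon
  push Not at hcon
  have hall : ∀ n : ℕ, ∃ e ∈ R t z, b = t ^ n * e := by
    intro n
    induction n with
    | zero => exact ⟨b, hb, by rw [pow_zero, one_mul]⟩
    | succ n ih =>
        obtain ⟨e, he, hbe⟩ := ih
        obtain ⟨d, e', he', hde⟩ := cg_of_mem hc hP hz he
        by_cases hd : d = 0
        · refine ⟨e', he', ?_⟩
          rw [hbe, hde, hd, map_zero, zero_add, pow_succ, mul_assoc]
        · exfalso
          apply hcon n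
          have h1 : V.valuation e = 1 := by
            rw [hde, Valuation.map_add_eq_of_lt_left, v_const V hV hd]
            rw [v_const V hV hd, map_mul, mul_comm]
            refine Right.mul_lt_one_of_le_of_lt ?_ ht
            rw [V.valuation_le_one_iff]
            exact hRV _ he'
          rw [hbe, map_mul, h1, mul_one, map_pow]
  obtain ⟨N, hN⟩ := v_bdd V hV ht ht0 hb0
  obtain ⟨e, he, hbe⟩ := hall N
  apply hN
  rw [hbe, map_mul, map_pow]
  refine mul_le_of_le_one_right' ?_
  rw [V.valuation_le_one_iff]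
  exact hRV _ he

variable {D : Arr} {lam : ℤ} {x y : K}

lemma x_ne (h : IsCurve ℂ K D lam x y) : x ≠ 0 := by
  rintro rfl
  exact h.transc (isAlgebraic_zero)

lemma adjoin_inv (x : K) : IntermediateField.adjoin ℂ {x⁻¹} = IntermediateField.adjoin ℂ {x} := by
  apply le_antisymm
  · rw [IntermediateField.adjoin_simple_le_iff]
    exact inv_mem (IntermediateField.mem_adjoin_simple_self ℂ x)
  · rw [IntermediateField.adjoin_simple_le_iff]
    have h1 := inv_mem (IntermediateField.mem_adjoin_simple_self ℂ x⁻¹)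
    rwa [inv_inv] at h1

lemma fin_inv (h : IsCurve ℂ K D lam x y) :
    FiniteDimensional (IntermediateField.adjoin ℂ {x⁻¹}) K ∧
      Module.finrank (IntermediateField.adjoin ℂ {x⁻¹}) K = D.n := by
  have key : ∀ E : IntermediateField ℂ K, E = IntermediateField.adjoin ℂ {x} →
      FiniteDimensional E K ∧ Module.finrank E K = D.n := by
    rintro E rfl
    exact (Irr.main h (lam_ne h)).2
  exact key _ (adjoin_inv x)

lemma gen_tz (h : IsCurve ℂ K D lam x y) (j : Fin D.n) (N : ℕ) :
    IntermediateField.adjoin ℂ {x⁻¹, (y - D.b j x) * x ^ N} = ⊤ := by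
  have hx := x_ne h
  rw [eq_top_iff, ← h.gen, IntermediateField.adjoin_le_iff]
  set L := IntermediateField.adjoin ℂ {x⁻¹, (y - D.b j x) * x ^ N} with hL
  have htL : x⁻¹ ∈ L := IntermediateField.subset_adjoin _ _ (Set.mem_insert _ _)
  have hzL : (y - D.b j x) * x ^ N ∈ L :=
    IntermediateField.subset_adjoin _ _ (Set.mem_insert_of_mem _ rfl)
  have hxL : x ∈ L := by
    have := inv_mem htL
    rwa [inv_inv] at this
  rintro w (rfl | rfl)
  · exact hxL
  · have h1 : w = ((w - D.b j x) * x ^ N) * (x⁻¹) ^ N + D.b j x := by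
      rw [mul_assoc, ← mul_pow, mul_inv_cancel₀ hx, one_pow, mul_one]
      ring
    show w ∈ L
    rw [h1]
    refine add_mem (mul_mem hzL (pow_mem htL _)) ?_
    unfold Arr.b
    exact add_mem (mul_mem (intCast_mem _ _) hxL) (intCast_mem _ _)

/-- Part 3, the uniformizer. -/
theorem unif (h : IsCurve ℂ K D lam x y) (V : ValuationSubring K) (j : Fin D.n) (hV : OverC V)
    (hj : AtInf D x y V j) (a : K) (ha : a ≠ 0) : ∃ k : ℤ, IsU V (a * x ^ k) := by
  have hx := x_ne h
  have h1 : 1 < V.valuation x := by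
    rw [← not_le, V.valuation_le_one_iff]
    exact hj.1
  have ht : V.valuation x⁻¹ < 1 := by
    rw [map_inv₀]
    exact (inv_lt_one₀ (zero_lt_one.trans h1)).mpr h1
  have ht0 : x⁻¹ ≠ 0 := inv_ne_zero hx
  have hfin := (fin_inv h).1
  obtain ⟨c, hc, hP⟩ := cg_PP h hx j
  have hz := z_mul_PP h hx j
  have hmem : a ∈ IntermediateField.adjoin ℂ {x⁻¹, (y - D.b j x) * x ^ (D.m + D.dd j)} := by
    rw [gen_tz h]
    exact IntermediateField.mem_top
  obtain ⟨r, hr, s, hs, hrs⟩ := IntermediateField.mem_adjoin_iff_div.mp hmem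
  have hr0 : r ≠ 0 := by
    rintro rfl
    rw [zero_div] at hrs
    exact ha hrs
  have hs0 : s ≠ 0 := by
    rintro rfl
    rw [div_zero] at hrs
    exact ha hrs
  obtain ⟨k, hk⟩ := v_R V hV ht hj.2 ht0 hc hP hz hr hr0
  obtain ⟨k', hk'⟩ := v_R V hV ht hj.2 ht0 hc hP hz hs hs0
  refine ⟨(k : ℤ) - k', ?_⟩
  have hv : V.valuation x ≠ 0 := (zero_lt_one.trans h1).ne'
  rw [isU_iff, map_mul, hrs, map_div₀, hk, hk', map_zpow₀, map_inv₀, ← zpow_natCast,
    ← zpow_natCast, ← zpow_sub₀ (inv_ne_zero hv), inv_zpow, inv_mul_cancel₀ (zpow_ne_zero _ hv)]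

end Unif

/-! ### Part 2: existence of the points -/

section Exist

lemma ev2_surj {K : Type} [Field K] [Algebra ℂ K] (t z : K) {b : K} (hb : b ∈ R t z) :
    ∃ F : ℂ[X][X], ev2 t z F = b := by
  unfold R at hb
  induction hb using Algebra.adjoin_induction with
  | mem b hb =>
      rcases hb with rfl | hb
      · refine ⟨C X, ?_⟩
        rw [Irr.ev2_C, aeval_X]
      · rw [Set.mem_singleton_iff] at hb
        refine ⟨X, ?_⟩
        unfold ev2
        rw [eval₂_X, hb]
  | algebraMap c =>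
      refine ⟨C (C c), ?_⟩
      rw [Irr.ev2_C, aeval_C]
  | add b e _ _ hb he =>
      obtain ⟨F, rfl⟩ := hb
      obtain ⟨G, rfl⟩ := he
      exact ⟨F + G, eval₂_add _ _⟩
  | mul b e _ _ hb he =>
      obtain ⟨F, rfl⟩ := hb
      obtain ⟨G, rfl⟩ := he
      exact ⟨F * G, eval₂_mul _ _⟩

theorem dvd_of_ev2 {K : Type} [Field K] [Algebra ℂ K] {t z : K} {n : ℕ}
    (htr : Transcendental ℂ t) (hgen : IntermediateField.adjoin ℂ {t, z} = ⊤)
    (hfd : FiniteDimensional (IntermediateField.adjoin ℂ {t}) K)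
    (hfr : Module.finrank (IntermediateField.adjoin ℂ {t}) K = n)
    {H : ℂ[X][X]} (hprim : H.IsPrimitive) (hdegH : H.natDegree = n) (hH : ev2 t z H = 0)
    {S : ℂ[X][X]} (hS : ev2 t z S = 0) : H ∣ S := by
  classical
  set E := IntermediateField.adjoin ℂ {t} with hE
  let _ : Algebra ℂ[X] E := (Irr.algE t).toAlgebra
  have halg : ∀ p : ℂ[X], algebraMap ℂ[X] E p = Irr.algE t p := fun p => rfl
  have hinj : Function.Injective (algebraMap ℂ[X] E) := by
    rw [injective_iff_map_eq_zero]
    intro p hp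
    by_contra hne
    apply htr
    refine ⟨p, hne, ?_⟩
    rw [← Irr.coe_algE, ← halg, hp]
    rfl
  have _ : FaithfulSMul ℂ[X] E := (faithfulSMul_iff_algebraMap_injective _ _).mpr hinj
  have _ : IsFractionRing ℂ[X] E := by
    refine IsFractionRing.of_field _ _ fun z => ?_
    obtain ⟨r, s, hrs⟩ := (IntermediateField.mem_adjoin_simple_iff ℂ (z : K)).mp z.2
    refine ⟨r, s, ?_⟩
    apply Subtype.ext
    rw [hrs, halg, halg]
    show _ = ((Irr.algE t r / Irr.algE t s : E) : K)
    rw [IntermediateField.coe_div, Irr.coe_algE, Irr.coe_algE]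
  have hev : ∀ (S : ℂ[X][X]), ev2 t z S = aeval z (S.map (algebraMap ℂ[X] E)) := by
    intro S
    unfold ev2
    rw [aeval_def, eval₂_map]
    congr 1
    ext p
    · exact (Irr.coe_algE t _).symm
    · exact (Irr.coe_algE t _).symm
  have hinty : IsIntegral E z := IsIntegral.of_finite E z
  have htopy : IntermediateField.adjoin E {z} = ⊤ := by
    have h1 : IntermediateField.adjoin ℂ {t, z} ≤
        IntermediateField.restrictScalars ℂ (IntermediateField.adjoin E {z}) := by
      rw [IntermediateField.adjoin_le_iff]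
      rintro w (rfl | rfl)
      · exact (IntermediateField.adjoin E {z}).algebraMap_mem
          ⟨w, IntermediateField.mem_adjoin_simple_self ℂ w⟩
      · exact IntermediateField.mem_adjoin_simple_self E w
    rw [hgen] at h1
    rw [eq_top_iff]
    intro w _
    exact h1 (IntermediateField.mem_top)
  have hdeg : (minpoly E z).natDegree = n := by
    have h1 := IntermediateField.adjoin.finrank hinty
    rw [htopy] at h1
    rw [← h1, ← hfr]
    exact IntermediateField.finrank_top' (F := E) (E := K)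
  set P := H.map (algebraMap ℂ[X] E) with hP
  have hP0 : P ≠ 0 := by
    rw [hP, Ne, Polynomial.map_eq_zero_iff hinj]
    exact hprim.ne_zero
  have hPdeg : P.natDegree = n := by
    rw [hP, natDegree_map_eq_of_injective hinj, hdegH]
  have hPy : aeval z P = 0 := by
    rw [hP, ← hev]
    exact hH
  have hdvd : minpoly E z ∣ P := minpoly.dvd E z hPy
  obtain ⟨R, hR⟩ := hdvd
  have hR0 : R ≠ 0 := by
    rintro rfl
    rw [mul_zero] at hR
    exact hP0 hR
  have hRdeg : R.natDegree = 0 := by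
    have h1 : P.natDegree = (minpoly E z).natDegree + R.natDegree := by
      rw [hR, natDegree_mul (minpoly.ne_zero hinty) hR0]
    omega
  have hRu : IsUnit R := by
    rw [eq_C_of_natDegree_eq_zero hRdeg, isUnit_C, isUnit_iff_ne_zero]
    intro h0
    apply hR0
    rw [eq_C_of_natDegree_eq_zero hRdeg, h0, C_0]
  have hPS : P ∣ S.map (algebraMap ℂ[X] E) := by
    rw [hR]
    have h1 : minpoly E z ∣ S.map (algebraMap ℂ[X] E) := by
      apply minpoly.dvd
      rw [← hev]
      exact hS
    exact (hRu.mul_right_dvd).mpr h1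
  exact hprim.dvd_of_fraction_map_dvd_fraction_map (K := E) hPS

/-- The factors of the equation at the `j`-th point at infinity. -/
noncomputable def fac (D : Arr) (j l : Fin D.n) : ℂ[X][X] :=
  if D.p l = D.p j then C (X ^ (D.m + D.dd j)) * X + C (C ((D.q j - D.q l : ℤ) : ℂ))
  else C (X ^ (D.m + D.dd j + 1)) * X +
    C (C ((D.p j - D.p l : ℤ) : ℂ) + C ((D.q j - D.q l : ℤ) : ℂ) * X)

/-- The polynomial version of `PP`. -/
noncomputable def PPp (D : Arr) (lam : ℤ) (j : Fin D.n) : ℂ[X][X] :=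
  C (C (lam : ℂ) * ∏ i, (1 - C (D.a i : ℂ) * X)) * ∏ l ∈ Finset.univ.erase j, fac D j l

/-- The equation in the coordinates `t = 1 / x` and `z`. -/
noncomputable def Hp (D : Arr) (lam : ℤ) (j : Fin D.n) : ℂ[X][X] := PPp D lam j * X - 1

lemma fac_natDegree (D : Arr) (j l : Fin D.n) : (fac D j l).natDegree = 1 := by
  unfold fac
  split_ifs
  · exact natDegree_linear (pow_ne_zero _ X_ne_zero)
  · exact natDegree_linear (pow_ne_zero _ X_ne_zero)

lemma fac_ne (D : Arr) (j l : Fin D.n) : fac D j l ≠ 0 := by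
  intro h
  have := fac_natDegree D j l
  rw [h, natDegree_zero] at this
  exact zero_ne_one this

lemma one_sub_ne (a : ℂ) : (1 - C a * X : ℂ[X]) ≠ 0 := by
  intro h
  have := congrArg (eval 0) h
  simp at this

lemma cst_ne (D : Arr) {lam : ℤ} (hlam : lam ≠ 0) :
    (C (lam : ℂ) * ∏ i, (1 - C (D.a i : ℂ) * X) : ℂ[X]) ≠ 0 := by
  refine mul_ne_zero (by rw [Ne, C_eq_zero]; exact_mod_cast hlam) ?_
  exact Finset.prod_ne_zero_iff.mpr fun i _ => one_sub_ne _

lemma PPp_natDegree (D : Arr) {lam : ℤ} (hlam : lam ≠ 0) (j : Fin D.n) :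
    (PPp D lam j).natDegree = D.n - 1 := by
  unfold PPp
  rw [natDegree_C_mul (cst_ne D hlam), natDegree_prod _ _ fun l _ => fac_ne D j l,
    Finset.sum_congr rfl fun l _ => fac_natDegree D j l, Finset.sum_const,
    Finset.card_erase_of_mem (Finset.mem_univ _), Finset.card_univ, Fintype.card_fin, smul_eq_mul,
    mul_one]

lemma PPp_ne (D : Arr) {lam : ℤ} (hlam : lam ≠ 0) (j : Fin D.n) : PPp D lam j ≠ 0 := by
  unfold PPp
  refine mul_ne_zero (by rw [Ne, C_eq_zero]; exact cst_ne D hlam) ?_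
  exact Finset.prod_ne_zero_iff.mpr fun l _ => fac_ne D j l

lemma Hp_natDegree (D : Arr) {lam : ℤ} (hlam : lam ≠ 0) (j : Fin D.n) :
    (Hp D lam j).natDegree = D.n := by
  have hn := D.hn
  have h1 : (PPp D lam j * X).natDegree = D.n := by
    rw [natDegree_mul_X (PPp_ne D hlam j), PPp_natDegree D hlam j]
    omega
  unfold Hp
  rw [natDegree_sub_eq_left_of_natDegree_lt, h1]
  rw [h1, natDegree_one]
  omega

lemma Hp_prim (D : Arr) (lam : ℤ) (j : Fin D.n) : (Hp D lam j).IsPrimitive := by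
  intro r hr
  have h1 := (C_dvd_iff_dvd_coeff _ _).mp hr 0
  unfold Hp at h1
  rw [coeff_sub, coeff_mul_X_zero, coeff_one_zero, zero_sub, dvd_neg] at h1
  exact isUnit_of_dvd_one h1

variable {K : Type} [Field K] [Algebra ℂ K] {D : Arr} {lam : ℤ} {x y : K}

lemma ev2_PPp (_h : IsCurve ℂ K D lam x y) (hx : x ≠ 0) (j : Fin D.n) :
    ev2 x⁻¹ ((y - D.b j x) * x ^ (D.m + D.dd j)) (PPp D lam j) = PP D lam x y j := by
  set t := x⁻¹ with ht
  set z := (y - D.b j x) * x ^ (D.m + D.dd j) with hz
  have hyz : y - D.b j x = z * t ^ (D.m + D.dd j) := by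
    rw [hz, ht, mul_assoc, ← mul_pow, mul_inv_cancel₀ hx, one_pow, mul_one]
  have hxt : x * t = 1 := mul_inv_cancel₀ hx
  unfold PPp PP ev2
  rw [eval₂_mul, eval₂_finsetProd, eval₂_C]
  congr 1
  · show aeval t (C (lam : ℂ) * ∏ i, (1 - C (D.a i : ℂ) * X)) = _
    rw [map_mul, map_prod]
    simp [ht]
  · refine Finset.prod_congr rfl fun l _ => ?_
    unfold fac
    split_ifs with hp
    · rw [eval₂_add, eval₂_mul, eval₂_C, eval₂_C, eval₂_X]
      show aeval t (X ^ (D.m + D.dd j)) * z + aeval t (C ((D.q j - D.q l : ℤ) : ℂ)) = _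
      rw [map_pow, aeval_X, aeval_C, map_intCast]
      have h2 : y - D.b l x = ((D.q j - D.q l : ℤ) : K) + (y - D.b j x) := by
        unfold Arr.b
        rw [hp]
        push_cast
        ring
      rw [h2, hyz]
      ring
    · rw [eval₂_add, eval₂_mul, eval₂_C, eval₂_C, eval₂_X]
      show aeval t (X ^ (D.m + D.dd j + 1)) * z + aeval t (C ((D.p j - D.p l : ℤ) : ℂ) +
        C ((D.q j - D.q l : ℤ) : ℂ) * X) = _
      rw [map_pow, map_add, map_mul, aeval_X, aeval_C, aeval_C, map_intCast, map_intCast]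
      have h2 : y - D.b l x = ((D.p j - D.p l : ℤ) : K) * x + ((D.q j - D.q l : ℤ) : K) +
          (y - D.b j x) := by
        unfold Arr.b
        push_cast
        ring
      rw [h2, hyz]
      linear_combination -((D.p j - D.p l : ℤ) : K) * hxt

lemma ev2_Hp (h : IsCurve ℂ K D lam x y) (hx : x ≠ 0) (j : Fin D.n) :
    ev2 x⁻¹ ((y - D.b j x) * x ^ (D.m + D.dd j)) (Hp D lam j) = 0 := by
  have h1 := ev2_PPp h hx j
  have h2 := z_mul_PP h hx j
  unfold Hp
  unfold ev2 at h1 ⊢
  rw [eval₂_sub, eval₂_mul, h1, eval₂_X, eval₂_one, mul_comm, h2, sub_self]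

lemma not_unit (D : Arr) {lam : ℤ} (hlam : lam ≠ 0) (j : Fin D.n) (F : ℂ[X][X]) :
    ¬ Hp D lam j ∣ 1 - C X * F := by
  intro hd
  have h1 := _root_.map_dvd (mapRingHom (evalRingHom (0 : ℂ))) hd
  rw [map_sub, map_mul, map_one, coe_mapRingHom, map_C, coe_evalRingHom, eval_X, C_0, zero_mul,
    sub_zero] at h1
  have h2 : (Hp D lam j).map (evalRingHom (0 : ℂ)) = C ((lam : ℂ) *
      ∏ l ∈ Finset.univ.erase j, (if D.p l = D.p j then ((D.q j - D.q l : ℤ) : ℂ)
        else ((D.p j - D.p l : ℤ) : ℂ))) * X - 1 := by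
    unfold Hp PPp
    rw [Polynomial.map_sub, Polynomial.map_mul, Polynomial.map_mul, Polynomial.map_one, map_X,
      map_C, Polynomial.map_prod, C_mul]
    congr 3
    · congr 1
      rw [coe_evalRingHom, eval_mul, eval_C, eval_prod]
      simp
    · rw [map_prod]
      refine Finset.prod_congr rfl fun l _ => ?_
      have hm := D.hm
      unfold fac
      split_ifs with hp
      · rw [Polynomial.map_add, Polynomial.map_mul, map_C, map_C, map_X, coe_evalRingHom, eval_pow,
          eval_X, zero_pow (by omega), C_0, zero_mul, zero_add, eval_C]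
      · rw [Polynomial.map_add, Polynomial.map_mul, map_C, map_C, map_X, coe_evalRingHom, eval_pow,
          eval_X, zero_pow (by omega), C_0, zero_mul, zero_add, eval_add, eval_mul, eval_C, eval_X,
          mul_zero, add_zero]
  rw [h2] at h1
  have hc : (lam : ℂ) * ∏ l ∈ Finset.univ.erase j, (if D.p l = D.p j
      then ((D.q j - D.q l : ℤ) : ℂ) else ((D.p j - D.p l : ℤ) : ℂ)) ≠ 0 := by
    refine mul_ne_zero (by exact_mod_cast hlam) ?_
    refine Finset.prod_ne_zero_iff.mpr fun l hl => ?_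
    by_cases hp : D.p l = D.p j
    · rw [if_pos hp]
      have : D.q j - D.q l ≠ 0 := fun h0 =>
        (Finset.ne_of_mem_erase hl) (D.line_inj l j hp (sub_eq_zero.mp h0).symm)
      exact_mod_cast this
    · rw [if_neg hp]
      have : D.p j - D.p l ≠ 0 := sub_ne_zero.mpr (Ne.symm hp)
      exact_mod_cast this
  have h3 := natDegree_eq_zero_of_isUnit (isUnit_of_dvd_one h1)
  rw [sub_eq_add_neg, ← C_1, ← C_neg, natDegree_linear hc] at h3
  exact one_ne_zero h3

theorem exists_point (h : IsCurve ℂ K D lam x y) (j : Fin D.n) :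
    ∃ V : ValuationSubring K, OverC V ∧ AtInf D x y V j := by
  have hx := x_ne h
  have hlam := lam_ne h
  obtain ⟨hfd, hfr⟩ := fin_inv h
  have htr : Transcendental ℂ x⁻¹ := by
    intro ha
    apply h.transc
    have := ha.inv
    rwa [inv_inv] at this
  set z := (y - D.b j x) * x ^ (D.m + D.dd j) with hz
  have hI : Ideal.span {(⟨x⁻¹, t_mem x⁻¹ z⟩ : (R x⁻¹ z).toSubring)} ≠ ⊤ := by
    intro htop
    have h1 : (1 : (R x⁻¹ z).toSubring) ∈
        Ideal.span {(⟨x⁻¹, t_mem x⁻¹ z⟩ : (R x⁻¹ z).toSubring)} := by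
      rw [htop]
      exact Submodule.mem_top
    rw [Ideal.mem_span_singleton] at h1
    obtain ⟨b, hb⟩ := h1
    obtain ⟨F, hF⟩ := ev2_surj x⁻¹ z b.2
    have h2 : (1 : K) = x⁻¹ * (b : K) := congrArg Subtype.val hb
    refine not_unit D hlam j F (dvd_of_ev2 htr (gen_tz h j _) hfd hfr (Hp_prim D lam j)
      (Hp_natDegree D hlam j) (ev2_Hp h hx j) ?_)
    have h3 : ev2 x⁻¹ z (C X : ℂ[X][X]) = x⁻¹ := by
      rw [Irr.ev2_C, aeval_X]
    unfold ev2 at hF h3 ⊢
    rw [eval₂_sub, eval₂_one, eval₂_mul, hF, h3, h2, sub_self]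
  obtain ⟨V, hV, hnon⟩ := Ideal.image_subset_nonunits_valuationSubring _ hI
  refine ⟨V, fun c => hV ((R x⁻¹ z).algebraMap_mem c), ?_, hV (z_mem x⁻¹ z)⟩
  have h1 : x⁻¹ ∈ V.nonunits := hnon ⟨_, Ideal.subset_span rfl, rfl⟩
  exact (V.inv_mem_nonunits_iff.mp h1).resolve_left hx

end Exist

end Inf

theorem specInf : SpecInf := by
  intro K _ _ D lam x y h
  refine ⟨fun V hV hx => Inf.exists_atInf h V hV hx, fun j => Inf.exists_point h j,
    fun V j hV hj => ⟨fun a ha => Inf.unif h V j hV hj a ha, Inf.units h V j hV hj⟩⟩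

end MP743d1e
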