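import Pool.Agent.Lib.MP_743d1e_nt.Spec
import Pool.Agent.Lib.MP_743d1e_nt.Kae

section
/-!
# Valuation rings over `ℂ`, residues, logarithmic derivatives (used in LOWER and UPPER)
-/
set_option autoImplicit false
set_option linter.unusedSectionVars false

namespace MP743d1e.Low

open scoped BigOperators
open Polynomial

variable {K : Type} [Field K] [Algebra ℂ K]

/-! ### membership through the valuation -/

theorem mem_iff {V : ValuationSubring K} {a : K} : a ∈ V ↔ V.valuation a ≤ 1 :=
  (V.valuation_le_one_iff a).symm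

theorem inM_iff {V : ValuationSubring K} {a : K} : InM V a ↔ V.valuation a < 1 := by
  unfold InM
  rw [mem_iff, map_inv₀]
  by_cases ha : a = 0
  · simp [ha]
  · have hv : V.valuation a ≠ 0 := (_root_.map_ne_zero _).2 ha
    simp only [ha, false_or, not_le]
    exact one_lt_inv₀ (zero_lt_iff.2 hv)

theorem isU_iff {V : ValuationSubring K} {a : K} : IsU V a ↔ V.valuation a = 1 := by
  unfold IsU
  rw [mem_iff, mem_iff, map_inv₀]
  constructor
  · rintro ⟨ha, h1, h2⟩
    have hv : V.valuation a ≠ 0 := (_root_.map_ne_zero _).2 ha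
    refine le_antisymm h1 ?_
    exact (inv_le_one₀ (zero_lt_iff.2 hv)).1 h2
  · intro h
    have ha : a ≠ 0 := by
      rintro rfl
      simp at h
    exact ⟨ha, h.le, by simp [h]⟩

theorem isU_mem {V : ValuationSubring K} {a : K} (h : IsU V a) : a ∈ V := h.2.1

theorem isU_inv_mem {V : ValuationSubring K} {a : K} (h : IsU V a) : a⁻¹ ∈ V := h.2.2

theorem isU_inv {V : ValuationSubring K} {a : K} (h : IsU V a) : IsU V a⁻¹ := by
  rw [isU_iff] at h ⊢
  rw [map_inv₀, h, inv_one]

theorem isU_mul {V : ValuationSubring K} {a b : K} (ha : IsU V a) (hb : IsU V b) :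
    IsU V (a * b) := by
  rw [isU_iff] at *
  rw [map_mul, ha, hb, one_mul]

theorem isU_prod {V : ValuationSubring K} {ι : Type} (s : Finset ι) (f : ι → K)
    (h : ∀ i ∈ s, IsU V (f i)) : IsU V (∏ i ∈ s, f i) := by
  classical
  induction s using Finset.induction_on with
  | empty => exact isU_iff.2 (by simp)
  | insert a s ha ih =>
    rw [Finset.prod_insert ha]
    exact isU_mul (h a (Finset.mem_insert_self a s)) (ih fun i hi => h i (Finset.mem_insert_of_mem hi))

theorem isU_pow {V : ValuationSubring K} {a : K} (ha : IsU V a) (n : ℕ) : IsU V (a ^ n) := by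
  rw [isU_iff] at *
  rw [map_pow, ha, one_pow]

theorem inM_mem {V : ValuationSubring K} {a : K} (h : InM V a) : a ∈ V :=
  mem_iff.2 (inM_iff.1 h).le

theorem isU_or_inM {V : ValuationSubring K} {a : K} (h : a ∈ V) : IsU V a ∨ InM V a := by
  rw [isU_iff, inM_iff]
  rcases (mem_iff.1 h).lt_or_eq with h | h
  · exact Or.inr h
  · exact Or.inl h

theorem not_inM {V : ValuationSubring K} {a : K} (h : IsU V a) : ¬ InM V a := by
  rw [isU_iff] at h
  rw [inM_iff, h]
  exact lt_irrefl _

theorem inM_add {V : ValuationSubring K} {a b : K} (ha : InM V a) (hb : InM V b) :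
    InM V (a + b) := by
  rw [inM_iff] at *
  exact (V.valuation.map_add a b).trans_lt (max_lt ha hb)

theorem inM_neg {V : ValuationSubring K} {a : K} (ha : InM V a) : InM V (-a) := by
  rw [inM_iff] at *
  rwa [Valuation.map_neg]

theorem inM_sub {V : ValuationSubring K} {a b : K} (ha : InM V a) (hb : InM V b) :
    InM V (a - b) := by
  rw [sub_eq_add_neg]
  exact inM_add ha (inM_neg hb)

theorem inM_mul {V : ValuationSubring K} {a b : K} (ha : InM V a) (hb : b ∈ V) :
    InM V (a * b) := by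
  rw [inM_iff, mem_iff] at *
  rw [map_mul]
  calc V.valuation a * V.valuation b ≤ V.valuation a * 1 := by gcongr
    _ < 1 := by rwa [mul_one]

theorem inM_mul' {V : ValuationSubring K} {a b : K} (ha : a ∈ V) (hb : InM V b) :
    InM V (a * b) := by
  rw [mul_comm]
  exact inM_mul hb ha

theorem inM_sum {V : ValuationSubring K} {ι : Type} (s : Finset ι) (f : ι → K)
    (h : ∀ i ∈ s, InM V (f i)) : InM V (∑ i ∈ s, f i) := by
  classical
  induction s using Finset.induction_on with
  | empty => exact Or.inl (by simp)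
  | insert a s ha ih =>
    rw [Finset.sum_insert ha]
    exact inM_add (h a (Finset.mem_insert_self a s)) (ih fun i hi => h i (Finset.mem_insert_of_mem hi))

theorem inM_of_mul {V : ValuationSubring K} {a b : K} (ha : a ∈ V) (hb : b ∈ V)
    (h : InM V (a * b)) : InM V a ∨ InM V b := by
  rcases isU_or_inM ha with h1 | h1
  · rcases isU_or_inM hb with h2 | h2
    · exact absurd h (not_inM (isU_mul h1 h2))
    · exact Or.inr h2
  · exact Or.inl h1

theorem exists_inM_of_prod {V : ValuationSubring K} {ι : Type} (s : Finset ι) (f : ι → K)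
    (hf : ∀ i ∈ s, f i ∈ V) (h : InM V (∏ i ∈ s, f i)) : ∃ i ∈ s, InM V (f i) := by
  classical
  by_contra hcon
  push Not at hcon
  refine not_inM (isU_prod s f fun i hi => ?_) h
  rcases isU_or_inM (hf i hi) with h1 | h1
  · exact h1
  · exact absurd h1 (hcon i hi)

theorem isU_add_inM {V : ValuationSubring K} {a b : K} (ha : IsU V a) (hb : InM V b) :
    IsU V (a + b) := by
  rcases isU_or_inM (V.add_mem _ _ (isU_mem ha) (inM_mem hb)) with h | h
  · exact h
  · exfalso
    have := inM_sub h hb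
    rw [add_sub_cancel_right] at this
    exact not_inM ha this

theorem sum_mem' {V : ValuationSubring K} {ι : Type} (s : Finset ι) (f : ι → K)
    (h : ∀ i ∈ s, f i ∈ V) : ∑ i ∈ s, f i ∈ V := sum_mem h

/-! ### constants and residues -/

variable {V : ValuationSubring K}

theorem isU_const (hV : OverC V) {c : ℂ} (hc : c ≠ 0) : IsU V (algebraMap ℂ K c) := by
  refine ⟨by simpa using hc, hV c, ?_⟩
  rw [← map_inv₀]
  exact hV _

theorem isU_intCast (hV : OverC V) {c : ℤ} (hc : c ≠ 0) : IsU V (c : K) := by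
  have := isU_const (c := (c : ℂ)) hV (by exact_mod_cast hc)
  simpa using this

theorem intCast_mem (hV : OverC V) (c : ℤ) : (c : K) ∈ V := by
  have := hV (c : ℂ)
  simpa using this

theorem b_mem (hV : OverC V) (D : Arr) (j : Fin D.n) {x : K} (hx : x ∈ V) : D.b j x ∈ V :=
  V.add_mem _ _ (V.mul_mem _ _ (intCast_mem hV _) hx) (intCast_mem hV _)

theorem aeval_mem (hV : OverC V) {x : K} (hx : x ∈ V) (p : ℂ[X]) : aeval x p ∈ V := by
  rw [aeval_eq_sum_range]
  refine sum_mem fun i _ => ?_
  rw [Algebra.smul_def]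
  exact V.mul_mem _ _ (hV _) (pow_mem hx i)

/-- `a` is congruent to the constant `c` modulo the maximal ideal. -/
def Res (V : ValuationSubring K) (a : K) (c : ℂ) : Prop := InM V (a - algebraMap ℂ K c)

theorem res_const (c : ℂ) : Res V (algebraMap ℂ K c) c := Or.inl (by simp)

theorem Res.mem (hV : OverC V) {a : K} {c : ℂ} (h : Res V a c) : a ∈ V := by
  have := V.add_mem _ _ (inM_mem h) (hV c)
  rwa [sub_add_cancel] at this

theorem Res.add {a b : K} {c d : ℂ} (h : Res V a c) (h' : Res V b d) : Res V (a + b) (c + d) := by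
  unfold Res at *
  have := inM_add h h'
  rw [map_add]
  convert this using 1
  ring

theorem Res.neg {a : K} {c : ℂ} (h : Res V a c) : Res V (-a) (-c) := by
  unfold Res at *
  have := inM_neg h
  rw [map_neg]
  convert this using 1
  ring

theorem Res.sub {a b : K} {c d : ℂ} (h : Res V a c) (h' : Res V b d) : Res V (a - b) (c - d) := by
  rw [sub_eq_add_neg, sub_eq_add_neg]
  exact h.add h'.neg

theorem Res.mul (hV : OverC V) {a b : K} {c d : ℂ} (h : Res V a c) (h' : Res V b d) :
    Res V (a * b) (c * d) := by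
  have hb := h'.mem hV
  unfold Res at *
  have := inM_add (inM_mul h hb) (inM_mul' (hV c) h')
  rw [map_mul]
  convert this using 1
  ring

theorem Res.inM_iff {a : K} {c : ℂ} (hV : OverC V) (h : Res V a c) : InM V a ↔ c = 0 := by
  constructor
  · intro ha
    by_contra hc
    have := inM_sub ha h
    rw [sub_sub_cancel] at this
    exact not_inM (isU_const hV hc) this
  · rintro rfl
    simpa only [Res, map_zero, sub_zero] using h

theorem Res.isU {a : K} {c : ℂ} (hV : OverC V) (h : Res V a c) (hc : c ≠ 0) : IsU V a := by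
  rcases isU_or_inM (h.mem hV) with h1 | h1
  · exact h1
  · exact absurd ((h.inM_iff hV).1 h1) hc

theorem Res.inv (hV : OverC V) {a : K} {c : ℂ} (h : Res V a c) (hc : c ≠ 0) :
    Res V a⁻¹ c⁻¹ := by
  have hU := h.isU hV hc
  have ha : a ≠ 0 := hU.1
  have hc' : algebraMap ℂ K c ≠ 0 := by simpa using hc
  unfold Res at *
  have := inM_mul (inM_neg h) (V.mul_mem _ _ (isU_inv_mem hU) (isU_inv_mem (isU_const hV hc)))
  rw [map_inv₀]
  convert this using 1
  field_simp
  ring

theorem Res.unique (hV : OverC V) {a : K} {c d : ℂ} (h : Res V a c) (h' : Res V a d) : c = d := by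
  have := h.sub h'
  rw [sub_self] at this
  exact sub_eq_zero.1 ((this.inM_iff hV).1 (Or.inl rfl))

theorem Res.sum {ι : Type} (s : Finset ι) (f : ι → K) (g : ι → ℂ)
    (h : ∀ i ∈ s, Res V (f i) (g i)) : Res V (∑ i ∈ s, f i) (∑ i ∈ s, g i) := by
  classical
  induction s using Finset.induction_on with
  | empty => exact Or.inl (by simp)
  | insert a s ha ih =>
    rw [Finset.sum_insert ha, Finset.sum_insert ha]
    exact (h a (Finset.mem_insert_self a s)).add (ih fun i hi => h i (Finset.mem_insert_of_mem hi))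

theorem Res.prod (hV : OverC V) {ι : Type} (s : Finset ι) (f : ι → K) (g : ι → ℂ)
    (h : ∀ i ∈ s, Res V (f i) (g i)) : Res V (∏ i ∈ s, f i) (∏ i ∈ s, g i) := by
  classical
  induction s using Finset.induction_on with
  | empty => exact Or.inl (by simp)
  | insert a s ha ih =>
    rw [Finset.prod_insert ha, Finset.prod_insert ha]
    exact (h a (Finset.mem_insert_self a s)).mul hV
      (ih fun i hi => h i (Finset.mem_insert_of_mem hi))

theorem res_intCast (c : ℤ) : Res V (c : K) (c : ℂ) := by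
  have := res_const (V := V) (c : ℂ)
  simpa using this

theorem exists_eq_const {s : K} (ha : IsAlgebraic ℂ s) : ∃ c : ℂ, algebraMap ℂ K c = s := by
  have := minpoly.mem_range_of_degree_eq_one ℂ s
    (IsAlgClosed.degree_eq_one_of_irreducible ℂ (minpoly.irreducible ha.isIntegral))
  exact this

theorem aeval_eq_divX (s : K) (g : ℂ[X]) :
    aeval s g = s * aeval s g.divX + algebraMap ℂ K (g.coeff 0) := by
  conv_lhs => rw [← Polynomial.divX_mul_X_add g]
  rw [map_add, map_mul, aeval_X, aeval_C, mul_comm]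

theorem exists_coeff_ne {s w : K} (hs : s ≠ 0) (T : ℕ) : ∀ (N : ℕ) (g : ℕ → ℂ[X]),
    (∃ k < N, g k ≠ 0) → ∑ k ∈ Finset.range N, (g k).natDegree = T →
    ∑ k ∈ Finset.range N, aeval s (g k) * w ^ k = 0 →
    ∃ g' : ℕ → ℂ[X], (∃ k < N, (g' k).coeff 0 ≠ 0) ∧
      ∑ k ∈ Finset.range N, aeval s (g' k) * w ^ k = 0 := by
  induction T using Nat.strong_induction_on with
  | _ T ih =>
    intro N g hne hT h0
    by_cases h : ∃ k < N, (g k).coeff 0 ≠ 0
    · exact ⟨g, h, h0⟩
    push Not at h
    obtain ⟨k₀, hk₀, hk₀'⟩ := hne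
    have hdiv : ∀ k < N, g k = (g k).divX * X := by
      intro k hk
      conv_lhs => rw [← Polynomial.divX_mul_X_add (g k), h k hk, map_zero, add_zero]
    have hsum : ∑ k ∈ Finset.range N, aeval s ((g k).divX) * w ^ k = 0 := by
      have : s * ∑ k ∈ Finset.range N, aeval s ((g k).divX) * w ^ k = 0 := by
        rw [Finset.mul_sum, ← h0]
        refine Finset.sum_congr rfl fun k hk => ?_
        rw [aeval_eq_divX s (g k), h k (Finset.mem_range.1 hk), map_zero, add_zero]
        ring
      exact (mul_eq_zero.1 this).resolve_left hs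
    refine ih (∑ k ∈ Finset.range N, ((g k).divX).natDegree) ?_ N (fun k => (g k).divX)
      ⟨k₀, hk₀, ?_⟩ rfl hsum
    · rw [← hT]
      refine Finset.sum_lt_sum ?_ ⟨k₀, Finset.mem_range.2 hk₀, ?_⟩
      · intro k _
        rw [Polynomial.natDegree_divX_eq_natDegree_tsub_one]
        omega
      · rw [Polynomial.natDegree_divX_eq_natDegree_tsub_one]
        have : 0 < (g k₀).natDegree := by
          rcases Nat.eq_zero_or_pos (g k₀).natDegree with h1 | h1
          · exfalso
            apply hk₀'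
            rw [Polynomial.eq_C_of_natDegree_eq_zero h1, h k₀ hk₀, map_zero]
          · exact h1
        omega
    · intro h1
      apply hk₀'
      rw [hdiv k₀ hk₀, h1, zero_mul]

theorem exists_res_of_poly (hV : OverC V) {w : K} (hw : w ∈ V) (n : ℕ) : ∀ Q : ℂ[X], Q ≠ 0 →
    Q.natDegree = n → InM V (aeval w Q) → ∃ c : ℂ, Res V w c := by
  induction n with
  | zero =>
    intro Q hQ hn hM
    exfalso
    rw [Polynomial.eq_C_of_natDegree_eq_zero hn, aeval_C] at hM
    refine not_inM (isU_const hV ?_) hM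
    intro h
    apply hQ
    rw [Polynomial.eq_C_of_natDegree_eq_zero hn, h, map_zero]
  | succ n ih =>
    intro Q hQ hn hM
    obtain ⟨r, hr⟩ := IsAlgClosed.exists_root Q (by
      rw [Polynomial.degree_eq_natDegree hQ, hn]
      exact_mod_cast Nat.succ_ne_zero n)
    obtain ⟨Q', rfl⟩ := Polynomial.dvd_iff_isRoot.2 hr
    have hQ' : Q' ≠ 0 := right_ne_zero_of_mul hQ
    have hn' : Q'.natDegree = n := by
      rw [Polynomial.natDegree_mul (Polynomial.X_sub_C_ne_zero r) hQ',
        Polynomial.natDegree_X_sub_C] at hn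
      omega
    rw [map_mul, map_sub, aeval_X, aeval_C] at hM
    rcases inM_of_mul (V.sub_mem hw (hV r)) (aeval_mem hV hw Q') hM with h1 | h1
    · exact ⟨r, h1⟩
    · exact ih Q' hQ' hn' h1

open scoped IntermediateField.algebraAdjoinAdjoin in
/-- Every element of a valuation ring is congruent to a constant, if the field is algebraic over
every rational function subfield. -/
theorem exists_res (hV : OverC V) (hVt : V ≠ ⊤)
    (halg : ∀ s : K, Transcendental ℂ s → Algebra.IsAlgebraic (Ct s) K) {w : K} (hw : w ∈ V) :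
    ∃ c : ℂ, Res V w c := by
  classical
  -- a nonzero element of the maximal ideal
  obtain ⟨z, hz⟩ : ∃ z : K, z ∉ V := by
    by_contra hcon
    push Not at hcon
    exact hVt (by ext a; simp [hcon a])
  have hz0 : z ≠ 0 := by
    rintro rfl
    exact hz V.zero_mem
  obtain ⟨s, hs0, hsM⟩ : ∃ s : K, s ≠ 0 ∧ InM V s :=
    ⟨z⁻¹, inv_ne_zero hz0, Or.inr (by rw [inv_inv]; exact hz)⟩
  have hst : Transcendental ℂ s := by
    intro ha
    obtain ⟨c, hc⟩ := exists_eq_const ha
    have hc0 : c ≠ 0 := by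
      rintro rfl
      exact hs0 (by rw [← hc, map_zero])
    exact not_inM (isU_const hV hc0) (by rw [hc]; exact hsM)
  have h1 : IsAlgebraic (Algebra.adjoin ℂ {s}) w :=
    (IsFractionRing.isAlgebraic_iff (Algebra.adjoin ℂ {s}) (Ct s) K).2
      ((halg s hst).isAlgebraic w)
  obtain ⟨p, hp0, hp⟩ := h1
  have h2 : ∀ k, ∃ h : ℂ[X], (p.coeff k ≠ 0 → h ≠ 0) ∧ aeval s h = (p.coeff k : K) := by
    intro k
    obtain ⟨h, hh⟩ := (Algebra.adjoin_singleton_eq_range_aeval ℂ s).le (p.coeff k).2
    refine ⟨h, ?_, hh⟩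
    rintro hne rfl
    apply hne
    apply Subtype.ext
    rw [← hh]
    simp
  choose g hg1 hg2 using h2
  obtain ⟨k₀, hk₀⟩ : ∃ k, p.coeff k ≠ 0 := by
    by_contra hcon
    push Not at hcon
    exact hp0 (Polynomial.ext fun k => by rw [hcon k, Polynomial.coeff_zero])
  have hk₀' : k₀ < p.natDegree + 1 := Nat.lt_succ_of_le (Polynomial.le_natDegree_of_ne_zero hk₀)
  obtain ⟨g', ⟨k₁, hk₁, hk₁'⟩, hg'⟩ := exists_coeff_ne (w := w) hs0 _ (p.natDegree + 1) g
    ⟨k₀, hk₀', hg1 k₀ hk₀⟩ rfl (by
      rw [aeval_eq_sum_range] at hp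
      rw [← hp]
      refine Finset.sum_congr rfl fun k _ => ?_
      rw [hg2 k]
      rfl)
  set Q : ℂ[X] := ∑ k ∈ Finset.range (p.natDegree + 1), C ((g' k).coeff 0) * X ^ k with hQ
  have hQ0 : Q ≠ 0 := by
    intro h
    apply hk₁'
    have : Q.coeff k₁ = (g' k₁).coeff 0 := by
      rw [hQ, Polynomial.finsetSum_coeff]
      rw [Finset.sum_eq_single k₁]
      · simp
      · intro k _ hk
        rw [Polynomial.coeff_C_mul, Polynomial.coeff_X_pow, if_neg (Ne.symm hk), mul_zero]
      · intro h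
        exact absurd (Finset.mem_range.2 hk₁) h
    rw [← this, h, Polynomial.coeff_zero]
  refine exists_res_of_poly hV hw Q.natDegree Q hQ0 rfl ?_
  have e : aeval w Q = -(∑ k ∈ Finset.range (p.natDegree + 1),
      (s * aeval s (g' k).divX) * w ^ k) := by
    rw [hQ, map_sum, eq_neg_iff_add_eq_zero, ← Finset.sum_add_distrib, ← hg']
    refine Finset.sum_congr rfl fun k _ => ?_
    rw [aeval_eq_divX s (g' k)]
    simp only [map_mul, aeval_C, map_pow, aeval_X]
    ring
  rw [e]
  refine inM_neg (inM_sum _ _ fun k _ => ?_)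
  exact inM_mul (inM_mul hsM (aeval_mem hV (inM_mem hsM) _)) (pow_mem hw k)

/-! ### regular elements -/

section reg

variable (δ : Derivation ℂ K K)

theorem regD_base {a b : K} (hb : b ∈ V) (ha : a ∈ V) : RegD δ V (b * δ a) :=
  AddSubgroup.subset_closure ⟨b, hb, a, ha, rfl⟩

theorem RegD.zero : RegD δ V 0 := AddSubgroup.zero_mem _

variable {δ}

theorem RegD.add {f g : K} (hf : RegD δ V f) (hg : RegD δ V g) : RegD δ V (f + g) :=
  AddSubgroup.add_mem _ hf hg

theorem RegD.neg {f : K} (hf : RegD δ V f) : RegD δ V (-f) := AddSubgroup.neg_mem _ hf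

theorem RegD.mul {f c : K} (hc : c ∈ V) (hf : RegD δ V f) : RegD δ V (c * f) := by
  unfold RegD at hf
  refine AddSubgroup.closure_induction (p := fun f _ => RegD δ V (c * f)) ?_ ?_ ?_ ?_ hf
  · rintro η ⟨b, hb, a, ha, rfl⟩
    rw [← mul_assoc]
    exact regD_base δ (V.mul_mem _ _ hc hb) ha
  · show RegD δ V (c * 0)
    rw [mul_zero]
    exact RegD.zero δ
  · intro x y _ _ hx hy
    show RegD δ V (c * (x + y))
    rw [mul_add]
    exact RegD.add hx hy
  · intro x _ hx
    show RegD δ V (c * (-x))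
    rw [mul_neg]
    exact RegD.neg hx

theorem RegD.sum {ι : Type} (s : Finset ι) (f : ι → K) (h : ∀ i ∈ s, RegD δ V (f i)) :
    RegD δ V (∑ i ∈ s, f i) := by
  classical
  induction s using Finset.induction_on with
  | empty => simpa using RegD.zero δ
  | insert a s ha ih =>
    rw [Finset.sum_insert ha]
    exact RegD.add (h a (Finset.mem_insert_self a s))
      (ih fun i hi => h i (Finset.mem_insert_of_mem hi))

end reg

/-! ### logarithmic derivatives -/

section dlog

variable (δ : Derivation ℂ K K)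

theorem dlog_mul {a b : K} (ha : a ≠ 0) (hb : b ≠ 0) :
    δ (a * b) / (a * b) = δ a / a + δ b / b := by
  rw [Derivation.leibniz, smul_eq_mul, smul_eq_mul]
  field_simp
  ring

theorem dlog_prod {ι : Type} (s : Finset ι) (f : ι → K) (h : ∀ i ∈ s, f i ≠ 0) :
    δ (∏ i ∈ s, f i) / (∏ i ∈ s, f i) = ∑ i ∈ s, δ (f i) / f i := by
  classical
  induction s using Finset.induction_on with
  | empty => simp
  | insert a s ha ih =>
    rw [Finset.prod_insert ha, Finset.sum_insert ha,
      dlog_mul δ (h a (Finset.mem_insert_self a s))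
        (Finset.prod_ne_zero_iff.2 fun i hi => h i (Finset.mem_insert_of_mem hi)),
      ih fun i hi => h i (Finset.mem_insert_of_mem hi)]

theorem δ_intCast (c : ℤ) : δ (c : K) = 0 := by
  have : (c : K) = algebraMap ℂ K (c : ℂ) := by simp
  rw [this, Derivation.map_algebraMap]

theorem δ_b (D : Arr) (j : Fin D.n) (x : K) : δ (D.b j x) = (D.p j : K) * δ x := by
  unfold Arr.b
  rw [map_add, Derivation.leibniz, δ_intCast, δ_intCast]
  simp

end dlog

/-! ### the curve -/

section curve

variable {D : Arr} {lam : ℤ} {x y : K}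

theorem lam_ne (h : IsCurve ℂ K D lam x y) : lam ≠ 0 := by
  rintro rfl
  have := h.eqn
  simp at this

theorem fac_ne (h : IsCurve ℂ K D lam x y) (l : Fin D.n) : y - D.b l x ≠ 0 := by
  intro h0
  have := h.eqn
  rw [Finset.prod_eq_zero (Finset.mem_univ l) h0] at this
  simp at this

theorem xfac_ne (h : IsCurve ℂ K D lam x y) (i : Fin D.m) : x - (D.a i : K) ≠ 0 := by
  intro h0
  have := h.eqn
  rw [Finset.prod_eq_zero (Finset.mem_univ i) h0] at this
  simp at this

/-- the logarithmic derivative of the equation -/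
theorem dlog_eqn (h : IsCurve ℂ K D lam x y) (δ : Derivation ℂ K K) :
    (∑ i, δ (x - (D.a i : K)) / (x - (D.a i : K))) +
      ∑ l, δ (y - D.b l x) / (y - D.b l x) = 0 := by
  have hlam : (lam : K) ≠ 0 := by
    intro h0
    have := h.eqn
    rw [h0] at this
    simp at this
  have h1 : ∏ i, (x - (D.a i : K)) ≠ 0 := Finset.prod_ne_zero_iff.2 fun i _ => xfac_ne h i
  have h2 : ∏ j, (y - D.b j x) ≠ 0 := Finset.prod_ne_zero_iff.2 fun i _ => fac_ne h i
  have h3 : δ ((lam : K) * (∏ i, (x - (D.a i : K))) * (∏ j, (y - D.b j x))) /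
      ((lam : K) * (∏ i, (x - (D.a i : K))) * (∏ j, (y - D.b j x))) = 0 := by
    rw [h.eqn]
    simp
  rw [dlog_mul δ (mul_ne_zero hlam h1) h2, dlog_mul δ hlam h1, dlog_prod, dlog_prod, δ_intCast,
    zero_div, zero_add] at h3
  · exact h3
  · exact fun i _ => fac_ne h i
  · exact fun i _ => xfac_ne h i

/-- `pw * δ y = -R` -/
theorem pw_δy (h : IsCurve ℂ K D lam x y) (δ : Derivation ℂ K K) (hδ : δ x = 1) :
    pw D x y * δ y = -((∑ i, (x - (D.a i : K))⁻¹) - ∑ l, (D.p l : K) * (y - D.b l x)⁻¹) := by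
  have h1 := dlog_eqn h δ
  have h2 : ∀ i : Fin D.m, δ (x - (D.a i : K)) / (x - (D.a i : K)) = (x - (D.a i : K))⁻¹ := by
    intro i
    rw [map_sub, hδ, δ_intCast, sub_zero, one_div]
  have h3 : ∀ l : Fin D.n, δ (y - D.b l x) / (y - D.b l x) =
      (y - D.b l x)⁻¹ * δ y - (D.p l : K) * (y - D.b l x)⁻¹ := by
    intro l
    rw [map_sub, δ_b, hδ, mul_one, div_eq_mul_inv]
    ring
  rw [Finset.sum_congr rfl fun i _ => h2 i, Finset.sum_congr rfl fun l _ => h3 l,
    Finset.sum_sub_distrib, ← Finset.sum_mul] at h1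
  unfold pw
  linear_combination h1

/-- `(y - b_l)⁻¹ ∈ V` if `x ∈ V` -/
theorem fac_inv_mem (h : IsCurve ℂ K D lam x y) (hV : OverC V) (hx : x ∈ V) (l : Fin D.n) :
    (y - D.b l x)⁻¹ ∈ V := by
  rcases V.mem_or_inv_mem (y - D.b l x) with h1 | h1
  · -- then `y ∈ V`, everything is in `V`
    have hy : y ∈ V := by
      have := V.add_mem _ _ h1 (b_mem hV D l hx)
      rwa [sub_add_cancel] at this
    have e : (y - D.b l x)⁻¹ = (lam : K) * (∏ i, (x - (D.a i : K))) *
        ∏ j ∈ Finset.univ.erase l, (y - D.b j x) := by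
      have h2 := h.eqn
      rw [← Finset.mul_prod_erase Finset.univ _ (Finset.mem_univ l)] at h2
      have h3 := fac_ne h l
      field_simp
      linear_combination -h2
    rw [e]
    refine V.mul_mem _ _ (V.mul_mem _ _ (intCast_mem hV _) ?_) ?_
    · exact prod_mem fun i _ => V.sub_mem hx (intCast_mem hV _)
    · exact prod_mem fun i _ => V.sub_mem hy (b_mem hV D i hx)
  · exact h1

end curve

end MP743d1e.Low
end

section
/-!
# UPPER: every regular differential comes from the adjoint space (lattice half)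
-/
set_option autoImplicit false
set_option linter.unusedSectionVars false

namespace MP743d1e

open scoped BigOperators
open Polynomial

namespace Upper

variable {K : Type} [Field K] [Algebra ℂ K]

/-! ### polynomials in `Y` with coefficients in `ℂ[x]` -/

/-- `z = ∑_{r < d} c_r(x) Y^r` -/
def PolD (x Y : K) (d : ℕ) (z : K) : Prop :=
  ∃ c : ℕ → ℂ[X], z = ∑ r ∈ Finset.range d, aeval x (c r) * Y ^ r

theorem PolD.add {x Y : K} {d : ℕ} {z z' : K} (h : PolD x Y d z) (h' : PolD x Y d z') :
    PolD x Y d (z + z') := by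
  obtain ⟨c, rfl⟩ := h
  obtain ⟨c', rfl⟩ := h'
  refine ⟨fun r => c r + c' r, ?_⟩
  rw [← Finset.sum_add_distrib]
  refine Finset.sum_congr rfl fun k _ => ?_
  rw [map_add, add_mul]

theorem PolD.mul {x Y : K} {d : ℕ} {z : K} (h : PolD x Y d z) (p : ℂ[X]) :
    PolD x Y d (aeval x p * z) := by
  obtain ⟨c, rfl⟩ := h
  refine ⟨fun r => p * c r, ?_⟩
  rw [Finset.mul_sum]
  refine Finset.sum_congr rfl fun k _ => ?_
  rw [map_mul, mul_assoc]

theorem PolD.mono {x Y : K} {d d' : ℕ} (hd : d ≤ d') {z : K} (h : PolD x Y d z) :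
    PolD x Y d' z := by
  obtain ⟨c, rfl⟩ := h
  refine ⟨fun r => if r < d then c r else 0, ?_⟩
  rw [← Finset.sum_subset (Finset.range_mono hd)]
  · refine Finset.sum_congr rfl fun k hk => ?_
    beta_reduce
    rw [if_pos (Finset.mem_range.1 hk)]
  · intro r _ hr
    beta_reduce
    rw [if_neg (fun h => hr (Finset.mem_range.2 h)), map_zero, zero_mul]

theorem PolD.const (x Y : K) (p : ℂ[X]) : PolD x Y 1 (aeval x p) :=
  ⟨fun _ => p, by simp⟩

theorem PolD.zero (x Y : K) (d : ℕ) : PolD x Y d 0 :=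
  ⟨fun _ => 0, by simp⟩

theorem PolD.mul_Y {x Y : K} {d : ℕ} {z : K} (h : PolD x Y d z) : PolD x Y (d + 1) (z * Y) := by
  obtain ⟨c, rfl⟩ := h
  refine ⟨fun r => c (r - 1) * (if r = 0 then 0 else 1), ?_⟩
  rw [Finset.sum_range_succ']
  simp only [Nat.add_sub_cancel, if_neg (Nat.succ_ne_zero _), mul_one, if_true, mul_zero, map_zero,
    zero_mul, add_zero]
  rw [Finset.sum_mul]
  refine Finset.sum_congr rfl fun k _ => ?_
  rw [pow_succ, mul_assoc]

theorem PolD.sum {x Y : K} {d : ℕ} {ι : Type} (s : Finset ι) (f : ι → K)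
    (h : ∀ i ∈ s, PolD x Y d (f i)) : PolD x Y d (∑ i ∈ s, f i) := by
  classical
  induction s using Finset.induction_on with
  | empty => simpa using PolD.zero x Y d
  | insert a s ha ih =>
    rw [Finset.sum_insert ha]
    exact PolD.add (h a (Finset.mem_insert_self a s))
      (ih fun i hi => h i (Finset.mem_insert_of_mem hi))

/-! ### Euler's formula -/

theorem minpoly_eq {F L : Type} [Field F] [Field L] [Algebra F L] [FiniteDimensional F L]
    {Y : L} {G : F[X]} (hG : G.Monic) (hdeg : G.natDegree = Module.finrank F L)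
    (h0 : aeval Y G = 0) (hgen : IntermediateField.adjoin F {Y} = ⊤) : minpoly F Y = G := by
  have hint : IsIntegral F Y := Algebra.IsIntegral.isIntegral Y
  have h1 : (minpoly F Y).natDegree = Module.finrank F L := by
    rw [← IntermediateField.adjoin.finrank hint, hgen, IntermediateField.finrank_top']
  symm
  exact Polynomial.eq_of_monic_of_dvd_of_natDegree_le (minpoly.monic hint) hG
    (minpoly.dvd F Y h0) (by rw [h1, hdeg])

/-- Euler's formula. -/
theorem euler {F L : Type} [Field F] [Field L] [Algebra F L] [FiniteDimensional F L]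
    [Algebra.IsSeparable F L] {Y : L} (hgen : IntermediateField.adjoin F {Y} = ⊤) (f : L) :
    f * aeval Y (derivative (minpoly F Y)) =
      ∑ i ∈ Finset.range (minpoly F Y).natDegree,
        algebraMap F L (Algebra.trace F L (f * Y ^ i)) * (minpolyDiv F Y).coeff i := by
  classical
  have hint : IsIntegral F Y := Algebra.IsIntegral.isIntegral Y
  have halg : Algebra.adjoin F {Y} = ⊤ := by
    have := IntermediateField.adjoin_simple_toSubalgebra_of_isAlgebraic hint.isAlgebraic
    rw [← this, hgen]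
    rfl
  obtain ⟨pb, hpb⟩ : ∃ pb : PowerBasis F L, pb.gen = Y := by
    refine ⟨(Algebra.adjoin.powerBasis' hint).map
      ((Subalgebra.equivOfEq _ _ halg).trans (Subalgebra.topEquiv)), ?_⟩
    simp
  have hd : aeval Y (derivative (minpoly F Y)) ≠ 0 :=
    (Algebra.IsSeparable.isSeparable F Y).aeval_derivative_ne_zero (minpoly.aeval _ _)
  have h1 := pb.basis.traceDual.sum_repr f
  have h2 : ∀ i : Fin pb.dim, (pb.basis.traceDual).repr f i • pb.basis.traceDual i =
      (algebraMap F L (Algebra.trace F L (f * Y ^ (i : ℕ))) * (minpolyDiv F Y).coeff i) /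
        aeval Y (derivative (minpoly F Y)) := by
    intro i
    rw [Module.Basis.traceDual_repr_apply, Module.Basis.traceDual_powerBasis_eq, hpb,
      Algebra.smul_def, Algebra.traceForm_apply, PowerBasis.coe_basis, hpb, mul_div_assoc]
  rw [Finset.sum_congr rfl fun i _ => h2 i, ← Finset.sum_div, div_eq_iff hd] at h1
  rw [← h1, ← hpb, pb.natDegree_minpoly, hpb, Finset.sum_range]

/-- the coefficients of `minpolyDiv` -/
theorem polD_coeff {x : K} [FiniteDimensional (Ct x) K] {Y : K}
    (hco : ∀ i, ∃ p : ℂ[X], algebraMap (Ct x) K ((minpoly (Ct x) Y).coeff i) = aeval x p)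
    (k : ℕ) (hk : k ≤ (minpoly (Ct x) Y).natDegree) :
    PolD x Y k ((minpolyDiv (Ct x) Y).coeff ((minpoly (Ct x) Y).natDegree - k)) := by
  have hint : IsIntegral (Ct x) Y := Algebra.IsIntegral.isIntegral Y
  induction k with
  | zero =>
    rw [Nat.sub_zero, Polynomial.coeff_eq_zero_of_natDegree_lt (natDegree_minpolyDiv_lt hint)]
    exact PolD.zero x Y 0
  | succ k ih =>
    rw [coeff_minpolyDiv]
    have e : (minpoly (Ct x) Y).natDegree - (k + 1) + 1 = (minpoly (Ct x) Y).natDegree - k := by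
      omega
    rw [e]
    obtain ⟨p, hp⟩ := hco ((minpoly (Ct x) Y).natDegree - k)
    rw [hp]
    exact PolD.add ((PolD.const x Y p).mono (by omega)) ((ih (by omega)).mul_Y)

/-- `f G'(Y) ∈ ∑ ℂ[x] Y^r` -/
theorem polD_main {x : K} [FiniteDimensional (Ct x) K] {Y : K}
    (hgen : IntermediateField.adjoin (Ct x) {Y} = ⊤)
    (hco : ∀ i, ∃ p : ℂ[X], algebraMap (Ct x) K ((minpoly (Ct x) Y).coeff i) = aeval x p)
    (f : K)
    (htr : ∀ i, ∃ p : ℂ[X], algebraMap (Ct x) K (Algebra.trace (Ct x) K (f * Y ^ i)) = aeval x p) :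
    PolD x Y (minpoly (Ct x) Y).natDegree (f * aeval Y (derivative (minpoly (Ct x) Y))) := by
  rw [euler hgen f]
  refine PolD.sum _ _ fun i hi => ?_
  have hi' := Finset.mem_range.1 hi
  obtain ⟨p, hp⟩ := htr i
  rw [hp]
  refine PolD.mul ?_ p
  have := polD_coeff hco ((minpoly (Ct x) Y).natDegree - i) (by omega)
  rw [show (minpoly (Ct x) Y).natDegree - ((minpoly (Ct x) Y).natDegree - i) = i by omega] at this
  exact this.mono (by omega)

/-! ### the lattice -/

section lat

variable {D : Arr} {x y : K}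

theorem inLat_add {q q' : K} (h : InLat D x y q) (h' : InLat D x y q') :
    InLat D x y (q + q') := by
  obtain ⟨c, hc, rfl⟩ := h
  obtain ⟨c', hc', rfl⟩ := h'
  refine ⟨fun k => c k + c' k, fun k hk => dvd_add (hc k hk) (hc' k hk), ?_⟩
  rw [← Finset.sum_add_distrib]
  refine Finset.sum_congr rfl fun k _ => ?_
  rw [map_add, add_mul]

theorem inLat_mul {q : K} (h : InLat D x y q) (p : ℂ[X]) : InLat D x y (aeval x p * q) := by
  obtain ⟨c, hc, rfl⟩ := h
  refine ⟨fun k => p * c k, fun k hk => dvd_mul_of_dvd_right (hc k hk) p, ?_⟩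
  rw [Finset.mul_sum]
  refine Finset.sum_congr rfl fun k _ => ?_
  rw [map_mul, mul_assoc]

theorem inLat_sum {ι : Type} (s : Finset ι) (f : ι → K) (h : ∀ i ∈ s, InLat D x y (f i)) :
    InLat D x y (∑ i ∈ s, f i) := by
  classical
  induction s using Finset.induction_on with
  | empty => exact ⟨fun _ => 0, fun _ _ => dvd_zero _, by simp⟩
  | insert a s ha ih =>
    rw [Finset.sum_insert ha]
    exact inLat_add (h a (Finset.mem_insert_self a s))
      (ih fun i hi => h i (Finset.mem_insert_of_mem hi))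

theorem latD_pow_sub (l : Fin D.n) (k : ℕ) (hk : k < D.n) :
    Forms.LatD D x y k ((y - D.b l x) ^ k) := by
  induction k with
  | zero =>
    have := Forms.latD_zero D x y 1
    simpa using this
  | succ k ih =>
    have h1 := ih (by omega)
    have e : (y - D.b l x) ^ (k + 1) =
        y * (y - D.b l x) ^ k + aeval x (-(Forms.bp D l)) * (y - D.b l x) ^ k := by
      rw [map_neg, Forms.aeval_bp]
      ring
    rw [e]
    exact (h1.mul_y hk).add ((h1.mul _).mono (by omega))

/-- the last line -/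
def jl (D : Arr) : Fin D.n := ⟨D.n - 1, by have := D.hn; omega⟩

theorem nb_last : nb D x y (jl D) = ∏ j ∈ Finset.univ.erase (jl D), (y - D.b j x) := by
  classical
  unfold nb
  refine Finset.prod_congr ?_ fun _ _ => rfl
  ext i
  simp only [Finset.mem_filter, Finset.mem_univ, true_and, Finset.mem_erase, and_true]
  constructor
  · intro h
    exact ne_of_lt h
  · intro h
    have h1 : i.val ≠ D.n - 1 := fun h' => h (Fin.ext h')
    have := i.isLt
    show i.val < D.n - 1
    omega

variable {lam : ℤ}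

/-- `1 / (y - b_last)` -/
theorem inv_last (h : IsCurve ℂ K D lam x y) :
    (y - D.b (jl D) x)⁻¹ = (lam : K) * (∏ i, (x - (D.a i : K))) * nb D x y (jl D) := by
  classical
  have h2 := h.eqn
  rw [← Finset.mul_prod_erase Finset.univ _ (Finset.mem_univ (jl D)), ← nb_last] at h2
  have h3 := Low.fac_ne h (jl D)
  field_simp
  linear_combination -h2

theorem inLat_inv (h : IsCurve ℂ K D lam x y) : InLat D x y (y - D.b (jl D) x)⁻¹ := by
  classical
  rw [inv_last h]
  refine ⟨fun k => if k = jl D then C (lam : ℂ) * ∏ i, (X - C (D.a i : ℂ)) else 0, ?_, ?_⟩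
  · intro k hk
    have : k = jl D := Fin.ext (by show k.val = D.n - 1; omega)
    beta_reduce
    rw [if_pos this]
    exact dvd_mul_left _ _
  · rw [Finset.sum_eq_single (jl D)]
    · beta_reduce
      rw [if_pos rfl, map_mul, map_prod, aeval_C]
      congr 2
      · simp
      · refine Finset.prod_congr rfl fun i _ => ?_
        simp
    · intro k _ hk
      beta_reduce
      rw [if_neg hk, map_zero, zero_mul]
    · intro h
      exact absurd (Finset.mem_univ _) h

/-- `w^(n-2) * ∑ ℂ[x] Y^r ⊆` lattice -/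
theorem inLat_of_polD (h : IsCurve ℂ K D lam x y) {z : K}
    (hz : PolD x (y - D.b (jl D) x)⁻¹ D.n z) :
    InLat D x y ((y - D.b (jl D) x) ^ (D.n - 2) * z) := by
  obtain ⟨c, rfl⟩ := hz
  have hn := D.hn
  have hw := Low.fac_ne h (jl D)
  rw [Finset.mul_sum]
  refine inLat_sum _ _ fun r hr => ?_
  have hr' := Finset.mem_range.1 hr
  rw [← mul_assoc, mul_comm ((y - D.b (jl D) x) ^ (D.n - 2)), mul_assoc]
  refine inLat_mul ?_ _
  by_cases hr2 : r ≤ D.n - 2
  · have e : (y - D.b (jl D) x) ^ (D.n - 2) * ((y - D.b (jl D) x)⁻¹) ^ r =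
        (y - D.b (jl D) x) ^ (D.n - 2 - r) := by
      rw [inv_pow, pow_sub₀ _ hw hr2]
    rw [e]
    exact (latD_pow_sub (jl D) (D.n - 2 - r) (by omega)).inLat (by omega)
  · have e : (y - D.b (jl D) x) ^ (D.n - 2) * ((y - D.b (jl D) x)⁻¹) ^ r =
        (y - D.b (jl D) x)⁻¹ := by
      have : r = D.n - 2 + 1 := by omega
      rw [this, pow_succ, inv_pow, ← mul_assoc, mul_inv_cancel₀ (pow_ne_zero _ hw), one_mul]
    rw [e]
    exact inLat_inv h

end lat

/-! ### the equation of `1 / (y - b_last)` -/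

section eqn

/-- the equation -/
noncomputable def G0 (D : Arr) (lam : ℤ) : ℂ[X][X] :=
  X ^ D.n - C (C (lam : ℂ) * ∏ i, (X - C (D.a i : ℂ))) *
    ∏ j ∈ Finset.univ.erase (jl D), (1 - C (Forms.bp D j - Forms.bp D (jl D)) * X)

theorem natDegree_aux (D : Arr) (lam : ℤ) :
    (C (C (lam : ℂ) * ∏ i, (X - C (D.a i : ℂ))) *
      ∏ j ∈ Finset.univ.erase (jl D),
        (1 - C (Forms.bp D j - Forms.bp D (jl D)) * X) : ℂ[X][X]).natDegree ≤ D.n - 1 := by
  classical
  refine (Polynomial.natDegree_C_mul_le _ _).trans ?_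
  refine (Polynomial.natDegree_prod_le _ _).trans ?_
  refine (Finset.sum_le_card_nsmul _ _ 1 fun j _ => ?_).trans ?_
  · refine (Polynomial.natDegree_sub_le _ _).trans ?_
    rw [Polynomial.natDegree_one]
    refine max_le (by omega) ?_
    exact (Polynomial.natDegree_C_mul_le _ _).trans Polynomial.natDegree_X_le
  · rw [Finset.card_erase_of_mem (Finset.mem_univ _), Finset.card_univ, Fintype.card_fin]
    simp

theorem G0_monic (D : Arr) (lam : ℤ) : (G0 D lam).Monic := by
  have hn := D.hn
  refine Polynomial.Monic.sub_of_left (Polynomial.monic_X_pow _) ?_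
  rw [Polynomial.degree_X_pow]
  refine (Polynomial.degree_le_natDegree.trans (WithBot.coe_le_coe.2 (natDegree_aux D lam))).trans_lt ?_
  exact WithBot.coe_lt_coe.2 (by omega : D.n - 1 < D.n)

theorem G0_natDegree (D : Arr) (lam : ℤ) : (G0 D lam).natDegree = D.n := by
  have hn := D.hn
  unfold G0
  rw [Polynomial.natDegree_sub_eq_left_of_natDegree_lt, Polynomial.natDegree_X_pow]
  rw [Polynomial.natDegree_X_pow]
  exact lt_of_le_of_lt (natDegree_aux D lam) (by omega)

variable {D : Arr} {lam : ℤ} {x y : K}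

/-- evaluation of coefficients -/
noncomputable def ph (x : K) : ℂ[X] →+* K := ((aeval x : ℂ[X] →ₐ[ℂ] K) : ℂ[X] →+* K)

theorem ph_apply (x : K) (p : ℂ[X]) : ph x p = aeval x p := rfl

theorem ph_A (D : Arr) (lam : ℤ) (x : K) : ph x (C (lam : ℂ) * ∏ i, (X - C (D.a i : ℂ))) =
    (lam : K) * ∏ i, (x - (D.a i : K)) := by
  rw [ph_apply, map_mul, map_prod, aeval_C]
  congr 1
  · simp
  · refine Finset.prod_congr rfl fun i _ => ?_
    simp

theorem ph_sub (D : Arr) (j l : Fin D.n) (x : K) :
    ph x (Forms.bp D j - Forms.bp D l) = D.b j x - D.b l x := by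
  rw [ph_apply, map_sub, Forms.aeval_bp, Forms.aeval_bp]

theorem fac_u (h : IsCurve ℂ K D lam x y) (j : Fin D.n) :
    1 - (D.b j x - D.b (jl D) x) * (y - D.b (jl D) x)⁻¹ =
      (y - D.b j x) * (y - D.b (jl D) x)⁻¹ := by
  have := Low.fac_ne h (jl D)
  field_simp
  ring

theorem prod_u (h : IsCurve ℂ K D lam x y) :
    (lam : K) * (∏ i, (x - (D.a i : K))) *
      ∏ j ∈ Finset.univ.erase (jl D), (1 - (D.b j x - D.b (jl D) x) * (y - D.b (jl D) x)⁻¹) =
      ((y - D.b (jl D) x)⁻¹) ^ D.n := by
  classical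
  have hn := D.hn
  have hw := Low.fac_ne h (jl D)
  rw [Finset.prod_congr rfl fun j _ => fac_u h j, Finset.prod_mul_distrib, Finset.prod_const,
    Finset.card_erase_of_mem (Finset.mem_univ _), Finset.card_univ, Fintype.card_fin, ← nb_last,
    ← mul_assoc, ← inv_last h]
  conv_rhs => rw [show D.n = D.n - 1 + 1 by omega, pow_succ]
  rw [mul_comm]

theorem eval_G0 (h : IsCurve ℂ K D lam x y) :
    (G0 D lam).eval₂ (ph x) (y - D.b (jl D) x)⁻¹ = 0 := by
  classical
  unfold G0
  rw [eval₂_sub, eval₂_mul, eval₂_pow, eval₂_X, eval₂_C, ph_A, eval₂_finsetProd]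
  rw [Finset.prod_congr rfl fun j _ => (show
    eval₂ (ph x) (y - D.b (jl D) x)⁻¹ (1 - C (Forms.bp D j - Forms.bp D (jl D)) * X) =
      1 - (D.b j x - D.b (jl D) x) * (y - D.b (jl D) x)⁻¹ by
        rw [eval₂_sub, eval₂_mul, eval₂_X, eval₂_C, eval₂_one, ph_sub])]
  rw [prod_u h, sub_self]

theorem eval_dG0 (h : IsCurve ℂ K D lam x y) :
    (y - D.b (jl D) x) ^ (D.n - 2) *
      (derivative (G0 D lam)).eval₂ (ph x) (y - D.b (jl D) x)⁻¹ = pw D x y := by
  classical
  have hn := D.hn
  have hw := Low.fac_ne h (jl D)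
  set w := y - D.b (jl D) x with hwdef
  have hu : ∀ j, 1 - (D.b j x - D.b (jl D) x) * w⁻¹ ≠ 0 := by
    intro j
    rw [hwdef, fac_u h j]
    exact mul_ne_zero (Low.fac_ne h j) (inv_ne_zero hw)
  unfold G0
  rw [derivative_sub, derivative_X_pow, derivative_C_mul, derivative_prod_finset, eval₂_sub, eval₂_mul,
    eval₂_mul, eval₂_C, eval₂_C, ph_A, eval₂_finsetSum, eval₂_pow, eval₂_X, map_natCast]
  have e1 : ∀ j ∈ Finset.univ.erase (jl D),
      eval₂ (ph x) w⁻¹ ((∏ i ∈ (Finset.univ.erase (jl D)).erase j,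
        (1 - C (Forms.bp D i - Forms.bp D (jl D)) * X)) *
          derivative (1 - C (Forms.bp D j - Forms.bp D (jl D)) * X)) =
      -((∏ i ∈ Finset.univ.erase (jl D), (1 - (D.b i x - D.b (jl D) x) * w⁻¹)) *
        ((1 - (D.b j x - D.b (jl D) x) * w⁻¹)⁻¹ * (D.b j x - D.b (jl D) x))) := by
    intro j hj
    rw [eval₂_mul, eval₂_finsetProd, derivative_sub, derivative_one, derivative_C_mul,
      derivative_X, mul_one, zero_sub, eval₂_neg, eval₂_C, ph_sub]
    rw [Finset.prod_congr rfl fun i _ => (show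
      eval₂ (ph x) w⁻¹ (1 - C (Forms.bp D i - Forms.bp D (jl D)) * X) =
        1 - (D.b i x - D.b (jl D) x) * w⁻¹ by
          rw [eval₂_sub, eval₂_mul, eval₂_X, eval₂_C, eval₂_one, ph_sub])]
    rw [← Finset.mul_prod_erase (Finset.univ.erase (jl D)) _ hj]
    have huj := hu j
    generalize (∏ i ∈ (Finset.univ.erase (jl D)).erase j,
      (1 - (D.b i x - D.b (jl D) x) * w⁻¹)) = P
    have e3 : (1 - (D.b j x - D.b (jl D) x) * w⁻¹) *
        (1 - (D.b j x - D.b (jl D) x) * w⁻¹)⁻¹ = 1 := mul_inv_cancel₀ huj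
    linear_combination (P * (D.b j x - D.b (jl D) x)) * e3
  rw [Finset.sum_congr rfl e1, Finset.sum_neg_distrib, ← Finset.mul_sum, mul_neg, sub_neg_eq_add,
    ← mul_assoc, prod_u h]
  have e2 : ∀ j ∈ Finset.univ.erase (jl D),
      (1 - (D.b j x - D.b (jl D) x) * w⁻¹)⁻¹ * (D.b j x - D.b (jl D) x) =
        w ^ 2 * (y - D.b j x)⁻¹ - w := by
    intro j _
    rw [hwdef, fac_u h j]
    have h1 := Low.fac_ne h j
    rw [← hwdef]
    field_simp
    rw [hwdef]
    ring
  rw [Finset.sum_congr rfl e2, Finset.sum_sub_distrib, Finset.sum_const,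
    Finset.card_erase_of_mem (Finset.mem_univ _), Finset.card_univ, Fintype.card_fin,
    ← Finset.mul_sum, nsmul_eq_mul]
  unfold pw
  rw [← Finset.add_sum_erase Finset.univ _ (Finset.mem_univ (jl D)), ← hwdef]
  obtain ⟨m, hm⟩ : ∃ m, D.n = m + 2 := ⟨D.n - 2, by omega⟩
  generalize (∑ i ∈ Finset.univ.erase (jl D), (y - D.b i x)⁻¹) = S
  rw [hm]
  simp only [Nat.add_sub_cancel, show m + 2 - 1 = m + 1 by omega]
  push_cast
  have hwm : w ^ m ≠ 0 := pow_ne_zero _ hw
  rw [inv_pow, inv_pow, pow_succ w (m + 1), pow_succ w m]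
  field_simp
  ring

end eqn

end Upper

/-- UPPER, lattice half -/
theorem upperLat (hTrace : SpecTrace) (hIrr : SpecIrr) (K : Type) [Field K] [Algebra ℂ K]
    (D : Arr) (lam : ℤ) (x y : K) (δ : Derivation ℂ K K) (h : IsCurve ℂ K D lam x y)
    (hδ : δ x = 1) (f : K) (hf : Reg δ f) : InLat D x y (f * pw D x y) := by
  classical
  obtain ⟨-, hI⟩ := hIrr ℂ D lam (Low.lam_ne h)
  obtain ⟨-, hfin, hrank⟩ := hI K x y h
  have : FiniteDimensional (Ct x) K := hfin
  have : CharZero K := charZero_of_injective_algebraMap (algebraMap ℂ K).injective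
  have : CharZero (Ct x) := charZero_of_injective_algebraMap (algebraMap ℂ (Ct x)).injective
  have hw := Low.fac_ne h (Upper.jl D)
  set Y : K := (y - D.b (Upper.jl D) x)⁻¹ with hY
  -- the generator
  set gx : Ct x := IntermediateField.AdjoinSimple.gen ℂ x with hgx
  have hgx' : algebraMap (Ct x) K gx = x := IntermediateField.AdjoinSimple.algebraMap_gen ℂ x
  set ψ : ℂ[X] →+* Ct x := ((aeval gx : ℂ[X] →ₐ[ℂ] Ct x) : ℂ[X] →+* Ct x) with hψ
  have hcomp : (algebraMap (Ct x) K).comp ψ = Upper.ph x := by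
    ext p
    · simp [hψ, Upper.ph]
    · simp [hψ, Upper.ph, hgx']
  have hgen : IntermediateField.adjoin (Ct x) {Y} = ⊤ := by
    rw [eq_top_iff]
    have h1 : (IntermediateField.adjoin ℂ {x, y} : IntermediateField ℂ K) ≤
        (IntermediateField.adjoin (Ct x) {Y}).restrictScalars ℂ := by
      rw [IntermediateField.adjoin_le_iff]
      have hx : x ∈ IntermediateField.adjoin (Ct x) {Y} := by
        rw [← hgx']
        exact IntermediateField.algebraMap_mem _ _
      have hYm : Y ∈ IntermediateField.adjoin (Ct x) {Y} :=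
        IntermediateField.mem_adjoin_simple_self _ _
      have hb : D.b (Upper.jl D) x ∈ IntermediateField.adjoin (Ct x) {Y} := by
        unfold Arr.b
        exact add_mem (mul_mem (intCast_mem _ _) hx) (intCast_mem _ _)
      rintro z (rfl | rfl)
      · exact hx
      · have h2 := add_mem (inv_mem hYm) hb
        rw [hY, inv_inv, sub_add_cancel] at h2
        exact h2
    rw [h.gen] at h1
    intro z _
    exact h1 (IntermediateField.mem_top)
  have hmin : minpoly (Ct x) Y = (Upper.G0 D lam).map ψ := by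
    refine Upper.minpoly_eq ((Upper.G0_monic D lam).map ψ) ?_ ?_ hgen
    · rw [(Upper.G0_monic D lam).natDegree_map, Upper.G0_natDegree, ← hrank]
    · rw [aeval_def, eval₂_map, hcomp]
      exact Upper.eval_G0 h
  have hnd : (minpoly (Ct x) Y).natDegree = D.n := by
    rw [hmin, (Upper.G0_monic D lam).natDegree_map, Upper.G0_natDegree]
  have hmain := Upper.polD_main (f := f) hgen (by
    intro i
    refine ⟨(Upper.G0 D lam).coeff i, ?_⟩
    rw [hmin, coeff_map]
    exact RingHom.congr_fun hcomp _) (by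
    intro i
    refine (hTrace K x δ h.transc hfin hδ (f * Y ^ i)).1 ?_
    intro V hV hx
    rw [mul_comm]
    exact Low.RegD.mul (pow_mem (Low.fac_inv_mem h hV hx _) i) (hf V hV))
  rw [hnd] at hmain
  have hres := Upper.inLat_of_polD h hmain
  have e : (y - D.b (Upper.jl D) x) ^ (D.n - 2) *
      (f * aeval Y (derivative (minpoly (Ct x) Y))) = f * pw D x y := by
    rw [hmin, derivative_map, aeval_def, eval₂_map, hcomp, ← Upper.eval_dG0 h]
    ring
  rwa [e] at hres

end MP743d1e
end
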