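import Pool.Agent.Lib.MP_743d1e_nt.Spec

/-!
# Assembly of the K2 side
-/

namespace MP743d1e

namespace K2Main

open scoped BigOperators

/-- The index set of the symbols. -/
abbrev Idx (D : Arr) : Type :=
  {z : Fin D.m × Fin D.n // z.1.val ≠ 0 ∧ z.2.val ≠ 0} ⊕
  {z : Fin D.n × Fin D.n // z.1 < z.2 ∧ D.p z.1 ≠ D.p z.2}

/-- The first vertical line. -/
def i0 (D : Arr) : Fin D.m := ⟨0, D.hm⟩

/-- The first line of the second kind. -/
def j0 (D : Arr) : Fin D.n := ⟨0, lt_of_lt_of_le (by norm_num) D.hn⟩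

/-- The centre of the loop, and the zero of the first entry of the symbol. -/
def ctr (D : Arr) : Idx D → ℤ
  | Sum.inl z => D.a z.1.1
  | Sum.inr z => D.r z.1.1 z.1.2

/-- The line of the numerator. -/
def l1 (D : Arr) : Idx D → Fin D.n
  | Sum.inl z => z.1.2
  | Sum.inr z => z.1.1

/-- The line of the denominator. -/
def l2 (D : Arr) : Idx D → Fin D.n
  | Sum.inl _ => j0 D
  | Sum.inr z => z.1.2

theorem card_ne_zero (m : ℕ) (hm : 1 ≤ m) :
    Fintype.card {i : Fin m // i.val ≠ 0} = m - 1 := by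
  obtain ⟨m, rfl⟩ : ∃ k, m = k + 1 := ⟨m - 1, by omega⟩
  have : Fintype.card {i : Fin (m + 1) // i.val ≠ 0} = Fintype.card {i : Fin (m + 1) // i ≠ 0} := by
    apply Fintype.card_congr
    apply Equiv.subtypeEquivRight
    intro x
    rw [not_iff_not, Fin.ext_iff]
    simp
  rw [this, Fintype.card_subtype_compl]
  simp

theorem card_idx (D : Arr) : Fintype.card (Idx D) = D.g := by
  rw [Fintype.card_sum]
  unfold Arr.g Arr.crossings
  congr 1
  · rw [← card_ne_zero D.m D.hm, ← card_ne_zero D.n (le_trans (by norm_num) D.hn),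
      ← Fintype.card_prod]
    apply Fintype.card_congr
    exact {
      toFun := fun z => (⟨z.1.1, z.2.1⟩, ⟨z.1.2, z.2.2⟩)
      invFun := fun z => ⟨(z.1.1, z.2.1), z.1.2, z.2.2⟩
      left_inv := fun z => rfl
      right_inv := fun z => rfl }
  · rw [Fintype.card_subtype]

theorem r_symm (D : Arr) {j l : Fin D.n} (h : D.p j ≠ D.p l) : D.r j l = D.r l j := by
  have h1 := D.cross j l h
  have h2 := D.cross l j (Ne.symm h)
  have h3 : (D.p j - D.p l) * (D.r j l - D.r l j) = 0 := by linear_combination h1 + h2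
  rcases mul_eq_zero.mp h3 with h4 | h4
  · exact absurd (sub_eq_zero.mp h4) h
  · exact sub_eq_zero.mp h4

theorem leading_aux {A B E F G : Prop} [Decidable A] [Decidable B] [Decidable E] [Decidable F]
    [Decidable G] (hF : ¬ F) (hB : ¬ (B ∧ E)) (h : (A ∧ E) ↔ G) :
    ((if A then (1 : ℝ) else 0) - (if B then 1 else 0)) *
      ((if E then (1 : ℝ) else 0) - (if F then 1 else 0)) = if G then 1 else 0 := by
  by_cases hA : A <;> by_cases hB' : B <;> by_cases hE : E <;> by_cases hG : G <;>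
    simp_all

/-- The leading coefficient matrix is the identity. -/
theorem leading (D : Arr) (i k : Idx D) :
    ((if l1 D i = l1 D k then (1 : ℝ) else 0) - (if l2 D i = l1 D k then 1 else 0)) *
      ((if ctr D i = ctr D k then (1 : ℝ) else 0) - (if D.a (i0 D) = ctr D k then 1 else 0)) =
    if i = k then 1 else 0 := by
  apply leading_aux
  · rcases k with ⟨⟨i', j'⟩, hi', hj'⟩ | ⟨⟨j', l'⟩, hjl', hp'⟩
    · intro h
      apply hi'
      have : i0 D = i' := D.a_inj h
      rw [← this]; rfl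
    · intro h
      exact D.cross_a j' l' (i0 D) hp' h.symm
  · rintro ⟨h1, h2⟩
    rcases i with ⟨⟨i, j⟩, hi, hj⟩ | ⟨⟨j, l⟩, hjl, hp⟩ <;>
    rcases k with ⟨⟨i', j'⟩, hi', hj'⟩ | ⟨⟨j', l'⟩, hjl', hp'⟩
    · have h1' : j0 D = j' := h1
      apply hj'; rw [← h1']; rfl
    · exact D.cross_a j' l' i hp' (Eq.symm h2)
    · exact D.cross_a j l i' hp h2
    · have h1' : l = j' := h1
      have h2' : D.r j l = D.r j' l' := h2
      have hp1 : D.p j ≠ D.p l := hp
      have hp2 : D.p j' ≠ D.p l' := hp'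
      have hjl1 : j < l := hjl
      have hjl2 : j' < l' := hjl'
      subst h1'
      have h4 : j = l' := by
        by_contra hne
        exact D.no_triple l j l' (Ne.symm hp1) hp2 hne (by rw [← r_symm D hp1]; exact h2')
      subst h4
      exact absurd hjl1 (not_lt.mpr hjl2.le)
  · constructor
    · rintro ⟨h1, h2⟩
      rcases i with ⟨⟨i, j⟩, hi, hj⟩ | ⟨⟨j, l⟩, hjl, hp⟩ <;>
      rcases k with ⟨⟨i', j'⟩, hi', hj'⟩ | ⟨⟨j', l'⟩, hjl', hp'⟩
      · have h1' : j = j' := h1
        have h2' : i = i' := D.a_inj h2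
        subst h1'; subst h2'; rfl
      · exact (D.cross_a j' l' i hp' (Eq.symm h2)).elim
      · exact (D.cross_a j l i' hp h2).elim
      · have h1' : j = j' := h1
        have h2' : D.r j l = D.r j' l' := h2
        have hp1 : D.p j ≠ D.p l := hp
        have hp2 : D.p j' ≠ D.p l' := hp'
        subst h1'
        have h4 : l = l' := by
          by_contra hne
          exact D.no_triple j l l' hp1 hp2 hne h2'
        subst h4; rfl
    · rintro rfl
      exact ⟨rfl, rfl⟩

/-- Diagonally dominant matrices. -/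
theorem det_ne {N : ℕ} {C τ : ℝ} (hτ : (N : ℝ) * C < τ) (M : Matrix (Fin N) (Fin N) ℝ)
    (h : ∀ i k, |M i k - (if i = k then τ else 0)| ≤ C) : M.det ≠ 0 := by
  apply det_ne_zero_of_sum_row_lt_diag
  intro k
  have h1 : ∑ j ∈ Finset.univ.erase k, ‖M k j‖ ≤ ∑ j ∈ Finset.univ.erase k, C := by
    apply Finset.sum_le_sum
    intro j hj
    have := h k j
    rw [if_neg (Finset.ne_of_mem_erase hj).symm, sub_zero] at this
    exact this
  have h2 : ∑ j ∈ Finset.univ.erase k, C = ((N : ℝ) - 1) * C := by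
    rw [Finset.sum_const, Finset.card_erase_of_mem (Finset.mem_univ k), Finset.card_univ,
      Fintype.card_fin, nsmul_eq_mul]
    have : 1 ≤ N := by
      have := k.2
      omega
    push_cast [Nat.cast_sub this]
    ring
  have h3 : τ - C ≤ ‖M k k‖ := by
    have := h k k
    rw [if_pos rfl] at this
    have h4 := abs_sub_abs_le_abs_sub τ (M k k)
    rw [abs_sub_comm] at this
    have h5 : τ ≤ |τ| := le_abs_self τ
    rw [Real.norm_eq_abs]
    linarith
  have h4 : ((N : ℝ) - 1) * C < τ - C := by linarith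
  linarith

section Curve

variable {K : Type} [Field K] [Algebra ℚ K] {D : Arr} {lam : ℤ} {x y : K}

theorem lam_ne (h : IsCurve ℚ K D lam x y) : lam ≠ 0 := by
  rintro rfl
  have := h.eqn
  simp at this

theorem line_ne (h : IsCurve ℚ K D lam x y) (l : Fin D.n) : y - D.b l x ≠ 0 := by
  intro h0
  have := h.eqn
  rw [Finset.prod_eq_zero (Finset.mem_univ l) h0, mul_zero] at this
  exact zero_ne_one this

theorem int_ne (h : IsCurve ℚ K D lam x y) (s : ℤ) : x - (s : K) ≠ 0 := by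
  intro h0
  apply h.transc
  have : x = algebraMap ℚ K (s : ℚ) := by
    rw [map_intCast]; exact sub_eq_zero.mp h0
  rw [this]
  exact isAlgebraic_algebraMap _

/-- The first entry of the symbols. -/
noncomputable def uu (h : IsCurve ℚ K D lam x y) (i : Idx D) : Kˣ :=
  Units.mk0 ((x - (ctr D i : K)) / (x - (D.a (i0 D) : K))) (div_ne_zero (int_ne h _) (int_ne h _))

/-- The second entry of the symbols. -/
noncomputable def ww (h : IsCurve ℚ K D lam x y) (i : Idx D) : Kˣ :=
  Units.mk0 ((y - D.b (l1 D i) x) / (y - D.b (l2 D i) x)) (div_ne_zero (line_ne h _) (line_ne h _))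

theorem tame_zero (hI : SpecInteg) (h : IsCurve ℚ K D lam x y) (i : Idx D) (v : DVal K) :
    tame v (sym (uu h i) (ww h i)) = 0 := by
  obtain ⟨h1, h2⟩ := hI K D lam x y h v
  have e2 : (ww h i : K) * (y - D.b (l2 D i) x) = y - D.b (l1 D i) x :=
    div_mul_cancel₀ _ (line_ne h _)
  have e1 : (uu h i : K) * (x - (D.a (i0 D) : K)) = x - (ctr D i : K) :=
    div_mul_cancel₀ _ (int_ne h _)
  rcases i with ⟨⟨i, j⟩, hi, hj⟩ | ⟨⟨j, l⟩, hjl, hp⟩
  · exact h1 _ _ i (i0 D) _ _ e1 e2
  · exact h2 _ _ (i0 D) j l hp e1 e2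

end Curve

theorem map_b {K : Type} [Field K] (D : Arr) (φ : K →+* ℂ) (x : K) (l : Fin D.n) :
    φ (D.b l x) = D.b l (φ x) := by
  simp [Arr.b]

theorem periodic_circ (c : ℤ) (ρ θ : ℝ) : circ c ρ (θ + 2 * Real.pi) = circ c ρ θ := by
  unfold circ
  congr 2
  rw [Complex.exp_eq_exp_iff_exists_int]
  refine ⟨1, ?_⟩
  push_cast
  ring

theorem smooth_circ (c : ℤ) (ρ : ℝ) : ContDiff ℝ 1 (circ c ρ) := by
  unfold circ
  have h : ContDiff ℝ 1 (fun θ : ℝ => (θ : ℂ)) := Complex.ofRealCLM.contDiff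
  exact contDiff_const.add (contDiff_const.mul ((h.mul contDiff_const).cexp))

end K2Main

open K2Main in
/-- The K2 side of the project, with explicit symbols. -/
theorem specK2x (hS : SpecStein) (hI : SpecInteg) (hE : SpecEmb) (hT : SpecTrans)
    (hSh : SpecSheet) (hA : SpecAsym) (D : Arr) : ∃ (C : ℝ) (L : ℕ), ∀ lam : ℤ, L ≤ lam.natAbs →
    ∀ (K : Type) [Field K] [Algebra ℚ K] (x y : K) (hc : IsCurve ℚ K D lam x y),
      ∃ (e : Fin D.g ≃ Idx D) (γ : Fin D.g → Loop K) (ρ : Fin D.g → (K2 K →+ ℝ)),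
        (∀ i, ∀ v : DVal K, tame v (sym (uu hc (e i)) (ww hc (e i))) = 0) ∧
        (∀ k, ∀ f h : Kˣ, ρ k (sym f h) =
          regInt (fun θ => (γ k).ev θ (f : K)) (fun θ => (γ k).ev θ (h : K))) ∧
        (∀ i k, |ρ k (sym (uu hc (e i)) (ww hc (e i))) -
          (if i = k then 2 * Real.pi * Real.log |(lam : ℝ)| else 0)| ≤ C) ∧
        (Matrix.of fun i k => ρ k (sym (uu hc (e i)) (ww hc (e i)))).det ≠ 0 := by
  obtain ⟨r, hr0, hr1, hr⟩ := hT
  -- constants
  choose C1 L1 hY using fun k : Idx D => hSh D (l1 D k) (ctr D k) r hr0 hr1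
  choose C2 L2 hM using fun i k : Idx D =>
    hA D (l1 D k) (ctr D k) r (C1 k) hr0 hr1 (ctr D i) (i0 D) (l1 D i) (l2 D i)
  set C : ℝ := ∑ i, ∑ k, |C2 i k| with hC
  have hCle : ∀ i k, C2 i k ≤ C := fun i k =>
    calc C2 i k ≤ |C2 i k| := le_abs_self _
      _ ≤ ∑ k, |C2 i k| := Finset.single_le_sum (f := fun k => |C2 i k|)
          (fun _ _ => abs_nonneg _) (Finset.mem_univ k)
      _ ≤ C := Finset.single_le_sum (f := fun i => ∑ k, |C2 i k|)
          (fun _ _ => Finset.sum_nonneg fun _ _ => abs_nonneg _) (Finset.mem_univ i)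
  -- the bound on lam
  set L' : ℝ := ∑ k, |L1 k| + ∑ i, ∑ k, |L2 i k| + Real.exp (D.g * C + 1) with hL'
  have hle1 : ∀ k, L1 k ≤ L' := fun k => by
    have h1 : L1 k ≤ ∑ k, |L1 k| := le_trans (le_abs_self _)
      (Finset.single_le_sum (f := fun k => |L1 k|) (fun _ _ => abs_nonneg _) (Finset.mem_univ k))
    have h2 : 0 ≤ ∑ i, ∑ k, |L2 i k| :=
      Finset.sum_nonneg fun _ _ => Finset.sum_nonneg fun _ _ => abs_nonneg _
    have h3 := Real.exp_pos (D.g * C + 1)
    rw [hL']; linarith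
  have hle2 : ∀ i k, L2 i k ≤ L' := fun i k => by
    have h1 : L2 i k ≤ ∑ i, ∑ k, |L2 i k| :=
      calc L2 i k ≤ |L2 i k| := le_abs_self _
        _ ≤ ∑ k, |L2 i k| := Finset.single_le_sum (f := fun k => |L2 i k|)
          (fun _ _ => abs_nonneg _) (Finset.mem_univ k)
        _ ≤ _ := Finset.single_le_sum (f := fun i => ∑ k, |L2 i k|)
          (fun _ _ => Finset.sum_nonneg fun _ _ => abs_nonneg _) (Finset.mem_univ i)
    have h2 : 0 ≤ ∑ k, |L1 k| := Finset.sum_nonneg fun _ _ => abs_nonneg _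
    have h3 := Real.exp_pos (D.g * C + 1)
    rw [hL']; linarith
  have hle3 : Real.exp (D.g * C + 1) ≤ L' := by
    have h1 : 0 ≤ ∑ k, |L1 k| := Finset.sum_nonneg fun _ _ => abs_nonneg _
    have h2 : 0 ≤ ∑ i, ∑ k, |L2 i k| :=
      Finset.sum_nonneg fun _ _ => Finset.sum_nonneg fun _ _ => abs_nonneg _
    rw [hL']; linarith
  refine ⟨C, ⌈L'⌉₊, ?_⟩
  intro lam hlam K _ _ x y hc
  have habs : L' ≤ |(lam : ℝ)| := by
    calc L' ≤ (⌈L'⌉₊ : ℝ) := Nat.le_ceil _
      _ ≤ (lam.natAbs : ℝ) := by exact_mod_cast hlam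
      _ = |(lam : ℝ)| := by rw [Nat.cast_natAbs, Int.cast_abs]
  choose Y hYs using fun k : Idx D => hY k lam (le_trans (hle1 k) habs)
  choose γ hγ using fun k : Idx D => hE K D lam x y hc (circ (ctr D k) r) (Y k)
    (smooth_circ _ _) (hYs k).smooth (periodic_circ _ _) (hYs k).periodic
    (fun θ => hr _ θ) (hYs k).eqn
  choose ρ hρ using fun k : Idx D => hS K (γ k)
  let e : Fin D.g ≃ Idx D := (Fintype.equivFinOfCardEq (card_idx D)).symm
  have key : ∀ i k : Idx D, |ρ k (sym (uu hc i) (ww hc i)) -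
      (if i = k then 2 * Real.pi * Real.log |(lam : ℝ)| else 0)| ≤ C := by
    intro i k
    rw [hρ k]
    have h1 := hM i k lam (le_trans (hle2 i k) habs) (Y k) (hYs k)
    have e1 : (fun θ => (γ k).ev θ (uu hc i : K)) =
        fun θ => (circ (ctr D k) r θ - (ctr D i : ℂ)) / (circ (ctr D k) r θ - (D.a (i0 D) : ℂ)) := by
      funext θ
      show (γ k).ev θ ((x - (ctr D i : K)) / (x - (D.a (i0 D) : K))) = _
      rw [map_div₀, map_sub, map_sub, map_intCast, map_intCast, (hγ k θ).1]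
    have e2 : (fun θ => (γ k).ev θ (ww hc i : K)) =
        fun θ => (Y k θ - D.b (l1 D i) (circ (ctr D k) r θ)) /
          (Y k θ - D.b (l2 D i) (circ (ctr D k) r θ)) := by
      funext θ
      show (γ k).ev θ ((y - D.b (l1 D i) x) / (y - D.b (l2 D i) x)) = _
      rw [map_div₀, map_sub, map_sub, map_b, map_b, (hγ k θ).1, (hγ k θ).2]
    rw [e1, e2]
    have e3 := leading D i k
    rw [mul_assoc, e3] at h1
    have e4 : 2 * Real.pi * Real.log |(lam : ℝ)| * (if i = k then (1 : ℝ) else 0) =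
        if i = k then 2 * Real.pi * Real.log |(lam : ℝ)| else 0 := by
      split_ifs <;> simp
    rw [e4] at h1
    exact le_trans h1 (hCle i k)
  refine ⟨e, fun k => γ (e k), fun k => ρ (e k), ?_, ?_, ?_, ?_⟩
  · intro i v
    exact tame_zero hI hc (e i) v
  · intro k f h
    exact hρ (e k) f h
  · intro i k
    have := key (e i) (e k)
    simp only [e.injective.eq_iff] at this
    exact this
  · apply det_ne (C := C) (τ := 2 * Real.pi * Real.log |(lam : ℝ)|)
    · have h1 : D.g * C + 1 ≤ Real.log |(lam : ℝ)| := by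
        rw [← Real.log_exp (D.g * C + 1)]
        apply Real.log_le_log (Real.exp_pos _)
        exact le_trans hle3 habs
      have h0 : 0 ≤ (D.g : ℝ) * C := by
        apply mul_nonneg (Nat.cast_nonneg _)
        exact Finset.sum_nonneg fun _ _ => Finset.sum_nonneg fun _ _ => abs_nonneg _
      have h2 : (1 : ℝ) ≤ 2 * Real.pi := by
        have := Real.pi_gt_three; linarith
      nlinarith
    · intro i k
      have := key (e i) (e k)
      simp only [e.injective.eq_iff] at this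
      simpa using this

open K2Main in
/-- The K2 side of the project. -/
theorem specK2 (hS : SpecStein) (hI : SpecInteg) (hE : SpecEmb) (hT : SpecTrans)
    (hSh : SpecSheet) (hA : SpecAsym) : SpecK2 := by
  intro D
  obtain ⟨C, L, h⟩ := specK2x hS hI hE hT hSh hA D
  refine ⟨C, L, fun lam hlam K _ _ x y hc => ?_⟩
  obtain ⟨e, γ, ρ, h1, h2, h3, h4⟩ := h lam hlam K x y hc
  exact ⟨fun i => sym (uu hc (e i)) (ww hc (e i)), γ, ρ, h1, h2, h3, h4⟩

end MP743d1e
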