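import Pool.Agent.Lib.MP_743d1e_nt.Spec

/-!
# GONABS: gonality bound from regular differentials
-/

namespace MP743d1e

open Polynomial

namespace GonAbs

section Filt

variable {F K : Type} [Field F] [Field K] [Algebra F K] (x y : K)

/-- the span of the monomials of degree at most `n` -/
def V (F : Type) [Field F] [Algebra F K] (x y : K) (n : ℕ) : Submodule F K :=
  Submodule.span F {z | ∃ i k : ℕ, i + k ≤ n ∧ z = x ^ i * y ^ k}

theorem V_mono (n : ℕ) : V F x y n ≤ V F x y (n + 1) := by
  apply Submodule.span_mono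
  rintro z ⟨i, k, h, rfl⟩
  exact ⟨i, k, by omega, rfl⟩

theorem one_mem (n : ℕ) : (1 : K) ∈ V F x y n :=
  Submodule.subset_span ⟨0, 0, by omega, by simp⟩

theorem eq_top_of_eq (hgen : Algebra.adjoin F {x, y} = ⊤) (n : ℕ)
    (h : V F x y n = V F x y (n + 1)) : V F x y n = ⊤ := by
  have hx : ∀ z ∈ V F x y n, x * z ∈ V F x y n := by
    intro z hz
    induction hz using Submodule.span_induction with
    | mem z hz =>
      obtain ⟨i, k, hik, rfl⟩ := hz
      rw [h]
      exact Submodule.subset_span ⟨i + 1, k, by omega, by ring⟩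
    | zero => rw [mul_zero]; exact Submodule.zero_mem _
    | add a b _ _ ha hb => rw [mul_add]; exact Submodule.add_mem _ ha hb
    | smul c a _ ha => rw [mul_smul_comm]; exact Submodule.smul_mem _ _ ha
  have hy : ∀ z ∈ V F x y n, y * z ∈ V F x y n := by
    intro z hz
    induction hz using Submodule.span_induction with
    | mem z hz =>
      obtain ⟨i, k, hik, rfl⟩ := hz
      rw [h]
      exact Submodule.subset_span ⟨i, k + 1, by omega, by ring⟩
    | zero => rw [mul_zero]; exact Submodule.zero_mem _
    | add a b _ _ ha hb => rw [mul_add]; exact Submodule.add_mem _ ha hb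
    | smul c a _ ha => rw [mul_smul_comm]; exact Submodule.smul_mem _ _ ha
  rw [eq_top_iff]
  intro z hz0
  clear hz0
  have hz : z ∈ Algebra.adjoin F {x, y} := by rw [hgen]; trivial
  have : ∀ v ∈ V F x y n, z * v ∈ V F x y n := by
    induction hz using Algebra.adjoin_induction with
    | mem z hz =>
      rcases hz with rfl | hz
      · exact hx
      · rw [Set.mem_singleton_iff] at hz
        subst hz
        exact hy
    | algebraMap r =>
      intro v hv
      rw [← Algebra.smul_def]
      exact Submodule.smul_mem _ _ hv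
    | add a b _ _ ha hb =>
      intro v hv
      rw [add_mul]
      exact Submodule.add_mem _ (ha v hv) (hb v hv)
    | mul a b _ _ ha hb =>
      intro v hv
      rw [mul_assoc]
      exact ha _ (hb v hv)
  have h1 := this 1 (one_mem x y n)
  rwa [mul_one] at h1

theorem eq_top_or [FiniteDimensional F K] (hgen : Algebra.adjoin F {x, y} = ⊤) (n : ℕ) :
    V F x y n = ⊤ ∨ n + 1 ≤ Module.finrank F (V F x y n) := by
  induction n with
  | zero =>
    right
    rw [zero_add, Nat.one_le_iff_ne_zero]
    intro h0
    rw [Submodule.finrank_eq_zero] at h0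
    have := one_mem (F := F) x y 0
    rw [h0, Submodule.mem_bot] at this
    exact one_ne_zero this
  | succ n ih =>
    rcases ih with h | h
    · left
      rw [eq_top_iff, ← h]
      exact V_mono x y n
    · by_cases he : V F x y n = V F x y (n + 1)
      · left
        rw [← he]
        exact eq_top_of_eq x y hgen n he
      · right
        have := Submodule.finrank_lt_finrank_of_lt (lt_of_le_of_ne (V_mono x y n) he)
        omega

theorem eq_top [FiniteDimensional F K] (hgen : Algebra.adjoin F {x, y} = ⊤) (N : ℕ)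
    (hN : Module.finrank F K ≤ N + 1) : V F x y N = ⊤ := by
  rcases eq_top_or x y hgen N with h | h
  · exact h
  · apply Submodule.eq_top_of_finrank_eq
    have := Submodule.finrank_le (V F x y N)
    omega

end Filt

end GonAbs

/-- GONABS -/
theorem specGonAbs (hDer : SpecDer) (hTrace : SpecTrace) : SpecGonAbs := by
  intro K _ _ x y w δ N hx hxy hδ hw hreg t ht hfin
  by_contra hlt
  push Not at hlt
  have halg : Algebra.IsAlgebraic (Ct t) K := Algebra.IsAlgebraic.of_finite _ _
  obtain ⟨⟨δ₁, hδ₁⟩, huniq⟩ := hDer K t ht halg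
  have hδf : ∀ f : K, δ f = δ t * δ₁ f := huniq K (AlgHom.id ℂ K) δ₁ δ hδ₁
  have h1 : δ t * δ₁ x = 1 := by rw [← hδf, hδ]
  have hx1 : δ₁ x ≠ 0 := right_ne_zero_of_mul_eq_one h1
  -- regularity for `δ₁`
  have hreg1 : ∀ f, Reg δ f → Reg δ₁ (f * δ₁ x) := by
    intro f hf V hV
    have := hf V hV
    unfold RegD at this ⊢
    have h2 := AddSubgroup.mem_map_of_mem (AddMonoidHom.mulRight (δ₁ x)) this
    rw [AddMonoidHom.map_closure] at h2
    refine AddSubgroup.closure_mono ?_ h2
    rintro _ ⟨_, ⟨b, hb, a, ha, rfl⟩, rfl⟩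
    refine ⟨b, hb, a, ha, ?_⟩
    rw [AddMonoidHom.coe_mulRight, hδf a]
    linear_combination b * δ₁ a * h1
  have htr : ∀ i k : ℕ, i + k ≤ N →
      Algebra.trace (Ct t) K (x ^ i * y ^ k * (w * δ₁ x)) = 0 := by
    intro i k hik
    have := (hTrace K t δ₁ ht hfin hδ₁ (x ^ i * y ^ k * w * δ₁ x)).2 (hreg1 _ (hreg i k hik))
    rwa [mul_assoc (x ^ i * y ^ k)] at this
  have hgen : Algebra.adjoin (Ct t) {x, y} = ⊤ := by
    have h2 : IntermediateField.adjoin (Ct t) {x, y} = ⊤ := by
      rw [eq_top_iff]
      intro z _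
      have h3 : IntermediateField.adjoin ℂ {x, y} ≤
          (IntermediateField.adjoin (Ct t) {x, y}).restrictScalars ℂ :=
        IntermediateField.adjoin_le_iff.2 (IntermediateField.subset_adjoin (Ct t) {x, y})
      rw [hxy] at h3
      exact h3 (trivial : z ∈ (⊤ : IntermediateField ℂ K))
    rw [← IntermediateField.adjoin_toSubalgebra, h2]
    rfl
  have htop := GonAbs.eq_top x y hgen N (by omega)
  have hall : ∀ z : K, Algebra.trace (Ct t) K (z * (w * δ₁ x)) = 0 := by
    intro z
    have hz : z ∈ GonAbs.V (Ct t) x y N := by rw [htop]; trivial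
    induction hz using Submodule.span_induction with
    | mem z hz =>
      obtain ⟨i, k, hik, rfl⟩ := hz
      exact htr i k hik
    | zero => rw [zero_mul, map_zero]
    | add a b _ _ ha hb => rw [add_mul, map_add, ha, hb, add_zero]
    | smul c a _ ha => rw [smul_mul_assoc, map_smul, ha, smul_zero]
  have h4 := hall (w * δ₁ x)⁻¹
  rw [inv_mul_cancel₀ (mul_ne_zero hw hx1), ← map_one (algebraMap (Ct t) K),
    Algebra.trace_algebraMap, nsmul_eq_mul, mul_one, Nat.cast_eq_zero] at h4
  exact Module.finrank_pos.ne' h4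

end MP743d1e
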