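import Pool.Agent.Lib.MP_743d1e_nt.Spec

section
/-!
# LL: logarithmic derivations do not decrease valuations
-/
namespace MP743d1e

namespace LL

open Polynomial

theorem mem_iff {L : Type} [Field L] (V : ValuationSubring L) (a : L) :
    a ∈ V ↔ V.valuation a ≤ 1 :=
  (V.valuation_le_one_iff a).symm

/-- If a finite sum vanishes, two terms have the same value. -/
theorem exists_eq_of_sum {L : Type} [Field L] (V : ValuationSubring L) {ι : Type} (S : Finset ι)
    (f : ι → L) (h : ∑ i ∈ S, f i = 0) (hne : ∃ i ∈ S, f i ≠ 0) :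
    ∃ i ∈ S, ∃ j ∈ S, i ≠ j ∧ f i ≠ 0 ∧ f j ≠ 0 ∧ V.valuation (f i) = V.valuation (f j) := by
  classical
  obtain ⟨i0, hi0, hfi0⟩ := hne
  obtain ⟨j, hj, hmax⟩ := Finset.exists_max_image S (fun i => V.valuation (f i)) ⟨i0, hi0⟩
  have hfj : V.valuation (f j) ≠ 0 := by
    intro h0
    have := hmax i0 hi0
    rw [h0] at this
    exact (Valuation.ne_zero_iff _).mpr hfi0 (le_antisymm this zero_le)
  by_contra hcon
  push Not at hcon
  have hlt : ∀ i ∈ S \ {j}, V.valuation (f i) < V.valuation (f j) := by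
    intro i hi
    rw [Finset.mem_sdiff, Finset.mem_singleton] at hi
    refine lt_of_le_of_ne (hmax i hi.1) ?_
    intro heq
    refine hcon i hi.1 j hj hi.2 ?_ ((Valuation.ne_zero_iff _).mp hfj) heq
    intro h0
    rw [h0, map_zero] at heq
    exact hfj heq.symm
  have := V.valuation.map_sum_eq_of_lt hj hlt
  rw [h, map_zero] at this
  exact hfj this.symm

theorem frac_form {O E Γ : Type} [CommRing O] [IsDedekindDomain O] [Field E] [Algebra O E]
    [IsFractionRing O E] [LinearOrderedCommGroupWithZero Γ] (w : Valuation E Γ)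
    (hw : ∀ b : O, w (algebraMap O E b) ≤ 1)
    (hnt : ∃ b : O, b ≠ 0 ∧ w (algebraMap O E b) < 1) (u : E) (hu : w u ≤ 1) :
    ∃ b c : O, w (algebraMap O E c) = 1 ∧ u = algebraMap O E b / algebraMap O E c := by
  let P : Ideal O :=
    { carrier := {b | w (algebraMap O E b) < 1}
      add_mem' := by
        intro a b ha hb
        simp only [Set.mem_ofPred_eq] at ha hb ⊢
        rw [map_add]
        exact w.map_add_lt ha hb
      zero_mem' := by simp
      smul_mem' := by
        intro c b hb
        simp only [Set.mem_ofPred_eq] at hb ⊢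
        rw [smul_eq_mul, map_mul, map_mul, mul_comm]
        exact mul_lt_one_of_lt_of_le hb (hw c) }
  have hPmem : ∀ b, b ∈ P ↔ w (algebraMap O E b) < 1 := fun b => Iff.rfl
  have hPc : ∀ b, b ∉ P → w (algebraMap O E b) = 1 := by
    intro b hb
    rw [hPmem, not_lt] at hb
    exact le_antisymm (hw b) hb
  have hPp : P.IsPrime := by
    refine ⟨?_, ?_⟩
    · rw [Ideal.ne_top_iff_one, hPmem]
      simp
    · intro a b hab
      by_contra hcon
      push Not at hcon
      rw [hPmem, map_mul, map_mul, hPc a hcon.1, hPc b hcon.2] at hab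
      simp at hab
  have hP0 : P ≠ ⊥ := by
    obtain ⟨b, hb0, hb⟩ := hnt
    intro h
    have : b ∈ P := hb
    rw [h, Ideal.mem_bot] at this
    exact hb0 this
  have := IsLocalization.AtPrime.isDiscreteValuationRing_of_dedekind_domain O hP0
    (Localization.AtPrime P)
  have hinj : Function.Injective (algebraMap O E) := IsFractionRing.injective O E
  have hinj' : Function.Injective (algebraMap O (Localization.AtPrime P)) :=
    IsLocalization.injective _ (Ideal.primeCompl_le_nonZeroDivisors P)
  obtain ⟨b, c, hc, rfl⟩ := IsFractionRing.div_surjective (A := O) u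
  have hc0 : algebraMap O E c ≠ 0 := by
    intro h
    have : c = 0 := hinj (by rw [h, map_zero])
    subst this
    exact zero_notMem_nonZeroDivisors hc
  have hyne : ∀ y : O, y ∉ P → algebraMap O E y ≠ 0 := by
    intro y hy h
    have := hPc y hy
    rw [h, map_zero] at this
    exact zero_ne_one this
  obtain ⟨z, hz⟩ := ValuationRing.cond (algebraMap O (Localization.AtPrime P) b)
    (algebraMap O (Localization.AtPrime P) c)
  obtain ⟨x, y, rfl⟩ := IsLocalization.exists_mk'_eq P.primeCompl z
  have hy : (y : O) ∉ P := y.2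
  rcases hz with hz | hz
  · have h1 : b * x = c * y := by
      apply hinj'
      rw [map_mul, map_mul, ← hz, mul_assoc, IsLocalization.mk'_spec]
    have h2 : algebraMap O E b * algebraMap O E x = algebraMap O E c * algebraMap O E y := by
      rw [← map_mul, ← map_mul, h1]
    have hx0 : algebraMap O E x ≠ 0 := by
      intro h
      rw [h, mul_zero] at h2
      exact mul_ne_zero hc0 (hyne _ hy) h2.symm
    have h3 : algebraMap O E b / algebraMap O E c = algebraMap O E y / algebraMap O E x := by
      rw [div_eq_div_iff hc0 hx0, h2, mul_comm]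
    refine ⟨y, x, ?_, h3⟩
    rw [h3, map_div₀, hPc _ hy] at hu
    apply le_antisymm (hw x)
    have hx1 : 0 < w (algebraMap O E x) := zero_lt_iff.mpr ((Valuation.ne_zero_iff _).mpr hx0)
    rwa [div_le_one₀ hx1] at hu
  · have h1 : c * x = b * y := by
      apply hinj'
      rw [map_mul, map_mul, ← hz, mul_assoc, IsLocalization.mk'_spec]
    have h2 : algebraMap O E c * algebraMap O E x = algebraMap O E b * algebraMap O E y := by
      rw [← map_mul, ← map_mul, h1]
    refine ⟨x, y, hPc _ hy, ?_⟩
    rw [div_eq_div_iff hc0 (hyne _ hy), ← h2, mul_comm]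


theorem v_le_one_of_integral {A L Γ : Type} [CommRing A] [Field L] [Algebra A L]
    [LinearOrderedCommGroupWithZero Γ] (v : Valuation L Γ)
    (hA : ∀ a : A, v (algebraMap A L a) ≤ 1) {b : L} (hb : IsIntegral A b) : v b ≤ 1 := by
  obtain ⟨f, hm, hf⟩ := hb
  by_contra hcon
  push Not at hcon
  rw [eval₂_eq_sum_range, Finset.sum_range_succ, hm.coeff_natDegree, map_one, one_mul,
    add_eq_zero_iff_eq_neg] at hf
  apply_fun v at hf
  rw [Valuation.map_neg, map_pow] at hf
  refine absurd hf (ne_of_lt (v.map_sum_lt ?_ ?_))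
  · exact pow_ne_zero _ (zero_lt_one.trans hcon).ne'
  · intro i hi
    rw [Finset.mem_range] at hi
    rw [map_mul, map_pow]
    exact mul_lt_of_le_one_of_lt (hA _) (pow_lt_pow_right₀ hcon hi)

variable {L : Type} [Field L] [Algebra ℂ L]

omit [Algebra ℂ L] in
theorem inM_iff (V : ValuationSubring L) (a : L) : InM V a ↔ V.valuation a < 1 := by
  unfold InM
  by_cases ha : a = 0
  · subst ha
    simp
  · have hv : V.valuation a ≠ 0 := (Valuation.ne_zero_iff _).mpr ha
    rw [mem_iff, map_inv₀, not_le]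
    constructor
    · rintro (h | h)
      · exact absurd h ha
      · exact (one_lt_inv₀ (zero_lt_iff.mpr hv)).mp h
    · intro h
      exact Or.inr ((one_lt_inv₀ (zero_lt_iff.mpr hv)).mpr h)

/-- Constants are units. -/
theorem v_const {V : ValuationSubring L} (hV : OverC V) {c : ℂ} (hc : c ≠ 0) :
    V.valuation (algebraMap ℂ L c) = 1 := by
  apply le_antisymm
  · exact (mem_iff V _).mp (hV c)
  · have h := (mem_iff V _).mp (hV c⁻¹)
    have h0 : V.valuation (algebraMap ℂ L c) * V.valuation (algebraMap ℂ L c⁻¹) = 1 := by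
      rw [← map_mul, ← map_mul, mul_inv_cancel₀ hc, map_one, map_one]
    calc (1 : V.ValueGroup) = V.valuation (algebraMap ℂ L c) * V.valuation (algebraMap ℂ L c⁻¹) :=
          h0.symm
      _ ≤ V.valuation (algebraMap ℂ L c) * 1 := mul_le_mul_right h _
      _ = V.valuation (algebraMap ℂ L c) := mul_one _

theorem v_const_le {V : ValuationSubring L} (hV : OverC V) (c : ℂ) :
    V.valuation (algebraMap ℂ L c) ≤ 1 := (mem_iff V _).mp (hV c)

theorem v_aeval_le {V : ValuationSubring L} (hV : OverC V) {s : L} (hs : V.valuation s ≤ 1)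
    (p : ℂ[X]) : V.valuation (aeval s p) ≤ 1 := by
  rw [aeval_eq_sum_range]
  apply V.valuation.map_sum_le
  intro i _
  rw [Algebra.smul_def, map_mul, map_pow]
  exact mul_le_one' (v_const_le hV _) (pow_le_one' hs _)

/-- The value of a nonzero polynomial in `s` is a power of the value of `s`. -/
theorem v_aeval {V : ValuationSubring L} (hV : OverC V) {s : L} (hs : V.valuation s < 1)
    (p : ℂ[X]) (hp : p ≠ 0) : ∃ m : ℕ, V.valuation (aeval s p) = V.valuation s ^ m := by
  induction hn : p.natDegree using Nat.strong_induction_on generalizing p with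
  | _ n ih =>
    by_cases h0 : p.coeff 0 = 0
    · have hX : p = X * p.divX := by
        conv_lhs => rw [← X_mul_divX_add p]
        rw [h0]; simp
      have hp' : p.divX ≠ 0 := by
        intro h
        rw [h, mul_zero] at hX
        exact hp hX
      have hdeg : p.divX.natDegree < n := by
        rw [← hn, natDegree_divX_eq_natDegree_tsub_one]
        have : p.natDegree ≠ 0 := by
          intro h
          rw [natDegree_eq_zero] at h
          obtain ⟨c, rfl⟩ := h
          simp at h0
          simp [h0] at hp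
        omega
      obtain ⟨m, hm⟩ := ih _ hdeg p.divX hp' rfl
      refine ⟨m + 1, ?_⟩
      rw [hX, map_mul, aeval_X, map_mul, hm, pow_succ, mul_comm]
    · refine ⟨0, ?_⟩
      rw [pow_zero]
      conv_lhs => rw [← X_mul_divX_add p]
      rw [map_add, map_mul, aeval_X, aeval_C, Valuation.map_add_eq_of_lt_right]
      · exact v_const hV h0
      · rw [v_const hV h0, map_mul]
        exact mul_lt_one_of_lt_of_le hs (v_aeval_le hV hs.le _)

/-- The value of a nonzero element of `ℂ(s)` is a power of the value of `s`. -/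
theorem v_Ct {V : ValuationSubring L} (hV : OverC V) {s : L} (hs : V.valuation s < 1)
    (hs0 : V.valuation s ≠ 0) (c : L) (hc : c ∈ Ct s) (hc0 : c ≠ 0) :
    ∃ m : ℤ, V.valuation c = V.valuation s ^ m := by
  rw [IntermediateField.mem_adjoin_simple_iff] at hc
  obtain ⟨r, q, rfl⟩ := hc
  have hr : r ≠ 0 := by rintro rfl; simp at hc0
  have hq : q ≠ 0 := by rintro rfl; simp at hc0
  obtain ⟨m, hm⟩ := v_aeval hV hs r hr
  obtain ⟨n, hn⟩ := v_aeval hV hs q hq
  refine ⟨(m : ℤ) - n, ?_⟩
  rw [map_div₀, hm, hn, zpow_sub₀ hs0]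
  simp

/-- The value of an algebraic element. -/
theorem v_alg {V : ValuationSubring L} (hV : OverC V) {s : L} (hs : V.valuation s < 1)
    (hs0 : V.valuation s ≠ 0) (b : L) (hb : b ≠ 0) (halg : IsAlgebraic (Ct s) b) :
    ∃ n : ℕ, 1 ≤ n ∧ n ≤ (minpoly (Ct s) b).natDegree ∧ ∃ k : ℤ,
      V.valuation b ^ n = V.valuation s ^ k := by
  have hP : minpoly (Ct s) b ≠ 0 := minpoly.ne_zero halg.isIntegral
  have h0 := minpoly.aeval (Ct s) b
  rw [aeval_eq_sum_range] at h0
  have hterm : ∀ i, (minpoly (Ct s) b).coeff i • b ^ i ≠ 0 → (minpoly (Ct s) b).coeff i ≠ 0 := by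
    intro i hi h
    rw [h, zero_smul] at hi
    exact hi rfl
  have hne : ∃ i ∈ Finset.range ((minpoly (Ct s) b).natDegree + 1),
      (minpoly (Ct s) b).coeff i • b ^ i ≠ 0 := by
    refine ⟨(minpoly (Ct s) b).natDegree, Finset.mem_range.mpr (Nat.lt_succ_self _), ?_⟩
    rw [Algebra.smul_def]
    apply mul_ne_zero _ (pow_ne_zero _ hb)
    rw [coeff_natDegree]
    change ((minpoly (Ct s) b).leadingCoeff : L) ≠ 0
    rw [ne_eq, ZeroMemClass.coe_eq_zero]
    exact leadingCoeff_ne_zero.mpr hP
  obtain ⟨i, hi, j, hj, hij, hfi, hfj, heq⟩ := exists_eq_of_sum V _ _ h0 hne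
  have key : ∀ i j : ℕ, i ≤ (minpoly (Ct s) b).natDegree → j ≤ (minpoly (Ct s) b).natDegree →
      i < j → (minpoly (Ct s) b).coeff i ≠ 0 → (minpoly (Ct s) b).coeff j ≠ 0 →
      V.valuation ((minpoly (Ct s) b).coeff i • b ^ i) =
        V.valuation ((minpoly (Ct s) b).coeff j • b ^ j) →
      ∃ n : ℕ, 1 ≤ n ∧ n ≤ (minpoly (Ct s) b).natDegree ∧ ∃ k : ℤ,
      V.valuation b ^ n = V.valuation s ^ k := by
    intro i j hi hj hij hci hcj heq
    refine ⟨j - i, by omega, by omega, ?_⟩
    obtain ⟨m, hm⟩ := v_Ct hV hs hs0 ((minpoly (Ct s) b).coeff i : L)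
      ((minpoly (Ct s) b).coeff i).2 (by simpa using hci)
    obtain ⟨n, hn⟩ := v_Ct hV hs hs0 ((minpoly (Ct s) b).coeff j : L)
      ((minpoly (Ct s) b).coeff j).2 (by simpa using hcj)
    refine ⟨m - n, ?_⟩
    rw [Algebra.smul_def, Algebra.smul_def, map_mul, map_mul, map_pow, map_pow] at heq
    change V.valuation ((minpoly (Ct s) b).coeff i : L) * _ =
      V.valuation ((minpoly (Ct s) b).coeff j : L) * _ at heq
    rw [hm, hn] at heq
    have hb0 : V.valuation b ≠ 0 := (Valuation.ne_zero_iff _).mpr hb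
    rw [zpow_sub₀ hs0, eq_div_iff (zpow_ne_zero _ hs0)]
    have hji : V.valuation b ^ j = V.valuation b ^ (j - i) * V.valuation b ^ i := by
      rw [← pow_add, Nat.sub_add_cancel hij.le]
    rw [hji] at heq
    have hbi : V.valuation b ^ i ≠ 0 := pow_ne_zero _ hb0
    apply mul_right_cancel₀ hbi
    rw [heq, mul_comm (V.valuation b ^ (j - i)), mul_assoc]
  rw [Finset.mem_range] at hi hj
  rcases lt_or_gt_of_ne hij with h | h
  · exact key i j (by omega) (by omega) h (hterm i hfi) (hterm j hfj) heq
  · exact key j i (by omega) (by omega) h (hterm j hfj) (hterm i hfi) heq.symm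


/-- Values of polynomials in an element all of whose translates are units. -/
theorem one_le_v_aeval {V : ValuationSubring L} (hV : OverC V) {b : L}
    (hb : ∀ c : ℂ, 1 ≤ V.valuation (b - algebraMap ℂ L c)) (g : ℂ[X]) (hg : g ≠ 0) :
    1 ≤ V.valuation (aeval b g) := by
  have hsp := (IsAlgClosed.splits g).eq_prod_roots
  have h1 : aeval b g = algebraMap ℂ L g.leadingCoeff *
      (g.roots.map (fun a => b - algebraMap ℂ L a)).prod := by
    conv_lhs => rw [hsp]
    rw [map_mul, aeval_C, map_multiset_prod, Multiset.map_map]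
    congr 3
    ext a
    simp
  rw [h1, map_mul, v_const hV (leadingCoeff_ne_zero.mpr hg), one_mul]
  induction g.roots using Multiset.induction_on with
  | empty => simp
  | cons a m ih =>
    rw [Multiset.map_cons, Multiset.prod_cons, map_mul]
    exact one_le_mul (hb a) ih

/-- The residue field of `V` is `ℂ`. -/
theorem residue {V : ValuationSubring L} (hV : OverC V) {s : L} (hst : Transcendental ℂ s)
    (hs : V.valuation s < 1) (hs0 : V.valuation s ≠ 0) {b : L} (halg : IsAlgebraic (Ct s) b)
    (hb : V.valuation b ≤ 1) : ∃ c : ℂ, V.valuation (b - algebraMap ℂ L c) < 1 := by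
  by_contra hcon
  push Not at hcon
  have hbt : Transcendental ℂ b := by
    rintro ⟨p, hp0, hp⟩
    have := one_le_v_aeval hV hcon p hp0
    rw [hp, map_zero] at this
    exact absurd this (by simp)
  have h2 : IsAlgebraic (Algebra.adjoin ℂ {s}) b := by
    exact IntermediateField.isAlgebraic_adjoin_iff.mp halg
  obtain ⟨p, hp0, hp⟩ := IsAlgebraic.adjoin_singleton hst hbt h2
  rw [aeval_eq_sum_range] at hp
  have hunit : ∀ j, p.coeff j ≠ 0 → V.valuation (p.coeff j : L) = 1 := by
    intro j hj
    obtain ⟨g, hg⟩ := Algebra.adjoin_mem_exists_aeval _ _ (p.coeff j).2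
    have hg0 : g ≠ 0 := by
      rintro rfl
      rw [map_zero] at hg
      exact hj (by ext; simpa using hg.symm)
    rw [← hg]
    exact le_antisymm (v_aeval_le hV hb g) (one_le_v_aeval hV hcon g hg0)
  have hterm : ∀ j, p.coeff j ≠ 0 → V.valuation (p.coeff j • (algebraMap L L) s ^ j) = V.valuation s ^ j := by
    intro j hj
    rw [Algebra.smul_def, map_mul]
    change V.valuation (p.coeff j : L) * _ = _
    rw [hunit j hj, one_mul, map_pow]
    rfl
  have hterm0 : ∀ j, p.coeff j • (algebraMap L L) s ^ j ≠ 0 → p.coeff j ≠ 0 := by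
    intro j hj h
    rw [h, zero_smul] at hj
    exact hj rfl
  obtain ⟨i, _, j, _, hij, hi, hj, heq⟩ := exists_eq_of_sum V _ _ hp ⟨p.natDegree,
    Finset.mem_range.mpr (Nat.lt_succ_self _), by
      intro h
      have h3 : p.coeff p.natDegree ≠ 0 := by
        rw [coeff_natDegree]; exact leadingCoeff_ne_zero.mpr hp0
      have := hterm _ h3
      rw [h, map_zero] at this
      exact pow_ne_zero _ hs0 this.symm⟩
  rw [hterm i (hterm0 i hi), hterm j (hterm0 j hj)] at heq
  exact hij (pow_right_injective₀ (zero_lt_iff.mpr hs0) hs.ne heq)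


open scoped IntermediateField.algebraAdjoinAdjoin

/-- Derivatives of finitely many elements are bounded. -/
theorem bounded_finset {V : ValuationSubring L} (hV : OverC V) {s : L}
    (hs : V.valuation s < 1) (hs0 : V.valuation s ≠ 0) (hal : Algebra.IsAlgebraic (Ct s) L)
    (T : Finset L) : ∃ (M : V.ValueGroup) (n N : ℕ), 1 ≤ n ∧ 1 ≤ M ∧
      M ^ n * V.valuation s ^ N ≤ 1 ∧ ∀ w ∈ T, V.valuation w ≤ M := by
  classical
  induction T using Finset.induction_on with
  | empty => exact ⟨1, 1, 0, le_rfl, le_rfl, by simp, by simp⟩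
  | insert w T _ ih =>
    obtain ⟨M, n, N, hn, hM1, hM, hT⟩ := ih
    by_cases hw : V.valuation w ≤ M
    · refine ⟨M, n, N, hn, hM1, hM, ?_⟩
      intro z hz
      rw [Finset.mem_insert] at hz
      rcases hz with rfl | hz
      · exact hw
      · exact hT z hz
    · push Not at hw
      have hw0 : w ≠ 0 := by
        rintro rfl
        rw [map_zero] at hw
        exact absurd hw (by simp)
      obtain ⟨n', hn', _, k, hk⟩ := v_alg hV hs hs0 w hw0 (hal.isAlgebraic w)
      refine ⟨V.valuation w, n', k.natAbs, hn', hM1.trans hw.le, ?_, ?_⟩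
      · rw [hk, ← zpow_natCast, ← zpow_add₀ hs0]
        have h1 : (0 : ℤ) ≤ k + (k.natAbs : ℤ) := by omega
        obtain ⟨r, hr⟩ := Int.eq_ofNat_of_zero_le h1
        rw [hr, zpow_natCast]
        exact pow_le_one' hs.le _
      · intro z hz
        rw [Finset.mem_insert] at hz
        rcases hz with rfl | hz
        · exact le_rfl
        · exact (hT z hz).trans hw.le

theorem bounded {V : ValuationSubring L} (hV : OverC V) {s : L} (hst : Transcendental ℂ s)
    (hs : V.valuation s < 1) (hs0 : V.valuation s ≠ 0) (hal : Algebra.IsAlgebraic (Ct s) L)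
    (δ : Derivation ℂ L L) (hδ : δ s = s)
    (E : IntermediateField (Ct s) L) [FiniteDimensional (Ct s) E] :
    ∃ (M : V.ValueGroup) (n N : ℕ), 1 ≤ n ∧ M ^ n * V.valuation s ^ N ≤ 1 ∧
      ∀ u ∈ E, V.valuation u ≤ 1 → V.valuation (δ u) ≤ M := by
  let A := Algebra.adjoin ℂ {s}
  have hAV : ∀ a : A, V.valuation (algebraMap A L a) ≤ 1 := by
    intro a
    obtain ⟨g, hg⟩ := Algebra.adjoin_mem_exists_aeval _ _ a.2
    change V.valuation (a : L) ≤ 1
    rw [← hg]
    exact v_aeval_le hV hs.le g
  have hAδ : ∀ a : A, V.valuation (δ (algebraMap A L a)) ≤ 1 := by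
    intro a
    obtain ⟨g, hg⟩ := Algebra.adjoin_mem_exists_aeval _ _ a.2
    change V.valuation (δ (a : L)) ≤ 1
    rw [← hg, Derivation.map_aeval, hδ, smul_eq_mul, map_mul]
    exact mul_le_one' (v_aeval_le hV hs.le _) hs.le
  have : IsPrincipalIdealRing A := IsPrincipalIdealRing.of_surjective
    (Polynomial.algEquivOfTranscendental ℂ s hst).toRingEquiv.toRingHom
    (Polynomial.algEquivOfTranscendental ℂ s hst).toRingEquiv.surjective
  have : IsDedekindDomain A := inferInstance
  have : IsDedekindDomain (integralClosure A E) := integralClosure.isDedekindDomain A (Ct s) E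
  have : IsFractionRing (integralClosure A E) E :=
    integralClosure.isFractionRing_of_finite_extension (Ct s) E
  have : Module.Finite A (integralClosure A E) := IsIntegralClosure.finite A (Ct s) E _
  obtain ⟨S, hS⟩ := (Module.Finite.fg_top : (⊤ : Submodule A (integralClosure A E)).FG)
  classical
  obtain ⟨M, n, N, hn, hM1, hMN, hT⟩ := bounded_finset hV hs hs0 hal
    (S.image (fun w : integralClosure A E => δ ((w : E) : L)))
  have : IsScalarTower A E L := IsScalarTower.of_algebraMap_eq (fun _ => rfl)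
  have hO : ∀ b : integralClosure A E, V.valuation ((b : E) : L) ≤ 1 := by
    intro b
    apply v_le_one_of_integral V.valuation hAV
    exact b.2.map (IsScalarTower.toAlgHom A E L)
  have hOδ : ∀ b : integralClosure A E, V.valuation (δ ((b : E) : L)) ≤ M := by
    intro b
    have hb : b ∈ Submodule.span A (S : Set (integralClosure A E)) := by rw [hS]; trivial
    induction hb using Submodule.span_induction with
    | mem x hx => exact hT _ (Finset.mem_image_of_mem (fun w : integralClosure A E => δ ((w : E) : L)) hx)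
    | zero => simp
    | add x y _ _ hx hy =>
      have : (((x + y : integralClosure A E) : E) : L) = ((x : E) : L) + ((y : E) : L) := rfl
      rw [this, map_add]
      exact V.valuation.map_add_le hx hy
    | smul a x _ hx =>
      have : (((a • x : integralClosure A E) : E) : L) = (a : L) * ((x : E) : L) := rfl
      rw [this, Derivation.leibniz, smul_eq_mul, smul_eq_mul]
      apply V.valuation.map_add_le
      · rw [map_mul]
        calc V.valuation (a : L) * V.valuation (δ ((x : E) : L)) ≤ 1 * M :=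
              mul_le_mul' (hAV a) hx
          _ = M := one_mul M
      · rw [map_mul]
        exact (mul_le_one' (hO x) (hAδ a)).trans hM1
  refine ⟨M, n, N, hn, hMN, ?_⟩
  intro u hu hu1
  obtain ⟨b, c, hc, hbc⟩ := frac_form (O := integralClosure A E) (E := E)
    (V.valuation.comap (algebraMap E L)) (fun b => hO b)
    ⟨algebraMap A (integralClosure A E) ⟨s, Algebra.self_mem_adjoin_singleton ℂ s⟩, by
      intro h
      have h1 : s = 0 := congrArg (fun z : integralClosure A E => ((z : E) : L)) h
      rw [h1, map_zero] at hs0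
      exact hs0 rfl, hs⟩ ⟨u, hu⟩ hu1
  have h1 : u = ((b : E) : L) / ((c : E) : L) := congrArg (algebraMap E L) hbc
  have hc1 : V.valuation ((c : E) : L) = 1 := hc
  have hc0 : ((c : E) : L) ≠ 0 := by
    intro h
    rw [h, map_zero] at hc1
    exact zero_ne_one hc1
  have h2 : δ u = (((c : E) : L) * δ ((b : E) : L) - ((b : E) : L) * δ ((c : E) : L)) / ((c : E) : L) ^ 2 := by
    rw [h1, Derivation.leibniz_div, smul_eq_mul, smul_eq_mul, smul_eq_mul]
    field_simp
  rw [h2, map_div₀, map_pow, hc1, one_pow, div_one]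
  apply V.valuation.map_sub_le
  · rw [map_mul, hc1, one_mul]
    exact hOδ b
  · rw [map_mul]
    calc V.valuation ((b : E) : L) * V.valuation (δ ((c : E) : L)) ≤ 1 * M :=
          mul_le_mul' (hO b) (hOδ c)
      _ = M := one_mul M


theorem v_int_le {V : ValuationSubring L} (hV : OverC V) (k : ℤ) : V.valuation (k : L) ≤ 1 := by
  have : ((k : L)) = algebraMap ℂ L (k : ℂ) := by simp
  rw [this]
  exact v_const_le hV _

theorem key {V : ValuationSubring L} (hV : OverC V) {s : L} (hs0 : V.valuation s ≠ 0)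
    (δ : Derivation ℂ L L) (hδ : δ s = s) (b : L) (n : ℕ) (hn : 1 ≤ n) (k : ℤ)
    (h : V.valuation b ^ n = V.valuation s ^ k) :
    V.valuation (b ^ n * s ^ (-k)) = 1 ∧
      V.valuation (δ b) = V.valuation b *
        V.valuation (δ (b ^ n * s ^ (-k)) + (k : L) * (b ^ n * s ^ (-k))) := by
  have hs1 : s ≠ 0 := (Valuation.ne_zero_iff _).mp hs0
  have hu : V.valuation (b ^ n * s ^ (-k)) = 1 := by
    rw [map_mul, map_pow, map_zpow₀, h, ← zpow_add₀ hs0]
    simp
  refine ⟨hu, ?_⟩
  have h1 : (n : L) * (b ^ n * s ^ (-k)) * δ b =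
      b * (δ (b ^ n * s ^ (-k)) + (k : L) * (b ^ n * s ^ (-k))) := by
    have h2 : δ (s ^ (-k)) = -(k : L) * s ^ (-k) := by
      rw [Derivation.leibniz_zpow, hδ]
      rw [smul_eq_mul, zsmul_eq_mul]
      rw [zpow_sub_one₀ hs1]
      push_cast
      field_simp
    have h3 : δ (b ^ n) = (n : L) * b ^ (n - 1) * δ b := by
      rw [Derivation.leibniz_pow]
      simp [mul_assoc]
    have h4 : b ^ n = b ^ (n - 1) * b := by
      rw [← pow_succ, Nat.sub_add_cancel hn]
    rw [Derivation.leibniz, smul_eq_mul, smul_eq_mul, h2, h3, h4]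
    ring
  have hn1 : V.valuation (n : L) = 1 := by
    have : ((n : L)) = algebraMap ℂ L (n : ℂ) := by simp
    rw [this]
    exact v_const hV (by exact_mod_cast (by omega : n ≠ 0))
  have h5 := congrArg V.valuation h1
  rw [map_mul, map_mul, hn1, hu, one_mul, one_mul, map_mul] at h5
  exact h5


/-- One step of the expansion. -/
theorem step {V : ValuationSubring L} (hV : OverC V) {s : L} (hst : Transcendental ℂ s)
    (hs : V.valuation s < 1) (hs0 : V.valuation s ≠ 0) (hal : Algebra.IsAlgebraic (Ct s) L)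
    (δ : Derivation ℂ L L) (hδ : δ s = s)
    (E : IntermediateField (Ct s) L) [FiniteDimensional (Ct s) E]
    (a : L) (haE : a ∈ E) (ha1 : V.valuation a ≤ 1) (hda : 1 < V.valuation (δ a)) :
    ∃ u ∈ E, V.valuation u ≤ 1 ∧ 1 < V.valuation (δ u) ∧
      V.valuation (δ a) ^ (Module.finrank (Ct s) E) ≤
        V.valuation s * V.valuation (δ u) ^ (Module.finrank (Ct s) E) := by
  obtain ⟨c, hc⟩ := residue hV hst hs hs0 (hal.isAlgebraic a) ha1
  have hδb : δ (a - algebraMap ℂ L c) = δ a := by
    rw [map_sub, Derivation.map_algebraMap, sub_zero]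
  have hbE : a - algebraMap ℂ L c ∈ E := by
    apply E.sub_mem haE
    exact E.algebraMap_mem (algebraMap ℂ (Ct s) c)
  generalize hbdef : a - algebraMap ℂ L c = b at hc hδb hbE
  have hb0 : b ≠ 0 := by
    rintro rfl
    rw [map_zero] at hδb
    rw [← hδb, map_zero] at hda
    exact absurd hda (by simp)
  obtain ⟨n, hn1, hnd, k, hk⟩ := v_alg hV hs hs0 b hb0 (hal.isAlgebraic b)
  have hnd' : n ≤ Module.finrank (Ct s) E := by
    refine hnd.trans ?_
    have h1 : minpoly (Ct s) b = minpoly (Ct s) (⟨b, hbE⟩ : E) :=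
      (IntermediateField.minpoly_eq (⟨b, hbE⟩ : E)).symm
    rw [h1]
    exact minpoly.natDegree_le _
  have hk1 : 1 ≤ k := by
    by_contra hlt
    push Not at hlt
    have h1 : V.valuation b ^ n < 1 := pow_lt_one₀ zero_le hc (by omega)
    rw [hk] at h1
    have h2 : (1 : V.ValueGroup) ≤ V.valuation s ^ k := by
      obtain ⟨r, hr⟩ := Int.eq_ofNat_of_zero_le (show (0 : ℤ) ≤ -k by omega)
      have h3 : k = -(r : ℤ) := by
        have : -k = (r : ℤ) := hr
        omega
      rw [h3, zpow_neg, zpow_natCast]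
      rw [one_le_inv₀ (pow_pos (zero_lt_iff.mpr hs0) _)]
      exact pow_le_one' hs.le _
    exact absurd (h1.trans_le h2) (lt_irrefl _)
  have hbd : V.valuation b ^ (Module.finrank (Ct s) E) ≤ V.valuation s := by
    calc V.valuation b ^ (Module.finrank (Ct s) E) ≤ V.valuation b ^ n :=
          pow_le_pow_right_of_le_one' hc.le hnd'
      _ = V.valuation s ^ k := hk
      _ ≤ V.valuation s := by
          obtain ⟨r, hr⟩ := Int.eq_ofNat_of_zero_le (show (0 : ℤ) ≤ k - 1 by omega)
          have h3 : k = ((r + 1 : ℕ) : ℤ) := by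
            have : k - 1 = (r : ℤ) := hr
            push_cast
            omega
          rw [h3, zpow_natCast, pow_succ]
          exact mul_le_of_le_one_left' (pow_le_one' hs.le _)
  obtain ⟨hu1, hkey⟩ := key hV hs0 δ hδ b n hn1 k hk
  have hsE : s ∈ E := E.algebraMap_mem (⟨s, IntermediateField.mem_adjoin_simple_self ℂ s⟩ : Ct s)
  have huE : b ^ n * s ^ (-k) ∈ E := mul_mem (pow_mem hbE n) (zpow_mem hsE (-k))
  generalize b ^ n * s ^ (-k) = u at hu1 hkey huE
  have hku : V.valuation ((k : L) * u) ≤ 1 := by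
    rw [map_mul, hu1, mul_one]
    exact v_int_le hV k
  have hgt : 1 < V.valuation (δ u) := by
    by_contra hle
    push Not at hle
    have h1 : V.valuation (δ u + (k : L) * u) ≤ 1 := V.valuation.map_add_le hle hku
    rw [← hδb, hkey] at hda
    exact absurd (hda.trans_le (mul_le_one' hc.le h1)) (lt_irrefl _)
  refine ⟨u, huE, hu1.le, hgt, ?_⟩
  have h1 : V.valuation (δ u + (k : L) * u) ≤ V.valuation (δ u) :=
    V.valuation.map_add_le le_rfl (hku.trans hgt.le)
  rw [← hδb, hkey, mul_pow]
  exact mul_le_mul' hbd (pow_le_pow_left' h1 _)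

theorem iterate {V : ValuationSubring L} (hV : OverC V) {s : L} (hst : Transcendental ℂ s)
    (hs : V.valuation s < 1) (hs0 : V.valuation s ≠ 0) (hal : Algebra.IsAlgebraic (Ct s) L)
    (δ : Derivation ℂ L L) (hδ : δ s = s)
    (E : IntermediateField (Ct s) L) [FiniteDimensional (Ct s) E]
    (a : L) (haE : a ∈ E) (ha1 : V.valuation a ≤ 1) (hda : 1 < V.valuation (δ a)) (j : ℕ) :
    ∃ u ∈ E, V.valuation u ≤ 1 ∧ 1 < V.valuation (δ u) ∧
      V.valuation (δ a) ^ (Module.finrank (Ct s) E) ≤
        V.valuation s ^ j * V.valuation (δ u) ^ (Module.finrank (Ct s) E) := by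
  induction j with
  | zero => exact ⟨a, haE, ha1, hda, by simp⟩
  | succ j ih =>
    obtain ⟨u, huE, hu1, hdu, hle⟩ := ih
    obtain ⟨w, hwE, hw1, hdw, hle'⟩ := step hV hst hs hs0 hal δ hδ E u huE hu1 hdu
    refine ⟨w, hwE, hw1, hdw, hle.trans ?_⟩
    rw [pow_succ, mul_assoc]
    exact mul_le_mul_right hle' _

/-- `δ` preserves the valuation ring. -/
theorem preserves {V : ValuationSubring L} (hV : OverC V) {s : L} (hst : Transcendental ℂ s)
    (hs : V.valuation s < 1) (hs0 : V.valuation s ≠ 0) (hal : Algebra.IsAlgebraic (Ct s) L)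
    (δ : Derivation ℂ L L) (hδ : δ s = s) (a : L) (ha1 : V.valuation a ≤ 1) :
    V.valuation (δ a) ≤ 1 := by
  by_contra hda
  push Not at hda
  let E : IntermediateField (Ct s) L := IntermediateField.adjoin (Ct s) {a}
  have haE : a ∈ E := IntermediateField.mem_adjoin_simple_self _ a
  have : FiniteDimensional (Ct s) E :=
    IntermediateField.adjoin.finiteDimensional (hal.isAlgebraic a).isIntegral
  obtain ⟨M, n, N, hn, hM, hbd⟩ := bounded hV hst hs hs0 hal δ hδ E
  obtain ⟨u, huE, hu1, _, hle⟩ := iterate hV hst hs hs0 hal δ hδ E a haE ha1 hda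
    (N * Module.finrank (Ct s) E)
  have hd : Module.finrank (Ct s) E ≠ 0 := Module.finrank_pos.ne'
  generalize Module.finrank (Ct s) E = d at hle hd
  have h1 : 1 < (V.valuation (δ a) ^ d) ^ n := by
    apply one_lt_pow₀ (one_lt_pow₀ hda hd) (by omega)
  have h2 : (V.valuation (δ a) ^ d) ^ n ≤ 1 := by
    calc (V.valuation (δ a) ^ d) ^ n
        ≤ (V.valuation s ^ (N * d) * V.valuation (δ u) ^ d) ^ n := pow_le_pow_left' hle n
      _ ≤ (V.valuation s ^ (N * d) * M ^ d) ^ n :=
          pow_le_pow_left' (mul_le_mul_right (pow_le_pow_left' (hbd u huE hu1) d) _) n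
      _ = ((V.valuation s ^ N) ^ (n - 1) * (M ^ n * V.valuation s ^ N)) ^ d := by
          have h3 : V.valuation s ^ (N * d * n) =
              ((V.valuation s ^ N) ^ (n - 1) * V.valuation s ^ N) ^ d := by
            rw [← pow_succ, Nat.sub_add_cancel hn, ← pow_mul, ← pow_mul]
            congr 1
            ring
          have h4 : (M ^ d) ^ n = (M ^ n) ^ d := by rw [← pow_mul, ← pow_mul, mul_comm]
          rw [mul_pow, ← pow_mul, h3, h4, ← mul_pow]
          congr 1
          rw [mul_assoc, mul_comm (M ^ n)]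
      _ ≤ 1 := by
          apply pow_le_one'
          apply mul_le_one' _ hM
          exact pow_le_one' (pow_le_one' hs.le _) _
  exact absurd (h1.trans_le h2) (lt_irrefl _)

end LL

/-- LL. -/
theorem specLL : SpecLL := by
  intro L _ _ s δ hst hal hδ V hV hsm a haV
  rw [LL.inM_iff] at hsm ⊢
  rw [LL.mem_iff] at haV
  have hs00 : s ≠ 0 := by
    rintro rfl
    exact hst isAlgebraic_zero
  have hs0 : V.valuation s ≠ 0 := (Valuation.ne_zero_iff _).mpr hs00
  obtain ⟨c, hc⟩ := LL.residue hV hst hsm hs0 (hal.isAlgebraic a) haV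
  have hδb : δ (a - algebraMap ℂ L c) = δ a := by
    rw [map_sub, Derivation.map_algebraMap, sub_zero]
  generalize hbdef : a - algebraMap ℂ L c = b at hc hδb
  rw [← hδb]
  by_cases hb0 : b = 0
  · rw [hb0, map_zero, map_zero]
    exact zero_lt_one
  obtain ⟨n, hn1, _, k, hk⟩ := LL.v_alg hV hsm hs0 b hb0 (hal.isAlgebraic b)
  obtain ⟨hu1, hkey⟩ := LL.key hV hs0 δ hδ b n hn1 k hk
  rw [hkey]
  refine mul_lt_one_of_lt_of_le hc ?_
  apply V.valuation.map_add_le
  · exact LL.preserves hV hst hsm hs0 hal δ hδ _ hu1.le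
  · rw [map_mul, hu1, mul_one]
    exact LL.v_int_le hV k

end MP743d1e
end

section
/-!
# TRACE: traces of regular differentials
-/
namespace MP743d1e

open Polynomial

namespace Trace

section Val

variable {L : Type} [Field L] [Algebra ℂ L]

omit [Algebra ℂ L] in
theorem inM_iff (V : ValuationSubring L) (a : L) : InM V a ↔ V.valuation a < 1 := by
  unfold InM
  by_cases ha : a = 0
  · simp [ha]
  · have h1 : a⁻¹ ∈ V ↔ V.valuation a⁻¹ ≤ 1 := (V.valuation_le_one_iff _).symm
    have h2 : 0 < V.valuation a := zero_lt_iff.mpr ((Valuation.ne_zero_iff _).mpr ha)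
    rw [h1, map_inv₀, not_le, one_lt_inv₀ h2]
    simp [ha]

theorem val_const_le {V : ValuationSubring L} (hV : OverC V) (c : ℂ) :
    V.valuation (algebraMap ℂ L c) ≤ 1 := (V.valuation_le_one_iff _).mpr (hV c)

theorem val_const {V : ValuationSubring L} (hV : OverC V) {c : ℂ} (hc : c ≠ 0) :
    V.valuation (algebraMap ℂ L c) = 1 := by
  apply le_antisymm (val_const_le hV c)
  have h1 := val_const_le hV c⁻¹
  have h2 : V.valuation (algebraMap ℂ L c) * V.valuation (algebraMap ℂ L c⁻¹) = 1 := by
    rw [← map_mul, ← map_mul, mul_inv_cancel₀ hc, map_one, map_one]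
  by_contra hlt
  rw [not_le] at hlt
  have h3 : V.valuation (algebraMap ℂ L c) * V.valuation (algebraMap ℂ L c⁻¹) < 1 :=
    lt_of_le_of_lt (mul_le_mul_right h1 _) (by rwa [mul_one])
  exact absurd h2 (ne_of_lt h3)

theorem aeval_mem {V : ValuationSubring L} (hV : OverC V) {t : L} (ht : t ∈ V) (p : ℂ[X]) :
    aeval t p ∈ V := by
  induction p using Polynomial.induction_on' with
  | add p q hp hq => rw [map_add]; exact V.add_mem _ _ hp hq
  | monomial n a =>
    rw [aeval_monomial]
    exact V.mul_mem _ _ (hV a) (V.toSubring.pow_mem ht n)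

/-- a polynomial that does not vanish at `c` is a unit where `t - c` is small -/
theorem val_aeval_eq_one {V : ValuationSubring L} (hV : OverC V) {t : L} (ht : t ∈ V) {c : ℂ}
    (hs : V.valuation (t - algebraMap ℂ L c) < 1) {p : ℂ[X]} (hp : p.eval c ≠ 0) :
    V.valuation (aeval t p) = 1 := by
  obtain ⟨p1, hp1⟩ : ∃ p1 : ℂ[X], p = (X - C c) * p1 + C (p.eval c) := by
    have h0 : (X - C c) ∣ p - C (p.eval c) := by
      rw [dvd_iff_isRoot]
      simp
    obtain ⟨p1, h1⟩ := h0
    exact ⟨p1, by rw [← h1]; ring⟩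
  have h2 : aeval t p = (t - algebraMap ℂ L c) * aeval t p1 + algebraMap ℂ L (p.eval c) := by
    conv_lhs => rw [hp1]
    simp
  have h3 : V.valuation ((t - algebraMap ℂ L c) * aeval t p1) <
      V.valuation (algebraMap ℂ L (p.eval c)) := by
    rw [val_const hV hp, map_mul]
    have h4 : V.valuation (aeval t p1) ≤ 1 := (V.valuation_le_one_iff _).mpr (aeval_mem hV ht p1)
    calc V.valuation (t - algebraMap ℂ L c) * V.valuation (aeval t p1)
        ≤ V.valuation (t - algebraMap ℂ L c) * 1 := mul_le_mul_right h4 _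
      _ < 1 := by rwa [mul_one]
  rw [h2, Valuation.map_add_eq_of_lt_right _ h3, val_const hV hp]

/-- a nonzero polynomial is not small where `t` is large -/
theorem one_le_val_aeval {V : ValuationSubring L} (hV : OverC V) {t : L}
    (ht : 1 < V.valuation t) : ∀ (n : ℕ) (p : ℂ[X]), p.natDegree = n → p ≠ 0 →
      1 ≤ V.valuation (aeval t p) := by
  intro n
  induction n with
  | zero =>
    intro p hn hp
    rw [natDegree_eq_zero] at hn
    obtain ⟨a, rfl⟩ := hn
    have ha : a ≠ 0 := by
      rintro rfl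
      exact hp (by simp)
    rw [aeval_C, val_const hV ha]
  | succ n ih =>
    intro p hn hp
    have h1 : p.divX.natDegree = n := by rw [natDegree_divX_eq_natDegree_tsub_one, hn]; rfl
    have h2 : p.divX ≠ 0 := by
      intro h0
      have := divX_mul_X_add p
      rw [h0, zero_mul, zero_add] at this
      rw [← this, natDegree_C] at hn
      omega
    have h3 := ih p.divX h1 h2
    have h4 : aeval t p = aeval t p.divX * t + algebraMap ℂ L (p.coeff 0) := by
      conv_lhs => rw [← divX_mul_X_add p]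
      simp
    have h5 : 1 < V.valuation (aeval t p.divX * t) := by
      rw [map_mul]
      calc (1 : _) < V.valuation t := ht
        _ = 1 * V.valuation t := (one_mul _).symm
        _ ≤ V.valuation (aeval t p.divX) * V.valuation t := mul_le_mul_left h3 _
    have h6 : V.valuation (algebraMap ℂ L (p.coeff 0)) < V.valuation (aeval t p.divX * t) :=
      lt_of_le_of_lt (val_const_le hV _) h5
    rw [h4, Valuation.map_add_eq_of_lt_left _ h6]
    exact h5.le

/-- existence of valuation rings -/
theorem exists_V (s : L) (hs : Transcendental ℂ s) :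
    ∃ V : ValuationSubring L, OverC V ∧ V.valuation s < 1 := by
  let A : Subring L := (Algebra.adjoin ℂ {s}).toSubring
  have hsA : s ∈ A := Algebra.subset_adjoin (Set.mem_singleton s)
  let I : Ideal A := Ideal.span {(⟨s, hsA⟩ : A)}
  have hI : I ≠ ⊤ := by
    intro h
    rw [Ideal.eq_top_iff_one, Ideal.mem_span_singleton] at h
    obtain ⟨⟨b, hb⟩, h⟩ := h
    have h1 : (1 : L) = s * b := congrArg Subtype.val h
    have hb' : b ∈ Algebra.adjoin ℂ {s} := hb
    rw [Algebra.adjoin_singleton_eq_range_aeval] at hb'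
    obtain ⟨p, rfl⟩ := hb'
    have h2 : aeval s (X * p - 1 : ℂ[X]) = 0 := by
      rw [map_sub, map_mul, aeval_X, map_one]
      exact sub_eq_zero.mpr h1.symm
    have h3 : (X * p - 1 : ℂ[X]) = 0 := by
      by_contra hne
      exact hs ⟨_, hne, h2⟩
    have h4 := congrArg (Polynomial.eval 0) h3
    simp at h4
  obtain ⟨V, hV, hIV⟩ := Ideal.image_subset_nonunits_valuationSubring I hI
  refine ⟨V, fun c => hV ((Algebra.adjoin ℂ {s}).algebraMap_mem c), ?_⟩
  have : s ∈ V.nonunits := hIV ⟨⟨s, hsA⟩, Ideal.subset_span rfl, rfl⟩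
  exact (ValuationSubring.mem_nonunits_iff V).mp this

/-- the key step: a logarithmic derivation makes the closure small -/
theorem closure_small (hLL : SpecLL) (s u : L) (δ : Derivation ℂ L L) (hs : Transcendental ℂ s)
    (halg : Algebra.IsAlgebraic (Ct s) L) (hu : u * δ s = s) (V : ValuationSubring L)
    (hV : OverC V) (hsV : V.valuation s < 1) (h : L)
    (hh : h ∈ AddSubgroup.closure {η : L | ∃ b ∈ V, ∃ a ∈ V, η = b * δ a}) :
    V.valuation (u * h) < 1 := by
  have h1 : (u • δ : Derivation ℂ L L) s = s := by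
    rw [Derivation.smul_apply, smul_eq_mul]; exact hu
  have h2 := hLL L s (u • δ) hs halg h1 V hV ((inM_iff V s).mpr hsV)
  induction hh using AddSubgroup.closure_induction with
  | mem x hx =>
    obtain ⟨b, hb, a, ha, rfl⟩ := hx
    have h3 := (inM_iff V _).mp (h2 a ha)
    rw [Derivation.smul_apply, smul_eq_mul] at h3
    have h4 : V.valuation b ≤ 1 := (V.valuation_le_one_iff _).mpr hb
    calc V.valuation (u * (b * δ a)) = V.valuation b * V.valuation (u * δ a) := by
          rw [← map_mul]; congr 1; ring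
      _ ≤ 1 * V.valuation (u * δ a) := mul_le_mul_left h4 _
      _ < 1 := by rwa [one_mul]
  | zero => simp
  | add x y _ _ hx hy =>
    rw [mul_add]
    exact Valuation.map_add_lt _ hx hy
  | neg x _ hx =>
    rw [mul_neg, Valuation.map_neg]
    exact hx

end Val

section Tr

variable {K : Type} [Field K] [Algebra ℂ K] {t : K} {L : Type} [Field L] [Algebra ℂ L]
  [Algebra K L] [IsScalarTower ℂ K L]

/-- `L` is algebraic over `ℂ(t)` -/
theorem algebraic_Ct (hK : Algebra.IsAlgebraic (Ct t) K) (hL : Algebra.IsAlgebraic K L) (s : L)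
    (hs : algebraMap K L t ∈ Ct s) : Algebra.IsAlgebraic (Ct s) L := by
  have hle : ∀ z : Ct t, algebraMap K L (z : K) ∈ Ct s := by
    have : (Ct t).map (IsScalarTower.toAlgHom ℂ K L) ≤ Ct s := by
      rw [IntermediateField.adjoin_map]
      rw [IntermediateField.adjoin_le_iff]
      rintro _ ⟨_, rfl, rfl⟩
      exact hs
    intro z
    exact this ⟨z, z.2, rfl⟩
  let φ : Ct t →+* Ct s := (((algebraMap K L).comp (algebraMap (Ct t) K)).codRestrict
    (Ct s).toSubring hle)
  have hL' : Algebra.IsAlgebraic (Ct t) L := Algebra.IsAlgebraic.trans (Ct t) K L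
  constructor
  intro x
  obtain ⟨p, hp, hpx⟩ := hL'.isAlgebraic x
  refine ⟨p.map φ, ?_, ?_⟩
  · rwa [Ne, Polynomial.map_eq_zero]
  · rw [aeval_def, eval₂_map]
    rw [aeval_def] at hpx
    exact hpx

/-- the set of traces -/
theorem trace_mem [FiniteDimensional (Ct t) K] [IsAlgClosed L] (δ : Derivation ℂ K K)
    (δL : Derivation ℂ L L) (hder : ∀ σ : K →ₐ[ℂ] L, σ t = algebraMap K L t →
      ∀ f : K, δL (σ f) = σ (δ f)) (f : K) (V : ValuationSubring L)
    (h : ∀ σ : K →ₐ[Ct t] L, RegD δ (V.comap (σ : K →+* L)) f) :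
    algebraMap (Ct t) L (Algebra.trace (Ct t) K f) ∈
      AddSubgroup.closure {η : L | ∃ b ∈ V, ∃ a ∈ V, η = b * δL a} := by
  rw [trace_eq_sum_embeddings L]
  apply AddSubgroup.sum_mem
  intro σ _
  have hσt : σ t = algebraMap K L t :=
    σ.commutes (⟨t, IntermediateField.mem_adjoin_simple_self ℂ t⟩ : Ct t)
  have h1 := hder (σ.restrictScalars ℂ) hσt
  have h2 := h σ
  unfold RegD at h2
  clear h
  induction h2 using AddSubgroup.closure_induction with
  | mem x hx =>
    obtain ⟨b, hb, a, ha, rfl⟩ := hx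
    apply AddSubgroup.subset_closure
    refine ⟨σ b, hb, σ a, ha, ?_⟩
    rw [map_mul]
    congr 1
    exact (h1 a).symm
  | zero => rw [map_zero]; exact AddSubgroup.zero_mem _
  | add x y _ _ hx hy => rw [map_add]; exact AddSubgroup.add_mem _ hx hy
  | neg x _ hx => rw [map_neg]; exact AddSubgroup.neg_mem _ hx

end Tr

end Trace

/-- TRACE -/
theorem specTrace (hLL : SpecLL) (hDer : SpecDer) : SpecTrace := by
  intro K _ _ t δ ht hfin hδ f
  let L := AlgebraicClosure K
  have hKalg : Algebra.IsAlgebraic (Ct t) K := Algebra.IsAlgebraic.of_finite _ _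
  have hLalg : Algebra.IsAlgebraic K L := AlgebraicClosure.isAlgebraic K
  set T : L := algebraMap K L t with hT
  have hTtr : Transcendental ℂ T := by
    rw [hT]
    exact (transcendental_algebraMap_iff (algebraMap K L).injective).mpr ht
  have hTalg : Algebra.IsAlgebraic (Ct T) L :=
    Trace.algebraic_Ct hKalg hLalg T (IntermediateField.mem_adjoin_simple_self ℂ T)
  obtain ⟨δL, hδL⟩ := (hDer L T hTtr hTalg).1
  have hder : ∀ σ : K →ₐ[ℂ] L, σ t = algebraMap K L t → ∀ g : K, δL (σ g) = σ (δ g) := by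
    intro σ hσ g
    rw [(hDer K t ht hKalg).2 L σ δ δL hδ g, hσ, ← hT, hδL, one_mul]
  have hσt : ∀ σ : K →ₐ[Ct t] L, σ t = T := fun σ =>
    σ.commutes (⟨t, IntermediateField.mem_adjoin_simple_self ℂ t⟩ : Ct t)
  have hcomap : ∀ (V : ValuationSubring L), OverC V → ∀ σ : K →ₐ[Ct t] L,
      OverC (V.comap (σ : K →+* L)) := by
    intro V hV σ c
    rw [ValuationSubring.mem_comap]
    have : (σ : K →+* L) (algebraMap ℂ K c) = algebraMap ℂ L c := (σ.restrictScalars ℂ).commutes c
    rw [this]
    exact hV c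
  -- the trace as a rational function
  let φ : RatFunc ℂ ≃ₐ[ℂ] Ct t := RatFunc.algEquivOfTranscendental t ht
  have hφ : ∀ p : ℂ[X], ((φ (algebraMap ℂ[X] (RatFunc ℂ) p) : Ct t) : K) = aeval t p := by
    intro p
    simp only [φ, RatFunc.algEquivOfTranscendental_algebraMap]
    exact (aeval_algHom_apply (Ct t).val (IntermediateField.AdjoinSimple.gen ℂ t) p).symm
  set h : Ct t := Algebra.trace (Ct t) K f with hh
  obtain ⟨p, q, hpq, hq, hhpq⟩ : ∃ p q : ℂ[X], IsCoprime p q ∧ q ≠ 0 ∧
      (h : K) * aeval t q = aeval t p := by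
    refine ⟨(φ.symm h).num, (φ.symm h).denom, RatFunc.isCoprime_num_denom _,
      RatFunc.denom_ne_zero _, ?_⟩
    rw [← hφ, ← hφ]
    have h1 : h = φ (φ.symm h) := (φ.apply_symm_apply h).symm
    have h2 := RatFunc.num_div_denom (φ.symm h)
    rw [div_eq_iff (RatFunc.algebraMap_ne_zero (RatFunc.denom_ne_zero _))] at h2
    rw [h2, map_mul, ← h1]
    rfl
  have hpqL : algebraMap K L (h : K) * aeval T q = aeval T p := by
    have := congrArg (algebraMap K L) hhpq
    rwa [map_mul, ← aeval_algebraMap_apply, ← aeval_algebraMap_apply, ← hT] at this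
  have key : (∀ V : ValuationSubring K, OverC V → t ∈ V → RegD δ V f) →
      ∃ p : ℂ[X], (h : K) = aeval t p := by
    intro hf
    by_cases hdeg : q.degree = 0
    · obtain ⟨d, hd, rfl⟩ : ∃ d : ℂ, d ≠ 0 ∧ q = C d := by
        have h1 := eq_C_of_degree_eq_zero hdeg
        refine ⟨q.coeff 0, ?_, h1⟩
        intro h0
        rw [h0, C_0] at h1
        exact hq h1
      refine ⟨C d⁻¹ * p, ?_⟩
      rw [map_mul, aeval_C, ← hhpq, aeval_C, mul_comm (h : K), ← mul_assoc, ← map_mul,
        inv_mul_cancel₀ hd, map_one, one_mul]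
    · exfalso
      obtain ⟨c, hc⟩ := IsAlgClosed.exists_root q hdeg
      obtain ⟨q1, hq1⟩ := dvd_iff_isRoot.mpr hc
      have hpc : p.eval c ≠ 0 := by
        intro h0
        obtain ⟨a, b, hab⟩ := hpq
        have := congrArg (eval c) hab
        rw [eval_add, eval_mul, eval_mul, h0, IsRoot.def.mp hc] at this
        simp at this
      set s : L := T - algebraMap ℂ L c with hs
      have hstr : Transcendental ℂ s := by
        intro h0
        apply hTtr
        have : T = s + algebraMap ℂ L c := by rw [hs]; ring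
        rw [this]
        exact h0.add (isAlgebraic_algebraMap c)
      have hTs : T ∈ Ct s := by
        have : T = s + algebraMap ℂ L c := by rw [hs]; ring
        rw [this]
        exact (Ct s).add_mem (IntermediateField.mem_adjoin_simple_self ℂ s)
          ((Ct s).algebraMap_mem c)
      obtain ⟨V, hV, hsV⟩ := Trace.exists_V s hstr
      have hsV' : s ∈ V := (V.valuation_le_one_iff _).mp hsV.le
      have hTV : T ∈ V := by
        have : T = s + algebraMap ℂ L c := by rw [hs]; ring
        rw [this]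
        exact V.add_mem _ _ hsV' (hV c)
      have h1 := Trace.trace_mem δ δL hder f V (fun σ => hf _ (hcomap V hV σ) (by
        rw [ValuationSubring.mem_comap]
        have : (σ : K →+* L) t = T := hσt σ
        rw [this]
        exact hTV))
      have h2 : s * δL s = s := by
        rw [hs, map_sub, hδL, Derivation.map_algebraMap, sub_zero, mul_one]
      have h3 := Trace.closure_small hLL s s δL hstr
        (Trace.algebraic_Ct hKalg hLalg s hTs) h2 V hV hsV _ h1
      have h4 : s * algebraMap K L (h : K) * aeval T q1 = aeval T p := by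
        rw [← hpqL, hq1, map_mul, map_sub, aeval_X, aeval_C, ← hs]
        ring
      have h5 := Trace.val_aeval_eq_one hV hTV hsV hpc
      have h6 : V.valuation (aeval T q1) ≤ 1 :=
        (V.valuation_le_one_iff _).mpr (Trace.aeval_mem hV hTV q1)
      rw [← h4, map_mul] at h5
      have h7 : V.valuation (s * algebraMap K L (h : K)) * V.valuation (aeval T q1) < 1 :=
        lt_of_le_of_lt (mul_le_mul_right h6 _) (by rwa [mul_one])
      exact absurd h5 (ne_of_lt h7)
  refine ⟨key, ?_⟩
  intro hreg
  obtain ⟨P, hP⟩ := key (fun V hV _ => hreg V hV)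
  by_contra hne
  have hP0 : P ≠ 0 := by
    rintro rfl
    apply hne
    apply Subtype.ext
    rw [hP, map_zero]
    rfl
  have hT0 : T ≠ 0 := by
    intro h0
    exact hTtr (h0 ▸ isAlgebraic_zero)
  have hstr : Transcendental ℂ T⁻¹ := by
    intro h0
    exact hTtr (inv_inv T ▸ h0.inv)
  have hTs : T ∈ Ct T⁻¹ := by
    have := (Ct T⁻¹).inv_mem (IntermediateField.mem_adjoin_simple_self ℂ T⁻¹)
    rwa [inv_inv] at this
  obtain ⟨V, hV, hsV⟩ := Trace.exists_V T⁻¹ hstr
  have hTV : 1 < V.valuation T := by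
    have h2 : 0 < V.valuation T := zero_lt_iff.mpr ((Valuation.ne_zero_iff _).mpr hT0)
    rw [map_inv₀] at hsV
    exact (inv_lt_one₀ h2).mp hsV
  have h1 := Trace.trace_mem δ δL hder f V (fun σ => hreg _ (hcomap V hV σ))
  have h2 : (-T) * δL T⁻¹ = T⁻¹ := by
    rw [Derivation.leibniz_inv, hδL, smul_eq_mul, mul_one, neg_mul_neg, pow_two, ← mul_assoc,
      mul_inv_cancel₀ hT0, one_mul]
  have h3 := Trace.closure_small hLL T⁻¹ (-T) δL hstr
    (Trace.algebraic_Ct hKalg hLalg _ hTs) h2 V hV hsV _ h1
  have h4 : algebraMap (Ct t) L (Algebra.trace (Ct t) K f) = aeval T P := by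
    rw [hT, aeval_algebraMap_apply, ← hP]
    rfl
  rw [h4, neg_mul, Valuation.map_neg, map_mul] at h3
  have h5 := Trace.one_le_val_aeval hV hTV _ P rfl hP0
  have h6 : 1 < V.valuation T * V.valuation (aeval T P) :=
    calc (1 : _) < V.valuation T := hTV
      _ = V.valuation T * 1 := (mul_one _).symm
      _ ≤ V.valuation T * V.valuation (aeval T P) := mul_le_mul_right h5 _
  exact absurd h3 (not_lt.mpr h6.le)

end MP743d1e
end
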